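import Pool.Agent.AT.Defs
import Pool.Agent.RS.Count
import Pool.Agent.RS.Gram

/-! AT/Pr1.  Prime powers, number of families, size of the weights. -/

namespace Pool.Agent.AT

open Finset Pool.Agent.RS

/-- `∑ Λ(m)` over `P < m ≤ 4P`, `m ≡ r` modulo `M` -/
noncomputable def psi (M r P : ℕ) : ℝ :=
  ∑ m ∈ (Ioc P (4 * P)).filter (fun m => m ≡ r [MOD M]), ArithmeticFunction.vonMangoldt m

/-- proper prime powers.  PLAN: `Λ m ≠ 0`, `m` not prime: `m = q^k`, `k ≥ 2`, `q ≤ 2√P`, `Λ m ≤ log(4P)`,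
and for each `q` at most `Nat.log 2 (4P)` exponents. -/
theorem pp_err {P : ℕ} (hP : 2 ≤ P) :
    ∑ m ∈ (Ioc P (4 * P)).filter (fun m => ¬ m.Prime), ArithmeticFunction.vonMangoldt m ≤
      10 * √P * Real.log (4 * P) ^ 2 := by
  have hP' : (2 : ℝ) ≤ (P : ℝ) := by exact_mod_cast hP
  have hfl : ⌊(4 * (P : ℝ))⌋₊ = 4 * P := by
    have : (4 * (P : ℝ)) = ((4 * P : ℕ) : ℝ) := by push_cast; ring
    rw [this, Nat.floor_natCast]
  have h1 : ∑ m ∈ (Ioc P (4 * P)).filter (fun m => ¬ m.Prime),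
      ArithmeticFunction.vonMangoldt m ≤ Chebyshev.psi (4 * (P : ℝ)) -
        Chebyshev.theta (4 * (P : ℝ)) := by
    rw [Chebyshev.psi_sub_theta_eq_sum_not_prime, hfl]
    refine sum_le_sum_of_subset_of_nonneg ?_
      fun _ _ _ => ArithmeticFunction.vonMangoldt_nonneg
    refine filter_subset_filter _ ?_
    exact Ioc_subset_Ioc_left (Nat.zero_le _)
  have h2 := Chebyshev.psi_sub_theta_le (x := 4 * (P : ℝ)) (by linarith)
  have h3 : √(4 * (P : ℝ)) = 2 * √P := by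
    rw [Real.sqrt_mul (by norm_num), show (4 : ℝ) = 2 ^ 2 by norm_num,
      Real.sqrt_sq (by norm_num)]
  have h4 : 1 ≤ Real.log (4 * P) := by
    have h5 : Real.log (Real.exp 1) ≤ Real.log (4 * (P : ℝ)) := by
      refine Real.log_le_log (Real.exp_pos 1) ?_
      have := Real.exp_one_lt_three
      linarith
    rwa [Real.log_exp] at h5
  rw [h3] at h2
  have h5 : 0 ≤ √(P : ℝ) := Real.sqrt_nonneg _
  have h6 : √(P : ℝ) * Real.log (4 * P) ≤ √(P : ℝ) * Real.log (4 * P) ^ 2 := by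
    refine mul_le_mul_of_nonneg_left ?_ h5
    nlinarith
  have h7 : 0 ≤ √(P : ℝ) * Real.log (4 * P) ^ 2 := by positivity
  nlinarith [h1, h2, h6, h7]

variable {ι κ : Type} [Fintype ι] [DecidableEq ι] [DecidableEq κ] [Fintype κ]

omit [DecidableEq ι] [Fintype ι] in
private theorem sub_of_prod {p : ι → ℕ} (hp : ∀ i, (p i).Prime) (hinj : Function.Injective p)
    {S T : Finset ι} (h : ∏ i ∈ S, p i = ∏ i ∈ T, p i) : S ⊆ T := by
  intro i hi
  have h1 : p i ∣ ∏ i ∈ T, p i := h ▸ dvd_prod_of_mem _ hi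
  obtain ⟨j, hj, hd⟩ := ((hp i).prime.dvd_finsetProd_iff p).1 h1
  have h2 : p i = p j := (Nat.prime_dvd_prime_iff_eq (hp i) (hp j)).1 hd
  rw [hinj h2]
  exact hj

private theorem card_char {q : ℕ} (hq : q.Prime) :
    Fintype.card (DirichletCharacter ℂ q) ≤ q := by
  have : NeZero q := ⟨hq.ne_zero⟩
  have h := DirichletCharacter.card_eq_totient_of_hasEnoughRootsOfUnity ℂ q
  rw [← Nat.card_eq_fintype_card, h]
  exact Nat.totient_le q

open Classical in
private theorem card_fiber {p : ι → ℕ} (hp : ∀ i, (p i).Prime) (hinj : Function.Injective p)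
    (D : ℝ) (f : ℕ) :
    (((univ : Finset (Fam p)).filter (fun χ => (fcd χ : ℝ) ≤ D)).filter
      (fun χ => fcd χ = f)).card ≤ f := by
  rcases (((univ : Finset (Fam p)).filter (fun χ => (fcd χ : ℝ) ≤ D)).filter
      (fun χ => fcd χ = f)).eq_empty_or_nonempty with h | ⟨χ0, h0⟩
  · rw [h, card_empty]
    exact Nat.zero_le _
  · have hf : fcd χ0 = f := (mem_filter.1 h0).2
    have hsub : ∀ χ : Fam p, fcd χ = f → fsupp χ = fsupp χ0 := by
      intro χ hχ
      have h1 : ∏ i ∈ fsupp χ, p i = ∏ i ∈ fsupp χ0, p i := by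
        have h2 := hχ.trans hf.symm
        simpa [fcd] using h2
      exact Subset.antisymm (sub_of_prod hp hinj h1) (sub_of_prod hp hinj h1.symm)
    have hcard : (((univ : Finset (Fam p)).filter (fun χ => (fcd χ : ℝ) ≤ D)).filter
        (fun χ => fcd χ = f)).card ≤
        (univ : Finset ((i : {i // i ∈ fsupp χ0}) → DirichletCharacter ℂ (p i.1))).card := by
      refine card_le_card_of_injOn (fun χ i => χ i.1) (fun _ _ => mem_coe.2 (mem_univ _)) ?_
      intro χ hχ χ' hχ' he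
      have e1 := hsub χ (mem_filter.1 (mem_coe.1 hχ)).2
      have e2 := hsub χ' (mem_filter.1 (mem_coe.1 hχ')).2
      funext i
      by_cases hi : i ∈ fsupp χ0
      · exact congrFun he ⟨i, hi⟩
      · have n1 : i ∉ fsupp χ := by rwa [e1]
        have n2 : i ∉ fsupp χ' := by rwa [e2]
        simp only [fsupp, mem_filter, mem_univ, true_and, not_not] at n1 n2
        rw [n1, n2]
    refine hcard.trans ?_
    rw [card_univ, Fintype.card_pi]
    calc ∏ i : {i // i ∈ fsupp χ0}, Fintype.card (DirichletCharacter ℂ (p i.1))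
        ≤ ∏ i : {i // i ∈ fsupp χ0}, p i.1 :=
          prod_le_prod' fun i _ => card_char (hp i.1)
      _ = ∏ i ∈ fsupp χ0, p i := prod_coe_sort (fsupp χ0) p
      _ = f := hf

open Classical in
/-- number of families of small conductor.  PLAN: a family with `fsupp χ = S` and `∏_S p i = f` : at
most `∏_{S}(p i) = f` families (a character modulo the prime `p i` takes `φ(p i)` values), and `S` is
determined by `f` (`p` injective, primes); so the number is `≤ ∑_{f ≤ D} f ≤ D^2`. -/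
theorem card_fam {p : ι → ℕ} (hp : ∀ i, (p i).Prime) (hinj : Function.Injective p) {D : ℝ}
    (hD : 1 ≤ D) :
    (((univ : Finset (Fam p)).filter (fun χ => (fcd χ : ℝ) ≤ D)).card : ℝ) ≤ 2 * D ^ 2 := by
  have h1 : ((univ : Finset (Fam p)).filter (fun χ => (fcd χ : ℝ) ≤ D)).card ≤
      (⌊D⌋₊ + 1) * ⌊D⌋₊ := by
    rw [card_eq_sum_card_fiberwise (f := fun χ : Fam p => fcd χ) (t := range (⌊D⌋₊ + 1))]
    · calc ∑ f ∈ range (⌊D⌋₊ + 1), (((univ : Finset (Fam p)).filter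
            (fun χ => (fcd χ : ℝ) ≤ D)).filter (fun χ => fcd χ = f)).card
          ≤ ∑ f ∈ range (⌊D⌋₊ + 1), ⌊D⌋₊ := by
            refine sum_le_sum fun f hf => (card_fiber hp hinj D f).trans ?_
            exact Nat.lt_succ_iff.1 (mem_range.1 hf)
        _ = (⌊D⌋₊ + 1) * ⌊D⌋₊ := by
            rw [sum_const, card_range, smul_eq_mul]
    · intro χ hχ
      have h2 := (mem_filter.1 (mem_coe.1 hχ)).2
      exact mem_coe.2 (mem_range.2 (Nat.lt_succ_iff.2 (Nat.le_floor h2)))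
  have h2 : (⌊D⌋₊ : ℝ) ≤ D := Nat.floor_le (by linarith)
  have h3 : (0 : ℝ) ≤ (⌊D⌋₊ : ℝ) := Nat.cast_nonneg _
  have h4 : (((univ : Finset (Fam p)).filter (fun χ => (fcd χ : ℝ) ≤ D)).card : ℝ) ≤
      ((⌊D⌋₊ : ℝ) + 1) * ⌊D⌋₊ := by exact_mod_cast h1
  nlinarith

/-- a weight of level `D` is bounded.  PLAN: `abs_EE_le`, `count_le`. -/
theorem weight_sup {p : ι → ℕ} (hp : ∀ i, 2 ≤ p i)
    (hk : ∑ i, (Fintype.card κ : ℝ) / (p i : ℝ) ^ 2 ≤ 1 / 2) (a : κ → ℤ) {D : ℝ} (hD : 0 ≤ D)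
    {Y : (ι → Option κ) → ℝ} (hY1 : ∀ σ, |Y σ| ≤ 1) (hYs : ∀ σ, Y σ ≠ 0 → PP p (supp σ) ≤ D)
    (n : ℤ) : |∑ σ : ι → Option κ, Y σ * EE p a σ n| ≤ 2 * D ^ 2 := by
  classical
  have h1 : ∀ σ : ι → Option κ, |Y σ * EE p a σ n| ≤
      if PP p (supp σ) ≤ D then 1 else 0 := by
    intro σ
    split_ifs with h
    · rw [abs_mul]
      exact mul_le_one₀ (hY1 σ) (abs_nonneg _) (abs_EE_le hp a σ n)
    · have : Y σ = 0 := by
        by_contra hne
        exact h (hYs σ hne)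
      rw [this, zero_mul, abs_zero]
  calc |∑ σ : ι → Option κ, Y σ * EE p a σ n| ≤ ∑ σ : ι → Option κ, |Y σ * EE p a σ n| :=
        abs_sum_le_sum_abs _ _
    _ ≤ ∑ σ : ι → Option κ, if PP p (supp σ) ≤ D then (1 : ℝ) else 0 :=
        sum_le_sum fun σ _ => h1 σ
    _ = (((univ : Finset (ι → Option κ)).filter (fun σ => PP p (supp σ) ≤ D)).card : ℝ) := by
        rw [sum_boole]
    _ ≤ 2 * D ^ 2 := by
        have := count_le hp hk hD
        refine le_trans (le_of_eq ?_) this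
        congr

end Pool.Agent.AT
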