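import Pool.Agent.AT.Par
import Pool.Agent.AT.Pr1

/-! AT/En.  Statements of the ENGINE (the proofs are in the modules E0, E1, E2, E3). -/

namespace Pool.Agent.AT

open Finset Pool.Agent.RS

open Classical in
/-- total mass -/
def SE0 : Prop := ∃ P0 : ℕ, ∀ P : ℕ, P0 ≤ P → ∀ (L M H : ℕ) (R : Finset ℕ), Adm P L M H R → ∀ b : ℕ,
  ∑ n ∈ Nw P H M b, gx L R (n : ℤ) ^ 2 ≤ 7 * ((P : ℝ) / M) * Zx L R

open Classical in
/-- lower bound for the weighted number of primes `n + j` -/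
def SE1 : Prop := ∃ P0 : ℕ, ∀ P : ℕ, P0 ≤ P → ∀ (L M H : ℕ) (R : Finset ℕ), Adm P L M H R →
  ∀ b j : ℕ, j < H → j ∉ R → Nat.Coprime (b + j) M →
  4 / 5 * Zx L R * psi M (b + j) P - Zx L R * ((P : ℝ) / M) / L ≤
    2 * Real.log P * ∑ n ∈ (Nw P H M b).filter (fun n => (n + j).Prime), gx L R (n : ℤ) ^ 2

open Classical in
/-- upper bound for the weighted number of pairs of primes -/
def SE2 : Prop := ∃ C : ℝ, 0 < C ∧ ∃ P0 : ℕ, ∀ P : ℕ, P0 ≤ P → ∀ (L M H : ℕ) (R : Finset ℕ),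
  Adm P L M H R → ∀ b j j' : ℕ, j < H → j' < H → j ≠ j' → j ∉ R → j' ∉ R →
  ∑ n ∈ (Nw P H M b).filter (fun n => (n + j).Prime ∧ (n + j').Prime), gx L R (n : ℤ) ^ 2 ≤
    C * ((P : ℝ) / M) * ((Nat.log 2 L : ℝ) / L) ^ 2 * Zx L R

open Classical in
/-- the killed elements -/
def SE3 : Prop := ∃ P0 : ℕ, ∀ P : ℕ, P0 ≤ P → ∀ (L M H : ℕ) (R : Finset ℕ), Adm P L M H R → ∀ b : ℕ,
  ∑ n ∈ (Nw P H M b).filter (fun n => ∃ j ∈ R, (n + j).Prime), gx L R (n : ℤ) ^ 2 ≤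
    ((P : ℝ) / M) / L * Zx L R

/-- Brun-Titchmarsh for the moduli without large prime factors -/
def SBT : Prop := ∃ C : ℝ, 0 < C ∧ ∃ P0 : ℕ, ∀ P : ℕ, P0 ≤ P → ∀ L M r : ℕ, L = Nat.log 2 P → 0 < M →
  (∀ q : ℕ, q.Prime → L ^ 6 < q → Nat.Coprime M q) → (M : ℝ) ≤ (P : ℝ) ^ (1 / 1000 : ℝ) →
  psi M r P ≤ C * ((P : ℝ) / M) * (Nat.log 2 L : ℝ)

end Pool.Agent.AT
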