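import Pool.Agent.AT.Par

/-! AT/ParA.  Elementary facts on the primes `px L` (compare `RS/CoreD`). -/

namespace Pool.Agent.AT

open Finset Pool.Agent.RS

theorem px_prime {L : ℕ} (i : Ix L) : (px L i).Prime := by
  exact (Finset.mem_filter.1 (Finset.mem_sdiff.1 i.2).1).2


theorem px_gt {L : ℕ} (i : Ix L) : L ^ 6 < px L i := by
  by_contra h
  have h1 := Finset.mem_sdiff.1 i.2
  exact h1.2 (Finset.mem_filter.2 ⟨h1.1, Or.inl (not_lt.1 h)⟩)


theorem px_le {L : ℕ} (i : Ix L) : px L i ≤ 2 ^ dd L := by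
  exact (Finset.mem_Icc.1 (Finset.mem_filter.1 (Finset.mem_sdiff.1 i.2).1).1).2


theorem px_inj (L : ℕ) : Function.Injective (px L) := by
  exact Subtype.val_injective


theorem px_coprime {L : ℕ} (i j : Ix L) (h : i ≠ j) : Nat.Coprime (px L i) (px L j) := by
  exact (Nat.coprime_primes (px_prime i) (px_prime j)).2 (fun e => h (px_inj L e))


/-- two different integers of `[0, L^2)` are different modulo `px L i` -/
theorem px_not_dvd {L : ℕ} (hL : 2 ≤ L) (i : Ix L) {j j' : ℕ} (hj : j < L ^ 2) (hj' : j' < L ^ 2)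
    (h : j ≠ j') : ¬ (px L i : ℤ) ∣ -(j : ℤ) - -(j' : ℤ) := by
  intro hd
  have h1 := px_gt i
  have h2 : L ^ 2 ≤ L ^ 6 := Nat.pow_le_pow_right (by omega) (by norm_num)
  have h3 : |-(j : ℤ) - -(j' : ℤ)| < (px L i : ℤ) := by
    rw [abs_lt]
    constructor <;> omega
  have h4 := Int.eq_zero_of_abs_lt_dvd hd h3
  omega


/-- PLAN: `sum_inv_sq` of RS/Prm bounds `∑ 1/q^2` by `1/L^6`, and `1/(q-1)^2 ≤ 4/q^2`;
`4/L^6 ≤ 1/L^5`. -/
theorem px_sum_sq {L : ℕ} (hL : 4 ≤ L) : ∑ i : Ix L, 1 / ((px L i : ℝ) - 1) ^ 2 ≤ 1 / (L : ℝ) ^ 5 := by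
  have h1 : ∀ i : Ix L, 1 / ((px L i : ℝ) - 1) ^ 2 ≤ 4 * (1 / (px L i : ℝ) ^ 2) := by
    intro i
    have h2 : (2 : ℝ) ≤ (px L i : ℝ) := by exact_mod_cast (px_prime i).two_le
    rw [mul_one_div, div_le_div_iff₀ (by nlinarith) (by nlinarith)]
    nlinarith
  refine (Finset.sum_le_sum (fun i _ => h1 i)).trans ?_
  rw [← Finset.mul_sum]
  have h3 : ∑ i : Ix L, 1 / (px L i : ℝ) ^ 2 =
      ∑ q ∈ prz (2 ^ dd L) \ excl L ∅ (2 ^ dd L), 1 / (q : ℝ) ^ 2 :=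
    Finset.sum_coe_sort (prz (2 ^ dd L) \ excl L ∅ (2 ^ dd L)) (fun q => 1 / (q : ℝ) ^ 2)
  rw [h3]
  refine (mul_le_mul_of_nonneg_left (sum_inv_sq hL ∅ (2 ^ dd L)) (by norm_num)).trans ?_
  have hLr : (4 : ℝ) ≤ L := by exact_mod_cast hL
  have hL5 : (0 : ℝ) < (L : ℝ) ^ 5 := by positivity
  rw [mul_one_div, div_le_div_iff₀ (by positivity) hL5]
  have h6 : (L : ℝ) ^ 6 = L * (L : ℝ) ^ 5 := by ring
  rw [h6, one_mul]
  exact mul_le_mul_of_nonneg_right hLr hL5.le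


/-- PLAN: `2 ^ S.card ≤ PP S ≤ 2 ^ L` gives `S.card ≤ L`, and every term is `≤ 1/L^6`. -/
theorem px_sum {L : ℕ} (hL : 1 ≤ L) (S : Finset (Ix L)) (hS : PP (px L) S ≤ 2 ^ L) :
    ∑ i ∈ S, 1 / ((px L i : ℝ) - 1) ≤ 1 / (L : ℝ) ^ 5 := by
  have hLr : (1 : ℝ) ≤ L := by exact_mod_cast hL
  have h0 : S.card ≤ L := by
    have h1 : (2 : ℝ) ^ S.card ≤ PP (px L) S := by
      unfold PP
      rw [← Finset.prod_const]
      exact Finset.prod_le_prod (fun _ _ => by norm_num)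
        (fun i _ => by exact_mod_cast (px_prime i).two_le)
    have h2 : (2 : ℝ) ^ S.card ≤ 2 ^ L := h1.trans hS
    exact (pow_le_pow_iff_right₀ (by norm_num : (1 : ℝ) < 2)).1 h2
  have hL6 : (0 : ℝ) < (L : ℝ) ^ 6 := by positivity
  have h3 : ∀ i ∈ S, 1 / ((px L i : ℝ) - 1) ≤ 1 / (L : ℝ) ^ 6 := by
    intro i _
    have h4 : (L : ℝ) ^ 6 + 1 ≤ (px L i : ℝ) := by
      have : L ^ 6 + 1 ≤ px L i := px_gt i
      exact_mod_cast this
    exact one_div_le_one_div_of_le hL6 (by linarith)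
  refine (Finset.sum_le_sum h3).trans ?_
  rw [Finset.sum_const, nsmul_eq_mul]
  have h5 : (S.card : ℝ) ≤ L := by exact_mod_cast h0
  calc (S.card : ℝ) * (1 / (L : ℝ) ^ 6) ≤ L * (1 / (L : ℝ) ^ 6) :=
        mul_le_mul_of_nonneg_right h5 (by positivity)
    _ = 1 / (L : ℝ) ^ 5 := by
        have : (L : ℝ) ≠ 0 := by positivity
        field_simp


/-- `10 k/(q-1) ≤ q^(-3/4)` for `k ≤ L`.  PLAN: `q - 1 ≥ q/2`, `20 L ≤ q^(1/4)` as `q > L^6`, `L ≥ 400`. -/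
theorem px_quarter {L : ℕ} (hL : 400 ≤ L) (i : Ix L) {k : ℝ} (hk : k ≤ L) :
    10 * k / ((px L i : ℝ) - 1) ≤ (px L i : ℝ) ^ (-(3 / 4) : ℝ) := by
  have hLr : (400 : ℝ) ≤ L := by exact_mod_cast hL
  have hq : (L : ℝ) ^ 6 + 1 ≤ (px L i : ℝ) := by
    have : L ^ 6 + 1 ≤ px L i := px_gt i
    exact_mod_cast this
  set q : ℝ := (px L i : ℝ) with hqdef
  have hL6 : (0 : ℝ) < (L : ℝ) ^ 6 := by positivity
  have hL61 : (1 : ℝ) ≤ (L : ℝ) ^ 6 := one_le_pow₀ (by linarith)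
  have hq0 : 0 < q := by linarith
  have hq1 : 0 < q - 1 := by linarith
  have h1 : 10 * k / (q - 1) ≤ 20 * L / q := by
    rw [div_le_div_iff₀ hq1 hq0]
    have e1 : 10 * k * q ≤ 10 * L * q := mul_le_mul_of_nonneg_right (by linarith) hq0.le
    have e2 : 10 * (L : ℝ) * q ≤ 20 * L * (q - 1) := by
      have : (0 : ℝ) ≤ 10 * L * (q - 2) := by
        apply mul_nonneg (by linarith)
        linarith
      linarith
    linarith
  refine h1.trans ?_
  have h2 : 20 * (L : ℝ) ≤ q ^ (1 / 4 : ℝ) := by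
    have h3 : ((20 * (L : ℝ)) ^ 4) ≤ q := by
      have h4 : (20 * (L : ℝ)) ^ 4 ≤ (L : ℝ) ^ 6 := by
        have h5 : (400 : ℝ) * 400 ≤ L * L := mul_le_mul hLr hLr (by norm_num) (by linarith)
        have h6 : (0 : ℝ) ≤ (L : ℝ) ^ 4 := by positivity
        calc (20 * (L : ℝ)) ^ 4 = (400 * 400) * (L : ℝ) ^ 4 := by ring
          _ ≤ (L * L) * (L : ℝ) ^ 4 := mul_le_mul_of_nonneg_right h5 h6
          _ = (L : ℝ) ^ 6 := by ring
      linarith
    have h7 : 20 * (L : ℝ) = ((20 * (L : ℝ)) ^ 4) ^ (1 / 4 : ℝ) := by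
      rw [← Real.rpow_natCast, ← Real.rpow_mul (by positivity)]
      norm_num
    rw [h7]
    exact Real.rpow_le_rpow (by positivity) h3 (by norm_num)
  calc 20 * (L : ℝ) / q ≤ q ^ (1 / 4 : ℝ) / q := div_le_div_of_nonneg_right h2 hq0.le
    _ = q ^ (-(3 / 4) : ℝ) := by
        rw [← Real.rpow_sub_one hq0.ne']
        norm_num


/-- PLAN: the assignment `fun _ => none` contributes `1` (`supp = ∅`, all cells empty, `wt_empty`). -/
theorem Zx_one_le (L : ℕ) (R : Finset ℕ) : 1 ≤ Zx L R := by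
  classical
  unfold Zx
  have hPH : ∀ σ : Ix L → Option {j : ℕ // j ∈ R}, 0 ≤ PH (px L) (supp σ) := by
    intro σ
    unfold PH
    refine Finset.prod_nonneg fun i _ => ?_
    have h2 : (2 : ℝ) ≤ (px L i : ℝ) := by exact_mod_cast (px_prime i).two_le
    linarith
  have h1 := Finset.single_le_sum
    (f := fun σ : Ix L → Option {j : ℕ // j ∈ R} => Yx L R σ ^ 2 / PH (px L) (supp σ))
    (s := Finset.univ) (fun σ _ => div_nonneg (sq_nonneg _) (hPH σ))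
    (Finset.mem_univ (fun _ : Ix L => (none : Option {j : ℕ // j ∈ R})))
  refine le_trans (le_of_eq ?_) h1
  have h2 : supp (fun _ : Ix L => (none : Option {j : ℕ // j ∈ R})) = ∅ := by
    simp [supp]
  have h3 : ∀ j, cell (fun _ : Ix L => (none : Option {j : ℕ // j ∈ R})) j = ∅ := by
    intro j
    simp [cell]
  have h4 : Yx L R (fun _ : Ix L => (none : Option {j : ℕ // j ∈ R})) = 1 := by
    unfold Yx Yd Yt yx
    rw [h2, PP_empty, if_pos (one_le_pow₀ (by norm_num))]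
    refine Finset.prod_eq_one fun j _ => ?_
    rw [h3, wt_empty]
  show 1 = Yx L R (fun _ : Ix L => (none : Option {j : ℕ // j ∈ R})) ^ 2 /
    PH (px L) (supp (fun _ : Ix L => (none : Option {j : ℕ // j ∈ R})))
  rw [h4, h2, PH_empty]
  norm_num


/-- PLAN: `Yd` is `0` or a product of `wt`'s, `wt_abs`. -/
theorem Yx_abs {L : ℕ} (hH : ∀ i, 1 ≤ H1 (px L) (2 ^ sx L) * Real.log (px L i)) (R : Finset ℕ)
    (σ : Ix L → Option {j : ℕ // j ∈ R}) : |Yx L R σ| ≤ 1 := by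
  unfold Yx Yd
  split_ifs with h
  · unfold Yt yx
    rw [Finset.abs_prod]
    refine Finset.prod_le_one (fun j _ => abs_nonneg _) fun j _ => ?_
    exact wt_abs (fun i => (px_prime i).two_le) hH _
  · rw [abs_zero]
    exact zero_le_one


theorem Yx_level {L : ℕ} {R : Finset ℕ} {σ : Ix L → Option {j : ℕ // j ∈ R}} (h : Yx L R σ ≠ 0) :
    PP (px L) (supp σ) ≤ 2 ^ dd L := by
  by_contra hc
  apply h
  unfold Yx Yd
  rw [if_neg hc]


end Pool.Agent.AT
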