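import Pool.Agent.AT.Av
import Pool.Agent.Helper24.PrimePairs

/-! AT/Sv.  Upper bound sieve for the survivors in a short interval, uniformly in the class `b`.
`residue_sieve` with `Y = ⌊E^(1/8)⌋`, `Ω p = {0}`. -/

namespace Pool.Agent.AT

open Finset
open Pool.Agent.Helper24

private theorem sv_density (Y : ℕ) :
    Real.log Y ≤ 2 * ∑ l ∈ (Icc 1 Y).filter Squarefree, hterm (fun _ => ({0} : Finset ℕ)) l := by
  have h1 := log_le_two_mul_Fsum_inv Y
  have h2 : Fsum Y (fun p => 1 / (p : ℝ)) ≤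
      Fsum Y (fun p => ((({0} : Finset ℕ).card : ℕ) : ℝ) /
        ((p : ℝ) - ((({0} : Finset ℕ).card : ℕ) : ℝ))) := by
    refine Fsum_mono _ (fun p _ _ => by positivity) fun p hp hpY => ?_
    have hp2 : (2 : ℝ) ≤ p := by exact_mod_cast hp.two_le
    rw [Finset.card_singleton, Nat.cast_one, div_le_div_iff₀ (by linarith) (by linarith)]
    linarith
  have h3 : Fsum Y (fun p => ((({0} : Finset ℕ).card : ℕ) : ℝ) /
        ((p : ℝ) - ((({0} : Finset ℕ).card : ℕ) : ℝ))) =
      ∑ l ∈ (Icc 1 Y).filter Squarefree, hterm (fun _ => ({0} : Finset ℕ)) l := rfl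
  rw [← h3]
  linarith

theorem sv : ∃ C : ℝ, 0 < C ∧ ∃ E0 : ℕ, ∀ E : ℕ, E0 ≤ E → ∀ w : ℕ, E ≤ w → ∀ b u : ℕ,
    (((Ico u (u + E)).filter (fun j => Nat.Coprime (b + j) (primorial w))).card : ℝ) ≤
      C * E / Real.log E := by
  refine ⟨40, by norm_num, 4 ^ 8, fun E hE w hEw b u => ?_⟩
  have hEn : 4 ^ 8 ≤ E := hE
  have hE4 : (4 : ℝ) ^ 8 ≤ E := by exact_mod_cast hE
  have hE0 : (0 : ℝ) < E := by
    have : (0 : ℝ) < 4 ^ 8 := by norm_num
    linarith
  set t : ℝ := (E : ℝ) ^ (1 / 8 : ℝ) with ht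
  have ht8 : t ^ 8 = E := by
    rw [ht, ← Real.rpow_natCast, ← Real.rpow_mul hE0.le]
    norm_num
  have ht4 : 4 ≤ t := by
    by_contra hcon
    push Not at hcon
    have ht0 : 0 ≤ t := Real.rpow_nonneg hE0.le _
    have : t ^ 8 < 4 ^ 8 := pow_lt_pow_left₀ hcon ht0 (by norm_num)
    linarith
  set Y : ℕ := ⌊t⌋₊ with hY
  have hYt : (Y : ℝ) ≤ t := Nat.floor_le (by linarith)
  have hYt' : t < Y + 1 := Nat.lt_floor_add_one t
  have hY1 : 1 ≤ Y := by
    have : (1 : ℝ) < Y + 1 := by linarith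
    have h2 : 0 < Y := by
      by_contra h0
      have : Y = 0 := by omega
      rw [this] at hYt'
      norm_num at hYt'
      linarith
    exact h2
  have hYE : Y ≤ E := by
    have : (Y : ℝ) ≤ E := by
      calc (Y : ℝ) ≤ t := hYt
        _ ≤ t ^ 8 := le_self_pow₀ (by linarith) (by norm_num)
        _ = E := ht8
    exact_mod_cast this
  -- the sifted set
  set J := (Ico u (u + E)).filter (fun j => Nat.Coprime (b + j) (primorial w)) with hJ
  set B := J.image (fun j => b + j) with hB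
  have hcard : B.card = J.card := Finset.card_image_of_injective _ (add_right_injective b)
  have hpr : ∀ p : ℕ, p.Prime → p ≤ w → p ∣ primorial w := by
    intro p hp hpw
    unfold primorial
    exact Finset.dvd_prod_of_mem _ (by rw [mem_filter, mem_range]; exact ⟨by omega, hp⟩)
  have hmem : ∀ m ∈ B, b + u ≤ m ∧ m < b + u + E ∧ Nat.Coprime m (primorial w) ∧ 0 < m := by
    intro m hm
    rw [hB, mem_image] at hm
    obtain ⟨j, hj, rfl⟩ := hm
    rw [hJ, mem_filter, mem_Ico] at hj
    refine ⟨by omega, by omega, hj.2, ?_⟩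
    rcases Nat.eq_zero_or_pos (b + j) with h0 | h0
    · exfalso
      have h1 := hj.2
      rw [h0, Nat.coprime_zero_left] at h1
      have h2 := hpr 2 Nat.prime_two (by omega)
      rw [h1] at h2
      have := Nat.dvd_one.mp h2
      omega
    · exact h0
  have h1 := residue_sieve (A := b + u - 1) (M := E) (Ω := fun _ => ({0} : Finset ℕ)) hY1
    (by
      intro p hp _
      refine ⟨fun c hc => ?_, ?_⟩
      · rw [mem_singleton] at hc
        rw [hc]
        exact hp.pos
      · rw [card_singleton]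
        exact hp.one_lt) B
    (by
      intro m hm
      obtain ⟨h1, h2, _, h4⟩ := hmem m hm
      rw [mem_Ioc]
      omega)
    (by
      intro m hm p hp hpY
      obtain ⟨_, _, h3, _⟩ := hmem m hm
      rw [mem_singleton]
      intro hmod
      have hd : p ∣ m := Nat.dvd_of_mod_eq_zero hmod
      have hd2 : p ∣ primorial w := hpr p hp (by omega)
      have h5 : p ∣ 1 := by
        have := Nat.dvd_gcd hd hd2
        rwa [h3] at this
      exact hp.one_lt.ne' (Nat.dvd_one.mp h5))
  have h2 := sv_density Y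
  set G := ∑ l ∈ (Icc 1 Y).filter Squarefree, hterm (fun _ => ({0} : Finset ℕ)) l with hG
  have hlogE : 0 < Real.log E := Real.log_pos (by
    have : (1 : ℝ) < 4 ^ 8 := by norm_num
    linarith)
  have hlogt : Real.log E = 8 * Real.log t := by
    rw [← ht8, Real.log_pow]
    norm_num
  -- log Y ≥ log E / 16
  have hsq : Real.sqrt t ≤ Y := by
    have h3 : Real.sqrt t ≤ t - 1 := by
      rw [Real.sqrt_le_left (by linarith)]
      nlinarith
    linarith
  have hlogY : Real.log E / 16 ≤ Real.log Y := by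
    have h3 : Real.log (Real.sqrt t) ≤ Real.log Y :=
      Real.log_le_log (Real.sqrt_pos.mpr (by linarith)) hsq
    rw [Real.log_sqrt (by linarith)] at h3
    rw [hlogt]
    linarith
  have hG0 : 0 < G := by linarith
  have h3 : (E : ℝ) / G ≤ 32 * E / Real.log E := by
    rw [div_le_div_iff₀ hG0 hlogE]
    nlinarith
  have h4 : (Y : ℝ) ^ 6 ≤ 8 * E / Real.log E := by
    rw [le_div_iff₀ hlogE, hlogt]
    have h5 : Real.log t ≤ t := by
      have := Real.log_le_sub_one_of_pos (show (0 : ℝ) < t by linarith)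
      linarith
    have h6 : (Y : ℝ) ^ 6 ≤ t ^ 6 := pow_le_pow_left₀ (Nat.cast_nonneg _) hYt 6
    have h7 : 0 ≤ Real.log t := Real.log_nonneg (by linarith)
    calc (Y : ℝ) ^ 6 * (8 * Real.log t) ≤ t ^ 6 * (8 * t) := by
          apply mul_le_mul h6 (by linarith) (by linarith) (by positivity)
      _ = 8 * (t ^ 7) := by ring
      _ ≤ 8 * t ^ 8 := by
        have : t ^ 7 ≤ t ^ 8 := pow_le_pow_right₀ (by linarith) (by norm_num)
        linarith
      _ = 8 * E := by rw [ht8]
  have h5 : (J.card : ℝ) = (B.card : ℝ) := by rw [hcard]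
  rw [h5]
  calc (B.card : ℝ) ≤ (E : ℝ) / G + (Y : ℝ) ^ 6 := h1
    _ ≤ 32 * E / Real.log E + 8 * E / Real.log E := add_le_add h3 h4
    _ = 40 * E / Real.log E := by ring

end Pool.Agent.AT
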