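import Pool.Agent.AT.AsD
import Pool.Agent.AT.En
import Pool.Agent.AT.ParA
import Pool.Agent.AT.Sv

/-! AT/As0.  Number of bad classes, number of survivors in the clusters, total mass. -/

namespace Pool.Agent.AT

open Finset

variable {K : ℕ}

/-- PLAN: Markov: `#bad * c0 L ≤ ∑_b |Rv| ≤ ∑_b |Jv| = H φ(M)` (`av1`), `Mw_totient`:
`#bad ≤ H C M/(lam c0 L) ≤ (C c/c0) M` for `H ≤ c L lam`.  (The constant `C` is absolute: it does not depend
on `c`, `K`, `u`, `E`.) -/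
theorem few_bad : ∃ C : ℝ, 0 < C ∧ ∃ L0 : ℕ, ∀ L : ℕ, L0 ≤ L → ∀ c : ℝ, 0 < c → ∀ (K H E : ℕ)
    (u : Fin K → ℕ), (H : ℝ) ≤ c * L * (Nat.log 2 L : ℝ) →
    (((range (Mw L)).filter (fun b => b ∉ Gd L (Mw L) H u E)).card : ℝ) ≤ C * c * (Mw L : ℝ) := by
  obtain ⟨C1, hC1, L1, h1⟩ := Mw_totient
  have hc0 : 0 < c0 := by
    unfold c0
    positivity
  refine ⟨C1 / c0, by positivity, max L1 2, fun L hL c hc K H E u hH => ?_⟩
  have hL1 : L1 ≤ L := le_trans (le_max_left _ _) hL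
  have hL2 : 2 ≤ L := le_trans (le_max_right _ _) hL
  have hLr : (0 : ℝ) < L := by exact_mod_cast (by omega : 0 < L)
  have hlog : (0 : ℝ) < (Nat.log 2 L : ℝ) := by
    have : 1 ≤ Nat.log 2 L := Nat.log_pos (by norm_num) hL2
    exact_mod_cast this
  have hphi := h1 L hL1
  have hM0 : (0 : ℝ) ≤ (Mw L : ℝ) := Nat.cast_nonneg _
  set B := (range (Mw L)).filter (fun b => b ∉ Gd L (Mw L) H u E) with hB
  have hbad : ∀ b ∈ B, c0 * L ≤ ((Jv (Mw L) b H).card : ℝ) := by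
    intro b hb
    obtain ⟨hb1, hb2⟩ := mem_filter.1 hb
    have h3 : ¬ (((Rv (Mw L) b H u E).card : ℝ) ≤ c0 * L) := by
      intro h4
      exact hb2 (mem_filter.2 ⟨hb1, h4⟩)
    have h5 : (Rv (Mw L) b H u E).card ≤ (Jv (Mw L) b H).card :=
      Finset.card_le_card (Finset.filter_subset _ _)
    have h6 : ((Rv (Mw L) b H u E).card : ℝ) ≤ ((Jv (Mw L) b H).card : ℝ) := by exact_mod_cast h5
    linarith [not_le.1 h3]
  have h7 : (B.card : ℝ) * (c0 * L) ≤ ∑ b ∈ range (Mw L), ((Jv (Mw L) b H).card : ℝ) := by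
    calc (B.card : ℝ) * (c0 * L) = ∑ _b ∈ B, c0 * (L : ℝ) := by
          rw [Finset.sum_const, nsmul_eq_mul]
      _ ≤ ∑ b ∈ B, ((Jv (Mw L) b H).card : ℝ) := Finset.sum_le_sum hbad
      _ ≤ ∑ b ∈ range (Mw L), ((Jv (Mw L) b H).card : ℝ) :=
          Finset.sum_le_sum_of_subset_of_nonneg (Finset.filter_subset _ _)
            (fun _ _ _ => Nat.cast_nonneg _)
  have h8 : ∑ b ∈ range (Mw L), ((Jv (Mw L) b H).card : ℝ) = (H : ℝ) * (Nat.totient (Mw L) : ℝ) := by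
    have := av1 (Mw L) H
    exact_mod_cast this
  rw [h8] at h7
  have h9 : (H : ℝ) * (Nat.totient (Mw L) : ℝ) ≤ c * L * C1 * (Mw L : ℝ) := by
    calc (H : ℝ) * (Nat.totient (Mw L) : ℝ)
        ≤ (c * L * (Nat.log 2 L : ℝ)) * (C1 * (Mw L : ℝ) / (Nat.log 2 L : ℝ)) :=
          mul_le_mul hH hphi (Nat.cast_nonneg _) (by positivity)
      _ = c * L * C1 * (Mw L : ℝ) := by
          field_simp
  have h10 : (B.card : ℝ) * (c0 * L) ≤ (C1 / c0 * c * (Mw L : ℝ)) * (c0 * L) := by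
    refine (h7.trans h9).trans (le_of_eq ?_)
    field_simp
  exact le_of_mul_le_mul_right h10 (by positivity)

/-- PLAN: `sv` with `w = L/2000 ≥ E`, `log E ≥ lam/4` for `L` large (`E + 1 ≥ ε L`); the survivors in one
cluster. -/
theorem cl_card : ∃ C : ℝ, 0 < C ∧ ∀ ε : ℝ, 0 < ε → ε ≤ 1 / 4000 → ∃ L0 : ℕ, ∀ L : ℕ, L0 ≤ L →
    ∀ b u : ℕ, (((Ico u (u + ⌊ε * L⌋₊)).filter (fun j => Nat.Coprime (b + j) (Mw L))).card : ℝ) ≤
      C * (ε * L) / (Nat.log 2 L : ℝ) := by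
  obtain ⟨C1, hC1, E0, h1⟩ := sv
  refine ⟨4 * C1, by positivity, fun ε hε hε2 => ?_⟩
  -- threshold
  obtain ⟨L1, hL1⟩ := exists_nat_ge (max (4 / ε ^ 2) (((E0 : ℝ) + 2) / ε))
  refine ⟨max L1 4000, fun L hL b u => ?_⟩
  have hLL1 : L1 ≤ L := le_trans (le_max_left _ _) hL
  have hL4 : 4000 ≤ L := le_trans (le_max_right _ _) hL
  have hLL1r : (L1 : ℝ) ≤ L := by exact_mod_cast hLL1
  have hLr : (4000 : ℝ) ≤ L := by exact_mod_cast hL4
  have hA : 4 / ε ^ 2 ≤ (L : ℝ) := (le_max_left _ _).trans (hL1.trans hLL1r)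
  have hB : ((E0 : ℝ) + 2) / ε ≤ (L : ℝ) := (le_max_right _ _).trans (hL1.trans hLL1r)
  have hB' : (E0 : ℝ) + 2 ≤ ε * L := by
    rw [div_le_iff₀ hε] at hB
    linarith
  set E := ⌊ε * L⌋₊ with hE
  have hEle : (E : ℝ) ≤ ε * L := Nat.floor_le (by positivity)
  have hElt : ε * L < (E : ℝ) + 1 := Nat.lt_floor_add_one _
  have hE0 : E0 ≤ E := by
    have : (E0 : ℝ) ≤ (E : ℝ) := by linarith
    exact_mod_cast this
  have hEw : E ≤ L / 2000 := by
    rw [Nat.le_div_iff_mul_le (by norm_num)]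
    have : (E : ℝ) * 2000 ≤ L := by nlinarith
    exact_mod_cast this
  have h2 := h1 E hE0 (L / 2000) hEw b u
  refine h2.trans ?_
  -- log E ≥ (log L)/2
  have hEhalf : ε * L / 2 ≤ (E : ℝ) := by
    have hE0' : (0 : ℝ) ≤ E0 := Nat.cast_nonneg _
    linarith
  have hsq : (L : ℝ) ≤ (E : ℝ) ^ 2 := by
    have h3 : (L : ℝ) ≤ (ε * L / 2) ^ 2 := by
      rw [div_le_iff₀ (by positivity)] at hA
      have : (ε * L / 2) ^ 2 = (L * ε ^ 2) * L / 4 := by ring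
      rw [this]
      nlinarith
    refine h3.trans ?_
    exact pow_le_pow_left₀ (by positivity) hEhalf 2
  have hEpos : (0 : ℝ) < E := by
    have : (0 : ℝ) < ε * L / 2 := by positivity
    linarith
  have hlogE : Real.log L ≤ 2 * Real.log E := by
    have h4 := Real.log_le_log (by linarith : (0 : ℝ) < L) hsq
    rw [Real.log_pow] at h4
    exact_mod_cast h4
  have hnl : (Nat.log 2 L : ℝ) ≤ 2 * Real.log L := by
    have h5 : ((2 : ℕ) ^ Nat.log 2 L : ℕ) ≤ L := Nat.pow_log_le_self 2 (by omega)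
    have h6 : (2 : ℝ) ^ Nat.log 2 L ≤ L := by exact_mod_cast h5
    have h7 := Real.log_le_log (by positivity) h6
    rw [Real.log_pow] at h7
    have h8 : (1 : ℝ) / 2 ≤ Real.log 2 := by linarith [Real.log_two_gt_d9]
    have h9 : (0 : ℝ) ≤ (Nat.log 2 L : ℝ) := Nat.cast_nonneg _
    nlinarith
  have hnlpos : (0 : ℝ) < (Nat.log 2 L : ℝ) := by
    have : 1 ≤ Nat.log 2 L := Nat.log_pos (by norm_num) (by omega)
    exact_mod_cast this
  have hlogEpos : 0 < Real.log E := by linarith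
  rw [div_le_div_iff₀ hlogEpos hnlpos]
  have h10 : (Nat.log 2 L : ℝ) ≤ 4 * Real.log E := by linarith
  calc C1 * (E : ℝ) * (Nat.log 2 L : ℝ) ≤ C1 * (ε * L) * (4 * Real.log E) := by
        apply mul_le_mul _ h10 hnlpos.le (by positivity)
        exact mul_le_mul_of_nonneg_left hEle hC1.le
    _ = 4 * C1 * (ε * L) * Real.log E := by ring

/-- PLAN: `E0` for the good classes, `Zx ≥ 1`; the number of classes is `≤ M`. -/
theorem T0 (h0 : SE0) : ∃ P0 : ℕ, ∀ P : ℕ, P0 ≤ P → ∀ L : ℕ, L = Nat.log 2 P → ∀ (K H E : ℕ)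
    (u : Fin K → ℕ), H ≤ L ^ 2 →
    ∑ b ∈ Gd L (Mw L) H u E, ∑ n ∈ Nw P H (Mw L) b, wg L (Mw L) H u E b n ≤ 7 * P := by
  obtain ⟨P0, h1⟩ := h0
  refine ⟨max P0 1, fun P hP L hL K H E u hH => ?_⟩
  have hP0 : P0 ≤ P := le_trans (le_max_left _ _) hP
  have hP1 : 1 ≤ P := le_trans (le_max_right _ _) hP
  have hM0 : (0 : ℝ) < (Mw L : ℝ) := by
    have := (Mw_facts hP1 hL).1
    exact_mod_cast this
  have h2 : ∀ b ∈ Gd L (Mw L) H u E,
      ∑ n ∈ Nw P H (Mw L) b, wg L (Mw L) H u E b n ≤ 7 * ((P : ℝ) / (Mw L : ℝ)) := by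
    intro b hb
    have hadm := adm_good hP1 hL hH hb
    have h3 := h1 P hP0 L (Mw L) H (Rv (Mw L) b H u E) hadm b
    have hZ : 1 ≤ Zx L (Rv (Mw L) b H u E) := Zx_one_le L _
    have hZ0 : 0 < Zx L (Rv (Mw L) b H u E) := by linarith
    unfold wg
    rw [← Finset.sum_div, div_le_iff₀ hZ0]
    exact h3
  have h4 : ((Gd L (Mw L) H u E).card : ℝ) ≤ (Mw L : ℝ) := by
    have h5 : (Gd L (Mw L) H u E).card ≤ (range (Mw L)).card :=
      Finset.card_le_card (Finset.filter_subset _ _)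
    rw [Finset.card_range] at h5
    exact_mod_cast h5
  calc ∑ b ∈ Gd L (Mw L) H u E, ∑ n ∈ Nw P H (Mw L) b, wg L (Mw L) H u E b n
      ≤ ∑ _b ∈ Gd L (Mw L) H u E, 7 * ((P : ℝ) / (Mw L : ℝ)) := Finset.sum_le_sum h2
    _ = ((Gd L (Mw L) H u E).card : ℝ) * (7 * ((P : ℝ) / (Mw L : ℝ))) := by
        rw [Finset.sum_const, nsmul_eq_mul]
    _ ≤ (Mw L : ℝ) * (7 * ((P : ℝ) / (Mw L : ℝ))) :=
        mul_le_mul_of_nonneg_right h4 (by positivity)
    _ = 7 * P := by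
        field_simp

end Pool.Agent.AT
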