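import Pool.Agent.AT.As0

/-! AT/As1.  LOWER BOUND of the first moment.
PLAN.  `l = Nat.log 2 L`, `M = Mw L`, `E = ⌊ε L⌋₊` (so `ε L/2 ≤ E ≤ ε L` for `L` large).
For a good class, by `SE1` divided by `Zx ≥ 1` (`0 ≤ wg`), summed over `j ∈ J1`:
`2 log P ∑_{n ∈ Nw} wg * Nn ≥ ∑_{j ∈ J1} (4/5 psi (b+j) - (P/M)/L)`.
Sum over the good classes `= all classes - bad classes`; all classes: `av2` with `U = Cl u E`
(`|Cl| = K E` by disjointness, `Cl ⊆ range H`, `J1 = Cl ∩ Jv`) and `theta_int`: `≥ K E c1 P`;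
bad classes: `few_bad`, `|J1| ≤ K * C (ε L)/l` (`cl_card`), `psi ≤ C (P/M) l` (`SBT`): together
`≤ C' c M * K (ε L)/l * (P/M) l = C' c K ε L P`; choose `c` with `C' c ≤ c1/8`.
The term `(P/M)/L` contributes `≤ M * K C (ε L/l) (P/M)/L ≤ C K ε P/l`, negligible.
`log P ≤ L + 1 ≤ 2 L`.  So the first moment is `≥ c2 K ε P`. -/

namespace Pool.Agent.AT

open Finset

private theorem t1_log {P L : ℕ} (hP : 1 ≤ P) (hL : L = Nat.log 2 P) :
    Real.log P ≤ (L : ℝ) + 1 := by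
  have h1 : P < 2 ^ (L + 1) := by
    rw [hL]
    exact Nat.lt_pow_succ_log_self (by norm_num) P
  have h2 : (P : ℝ) ≤ 2 ^ (L + 1) := by exact_mod_cast h1.le
  have hP' : (0 : ℝ) < P := by exact_mod_cast hP
  have h3 : Real.log P ≤ Real.log (2 ^ (L + 1)) := Real.log_le_log hP' h2
  rw [Real.log_pow] at h3
  have h4 : Real.log 2 ≤ 1 := by linarith [Real.log_two_lt_d9]
  have h5 : ((L + 1 : ℕ) : ℝ) * Real.log 2 ≤ ((L + 1 : ℕ) : ℝ) * 1 :=
    mul_le_mul_of_nonneg_left h4 (Nat.cast_nonneg _)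
  push_cast at h3 h5
  linarith

variable {K : ℕ}

private theorem t1_cl_card {H E : ℕ} {u : Fin K → ℕ} (h : Cfg H u E) :
    (Cl u E).card = K * E := by
  classical
  unfold Cl
  rw [card_biUnion]
  · simp
  · intro i _ j _ hij
    refine disjoint_left.2 fun x hx hx' => ?_
    rw [mem_Ico] at hx hx'
    rcases lt_or_gt_of_ne hij with h1 | h1
    · have := h.hdis i j h1
      omega
    · have := h.hdis j i h1
      omega

private theorem t1_cl_sub {H E : ℕ} {u : Fin K → ℕ} (h : Cfg H u E) : Cl u E ⊆ range H := by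
  classical
  intro x hx
  unfold Cl at hx
  obtain ⟨i, _, hi⟩ := mem_biUnion.1 hx
  have := h.hin i
  rw [mem_Ico] at hi
  rw [mem_range]
  omega

private theorem t1_J1 {M b H E : ℕ} {u : Fin K → ℕ} (h : Cfg H u E) :
    J1 M b H u E = (Cl u E).filter (fun j => Nat.Coprime (b + j) M) := by
  classical
  ext j
  unfold J1 Jv
  rw [mem_filter, mem_filter, mem_filter]
  constructor
  · rintro ⟨⟨_, h1⟩, h2⟩
    exact ⟨h2, h1⟩
  · rintro ⟨h1, h2⟩
    exact ⟨⟨t1_cl_sub h h1, h2⟩, h1⟩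

private theorem t1_J1_card {M b H E : ℕ} {u : Fin K → ℕ} (h : Cfg H u E) {B : ℝ}
    (hB : ∀ b u : ℕ, (((Ico u (u + E)).filter (fun j => Nat.Coprime (b + j) M)).card : ℝ) ≤ B) :
    ((J1 M b H u E).card : ℝ) ≤ K * B := by
  classical
  rw [t1_J1 h]
  unfold Cl
  rw [filter_biUnion]
  have h1 : (((univ : Finset (Fin K)).biUnion (fun i => (Ico (u i) (u i + E)).filter
      (fun j => Nat.Coprime (b + j) M))).card : ℝ) ≤
      ∑ i : Fin K, (((Ico (u i) (u i + E)).filter (fun j => Nat.Coprime (b + j) M)).card : ℝ) := by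
    exact_mod_cast card_biUnion_le
  refine h1.trans ((sum_le_sum fun i _ => hB b (u i)).trans (le_of_eq ?_))
  rw [sum_const, card_univ, Fintype.card_fin, nsmul_eq_mul]

/-- the sum over one class -/
private theorem t1_class {P L M H E b : ℕ} {u : Fin K → ℕ} {X : ℝ}
    (hse : ∀ j : ℕ, j < H → j ∉ Rv M b H u E → Nat.Coprime (b + j) M →
      4 / 5 * Zx L (Rv M b H u E) * psi M (b + j) P - Zx L (Rv M b H u E) * X ≤
      2 * Real.log P * ∑ n ∈ (Nw P H M b).filter (fun n => (n + j).Prime),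
        gx L (Rv M b H u E) (n : ℤ) ^ 2) :
    4 / 5 * (∑ j ∈ J1 M b H u E, psi M (b + j) P) - (J1 M b H u E).card * X ≤
      2 * Real.log P * ∑ n ∈ Nw P H M b, wg L M H u E b n * Nn M H u E b n := by
  classical
  have hZ : 0 < Zx L (Rv M b H u E) := lt_of_lt_of_le one_pos (Zx_one_le L _)
  have hsum : ∑ n ∈ Nw P H M b, wg L M H u E b n * (Nn M H u E b n : ℝ) =
      ∑ j ∈ J1 M b H u E, (∑ n ∈ (Nw P H M b).filter (fun n => (n + j).Prime),
        gx L (Rv M b H u E) (n : ℤ) ^ 2) / Zx L (Rv M b H u E) := by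
    have h1 : ∀ n ∈ Nw P H M b, wg L M H u E b n * (Nn M H u E b n : ℝ) =
        ∑ j ∈ J1 M b H u E, if (n + j).Prime then
          gx L (Rv M b H u E) (n : ℤ) ^ 2 / Zx L (Rv M b H u E) else 0 := by
      intro n _
      unfold Nn wg
      rw [card_filter, Nat.cast_sum, mul_sum]
      refine sum_congr rfl fun j _ => ?_
      split_ifs <;> simp
    rw [sum_congr rfl h1, sum_comm]
    refine sum_congr rfl fun j _ => ?_
    rw [← sum_filter, sum_div]
  rw [hsum, mul_sum, mul_sum]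
  have h2 : ∑ j ∈ J1 M b H u E, 4 / 5 * psi M (b + j) P - (J1 M b H u E).card * X =
      ∑ j ∈ J1 M b H u E, (4 / 5 * psi M (b + j) P - X) := by
    rw [sum_sub_distrib, sum_const, nsmul_eq_mul]
  rw [h2]
  refine sum_le_sum fun j hj => ?_
  obtain ⟨hjJ, hjC⟩ := mem_filter.1 hj
  obtain ⟨hjH, hjc⟩ := mem_filter.1 hjJ
  have h3 := hse j (mem_range.1 hjH) (fun h => (mem_filter.1 h).2 hjC) hjc
  rw [← mul_div_assoc, le_div_iff₀ hZ]
  calc (4 / 5 * psi M (b + j) P - X) * Zx L (Rv M b H u E) =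
        4 / 5 * Zx L (Rv M b H u E) * psi M (b + j) P - Zx L (Rv M b H u E) * X := by ring
    _ ≤ _ := h3

theorem T1 (h1 : SE1) (hB : SBT) : ∃ c : ℝ, 0 < c ∧ ∃ c2 : ℝ, 0 < c2 ∧ ∀ (K : ℕ) (ε : ℝ), 0 < ε →
    ε ≤ 1 / 4000 → ∃ P0 : ℕ, ∀ P : ℕ, P0 ≤ P → ∀ L : ℕ, L = Nat.log 2 P → ∀ (H : ℕ)
    (u : Fin K → ℕ), (H : ℝ) ≤ c * L * (Nat.log 2 L : ℝ) → Cfg H u ⌊ε * L⌋₊ →
    c2 * (K * ε) * P ≤ ∑ b ∈ Gd L (Mw L) H u ⌊ε * L⌋₊, ∑ n ∈ Nw P H (Mw L) b,
      wg L (Mw L) H u ⌊ε * L⌋₊ b n * Nn (Mw L) H u ⌊ε * L⌋₊ b n := by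
  classical
  obtain ⟨P1, h1⟩ := h1
  obtain ⟨CB, hCB, P2, hB⟩ := hB
  obtain ⟨Cf, hCf, L1, hf⟩ := few_bad
  obtain ⟨Cc, hCc, hc⟩ := cl_card
  obtain ⟨c1, hc1, P3, hth⟩ := theta_int
  obtain ⟨c, hcdef⟩ : ∃ c : ℝ, c = min 1 (c1 / (8 * (Cf * Cc * CB))) := ⟨_, rfl⟩
  have hCCC : 0 < Cf * Cc * CB := mul_pos (mul_pos hCf hCc) hCB
  have hc0 : 0 < c := by
    rw [hcdef]
    exact lt_min one_pos (div_pos hc1 (by positivity))
  have hcle1 : c ≤ 1 := hcdef ▸ min_le_left _ _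
  have hcle2 : Cf * Cc * CB * c ≤ c1 / 8 := by
    have h2 : c ≤ c1 / (8 * (Cf * Cc * CB)) := hcdef ▸ min_le_right _ _
    rw [le_div_iff₀ (by positivity)] at h2
    linarith
  refine ⟨c, hc0, c1 / 20, by positivity, fun K ε hε hε2 => ?_⟩
  obtain ⟨L2, hc⟩ := hc ε hε hε2
  obtain ⟨L3, hL3⟩ := exists_nat_ge (max (2 / ε) (10 * Cc / c1))
  refine ⟨max (max P1 P2) (max P3 (2 ^ (L1 + L2 + L3 + 2))), fun P hP L hL H u hH hcfg => ?_⟩
  have hPP1 : P1 ≤ P := le_trans (le_trans (le_max_left _ _) (le_max_left _ _)) hP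
  have hPP2 : P2 ≤ P := le_trans (le_trans (le_max_right _ _) (le_max_left _ _)) hP
  have hPP3 : P3 ≤ P := le_trans (le_trans (le_max_left _ _) (le_max_right _ _)) hP
  have hPP4 : 2 ^ (L1 + L2 + L3 + 2) ≤ P :=
    le_trans (le_trans (le_max_right _ _) (le_max_right _ _)) hP
  have hPpos : 1 ≤ P := le_trans Nat.one_le_two_pow hPP4
  have hLL : L1 + L2 + L3 + 2 ≤ L := by
    rw [hL]
    exact Nat.le_log_of_pow_le (by norm_num) hPP4
  have hL2 : 2 ≤ L := by omega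
  obtain ⟨lam, hlam⟩ : ∃ lam : ℕ, lam = Nat.log 2 L := ⟨_, rfl⟩
  have hlam1 : 1 ≤ lam := by
    rw [hlam]
    exact Nat.le_log_of_pow_le (by norm_num) (by simpa using hL2)
  have hlamL : lam ≤ L := by
    rw [hlam]
    exact Nat.log_le_self 2 L
  have hLR : (2 : ℝ) ≤ L := by exact_mod_cast hL2
  have hlamR : (1 : ℝ) ≤ lam := by exact_mod_cast hlam1
  have hlamLR : (lam : ℝ) ≤ L := by exact_mod_cast hlamL
  have hPR : (1 : ℝ) ≤ P := by exact_mod_cast hPpos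
  have hL3R : (L3 : ℝ) ≤ L := by exact_mod_cast (by omega : L3 ≤ L)
  have hεL : 2 ≤ ε * L := by
    have h2 : 2 / ε ≤ L := (le_max_left _ _).trans (hL3.trans hL3R)
    rw [div_le_iff₀ hε] at h2
    linarith
  have hCcL : Cc ≤ c1 / 10 * L := by
    have h2 : 10 * Cc / c1 ≤ L := (le_max_right _ _).trans (hL3.trans hL3R)
    rw [div_le_iff₀ hc1] at h2
    linarith
  rw [← hlam] at hH
  have hHL2 : H ≤ L ^ 2 := by
    have h2 : (H : ℝ) ≤ (L : ℝ) ^ 2 := by
      refine hH.trans ?_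
      calc c * L * lam ≤ 1 * L * L := by
            refine mul_le_mul (mul_le_mul_of_nonneg_right hcle1 (by positivity)) hlamLR
              (by positivity) (by positivity)
        _ = (L : ℝ) ^ 2 := by ring
    exact_mod_cast h2
  obtain ⟨E, hE⟩ : ∃ E : ℕ, E = ⌊ε * L⌋₊ := ⟨_, rfl⟩
  obtain ⟨M, hM⟩ : ∃ M : ℕ, M = Mw L := ⟨_, rfl⟩
  obtain ⟨hM0, hMP, hMq, hMc⟩ := Mw_facts hPpos hL
  rw [← hE] at hcfg ⊢
  rw [← hM] at hM0 hMP hMq hMc ⊢
  have hM0R : (0 : ℝ) < M := by exact_mod_cast hM0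
  have hElow : ε * L / 2 ≤ (E : ℝ) := by
    have h2 := Nat.lt_floor_add_one (ε * L)
    rw [← hE] at h2
    linarith
  -- Brun-Titchmarsh
  have hpsi : ∀ r : ℕ, psi M r P ≤ CB * ((P : ℝ) / M) * lam := by
    intro r
    have h2 := hB P hPP2 L M r hL hM0 hMc hMP
    rwa [← hlam] at h2
  -- the survivors
  obtain ⟨B, hBdef⟩ : ∃ B : ℝ, B = Cc * (ε * L) / lam := ⟨_, rfl⟩
  have hB0 : 0 ≤ B := by
    rw [hBdef]
    positivity
  have hJ : ∀ b, ((J1 M b H u E).card : ℝ) ≤ K * B := by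
    intro b
    refine t1_J1_card hcfg fun b' u' => ?_
    have h2 := hc L (by omega) b' u'
    rw [← hE, ← hM, ← hlam, ← hBdef] at h2
    exact h2
  -- every class
  have hcl : ∀ b ∈ Gd L M H u E, 4 / 5 * (∑ j ∈ J1 M b H u E, psi M (b + j) P) -
      (J1 M b H u E).card * (((P : ℝ) / M) / L) ≤
      2 * Real.log P * ∑ n ∈ Nw P H M b, wg L M H u E b n * Nn M H u E b n := by
    intro b hb
    have hadm : Adm P L M H (Rv M b H u E) := by
      rw [hM] at hb ⊢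
      exact adm_good hPpos hL hHL2 hb
    refine t1_class fun j hj hjR hjc => ?_
    have h2 := h1 P hPP1 L M H _ hadm b j hj hjR hjc
    rw [← mul_div_assoc (Zx L (Rv M b H u E))]
    exact h2
  obtain ⟨FM, hFM⟩ : ∃ FM : ℝ, FM = ∑ b ∈ Gd L M H u E, ∑ n ∈ Nw P H M b,
      wg L M H u E b n * (Nn M H u E b n : ℝ) := ⟨_, rfl⟩
  rw [← hFM]
  have hFM0 : 0 ≤ FM := by
    rw [hFM]
    refine sum_nonneg fun b _ => sum_nonneg fun n _ => mul_nonneg ?_ (Nat.cast_nonneg _)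
    exact div_nonneg (sq_nonneg _) (zero_le_one.trans (Zx_one_le L _))
  have hGsub : Gd L M H u E ⊆ range M := fun b hb => (mem_filter.1 hb).1
  -- sum over the good classes
  have hA : 4 / 5 * (∑ b ∈ Gd L M H u E, ∑ j ∈ J1 M b H u E, psi M (b + j) P) -
      (∑ b ∈ Gd L M H u E, ((J1 M b H u E).card : ℝ) * (((P : ℝ) / M) / L)) ≤
      2 * Real.log P * FM := by
    rw [hFM, mul_sum, mul_sum, ← sum_sub_distrib]
    exact sum_le_sum hcl
  -- the small term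
  have hX0 : 0 ≤ ((P : ℝ) / M) / L := by positivity
  have hS : (∑ b ∈ Gd L M H u E, ((J1 M b H u E).card : ℝ) * (((P : ℝ) / M) / L)) ≤
      c1 / 10 * (K * (ε * L) * P) := by
    have h2 : (∑ b ∈ Gd L M H u E, ((J1 M b H u E).card : ℝ) * (((P : ℝ) / M) / L)) ≤
        (M : ℝ) * (K * B * (((P : ℝ) / M) / L)) := by
      refine (sum_le_sum fun b _ => mul_le_mul_of_nonneg_right (hJ b) hX0).trans ?_
      rw [sum_const, nsmul_eq_mul]
      refine mul_le_mul_of_nonneg_right ?_ (mul_nonneg (mul_nonneg (Nat.cast_nonneg _) hB0) hX0)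
      have h3 := card_le_card hGsub
      rw [card_range] at h3
      exact_mod_cast h3
    refine h2.trans ?_
    have h3 : (M : ℝ) * (K * B * (((P : ℝ) / M) / L)) = Cc * (K * ε * P) * (1 / lam) := by
      rw [hBdef]
      field_simp
    rw [h3]
    have h4 : 1 / (lam : ℝ) ≤ 1 := by
      rw [div_le_one (by linarith)]
      exact hlamR
    have h5 : 0 ≤ K * ε * (P : ℝ) := by positivity
    calc Cc * (K * ε * P) * (1 / lam) ≤ Cc * (K * ε * P) * 1 :=
          mul_le_mul_of_nonneg_left h4 (by positivity)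
      _ = Cc * (K * ε * P) := mul_one _
      _ ≤ (c1 / 10 * L) * (K * ε * P) := mul_le_mul_of_nonneg_right hCcL h5
      _ = c1 / 10 * (K * (ε * L) * P) := by ring
  -- the bad classes
  obtain ⟨bad, hbad⟩ : ∃ bad : Finset ℕ, bad = (range M).filter (fun b => b ∉ Gd L M H u E) :=
    ⟨_, rfl⟩
  have hbadc : (bad.card : ℝ) ≤ Cf * c * M := by
    have h2 := hf L (by omega) c hc0 K H E u (by rw [← hlam]; exact hH)
    rw [← hM, ← hbad] at h2
    exact h2
  have hpos : 0 ≤ CB * ((P : ℝ) / M) * lam := by positivity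
  have hBad : ∑ b ∈ bad, ∑ j ∈ J1 M b H u E, psi M (b + j) P ≤ c1 / 8 * (K * (ε * L) * P) := by
    have h2 : ∀ b ∈ bad, ∑ j ∈ J1 M b H u E, psi M (b + j) P ≤
        K * B * (CB * ((P : ℝ) / M) * lam) := by
      intro b _
      refine (sum_le_sum fun j _ => hpsi (b + j)).trans ?_
      rw [sum_const, nsmul_eq_mul]
      exact mul_le_mul_of_nonneg_right (hJ b) hpos
    refine (sum_le_sum h2).trans ?_
    rw [sum_const, nsmul_eq_mul]
    have h3 : 0 ≤ K * B * (CB * ((P : ℝ) / M) * lam) :=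
      mul_nonneg (mul_nonneg (Nat.cast_nonneg _) hB0) hpos
    refine (mul_le_mul_of_nonneg_right hbadc h3).trans ?_
    have h4 : Cf * c * M * (K * B * (CB * ((P : ℝ) / M) * lam)) =
        (Cf * Cc * CB * c) * (K * (ε * L) * P) := by
      rw [hBdef]
      field_simp
    rw [h4]
    exact mul_le_mul_of_nonneg_right hcle2 (by positivity)
  -- all classes
  have hAll : c1 / 2 * (K * (ε * L) * P) ≤
      ∑ b ∈ range M, ∑ j ∈ J1 M b H u E, psi M (b + j) P := by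
    have hqP : ∀ q : ℕ, q.Prime → q ∣ M → q ≤ P := by
      intro q hq hqM
      have h2 := (hMq q hq).1 hqM
      have h3 : L ≤ P := by
        rw [hL]
        exact Nat.log_le_self 2 P
      omega
    have h2 := av2 hM0 hqP (Cl u E)
    have h3 : ∑ b ∈ range M, ∑ j ∈ (Cl u E).filter (fun j => Nat.Coprime (b + j) M),
        psi M (b + j) P = ∑ b ∈ range M, ∑ j ∈ J1 M b H u E, psi M (b + j) P := by
      refine sum_congr rfl fun b _ => ?_
      rw [t1_J1 hcfg]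
    rw [h3, t1_cl_card hcfg] at h2
    refine le_trans ?_ h2
    have h4 := hth P hPP3
    calc c1 / 2 * (K * (ε * L) * P) = (K * (ε * L / 2)) * (c1 * P) := by ring
      _ ≤ (K * (E : ℝ)) * (c1 * P) :=
          mul_le_mul_of_nonneg_right (mul_le_mul_of_nonneg_left hElow (Nat.cast_nonneg _))
            (by positivity)
      _ = ((K * E : ℕ) : ℝ) * (c1 * P) := by push_cast; ring
      _ ≤ _ := mul_le_mul_of_nonneg_left h4 (Nat.cast_nonneg _)
  have hsplit : ∑ b ∈ range M, ∑ j ∈ J1 M b H u E, psi M (b + j) P =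
      (∑ b ∈ Gd L M H u E, ∑ j ∈ J1 M b H u E, psi M (b + j) P) +
        ∑ b ∈ bad, ∑ j ∈ J1 M b H u E, psi M (b + j) P := by
    rw [hbad, ← sum_filter_add_sum_filter_not (range M) (fun b => b ∈ Gd L M H u E)]
    congr 2
    rw [filter_mem_eq_inter]
    exact inter_eq_right.2 hGsub
  obtain ⟨Y, hY⟩ : ∃ Y : ℝ, Y = K * (ε * L) * P := ⟨_, rfl⟩
  have hY0 : 0 ≤ Y := by
    rw [hY]
    positivity
  rw [← hY] at hS hBad hAll
  have hfin : c1 / 5 * Y ≤ 2 * Real.log P * FM := by nlinarith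
  have hlog := t1_log hPpos hL
  have hlog2 : 2 * Real.log P * FM ≤ 4 * L * FM := by
    refine mul_le_mul_of_nonneg_right ?_ hFM0
    linarith
  have hfin2 : c1 / 5 * Y ≤ 4 * L * FM := hfin.trans hlog2
  have hY2 : Y = (K * ε * P) * L := by
    rw [hY]
    ring
  have hLpos : (0 : ℝ) < L := by linarith
  have h9 : c1 / 20 * (K * ε) * P * (4 * L) ≤ FM * (4 * L) := by
    rw [hY2] at hfin2
    nlinarith
  exact le_of_mul_le_mul_right h9 (by positivity)

end Pool.Agent.AT
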