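import Pool.Agent.AT.As0

/-! AT/As2.  UPPER BOUNDS of the second moment and of the bad event. -/

namespace Pool.Agent.AT

open Finset

variable {K : ℕ}

/-- the bound of `SE2` for given data -/
private def Q2 (C2 : ℝ) (P : ℕ) : Prop :=
  ∀ (L M H : ℕ) (R : Finset ℕ),
  Adm P L M H R → ∀ b j j' : ℕ, j < H → j' < H → j ≠ j' → j ∉ R → j' ∉ R →
  ∑ n ∈ (Nw P H M b).filter (fun n => (n + j).Prime ∧ (n + j').Prime), gx L R (n : ℤ) ^ 2 ≤
    C2 * ((P : ℝ) / M) * ((Nat.log 2 L : ℝ) / L) ^ 2 * Zx L R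

private theorem wg_nonneg (L M H : ℕ) (u : Fin K → ℕ) (E b n : ℕ) : 0 ≤ wg L M H u E b n := by
  unfold wg
  exact div_nonneg (sq_nonneg _) (zero_le_one.trans (Zx_one_le _ _))

private theorem mem_J1 {M b H E j : ℕ} {u : Fin K → ℕ} (h : j ∈ J1 M b H u E) :
    j < H ∧ j ∉ Rv M b H u E ∧ Nat.Coprime (b + j) M ∧ j ∈ Cl u E := by
  unfold J1 Jv at h
  rw [mem_filter, mem_filter, mem_range] at h
  refine ⟨h.1.1, ?_, h.1.2, h.2⟩
  intro h2
  exact (mem_filter.1 h2).2 h.2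

private theorem wg_pair {C2 : ℝ} {P L H E : ℕ} {u : Fin K → ℕ} (hse : Q2 C2 P) {b : ℕ}
    (hadm : Adm P L (Mw L) H (Rv (Mw L) b H u E)) {j j' : ℕ} (hj : j ∈ J1 (Mw L) b H u E)
    (hj' : j' ∈ J1 (Mw L) b H u E) (hne : j ≠ j') :
    ∑ n ∈ (Nw P H (Mw L) b).filter (fun n => (n + j).Prime ∧ (n + j').Prime),
      wg L (Mw L) H u E b n ≤ C2 * ((P : ℝ) / (Mw L : ℝ)) * ((Nat.log 2 L : ℝ) / L) ^ 2 := by
  have h1 := hse L (Mw L) H (Rv (Mw L) b H u E) hadm b j j' (mem_J1 hj).1 (mem_J1 hj').1 hne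
    (mem_J1 hj).2.1 (mem_J1 hj').2.1
  have hZ : 0 < Zx L (Rv (Mw L) b H u E) := zero_lt_one.trans_le (Zx_one_le _ _)
  unfold wg
  rw [← sum_div, div_le_iff₀ hZ]
  exact h1

private theorem J1_card {C1 ε : ℝ} {L : ℕ}
    (hcl : ∀ b u : ℕ, (((Ico u (u + ⌊ε * L⌋₊)).filter
      (fun j => Nat.Coprime (b + j) (Mw L))).card : ℝ) ≤ C1 * (ε * L) / (Nat.log 2 L : ℝ))
    (b H : ℕ) (u : Fin K → ℕ) :
    ((J1 (Mw L) b H u ⌊ε * L⌋₊).card : ℝ) ≤ K * (C1 * (ε * L) / (Nat.log 2 L : ℝ)) := by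
  have h1 : J1 (Mw L) b H u ⌊ε * L⌋₊ ⊆ (univ : Finset (Fin K)).biUnion
      (fun i => (Ico (u i) (u i + ⌊ε * L⌋₊)).filter (fun j => Nat.Coprime (b + j) (Mw L))) := by
    intro j hj
    obtain ⟨-, -, h2, h3⟩ := mem_J1 hj
    unfold Cl at h3
    rw [mem_biUnion] at h3 ⊢
    obtain ⟨i, hi, h4⟩ := h3
    exact ⟨i, hi, mem_filter.2 ⟨h4, h2⟩⟩
  have h2 : (J1 (Mw L) b H u ⌊ε * L⌋₊).card ≤ ∑ i : Fin K,
      ((Ico (u i) (u i + ⌊ε * L⌋₊)).filter (fun j => Nat.Coprime (b + j) (Mw L))).card :=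
    (card_le_card h1).trans card_biUnion_le
  calc ((J1 (Mw L) b H u ⌊ε * L⌋₊).card : ℝ)
      ≤ ((∑ i : Fin K, ((Ico (u i) (u i + ⌊ε * L⌋₊)).filter
          (fun j => Nat.Coprime (b + j) (Mw L))).card : ℕ) : ℝ) := by exact_mod_cast h2
    _ = ∑ i : Fin K, (((Ico (u i) (u i + ⌊ε * L⌋₊)).filter
          (fun j => Nat.Coprime (b + j) (Mw L))).card : ℝ) := by push_cast; rfl
    _ ≤ ∑ _i : Fin K, (C1 * (ε * L) / (Nat.log 2 L : ℝ)) := sum_le_sum fun i _ => hcl b (u i)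
    _ = K * (C1 * (ε * L) / (Nat.log 2 L : ℝ)) := by
        rw [sum_const, card_univ, Fintype.card_fin, nsmul_eq_mul]

/-- sum over the pairs of a set `S` of survivors in the clusters -/
private theorem pair_sum {C2 : ℝ} {P L H E : ℕ} {u : Fin K → ℕ} (hC2 : 0 ≤ C2) (hse : Q2 C2 P)
    {b : ℕ} (hadm : Adm P L (Mw L) H (Rv (Mw L) b H u E)) {S : Finset ℕ}
    (hS : S ⊆ J1 (Mw L) b H u E) {X : ℝ} (hX : (S.card : ℝ) ≤ X) :
    ∑ q ∈ S.offDiag, ∑ n ∈ (Nw P H (Mw L) b).filter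
        (fun n => (n + q.1).Prime ∧ (n + q.2).Prime), wg L (Mw L) H u E b n ≤
      X ^ 2 * (C2 * ((P : ℝ) / (Mw L : ℝ)) * ((Nat.log 2 L : ℝ) / L) ^ 2) := by
  have hB : 0 ≤ C2 * ((P : ℝ) / (Mw L : ℝ)) * ((Nat.log 2 L : ℝ) / L) ^ 2 := by positivity
  have h1 : ∀ q ∈ S.offDiag, ∑ n ∈ (Nw P H (Mw L) b).filter
      (fun n => (n + q.1).Prime ∧ (n + q.2).Prime), wg L (Mw L) H u E b n ≤
      C2 * ((P : ℝ) / (Mw L : ℝ)) * ((Nat.log 2 L : ℝ) / L) ^ 2 := by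
    intro q hq
    rw [mem_offDiag] at hq
    exact wg_pair hse hadm (hS hq.1) (hS hq.2.1) hq.2.2
  refine (sum_le_sum h1).trans ?_
  rw [sum_const, nsmul_eq_mul]
  refine mul_le_mul_of_nonneg_right ?_ hB
  have h2 : S.offDiag.card ≤ S.card * S.card := by
    rw [offDiag_card]
    exact Nat.sub_le _ _
  have h3 : (S.offDiag.card : ℝ) ≤ (S.card : ℝ) * S.card := by exact_mod_cast h2
  have h0 : (0 : ℝ) ≤ S.card := Nat.cast_nonneg _
  calc (S.offDiag.card : ℝ) ≤ (S.card : ℝ) * S.card := h3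
    _ ≤ X * X := mul_le_mul hX hX h0 (h0.trans hX)
    _ = X ^ 2 := (sq X).symm

/-- the final numerical step -/
private theorem num {C1 C2 ε k : ℝ} (hC2 : 0 ≤ C2) (P : ℕ) (L : ℕ) :
    (k * (C1 * (ε * L) / (Nat.log 2 L : ℝ))) ^ 2 *
      (C2 * ((P : ℝ) / (Mw L : ℝ)) * ((Nat.log 2 L : ℝ) / L) ^ 2) ≤
      C2 * C1 ^ 2 * (k * ε) ^ 2 * ((P : ℝ) / (Mw L : ℝ)) := by
  have hR : 0 ≤ C2 * C1 ^ 2 * (k * ε) ^ 2 * ((P : ℝ) / (Mw L : ℝ)) := by positivity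
  by_cases hl : (Nat.log 2 L : ℝ) = 0
  · rw [hl]
    simpa using hR
  · by_cases hL : (L : ℝ) = 0
    · rw [hL]
      simpa using hR
    · refine le_of_eq ?_
      generalize (P : ℝ) / (Mw L : ℝ) = t
      field_simp

private theorem sum_classes {P L H E : ℕ} {u : Fin K → ℕ} (hM : 0 < Mw L) {f : ℕ → ℝ} {B : ℝ}
    (hB : 0 ≤ B) (hf : ∀ b ∈ Gd L (Mw L) H u E, f b ≤ B * ((P : ℝ) / (Mw L : ℝ))) :
    ∑ b ∈ Gd L (Mw L) H u E, f b ≤ B * P := by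
  have hM' : (0 : ℝ) < (Mw L : ℝ) := by exact_mod_cast hM
  refine (sum_le_sum hf).trans ?_
  rw [sum_const, nsmul_eq_mul]
  have h1 : (Gd L (Mw L) H u E).card ≤ Mw L := by
    unfold Gd
    exact (card_filter_le _ _).trans (by rw [card_range])
  have h2 : ((Gd L (Mw L) H u E).card : ℝ) ≤ (Mw L : ℝ) := by exact_mod_cast h1
  calc ((Gd L (Mw L) H u E).card : ℝ) * (B * ((P : ℝ) / (Mw L : ℝ)))
      ≤ (Mw L : ℝ) * (B * ((P : ℝ) / (Mw L : ℝ))) :=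
        mul_le_mul_of_nonneg_right h2 (by positivity)
    _ = B * P := by field_simp

private theorem offDiag_count (S : Finset ℕ) (n : ℕ) :
    ((S.filter (fun j => (n + j).Prime)).card : ℝ) *
      (((S.filter (fun j => (n + j).Prime)).card : ℝ) - 1) =
      ∑ q ∈ S.offDiag, if (n + q.1).Prime ∧ (n + q.2).Prime then (1 : ℝ) else 0 := by
  have h1 : (S.filter (fun j => (n + j).Prime)).offDiag =
      S.offDiag.filter (fun q => (n + q.1).Prime ∧ (n + q.2).Prime) := by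
    ext q
    simp only [mem_offDiag, mem_filter]
    tauto
  rw [← sum_filter, ← h1, sum_const, nsmul_eq_mul, mul_one, offDiag_card,
    Nat.cast_sub (Nat.le_mul_self _), Nat.cast_mul]
  ring

private theorem exists_P0 (P2 L0 : ℕ) : ∃ P0 : ℕ, ∀ P : ℕ, P0 ≤ P →
    P2 ≤ P ∧ 1 ≤ P ∧ L0 ≤ Nat.log 2 P := by
  refine ⟨max P2 (2 ^ L0), ?_⟩
  intro P hP
  have h1 : 2 ^ L0 ≤ P := (le_max_right _ _).trans hP
  have h2 : 1 ≤ P := Nat.one_le_two_pow.trans h1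
  exact ⟨(le_max_left _ _).trans hP, h2, (Nat.le_log_iff_pow_le (by norm_num) (by omega)).2 h1⟩

/-- PLAN: `Nn (Nn - 1)` = number of ordered pairs `j ≠ j'` of `J1` with both `n + j`, `n + j'` prime; exchange
the sums, `SE2` (divided by `Zx`), `|J1| ≤ K C (ε L)/lam` (`cl_card`, `J1 ⊆ ⋃_i`), at most `M` classes:
`≤ M (K C ε L/lam)^2 C (P/M) (lam/L)^2 = C (K ε)^2 P`. -/
theorem T2 (h2 : SE2) : ∃ C : ℝ, 0 < C ∧ ∀ (K : ℕ) (ε : ℝ), 0 < ε → ε ≤ 1 / 4000 →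
    ∃ P0 : ℕ, ∀ P : ℕ, P0 ≤ P → ∀ L : ℕ, L = Nat.log 2 P → ∀ (H : ℕ) (u : Fin K → ℕ),
    H ≤ L ^ 2 → Cfg H u ⌊ε * L⌋₊ →
    ∑ b ∈ Gd L (Mw L) H u ⌊ε * L⌋₊, ∑ n ∈ Nw P H (Mw L) b,
      wg L (Mw L) H u ⌊ε * L⌋₊ b n *
        ((Nn (Mw L) H u ⌊ε * L⌋₊ b n : ℝ) * ((Nn (Mw L) H u ⌊ε * L⌋₊ b n : ℝ) - 1)) ≤
      C * (K * ε) ^ 2 * P := by
  obtain ⟨C2, hC2, P2, hP2⟩ := h2
  obtain ⟨C1, hC1, hcl⟩ := cl_card
  refine ⟨C2 * C1 ^ 2, by positivity, ?_⟩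
  intro K ε hε hε2
  obtain ⟨L0, hL0⟩ := hcl ε hε hε2
  obtain ⟨P0, hP0⟩ := exists_P0 P2 L0
  refine ⟨P0, ?_⟩
  intro P hP L hL H u hH _
  obtain ⟨hP1, hP3, hLL⟩ := hP0 P hP
  rw [← hL] at hLL
  have hse : Q2 C2 P := hP2 P hP1
  have hM : 0 < Mw L := (Mw_facts hP3 hL).1
  refine sum_classes hM (by positivity) ?_
  intro b hb
  have hadm := adm_good hP3 hL hH hb
  have hJ := J1_card (K := K) (hL0 L hLL) b H u
  have h1 := pair_sum hC2.le hse hadm (Subset.refl _) hJ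
  refine le_trans (le_of_eq ?_) (h1.trans (num hC2.le P L))
  have h3 : ∀ n ∈ Nw P H (Mw L) b, wg L (Mw L) H u ⌊ε * L⌋₊ b n *
      ((Nn (Mw L) H u ⌊ε * L⌋₊ b n : ℝ) * ((Nn (Mw L) H u ⌊ε * L⌋₊ b n : ℝ) - 1)) =
      ∑ q ∈ (J1 (Mw L) b H u ⌊ε * L⌋₊).offDiag,
        if (n + q.1).Prime ∧ (n + q.2).Prime then wg L (Mw L) H u ⌊ε * L⌋₊ b n else 0 := by
    intro n _
    unfold Nn
    rw [offDiag_count, mul_sum]
    refine sum_congr rfl fun q _ => ?_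
    rw [mul_ite, mul_one, mul_zero]
  rw [sum_congr rfl h3, sum_comm]
  refine sum_congr rfl fun q _ => ?_
  rw [sum_filter]

open Classical in
/-- PLAN: union bound over the clusters `i` and the pairs in the cluster (`cl_card`, `SE2`):
`≤ M * K * (C ε L/lam)^2 * C (P/M) (lam/L)^2 = C K ε^2 P`; killed elements: `SE3`: `≤ M (P/M)/L`. -/
theorem T3 (h2 : SE2) (h3 : SE3) : ∃ C : ℝ, 0 < C ∧ ∀ (K : ℕ) (ε : ℝ), 0 < ε → ε ≤ 1 / 4000 →
    ∃ P0 : ℕ, ∀ P : ℕ, P0 ≤ P → ∀ L : ℕ, L = Nat.log 2 P → ∀ (H : ℕ) (u : Fin K → ℕ),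
    H ≤ L ^ 2 → Cfg H u ⌊ε * L⌋₊ →
    ∑ b ∈ Gd L (Mw L) H u ⌊ε * L⌋₊,
      ∑ n ∈ (Nw P H (Mw L) b).filter (fun n => Bd (Mw L) H u ⌊ε * L⌋₊ b n),
        wg L (Mw L) H u ⌊ε * L⌋₊ b n ≤ C * (K * ε ^ 2) * P + P / L := by
  obtain ⟨C2, hC2, P2, hP2⟩ := h2
  obtain ⟨P3, hP3'⟩ := h3
  obtain ⟨C1, hC1, hcl⟩ := cl_card
  refine ⟨C2 * C1 ^ 2, by positivity, ?_⟩
  intro K ε hε hε2
  obtain ⟨L0, hL0⟩ := hcl ε hε hε2
  obtain ⟨P0, hP0⟩ := exists_P0 (max P2 P3) L0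
  refine ⟨P0, ?_⟩
  intro P hP L hL H u hH _
  obtain ⟨hP1, hP3, hLL⟩ := hP0 P hP
  rw [← hL] at hLL
  have hse : Q2 C2 P := hP2 P ((le_max_left _ _).trans hP1)
  have hM : 0 < Mw L := (Mw_facts hP3 hL).1
  have hfin : C2 * C1 ^ 2 * (K * ε ^ 2) * P + P / L =
      (C2 * C1 ^ 2 * (K * ε ^ 2) + 1 / L) * P := by ring
  rw [hfin]
  refine sum_classes hM (by positivity) ?_
  intro b hb
  have hadm := adm_good hP3 hL hH hb
  set E := ⌊ε * L⌋₊ with hE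
  set w := wg L (Mw L) H u E b with hw
  have hw0 : ∀ n, 0 ≤ w n := fun n => wg_nonneg _ _ _ _ _ _ _
  -- the pairs in the cluster i
  set Si : Fin K → Finset ℕ := fun i => (J1 (Mw L) b H u E).filter
    (fun j => j ∈ Ico (u i) (u i + E)) with hSi
  have hA : ∀ i, ∑ q ∈ (Si i).offDiag, ∑ n ∈ (Nw P H (Mw L) b).filter
      (fun n => (n + q.1).Prime ∧ (n + q.2).Prime), w n ≤
      C2 * C1 ^ 2 * (1 * ε) ^ 2 * ((P : ℝ) / (Mw L : ℝ)) := by
    intro i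
    have hX : ((Si i).card : ℝ) ≤ 1 * (C1 * (ε * L) / (Nat.log 2 L : ℝ)) := by
      rw [one_mul]
      refine le_trans ?_ (hL0 L hLL b (u i))
      have : Si i ⊆ (Ico (u i) (u i + E)).filter (fun j => Nat.Coprime (b + j) (Mw L)) := by
        intro j hj
        rw [hSi, mem_filter] at hj
        exact mem_filter.2 ⟨hj.2, (mem_J1 hj.1).2.2.1⟩
      exact_mod_cast card_le_card this
    exact (pair_sum hC2.le hse hadm (filter_subset _ _) hX).trans (num hC2.le P L)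
  have hB : ∑ n ∈ (Nw P H (Mw L) b).filter (fun n => ∃ j ∈ Rv (Mw L) b H u E, (n + j).Prime),
      w n ≤ ((P : ℝ) / (Mw L : ℝ)) / L := by
    have h1 := hP3' P ((le_max_right _ _).trans hP1) L (Mw L) H (Rv (Mw L) b H u E) hadm b
    have hZ : 0 < Zx L (Rv (Mw L) b H u E) := zero_lt_one.trans_le (Zx_one_le _ _)
    rw [hw]
    unfold wg
    rw [← sum_div, div_le_iff₀ hZ]
    exact h1
  -- pointwise
  have hpt : ∀ n ∈ Nw P H (Mw L) b, (if Bd (Mw L) H u E b n then w n else 0) ≤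
      (∑ i, ∑ q ∈ (Si i).offDiag, if (n + q.1).Prime ∧ (n + q.2).Prime then w n else 0) +
        if ∃ j ∈ Rv (Mw L) b H u E, (n + j).Prime then w n else 0 := by
    intro n _
    have hs1 : 0 ≤ ∑ i, ∑ q ∈ (Si i).offDiag,
        if (n + q.1).Prime ∧ (n + q.2).Prime then w n else 0 :=
      sum_nonneg fun i _ => sum_nonneg fun q _ => by
        split_ifs
        · exact hw0 n
        · exact le_rfl
    have hs2 : 0 ≤ if ∃ j ∈ Rv (Mw L) b H u E, (n + j).Prime then w n else 0 := by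
      split_ifs
      · exact hw0 n
      · exact le_rfl
    by_cases hBd : Bd (Mw L) H u E b n
    · rw [if_pos hBd]
      rcases hBd with ⟨i, j, hj, j', hj', hne, hji, hji', hp, hp'⟩ | hR
      · refine le_trans ?_ (le_add_of_nonneg_right hs2)
        have h4 : (j, j') ∈ (Si i).offDiag := by
          rw [mem_offDiag, hSi]
          exact ⟨mem_filter.2 ⟨hj, hji⟩, mem_filter.2 ⟨hj', hji'⟩, hne⟩
        have h5 : w n ≤ ∑ q ∈ (Si i).offDiag,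
            if (n + q.1).Prime ∧ (n + q.2).Prime then w n else 0 := by
          have h6 := single_le_sum (s := (Si i).offDiag)
            (f := fun q => if (n + q.1).Prime ∧ (n + q.2).Prime then w n else 0)
            (fun q _ => by
              split_ifs
              · exact hw0 n
              · exact le_rfl) h4
          simp only at h6
          rwa [if_pos ⟨hp, hp'⟩] at h6
        refine h5.trans ?_
        exact single_le_sum (s := univ)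
          (f := fun i => ∑ q ∈ (Si i).offDiag,
            if (n + q.1).Prime ∧ (n + q.2).Prime then w n else 0)
          (fun i _ => sum_nonneg fun q _ => by
            split_ifs
            · exact hw0 n
            · exact le_rfl) (mem_univ i)
      · rw [if_pos hR]
        linarith
    · rw [if_neg hBd]
      linarith
  have h7 : ∑ n ∈ (Nw P H (Mw L) b).filter (fun n => Bd (Mw L) H u E b n), w n ≤
      (∑ i, ∑ q ∈ (Si i).offDiag, ∑ n ∈ (Nw P H (Mw L) b).filter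
        (fun n => (n + q.1).Prime ∧ (n + q.2).Prime), w n) +
      ∑ n ∈ (Nw P H (Mw L) b).filter (fun n => ∃ j ∈ Rv (Mw L) b H u E, (n + j).Prime),
        w n := by
    rw [sum_filter]
    refine (sum_le_sum hpt).trans (le_of_eq ?_)
    rw [sum_add_distrib, sum_comm]
    congr 1
    · refine sum_congr rfl fun i _ => ?_
      rw [sum_comm]
      refine sum_congr rfl fun q _ => ?_
      rw [sum_filter]
    · rw [sum_filter]
  refine h7.trans ?_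
  have h8 : ∑ i : Fin K, ∑ q ∈ (Si i).offDiag, ∑ n ∈ (Nw P H (Mw L) b).filter
      (fun n => (n + q.1).Prime ∧ (n + q.2).Prime), w n ≤
      K * (C2 * C1 ^ 2 * (1 * ε) ^ 2 * ((P : ℝ) / (Mw L : ℝ))) := by
    refine (sum_le_sum fun i _ => hA i).trans (le_of_eq ?_)
    rw [sum_const, card_univ, Fintype.card_fin, nsmul_eq_mul]
  refine (add_le_add h8 hB).trans (le_of_eq ?_)
  ring

end Pool.Agent.AT
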