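import Pool.Agent.AT.Av

/-! AT/AsD.  Definitions for the assembly of THEOREM PX. -/

namespace Pool.Agent.AT

open Finset

variable {K : ℕ}

/-- union of the clusters `[u i, u i + E)` -/
def Cl (u : Fin K → ℕ) (E : ℕ) : Finset ℕ := univ.biUnion (fun i => Ico (u i) (u i + E))

/-- the survivors inside the clusters -/
def J1 (M b H : ℕ) (u : Fin K → ℕ) (E : ℕ) : Finset ℕ := (Jv M b H).filter (fun j => j ∈ Cl u E)

/-- the survivors to be killed -/
def Rv (M b H : ℕ) (u : Fin K → ℕ) (E : ℕ) : Finset ℕ := (Jv M b H).filter (fun j => j ∉ Cl u E)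

open Classical in
/-- the good classes -/
noncomputable def Gd (L M H : ℕ) (u : Fin K → ℕ) (E : ℕ) : Finset ℕ :=
  (range M).filter (fun b => ((Rv M b H u E).card : ℝ) ≤ c0 * L)

/-- normalised weight -/
noncomputable def wg (L M H : ℕ) (u : Fin K → ℕ) (E : ℕ) (b n : ℕ) : ℝ :=
  gx L (Rv M b H u E) (n : ℤ) ^ 2 / Zx L (Rv M b H u E)

/-- the number of the primes `n + j` in the clusters -/
def Nn (M H : ℕ) (u : Fin K → ℕ) (E : ℕ) (b n : ℕ) : ℕ :=
  ((J1 M b H u E).filter (fun j => (n + j).Prime)).card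

/-- the bad event: two primes in one cluster, or a killed element is prime -/
def Bd (M H : ℕ) (u : Fin K → ℕ) (E : ℕ) (b n : ℕ) : Prop :=
  (∃ i, ∃ j ∈ (J1 M b H u E), ∃ j' ∈ (J1 M b H u E), j ≠ j' ∧ j ∈ Ico (u i) (u i + E) ∧
    j' ∈ Ico (u i) (u i + E) ∧ (n + j).Prime ∧ (n + j').Prime) ∨
  ∃ j ∈ Rv M b H u E, (n + j).Prime

/-- the clusters are disjoint and contained in `[0, H)` -/
structure Cfg (H : ℕ) (u : Fin K → ℕ) (E : ℕ) : Prop where
  hin : ∀ i, u i + E ≤ H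
  hdis : ∀ i j, i < j → u i + E ≤ u j

/-- for a good class the data are admissible. -/
theorem adm_good {P L H E : ℕ} {u : Fin K → ℕ} (hP : 1 ≤ P) (hL : L = Nat.log 2 P)
    (hH : H ≤ L ^ 2) {b : ℕ} (hb : b ∈ Gd L (Mw L) H u E) :
    Adm P L (Mw L) H (Rv (Mw L) b H u E) := by
  obtain ⟨h1, h2, h3, h4⟩ := Mw_facts hP hL
  refine ⟨hL, h1, h4, h2, hH, ?_, ?_⟩
  · intro j hj
    exact (mem_filter.1 (mem_filter.1 hj).1).1
  · exact (mem_filter.1 hb).2

end Pool.Agent.AT
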