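import Pool.Agent.AT.Par
import Pool.Agent.AT.Pr1
import Pool.Agent.Helper52.PrimeSums
import Pool.Agent.Helper98.Bern.CH

/-! AT/Av.  Averages over the residue classes. -/

namespace Pool.Agent.AT

open Finset

/-- the survivors: shifts `j < H` with `b + j` coprime to `M` -/
def Jv (M b H : ℕ) : Finset ℕ := (range H).filter (fun j => Nat.Coprime (b + j) M)

/-- PLAN: exchange the sums; for fixed `j` the number of `b < M` with `b + j` coprime to `M` is `φ(M)`
(`Nat.filter_coprime_Ico_eq_totient` for the interval `Ico j (j + M)`). -/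
theorem av1 (M H : ℕ) : ∑ b ∈ range M, (Jv M b H).card = H * Nat.totient M := by
  classical
  unfold Jv
  have h1 : ∀ b ∈ range M, ((range H).filter (fun j => Nat.Coprime (b + j) M)).card =
      ∑ j ∈ range H, if Nat.Coprime (b + j) M then 1 else 0 := by
    intro b _
    rw [card_filter]
  rw [sum_congr rfl h1, sum_comm]
  have h2 : ∀ j ∈ range H, (∑ b ∈ range M, if Nat.Coprime (b + j) M then 1 else 0) =
      Nat.totient M := by
    intro j _
    rw [← card_filter, ← Nat.filter_coprime_Ico_eq_totient M j]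
    refine card_bij (fun b _ => j + b) ?_ ?_ ?_
    · intro b hb
      rw [mem_filter, mem_range] at hb
      rw [mem_filter, mem_Ico]
      refine ⟨⟨by omega, by omega⟩, ?_⟩
      rw [add_comm j b]
      exact hb.2.symm
    · intro b _ b' _ h
      exact Nat.add_left_cancel h
    · intro c hc
      rw [mem_filter, mem_Ico] at hc
      refine ⟨c - j, ?_, by omega⟩
      rw [mem_filter, mem_range]
      refine ⟨by omega, ?_⟩
      rw [show c - j + j = c by omega]
      exact hc.2.symm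
  rw [sum_congr rfl h2, sum_const, card_range, smul_eq_mul]

/-- PLAN: `psi M r P` depends only on `r` modulo `M`; for fixed `j` the sum over `b < M`, `(b+j, M) = 1` is
`∑_{r < M, (r, M) = 1} psi M r P = ∑_{m ∈ Ioc P (4P), (m, M) = 1} Λ m ≥ ∑_{m prime} log m`, since a prime
`m > P` is coprime to `M` (all prime factors of `M` are `≤ P`). -/
theorem av2 {M P : ℕ} (hM0 : 0 < M) (hM : ∀ q : ℕ, q.Prime → q ∣ M → q ≤ P) (U : Finset ℕ) :
    (U.card : ℝ) * ∑ m ∈ (Ioc P (4 * P)).filter Nat.Prime, Real.log m ≤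
      ∑ b ∈ range M, ∑ j ∈ U.filter (fun j => Nat.Coprime (b + j) M), psi M (b + j) P := by
  classical
  have e1 : ∑ b ∈ range M, ∑ j ∈ U.filter (fun j => Nat.Coprime (b + j) M), psi M (b + j) P =
      ∑ j ∈ U, ∑ b ∈ range M, if Nat.Coprime (b + j) M then psi M (b + j) P else 0 := by
    rw [sum_comm]
    refine sum_congr rfl fun b _ => ?_
    rw [sum_filter]
  rw [e1, ← nsmul_eq_mul]
  refine card_nsmul_le_sum U _ _ fun j _ => ?_
  have e2 : ∀ b ∈ range M, (if Nat.Coprime (b + j) M then psi M (b + j) P else 0) =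
      ∑ m ∈ Ioc P (4 * P), if Nat.Coprime (b + j) M ∧ m ≡ b + j [MOD M] then
        ArithmeticFunction.vonMangoldt m else 0 := by
    intro b _
    by_cases h : Nat.Coprime (b + j) M
    · rw [if_pos h]
      unfold psi
      rw [sum_filter]
      refine sum_congr rfl fun m _ => ?_
      by_cases hm' : m ≡ b + j [MOD M]
      · rw [if_pos hm', if_pos ⟨h, hm'⟩]
      · rw [if_neg hm', if_neg fun h' => hm' h'.2]
    · rw [if_neg h]
      symm
      refine sum_eq_zero fun m _ => ?_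
      rw [if_neg fun h' => h h'.1]
  rw [sum_congr rfl e2, sum_comm, sum_filter]
  refine sum_le_sum fun m hm => ?_
  have hnn : ∀ b ∈ range M, 0 ≤ (if Nat.Coprime (b + j) M ∧ m ≡ b + j [MOD M] then
      ArithmeticFunction.vonMangoldt m else 0) := by
    intro b _
    split_ifs
    · exact ArithmeticFunction.vonMangoldt_nonneg
    · exact le_rfl
  by_cases hp : m.Prime
  · rw [if_pos hp]
    rw [mem_Ioc] at hm
    -- the class
    have hb0 : (m + M * j - j) % M < M := Nat.mod_lt _ hM0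
    have hMj : j ≤ M * j := Nat.le_mul_of_pos_left j hM0
    have hmod : m ≡ (m + M * j - j) % M + j [MOD M] := by
      have h1 : (m + M * j - j) % M + j ≡ (m + M * j - j) + j [MOD M] :=
        (Nat.mod_modEq _ _).add_right j
      have h2 : (m + M * j - j) + j = m + M * j := by omega
      rw [h2] at h1
      have h3 : m + M * j ≡ m [MOD M] := by
        unfold Nat.ModEq
        rw [Nat.add_mul_mod_self_left]
      exact (h1.trans h3).symm
    have hcopm : Nat.Coprime m M := by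
      refine (Nat.Prime.coprime_iff_not_dvd hp).2 fun hd => ?_
      have := hM m hp hd
      omega
    have hcop : Nat.Coprime ((m + M * j - j) % M + j) M := by
      have h4 := hmod.gcd_eq
      unfold Nat.Coprime at hcopm ⊢
      rw [← h4]
      exact hcopm
    have h5 := single_le_sum hnn (mem_range.2 hb0)
    rw [if_pos ⟨hcop, hmod⟩] at h5
    exact (ArithmeticFunction.vonMangoldt_apply_prime hp).symm.le.trans h5
  · rw [if_neg hp]
    exact sum_nonneg hnn

/-- Chebyshev: copy the first half of `Helper98/Bern/CH.lean`, `theta_interval` (you may import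
`Pool.Agent.Helper98.Bern.CH`). -/
theorem theta_int : ∃ c : ℝ, 0 < c ∧ ∃ P0 : ℕ, ∀ P : ℕ, P0 ≤ P →
    c * P ≤ ∑ q ∈ (Ioc P (4 * P)).filter Nat.Prime, Real.log q := by
  obtain ⟨c, hc, P0, h⟩ := Pool.Agent.Helper98.Bern.theta_interval
  exact ⟨c, hc, P0, fun P hP => (h P hP).1⟩

/-- the modulus -/
def Mw (L : ℕ) : ℕ := primorial (L / 2000)

/-- PLAN: `primorial_le_4_pow`, `4 ^ (L/2000) ≤ 2 ^ (L/1000) ≤ P^(1/1000)` as `2 ^ L ≤ P`;
the prime factors of a primorial. -/
theorem Mw_facts {P L : ℕ} (hP : 1 ≤ P) (hL : L = Nat.log 2 P) : 0 < Mw L ∧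
    ((Mw L : ℕ) : ℝ) ≤ (P : ℝ) ^ (1 / 1000 : ℝ) ∧ (∀ q : ℕ, q.Prime → (q ∣ Mw L ↔ q ≤ L / 2000)) ∧
    (∀ q : ℕ, q.Prime → L ^ 6 < q → Nat.Coprime (Mw L) q) := by
  unfold Mw
  refine ⟨primorial_pos _, ?_, fun q hq => hq.dvd_primorial_iff, fun q hq hLq => ?_⟩
  · have h1 : 2 ^ L ≤ P := by
      rw [hL]
      exact Nat.pow_log_le_self 2 (by omega)
    have h2 : ((primorial (L / 2000) : ℕ) : ℝ) ≤ (4 : ℝ) ^ (L / 2000) := by
      exact_mod_cast primorial_le_four_pow (L / 2000)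
    refine h2.trans ?_
    have h3 : ((2 : ℝ) ^ L) ^ (1 / 1000 : ℝ) ≤ (P : ℝ) ^ (1 / 1000 : ℝ) := by
      refine Real.rpow_le_rpow (by positivity) ?_ (by norm_num)
      exact_mod_cast h1
    refine le_trans ?_ h3
    have h4 : (4 : ℝ) ^ (L / 2000) = (2 : ℝ) ^ ((2 * (L / 2000 : ℕ) : ℕ) : ℝ) := by
      rw [Real.rpow_natCast, pow_mul]
      norm_num
    have h5 : ((2 : ℝ) ^ L) ^ (1 / 1000 : ℝ) = (2 : ℝ) ^ ((L : ℝ) * (1 / 1000)) := by
      rw [← Real.rpow_natCast 2 L, ← Real.rpow_mul (by norm_num)]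
    rw [h4, h5]
    refine Real.rpow_le_rpow_of_exponent_le (by norm_num) ?_
    have h6 : 2000 * (L / 2000) ≤ L := Nat.mul_div_le L 2000
    have h7 : (2000 : ℝ) * ((L / 2000 : ℕ) : ℝ) ≤ (L : ℝ) := by exact_mod_cast h6
    push_cast
    linarith
  · refine Nat.Coprime.symm ((Nat.Prime.coprime_iff_not_dvd hq).2 fun hd => ?_)
    rw [hq.dvd_primorial_iff] at hd
    rcases Nat.eq_zero_or_pos L with h0 | h0
    · rw [h0] at hd
      have := hq.pos
      omega
    · have h1 : L ≤ L ^ 6 := Nat.le_self_pow (by norm_num) L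
      omega

/-- Mertens.  PLAN: `Nat.totient_eq_mul_prod_factors`: `φ(M)/M = ∏_{q ≤ w} (1 - 1/q)`, `w = L/2000`, which is
`≤` the product over `pr 0 (2 ^ b)`, `b = Nat.log 2 w ≥ Nat.log 2 L - 12 ≥ (Nat.log 2 L)/2`;
`prod_upper` of Helper52/PrimeSums. -/
theorem Mw_totient : ∃ C : ℝ, 0 < C ∧ ∃ L0 : ℕ, ∀ L : ℕ, L0 ≤ L →
    (Nat.totient (Mw L) : ℝ) ≤ C * (Mw L : ℝ) / (Nat.log 2 L : ℝ) := by
  have hl2 : 0 < Real.log 2 := Real.log_pos (by norm_num)
  refine ⟨2 / Real.log 2, by positivity, 2 ^ 22, fun L hL => ?_⟩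
  unfold Mw
  set w := L / 2000 with hw
  set a := Nat.log 2 L with ha
  have hL0 : L ≠ 0 := by
    have : 0 < 2 ^ 22 := by positivity
    omega
  have ha22 : 22 ≤ a := by
    rw [ha]
    exact Nat.le_log_of_pow_le (by norm_num) hL
  have h2a : 2 ^ a ≤ L := Nat.pow_log_le_self 2 hL0
  have hwb : 2 ^ (a - 11) ≤ w := by
    rw [hw, Nat.le_div_iff_mul_le (by norm_num)]
    calc 2 ^ (a - 11) * 2000 ≤ 2 ^ (a - 11) * 2 ^ 11 := Nat.mul_le_mul_left _ (by norm_num)
      _ = 2 ^ a := by rw [← pow_add]; congr 1; omega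
      _ ≤ L := h2a
  have h1 : (Nat.totient (primorial w) : ℝ) = (primorial w : ℝ) *
      ∏ q ∈ (primorial w).primeFactors, (1 - (q : ℝ)⁻¹) := by
    have h := Nat.totient_eq_mul_prod_factors (primorial w)
    have h' := congrArg (fun z : ℚ => (z : ℝ)) h
    push_cast at h'
    exact h'
  have hpf : Helper52.pr 0 (2 ^ (a - 11)) ⊆ (primorial w).primeFactors := by
    intro q hq
    rw [Helper52.mem_pr] at hq
    rw [Nat.mem_primeFactors]
    exact ⟨hq.2.2, hq.2.2.dvd_primorial_iff.2 (hq.2.1.trans hwb), primorial_ne_zero w⟩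
  have h01 : ∀ q ∈ (primorial w).primeFactors, 0 ≤ 1 - (q : ℝ)⁻¹ ∧ 1 - (q : ℝ)⁻¹ ≤ 1 := by
    intro q hq
    have hq2 : (2 : ℝ) ≤ (q : ℝ) := by exact_mod_cast (Nat.prime_of_mem_primeFactors hq).two_le
    have : (q : ℝ)⁻¹ ≤ 1 := inv_le_one_of_one_le₀ (by linarith)
    have h0 : 0 ≤ (q : ℝ)⁻¹ := by positivity
    constructor <;> linarith
  have h2 : ∏ q ∈ (primorial w).primeFactors, (1 - (q : ℝ)⁻¹) ≤
      ∏ q ∈ Helper52.pr 0 (2 ^ (a - 11)), (1 - (q : ℝ)⁻¹) := by
    rw [← prod_sdiff hpf]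
    refine mul_le_of_le_one_left (prod_nonneg fun q hq => (h01 q (hpf hq)).1) ?_
    exact prod_le_one (fun q hq => (h01 q (sdiff_subset hq)).1)
      fun q hq => (h01 q (sdiff_subset hq)).2
  have h3 : ∏ q ∈ Helper52.pr 0 (2 ^ (a - 11)), (1 - (q : ℝ)⁻¹) ≤
      1 / (((a - 11 : ℕ) : ℝ) * Real.log 2) := by
    have h := Helper52.prod_upper (b := a - 11) (by omega)
    simpa only [one_div] using h
  have h4 : 1 / (((a - 11 : ℕ) : ℝ) * Real.log 2) ≤ 2 / Real.log 2 / (a : ℝ) := by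
    have h5 : (a : ℝ) ≤ 2 * ((a - 11 : ℕ) : ℝ) := by
      exact_mod_cast (by omega : a ≤ 2 * (a - 11))
    have h6 : (0 : ℝ) < (a : ℝ) := by exact_mod_cast (by omega : 0 < a)
    have h7 : (0 : ℝ) < ((a - 11 : ℕ) : ℝ) := by exact_mod_cast (by omega : 0 < a - 11)
    rw [div_div, div_le_div_iff₀ (by positivity) (by positivity)]
    nlinarith
  rw [h1]
  have h8 := mul_le_mul_of_nonneg_left (h2.trans (h3.trans h4))
    (Nat.cast_nonneg (α := ℝ) (primorial w))
  refine h8.trans (le_of_eq ?_)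
  ring

end Pool.Agent.AT
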