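import Mathlib

/-! AT: attracting primes with the repelling sieve weights. Families of Dirichlet characters to
pairwise coprime prime moduli `p i`. -/

namespace Pool.Agent.AT

open Finset

/-- families of Dirichlet characters, one for each modulus -/
abbrev Fam {ι : Type} (p : ι → ℕ) : Type := (i : ι) → DirichletCharacter ℂ (p i)

variable {ι : Type} [Fintype ι] [DecidableEq ι]

open Classical in
/-- the set of the moduli at which the family is not trivial -/
noncomputable def fsupp {p : ι → ℕ} (χ : Fam p) : Finset ι := univ.filter (fun i => χ i ≠ 1)

/-- value of the family at `m`: product of the non-trivial characters -/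
noncomputable def fch {p : ι → ℕ} (χ : Fam p) (m : ℕ) : ℂ :=
  ∏ i ∈ fsupp χ, χ i (m : ZMod (p i))

/-- the conductor -/
noncomputable def fcd {p : ι → ℕ} (χ : Fam p) : ℕ := ∏ i ∈ fsupp χ, p i

end Pool.Agent.AT
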