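import Pool.Agent.AT.Defs
import Pool.Agent.ATL.Main
import Pool.Agent.ATL.Fam

/-! AT/BV.  Block LS (helper24): large sieve with a fixed modulus + Vaughan.

Families of characters of the primes `p i` are primitive characters of squarefree moduli (`ATL.fam_prim`, `ATL.fam_inj`), so this
follows from `ATL.ls_primes` with `F = ⌊D⌋`. -/

set_option autoImplicit false

namespace Pool.Agent.AT

open Finset

theorem fcd_ge {ι : Type} [Fintype ι] [DecidableEq ι] {p : ι → ℕ} (hp : ∀ i, (p i).Prime)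
    {Q0 : ℝ} (hQ : ∀ i, Q0 ≤ p i) {χ : Fam p} (h : fsupp χ ≠ ∅) : Q0 ≤ fcd χ := by
  obtain ⟨i, hi⟩ := Finset.nonempty_iff_ne_empty.2 h
  have h1 : p i ≤ fcd χ := by
    unfold fcd
    refine Nat.le_of_dvd (Finset.prod_pos fun j _ => (hp j).pos) (Finset.dvd_prod_of_mem _ hi)
  exact (hQ i).trans (by exact_mod_cast h1)

open Classical in
theorem bv : ∃ C : ℝ, 0 < C ∧ ∃ P0 : ℕ, ∀ P : ℕ, P0 ≤ P → ∀ M a : ℕ, 0 < M →
    (M : ℝ) ≤ (P : ℝ) ^ (1 / 1000 : ℝ) → a.Coprime M →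
    ∀ (ι : Type) [Fintype ι] [DecidableEq ι] (p : ι → ℕ), (∀ i, (p i).Prime) →
    Function.Injective p → (∀ i, Nat.Coprime M (p i)) →
    ∀ Q0 D : ℝ, 1 ≤ Q0 → (∀ i, Q0 ≤ p i) → D ≤ (P : ℝ) ^ (1 / 1000 : ℝ) →
    ∑ χ ∈ (univ : Finset (Fam p)).filter (fun χ => fsupp χ ≠ ∅ ∧ (fcd χ : ℝ) ≤ D),
      (fcd χ : ℝ) ^ (-(3 / 4) : ℝ) *
        ‖∑ m ∈ (Ioc P (4 * P)).filter (fun m => m ≡ a [MOD M]),
          ((ArithmeticFunction.vonMangoldt m : ℝ) : ℂ) * fch χ m‖ ≤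
      C * (P / M) * Real.log P ^ 3 * Q0 ^ (-(3 / 4) : ℝ) := by
  obtain ⟨C, hC, P1, h⟩ := ATL.ls_primes
  refine ⟨C, hC, max P1 3, ?_⟩
  intro P hP M a hM hMP ha ι _ _ p hp hinj hcop Q0 D hQ0 hQ hD
  have hP1 : P1 ≤ P := le_trans (le_max_left _ _) hP
  have hP3 : 3 ≤ P := le_trans (le_max_right _ _) hP
  have hPr : (3 : ℝ) ≤ P := by exact_mod_cast hP3
  have hPone : (1 : ℝ) ≤ P := by linarith
  have hM0 : (0 : ℝ) < M := by exact_mod_cast hM
  have hmain := h P hP1 M ⌊D⌋₊ a P (4 * P) hM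
    (hMP.trans (Real.rpow_le_rpow_of_exponent_le hPone (by norm_num))) (by
      rcases le_or_gt 0 D with h0 | h0
      · refine (Nat.floor_le h0).trans (hD.trans ?_)
        exact Real.rpow_le_rpow_of_exponent_le hPone (by norm_num)
      · rw [Nat.floor_of_nonpos h0.le]
        simp only [Nat.cast_zero]
        positivity) ha le_rfl (by omega) le_rfl
  set S := (univ : Finset (Fam p)).filter (fun χ => fsupp χ ≠ ∅ ∧ (fcd χ : ℝ) ≤ D) with hS
  choose ψ hψ1 hψ2 using fun χ : Fam p => ATL.fam_prim hp hinj χ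
  set G : (Σ f : ℕ, DirichletCharacter ℂ f) → ℝ := fun y =>
    ‖∑ q ∈ (Ioc P (4 * P)).filter (fun q => q ≡ a [MOD M]),
      ((ArithmeticFunction.vonMangoldt q : ℝ) : ℂ) * y.2 q‖ with hG
  set e : Fam p → (Σ f : ℕ, DirichletCharacter ℂ f) := fun χ => ⟨fcd χ, ψ χ⟩ with he
  have heinj : Function.Injective e := by
    intro χ χ' hχ
    have h1 : fcd χ = fcd χ' := congrArg Sigma.fst hχ
    refine ATL.fam_inj hp hinj χ χ' h1 fun m => ?_
    rw [← hψ2 χ m, ← hψ2 χ' m]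
    have h2 : ∀ y y' : (Σ f : ℕ, DirichletCharacter ℂ f), y = y' → y.2 m = y'.2 m := by
      rintro y _ rfl
      rfl
    exact h2 _ _ hχ
  have h1 : ∑ χ ∈ S, G (e χ) ≤ ATL.ps M ⌊D⌋₊ (fun _ χ =>
      ‖∑ q ∈ (Ioc P (4 * P)).filter (fun q => q ≡ a [MOD M]),
        ((ArithmeticFunction.vonMangoldt q : ℝ) : ℂ) * χ q‖) := by
    rw [← Finset.sum_image (f := G) (fun x _ y _ hxy => heinj hxy)]
    unfold ATL.ps
    rw [Finset.sum_sigma']
    refine Finset.sum_le_sum_of_subset_of_nonneg ?_ (fun y _ _ => norm_nonneg _)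
    intro y hy
    obtain ⟨χ, hχ, rfl⟩ := Finset.mem_image.1 hy
    rw [hS, mem_filter] at hχ
    obtain ⟨-, hne, hle⟩ := hχ
    rw [mem_sigma]
    obtain ⟨i, hi⟩ := Finset.nonempty_iff_ne_empty.2 hne
    have h2 : 2 ≤ fcd χ := by
      have h3 : p i ≤ fcd χ := by
        unfold fcd
        exact Nat.le_of_dvd (Finset.prod_pos fun j _ => (hp j).pos) (Finset.dvd_prod_of_mem _ hi)
      exact (hp i).two_le.trans h3
    refine ⟨ATL.mem_mods.2 ⟨h2, Nat.le_floor hle, ?_⟩, (ATL.mem_prim (by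
      show fcd χ ≠ 0
      omega)).2 (hψ1 χ)⟩
    show (fcd χ).Coprime M
    unfold fcd
    exact Nat.Coprime.prod_left fun j _ => (hcop j).symm
  have hlog : 1 ≤ Real.log P := by
    rw [Real.le_log_iff_exp_le (by linarith)]
    linarith [Real.exp_one_lt_d9]
  have hQ0' : 0 < Q0 := by linarith
  have hQn : 0 ≤ Q0 ^ (-(3 / 4) : ℝ) := by positivity
  calc ∑ χ ∈ S, (fcd χ : ℝ) ^ (-(3 / 4) : ℝ) *
        ‖∑ m ∈ (Ioc P (4 * P)).filter (fun m => m ≡ a [MOD M]),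
          ((ArithmeticFunction.vonMangoldt m : ℝ) : ℂ) * fch χ m‖
      ≤ ∑ χ ∈ S, Q0 ^ (-(3 / 4) : ℝ) * G (e χ) := by
        refine Finset.sum_le_sum fun χ hχ => ?_
        rw [hS, mem_filter] at hχ
        have h2 := fcd_ge hp hQ hχ.2.1
        have h3 : (fcd χ : ℝ) ^ (-(3 / 4) : ℝ) ≤ Q0 ^ (-(3 / 4) : ℝ) :=
          Real.rpow_le_rpow_of_nonpos hQ0' h2 (by norm_num)
        have h4 : ‖∑ m ∈ (Ioc P (4 * P)).filter (fun m => m ≡ a [MOD M]),
            ((ArithmeticFunction.vonMangoldt m : ℝ) : ℂ) * fch χ m‖ = G (e χ) := by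
          simp only [hG, he]
          congr 1
          refine Finset.sum_congr rfl fun m _ => ?_
          rw [hψ2 χ m]
        rw [h4]
        exact mul_le_mul_of_nonneg_right h3 (norm_nonneg _)
    _ = Q0 ^ (-(3 / 4) : ℝ) * ∑ χ ∈ S, G (e χ) := by rw [Finset.mul_sum]
    _ ≤ Q0 ^ (-(3 / 4) : ℝ) * (C * Real.log P ^ 2 * (P / M)) :=
        mul_le_mul_of_nonneg_left (h1.trans hmain) hQn
    _ ≤ Q0 ^ (-(3 / 4) : ℝ) * (C * Real.log P ^ 3 * (P / M)) := by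
        have h5 : Real.log P ^ 2 ≤ Real.log P ^ 3 := pow_le_pow_right₀ hlog (by norm_num)
        have h6 : (0 : ℝ) ≤ P / M := by positivity
        gcongr
    _ = C * (P / M) * Real.log P ^ 3 * Q0 ^ (-(3 / 4) : ℝ) := by ring

end Pool.Agent.AT
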