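import Pool.Agent.RS.Abs

/-! AT/Bad.  The killed elements are hit with small weight. -/

namespace Pool.Agent.AT

open Finset Pool.Agent.RS

variable {ι κ : Type} [Fintype ι] [DecidableEq ι] [DecidableEq κ] [Fintype κ]

open Classical in
/-- PLAN: exactly as in the proof of `abstract_sieve` (RS/Abs): if no `p i` divides `n - a m` then
`∑ Yd EE n = ∑ Zm m EE n` (`rough_id`), so the left side is `≤ ∑_m ∑_t (∑ Zm m EE)^2`, and for every `m`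
`near_orth` (`Zm_supp`, `Zm_abs`) and `Zm_sum` give `≤ (6/5) T (δ^2+τ) Z + 8 D^6`. -/
theorem bad_bound {p : ι → ℕ} {M : ℕ} (hp : ∀ i, 2 ≤ p i)
    (hc : ∀ i j, i ≠ j → Nat.Coprime (p i) (p j)) (hM : ∀ i, Nat.Coprime M (p i)) (n0 : ℤ)
    (a : κ → ℤ) (hd : ∀ i j j', j ≠ j' → ¬ (p i : ℤ) ∣ a j - a j')
    (hk : ∑ i, (Fintype.card κ : ℝ) / (p i : ℝ) ^ 2 ≤ 1 / 2)
    {D D2 δ τ : ℝ} (hD : 1 ≤ D)
    (hN : ∀ S : Finset ι, PP p S ≤ D →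
      ∑ i ∈ S, (Fintype.card κ : ℝ) / ((p i : ℝ) - 1) ≤ 1 / 6)
    (y : Finset ι → ℝ) (hy0 : y ∅ = 1) (hy1 : ∀ S, |y S| ≤ 1)
    (hc1 : ∀ U, |cc p y D U| ≤ 1) (hc2 : ∀ U, PP p U ≤ D2 → |cc p y D U| ≤ δ)
    (htail : ∑ σ ∈ (univ : Finset (ι → Option κ)).filter (fun σ => D2 < PP p (supp σ)),
        Yd p y D σ ^ 2 / PH p (supp σ) ≤
      τ * ∑ σ : ι → Option κ, Yd p y D σ ^ 2 / PH p (supp σ)) (T : ℕ) :
    ∑ t ∈ (range T).filter (fun t : ℕ => ∃ j, ∀ i, ¬ (p i : ℤ) ∣ n0 + M * (t : ℤ) - a j),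
      (∑ σ, Yd p y D σ * EE p a σ (n0 + M * (t : ℤ))) ^ 2 ≤
    (Fintype.card κ : ℝ) * (6 / 5 * (T * ((δ ^ 2 + τ) *
      ∑ σ : ι → Option κ, Yd p y D σ ^ 2 / PH p (supp σ))) + 8 * D ^ 6) := by
  have hD0 : 0 ≤ D := by linarith
  set ZZ : ℝ := ∑ σ : ι → Option κ, Yd p y D σ ^ 2 / PH p (supp σ) with hZZ
  have hT0 : (0 : ℝ) ≤ T := Nat.cast_nonneg _
  have hB : ∀ m : κ, _ := fun m => near_orth hp hc hM n0 a hd hk hD0 hN (Zm p y D m)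
    (Zm_abs y hy1 hc1 m) (Zm_supp hp y m) T
  have hZs := fun m : κ => Zm_sum hp y hc1 hc2 htail m
  have hpt : ∀ t ∈ (range T).filter
      (fun t : ℕ => ∃ j, ∀ i, ¬ (p i : ℤ) ∣ n0 + M * (t : ℤ) - a j),
      (∑ σ, Yd p y D σ * EE p a σ (n0 + M * (t : ℤ))) ^ 2 ≤
      ∑ m : κ, (∑ σ, Zm p y D m σ * EE p a σ (n0 + M * (t : ℤ))) ^ 2 := by
    intro t ht
    obtain ⟨m, hm⟩ := (Finset.mem_filter.mp ht).2
    rw [rough_id hp a y hy0 m (n0 + M * t) hm]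
    exact Finset.single_le_sum
      (f := fun m : κ => (∑ σ, Zm p y D m σ * EE p a σ (n0 + M * (t : ℤ))) ^ 2)
      (fun m _ => sq_nonneg _) (Finset.mem_univ m)
  have hsum : ∑ t ∈ (range T).filter
      (fun t : ℕ => ∃ j, ∀ i, ¬ (p i : ℤ) ∣ n0 + M * (t : ℤ) - a j),
      (∑ σ, Yd p y D σ * EE p a σ (n0 + M * (t : ℤ))) ^ 2 ≤
      ∑ m : κ, ∑ t ∈ range T, (∑ σ, Zm p y D m σ * EE p a σ (n0 + M * (t : ℤ))) ^ 2 := by
    rw [Finset.sum_comm]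
    refine (Finset.sum_le_sum hpt).trans ?_
    exact Finset.sum_le_sum_of_subset_of_nonneg (Finset.filter_subset _ _)
      fun t _ _ => Finset.sum_nonneg fun m _ => sq_nonneg _
  have hm : ∀ m ∈ (univ : Finset κ),
      ∑ t ∈ range T, (∑ σ, Zm p y D m σ * EE p a σ (n0 + M * (t : ℤ))) ^ 2 ≤
        6 / 5 * (T * ((δ ^ 2 + τ) * ZZ)) + 8 * D ^ 6 := by
    intro m _
    have h1 := (abs_le.mp (hB m)).2
    have h2 := hZs m
    rw [← hZZ] at h2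
    have h3 : (T : ℝ) * ∑ σ, Zm p y D m σ ^ 2 / PH p (supp σ) ≤ T * ((δ ^ 2 + τ) * ZZ) :=
      mul_le_mul_of_nonneg_left h2 hT0
    linarith
  have hm2 := Finset.sum_le_sum hm
  rw [Finset.sum_const, Finset.card_univ, nsmul_eq_mul] at hm2
  exact hsum.trans hm2

end Pool.Agent.AT
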