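import Pool.Agent.AT.Loc

/-! AT/Exp.  Expansion of the square of a weight in families of characters. -/

namespace Pool.Agent.AT

open Finset Pool.Agent.RS

variable {ι κ : Type} [Fintype ι] [DecidableEq ι] [DecidableEq κ] [Fintype κ]

/-- the coefficient of the family `χ` -/
noncomputable def cf (p : ι → ℕ) (a : κ → ℤ) (a0 : ℤ) (Y : (ι → Option κ) → ℝ) (χ : Fam p) : ℂ :=
  ∑ σ : ι → Option κ, ∑ σ' : ι → Option κ,
    ((Y σ * Y σ' : ℝ) : ℂ) * ∏ i, LC (p i) a a0 (σ i) (σ' i) (χ i)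

/-- the value of a family at `m` is the product of the values of all its characters -/
theorem fch_eq {p : ι → ℕ} (hp : ∀ i, (p i).Prime) (χ : Fam p) {m : ℕ} (hm : ∀ i, ¬ p i ∣ m) :
    fch χ m = ∏ i, χ i (m : ZMod (p i)) := by
  classical
  unfold fch
  refine prod_subset (subset_univ _) fun i _ hi => ?_
  have h1 : χ i = 1 := by
    by_contra h
    exact hi (by unfold fsupp; exact mem_filter.2 ⟨mem_univ i, h⟩)
  rw [h1]
  exact MulChar.one_apply ((ZMod.isUnit_iff_coprime m (p i)).2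
    (((hp i).coprime_iff_not_dvd.2 (hm i)).symm))

/-- the square of a weight is a combination of families of characters -/
theorem sq_exp {p : ι → ℕ} (hp : ∀ i, (p i).Prime) (a : κ → ℤ) (a0 : ℤ)
    (Y : (ι → Option κ) → ℝ) {m : ℕ} (hm : ∀ i, ¬ p i ∣ m) :
    ((((∑ σ : ι → Option κ, Y σ * EE p a σ ((m : ℤ) + a0)) ^ 2 : ℝ)) : ℂ) =
      ∑ χ : Fam p, cf p a a0 Y χ * fch χ m := by
  classical
  have h1 : ∀ σ σ' : ι → Option κ,
      ((EE p a σ ((m : ℤ) + a0) * EE p a σ' ((m : ℤ) + a0) : ℝ) : ℂ) =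
        ∑ χ : Fam p, (∏ i, LC (p i) a a0 (σ i) (σ' i) (χ i)) * fch χ m := by
    intro σ σ'
    unfold EE
    rw [← prod_mul_distrib, Complex.ofReal_prod]
    rw [prod_congr rfl fun i _ => loc_exp (hp i) a a0 (σ i) (σ' i) (hm i), prod_univ_sum,
      Fintype.piFinset_univ]
    refine sum_congr rfl fun χ _ => ?_
    rw [prod_mul_distrib, fch_eq hp χ hm]
  have h2 : ((((∑ σ : ι → Option κ, Y σ * EE p a σ ((m : ℤ) + a0)) ^ 2 : ℝ)) : ℂ) =
      ∑ σ : ι → Option κ, ∑ σ' : ι → Option κ, ((Y σ * Y σ' : ℝ) : ℂ) *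
        ((EE p a σ ((m : ℤ) + a0) * EE p a σ' ((m : ℤ) + a0) : ℝ) : ℂ) := by
    rw [sq, sum_mul_sum, Complex.ofReal_sum]
    refine sum_congr rfl fun σ _ => ?_
    rw [Complex.ofReal_sum]
    refine sum_congr rfl fun σ' _ => ?_
    rw [← Complex.ofReal_mul]
    congr 1
    ring
  rw [h2]
  simp only [h1, mul_sum]
  have h3 : ∀ σ : ι → Option κ, ∑ σ' : ι → Option κ, ∑ χ : Fam p, ((Y σ * Y σ' : ℝ) : ℂ) *
      ((∏ i, LC (p i) a a0 (σ i) (σ' i) (χ i)) * fch χ m) =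
      ∑ χ : Fam p, ∑ σ' : ι → Option κ, ((Y σ * Y σ' : ℝ) : ℂ) *
      ((∏ i, LC (p i) a a0 (σ i) (σ' i) (χ i)) * fch χ m) := fun σ => sum_comm
  simp only [h3]
  rw [sum_comm]
  refine sum_congr rfl fun χ _ => ?_
  unfold cf
  rw [sum_mul]
  refine sum_congr rfl fun σ _ => ?_
  rw [sum_mul]
  refine sum_congr rfl fun σ' _ => ?_
  ring

/-- the coefficients of the families with large conductor vanish -/
theorem cf_zero {p : ι → ℕ} (hp : ∀ i, (p i).Prime) (a : κ → ℤ) (a0 : ℤ)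
    (hLC : ∀ i, ∀ χ : DirichletCharacter ℂ (p i), χ ≠ 1 → LC (p i) a a0 none none χ = 0)
    {Y : (ι → Option κ) → ℝ} {D : ℝ} (hD : 0 ≤ D) (hY : ∀ σ, Y σ ≠ 0 → PP p (supp σ) ≤ D)
    (χ : Fam p) (hχ : D ^ 2 < fcd χ) : cf p a a0 Y χ = 0 := by
  classical
  unfold cf
  refine sum_eq_zero fun σ _ => sum_eq_zero fun σ' _ => ?_
  by_contra hne
  have hYY : Y σ * Y σ' ≠ 0 := by
    intro h
    apply hne
    rw [h, Complex.ofReal_zero, zero_mul]
  have hprod : ∏ i, LC (p i) a a0 (σ i) (σ' i) (χ i) ≠ 0 := by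
    intro h
    apply hne
    rw [h, mul_zero]
  have hsub : fsupp χ ⊆ supp σ ∪ supp σ' := by
    intro i hi
    unfold fsupp at hi
    rw [mem_filter] at hi
    by_contra h
    unfold supp at h
    rw [mem_union, mem_filter, mem_filter, not_or] at h
    have h1 : σ i = none := by
      by_contra h2
      exact h.1 ⟨mem_univ i, h2⟩
    have h2 : σ' i = none := by
      by_contra h3
      exact h.2 ⟨mem_univ i, h3⟩
    apply hprod
    refine prod_eq_zero (mem_univ i) ?_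
    rw [h1, h2]
    exact hLC i (χ i) hi.2
  have hone : ∀ i, (1 : ℝ) ≤ p i := fun i => by exact_mod_cast (hp i).one_lt.le
  have h4 : (fcd χ : ℝ) ≤ PP p (supp σ) * PP p (supp σ') := by
    have h5 : (fcd χ : ℝ) = ∏ i ∈ fsupp χ, (p i : ℝ) := by
      unfold fcd
      push_cast
      rfl
    rw [h5]
    have h6 : ∏ i ∈ fsupp χ, (p i : ℝ) ≤ ∏ i ∈ supp σ ∪ supp σ', (p i : ℝ) := by
      rw [← prod_sdiff hsub]
      exact le_mul_of_one_le_left (prod_nonneg fun i _ => by positivity)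
        (prod_induction _ (fun x => (1 : ℝ) ≤ x)
          (fun x y hx hy => one_le_mul_of_one_le_of_one_le hx hy) le_rfl fun i _ => hone i)
    refine h6.trans ?_
    unfold PP
    rw [← prod_union_inter]
    have h7 : (1 : ℝ) ≤ ∏ i ∈ supp σ ∩ supp σ', (p i : ℝ) :=
      prod_induction _ (fun x => (1 : ℝ) ≤ x) (fun x y hx hy => one_le_mul_of_one_le_of_one_le hx hy)
        le_rfl fun i _ => hone i
    have h8 : (0 : ℝ) ≤ ∏ i ∈ supp σ ∪ supp σ', (p i : ℝ) := prod_nonneg fun i _ => by positivity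
    nlinarith
  have h9 := hY σ (left_ne_zero_of_mul hYY)
  have h10 := hY σ' (right_ne_zero_of_mul hYY)
  have h11 : 0 ≤ PP p (supp σ') := prod_nonneg fun i _ => by positivity
  have h12 : PP p (supp σ) * PP p (supp σ') ≤ D * D := mul_le_mul h9 h10 h11 hD
  rw [sq] at hχ
  linarith

end Pool.Agent.AT
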