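import Pool.Agent.AT.LocB
import Pool.Agent.AT.Exp
import Pool.Agent.RS.Decomp

/-! AT/C1.  Near orthogonality on the classes prime to the moduli, shifted by `a0`. -/

namespace Pool.Agent.AT

open Finset Pool.Agent.RS

variable {ι κ : Type} [Fintype ι] [DecidableEq ι] [DecidableEq κ] [Fintype κ]

omit [DecidableEq ι] [DecidableEq κ] [Fintype κ] in
private theorem u_ge {p : ι → ℕ} (h3 : ∀ i, 3 ≤ p i) (i : ι) : (2 : ℝ) ≤ (p i : ℝ) - 1 := by
  have : (3 : ℝ) ≤ p i := by exact_mod_cast h3 i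
  linarith

omit [DecidableEq ι] [DecidableEq κ] [Fintype κ] in
private theorem prod_supp (σ : ι → Option κ) (f : ι → ℝ) [DecidablePred fun i => i ∈ supp σ] :
    ∏ i, (if i ∈ supp σ then f i else 1) = ∏ i ∈ supp σ, f i := by
  rw [← Finset.prod_filter]
  refine prod_congr ?_ fun _ _ => rfl
  ext i
  simp

/-- row sums.  PLAN: `∑_{σ'} ∏ = ∏ ∑` (`Finset.prod_univ_sum`, `Fintype.piFinset_univ`); with
`k = card κ`, `u = p i - 1`: at `i ∉ supp σ` the sum over `o'` is `≤ 1 + k/u^2`; at `i ∈ supp σ` it is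
`≤ 1/u^2 + (1/u)(1+1/u) + 4k/u^2 ≤ (1/u)(1 + (4k+2)/u)` and `(4k+2)/u ≤ 6k/u` (`k ≥ 1` there);
`∏ (1+x_i) ≤ exp(∑ x_i)`, `∑ k/u^2 ≤ 1/100`, `∑_{supp} 6k/u ≤ 6/100`, `exp(7/100) ≤ 11/10`. -/
theorem row_sum {p : ι → ℕ} (hp : ∀ i, (p i).Prime) (h3 : ∀ i, 3 ≤ p i) (a : κ → ℤ) (a0 : ℤ)
    (h0 : ∀ i j, ¬ (p i : ℤ) ∣ a j - a0) (hd : ∀ i j j', j ≠ j' → ¬ (p i : ℤ) ∣ a j - a j')
    (hk : ∑ i, (Fintype.card κ : ℝ) / ((p i : ℝ) - 1) ^ 2 ≤ 1 / 100) (σ : ι → Option κ)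
    (hσ : ∑ i ∈ supp σ, (Fintype.card κ : ℝ) / ((p i : ℝ) - 1) ≤ 1 / 100) :
    ∑ σ' : ι → Option κ, ∏ i, |GE (p i) a a0 (σ i) (σ' i)| ≤ 11 / 10 * (1 / PH p (supp σ)) := by
  classical
  obtain ⟨k, hke⟩ : ∃ k : ℝ, k = (Fintype.card κ : ℝ) := ⟨_, rfl⟩
  have hk0 : 0 ≤ k := by rw [hke]; exact Nat.cast_nonneg _
  have h1 : ∑ σ' : ι → Option κ, ∏ i, |GE (p i) a a0 (σ i) (σ' i)| =
      ∏ i, ∑ o' : Option κ, |GE (p i) a a0 (σ i) o'| := by
    rw [Finset.prod_univ_sum, Fintype.piFinset_univ]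
  have h2 : ∀ i, ∑ o' : Option κ, |GE (p i) a a0 (σ i) o'| ≤
      (if i ∈ supp σ then 1 / ((p i : ℝ) - 1) else 1) *
        Real.exp (k / ((p i : ℝ) - 1) ^ 2 +
          (if i ∈ supp σ then 6 * (k / ((p i : ℝ) - 1)) else 0)) := by
    intro i
    have hu := u_ge h3 i
    obtain ⟨u, hue⟩ : ∃ u : ℝ, u = (p i : ℝ) - 1 := ⟨_, rfl⟩
    rw [← hue] at hu
    have hu0 : 0 < u := by linarith
    rw [Fintype.sum_option, ← hue]
    by_cases hi : i ∈ supp σ
    · rw [if_pos hi, if_pos hi]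
      rw [mem_supp] at hi
      obtain ⟨j, hj⟩ := Option.ne_none_iff_exists'.1 hi
      have hk1 : 1 ≤ k := by
        have : 1 ≤ Fintype.card κ := Fintype.card_pos_iff.2 ⟨j⟩
        rw [hke]
        exact_mod_cast this
      rw [hj, ← Finset.add_sum_erase univ _ (mem_univ j)]
      have e1 : |GE (p i) a a0 (some j) none| ≤ 1 / u ^ 2 := by
        rw [GE_symm, hue]
        exact GE_none_some (hp i) (h3 i) a a0 (h0 i) j
      have e2 : |GE (p i) a a0 (some j) (some j)| ≤ 1 / u * (1 + 1 / u) := by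
        have := GE_same (hp i) (h3 i) a a0 (h0 i) j
        rw [← hue] at this
        rw [abs_of_nonneg ((by positivity : 0 ≤ 1 / u).trans this.1)]
        exact this.2
      have e3 : ∑ j' ∈ univ.erase j, |GE (p i) a a0 (some j) (some j')| ≤ k * (4 / u ^ 2) := by
        have h4 : ∑ j' ∈ univ.erase j, |GE (p i) a a0 (some j) (some j')| ≤
            (univ.erase j).card • (4 / u ^ 2) := by
          refine sum_le_card_nsmul _ _ _ fun j' hj' => ?_
          rw [hue]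
          exact GE_diff (hp i) (h3 i) a a0 (h0 i) (hd i) (ne_of_mem_erase hj').symm
        refine h4.trans ?_
        rw [nsmul_eq_mul]
        refine mul_le_mul_of_nonneg_right ?_ (by positivity)
        rw [hke]
        have : (univ.erase j).card ≤ Fintype.card κ := card_le_univ _
        exact_mod_cast this
      have e4 : 1 / u ^ 2 + (1 / u * (1 + 1 / u) + k * (4 / u ^ 2)) ≤
          1 / u * (1 + 6 * (k / u)) := by
        have e : 1 / u * (1 + 6 * (k / u)) -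
            (1 / u ^ 2 + (1 / u * (1 + 1 / u) + k * (4 / u ^ 2))) = 2 * (k - 1) / u ^ 2 := by
          field_simp
          ring
        have : 0 ≤ 2 * (k - 1) / u ^ 2 := div_nonneg (by linarith) (by positivity)
        linarith
      have e5 : 1 + 6 * (k / u) ≤ Real.exp (k / u ^ 2 + 6 * (k / u)) := by
        have h5 := Real.add_one_le_exp (k / u ^ 2 + 6 * (k / u))
        have h6 : 0 ≤ k / u ^ 2 := by positivity
        linarith
      calc _ ≤ 1 / u ^ 2 + (1 / u * (1 + 1 / u) + k * (4 / u ^ 2)) :=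
            add_le_add e1 (add_le_add e2 e3)
        _ ≤ 1 / u * (1 + 6 * (k / u)) := e4
        _ ≤ _ := mul_le_mul_of_nonneg_left e5 (by positivity)
    · rw [if_neg hi, if_neg hi, one_mul, add_zero]
      rw [mem_supp, not_not] at hi
      rw [hi, GE_none_none (hp i), abs_one]
      have e3 : ∑ j', |GE (p i) a a0 none (some j')| ≤ k * (1 / u ^ 2) := by
        have h4 : ∑ j', |GE (p i) a a0 none (some j')| ≤
            (univ : Finset κ).card • (1 / u ^ 2) := by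
          refine sum_le_card_nsmul _ _ _ fun j' _ => ?_
          rw [hue]
          exact GE_none_some (hp i) (h3 i) a a0 (h0 i) j'
        rw [nsmul_eq_mul, card_univ, ← hke] at h4
        exact h4
      have h5 := Real.add_one_le_exp (k / u ^ 2)
      have e : k * (1 / u ^ 2) = k / u ^ 2 := by ring
      linarith
  have h4 : ∏ i, ∑ o' : Option κ, |GE (p i) a a0 (σ i) o'| ≤
      ∏ i, ((if i ∈ supp σ then 1 / ((p i : ℝ) - 1) else 1) *
        Real.exp (k / ((p i : ℝ) - 1) ^ 2 +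
          (if i ∈ supp σ then 6 * (k / ((p i : ℝ) - 1)) else 0))) :=
    prod_le_prod (fun i _ => sum_nonneg fun _ _ => abs_nonneg _) fun i _ => h2 i
  have hPH : ∏ i ∈ supp σ, (1 / ((p i : ℝ) - 1)) = 1 / PH p (supp σ) := by
    unfold PH
    rw [prod_div_distrib, prod_const_one]
  have hPH0 : 0 ≤ 1 / PH p (supp σ) := by
    rw [← hPH]
    exact prod_nonneg fun i _ => by
      have := u_ge h3 i
      positivity
  rw [h1]
  refine h4.trans ?_
  rw [prod_mul_distrib, prod_supp, hPH, ← Real.exp_sum, sum_add_distrib, Finset.sum_ite_mem,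
    Finset.univ_inter, ← mul_sum, mul_comm (11 / 10 : ℝ)]
  refine mul_le_mul_of_nonneg_left ?_ hPH0
  rw [← hke] at hk hσ
  have h5 : Real.exp (∑ i, k / ((p i : ℝ) - 1) ^ 2 +
      6 * ∑ i ∈ supp σ, k / ((p i : ℝ) - 1)) ≤ Real.exp (1 / 12) :=
    Real.exp_le_exp.2 (by linarith)
  refine h5.trans ?_
  have h8 := Real.one_sub_le_exp_neg (1 / 12 : ℝ)
  rw [Real.exp_neg] at h8
  have h9 := Real.exp_pos (1 / 12 : ℝ)
  have h10 : (1 - 1 / 12) * Real.exp (1 / 12) ≤ (Real.exp (1 / 12))⁻¹ * Real.exp (1 / 12) :=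
    mul_le_mul_of_nonneg_right h8 h9.le
  rw [inv_mul_cancel₀ h9.ne'] at h10
  linarith

private theorem quad_ge {α : Type*} [Fintype α] [DecidableEq α] (A : α → α → ℝ)
    (hA : ∀ i j, A i j = A j i) (hd : ∀ i, 0 ≤ A i i) (Y : α → ℝ) :
    ∑ i, Y i ^ 2 * (2 * A i i - ∑ j, |A i j|) ≤ ∑ i, ∑ j, Y i * Y j * A i j := by
  have h1 : ∑ i, ∑ j, ((if i = j then 2 * Y i ^ 2 * A i i else 0) -
      |A i j| * Y i ^ 2 / 2 - |A i j| * Y j ^ 2 / 2) ≤ ∑ i, ∑ j, Y i * Y j * A i j := by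
    refine sum_le_sum fun i _ => sum_le_sum fun j _ => ?_
    by_cases h : i = j
    · subst h
      rw [if_pos rfl, abs_of_nonneg (hd i)]
      apply le_of_eq
      ring
    · rw [if_neg h]
      have h4 : |Y i * Y j| ≤ (Y i ^ 2 + Y j ^ 2) / 2 := by
        rw [abs_mul]
        nlinarith [sq_nonneg (|Y i| - |Y j|), sq_abs (Y i), sq_abs (Y j)]
      have h5 : |Y i * Y j * A i j| ≤ (Y i ^ 2 + Y j ^ 2) / 2 * |A i j| := by
        rw [abs_mul]
        exact mul_le_mul_of_nonneg_right h4 (abs_nonneg _)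
      have h6 := neg_abs_le (Y i * Y j * A i j)
      linarith
  have h2 : ∑ i, ∑ j, |A i j| * Y j ^ 2 / 2 = ∑ i, ∑ j, |A i j| * Y i ^ 2 / 2 := by
    rw [sum_comm]
    refine sum_congr rfl fun i _ => sum_congr rfl fun j _ => ?_
    rw [hA j i]
  refine le_trans (le_of_eq ?_) h1
  simp only [sum_sub_distrib]
  rw [h2, ← sum_sub_distrib, ← sum_sub_distrib]
  refine sum_congr rfl fun i _ => ?_
  rw [Finset.sum_ite_eq univ i, if_pos (mem_univ i)]
  have h3 : ∑ j, |A i j| * Y i ^ 2 / 2 = (∑ j, |A i j|) * Y i ^ 2 / 2 := by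
    rw [sum_mul, sum_div]
  rw [h3]
  ring

/-- PLAN: `∑∑ Y Y' ∏ GE ≥ ∑_σ Y^2 (∏ GE(σ,σ)) - ∑_σ Y^2 (row sum - ∏ GE(σ,σ))` (symmetry and
`2|xy| ≤ x^2+y^2`, as in `quad` of RS/Schur), `∏ GE(σ i, σ i) ≥ 1/PH` (`GE_none_none`, `GE_same`), so
it is `≥ (1 - 1/10) ∑ Y^2/PH`.  And `cf 1` is this real number: `LC_one`. -/
theorem cf_one_ge {p : ι → ℕ} (hp : ∀ i, (p i).Prime) (h3 : ∀ i, 3 ≤ p i) (a : κ → ℤ) (a0 : ℤ)
    (h0 : ∀ i j, ¬ (p i : ℤ) ∣ a j - a0) (hd : ∀ i j j', j ≠ j' → ¬ (p i : ℤ) ∣ a j - a j')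
    (hk : ∑ i, (Fintype.card κ : ℝ) / ((p i : ℝ) - 1) ^ 2 ≤ 1 / 100) (Y : (ι → Option κ) → ℝ)
    (hN : ∀ σ, Y σ ≠ 0 → ∑ i ∈ supp σ, (Fintype.card κ : ℝ) / ((p i : ℝ) - 1) ≤ 1 / 100) :
    4 / 5 * ∑ σ : ι → Option κ, Y σ ^ 2 / PH p (supp σ) ≤ (cf p a a0 Y (fun _ => 1)).re := by
  classical
  have hcf : (cf p a a0 Y (fun _ => 1)).re =
      ∑ σ : ι → Option κ, ∑ σ' : ι → Option κ,
        Y σ * Y σ' * ∏ i, GE (p i) a a0 (σ i) (σ' i) := by
    have e : cf p a a0 Y (fun _ => 1) = ((∑ σ : ι → Option κ, ∑ σ' : ι → Option κ,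
        Y σ * Y σ' * ∏ i, GE (p i) a a0 (σ i) (σ' i) : ℝ) : ℂ) := by
      unfold cf
      rw [Complex.ofReal_sum]
      refine sum_congr rfl fun σ _ => ?_
      rw [Complex.ofReal_sum]
      refine sum_congr rfl fun σ' _ => ?_
      rw [Complex.ofReal_mul (Y σ * Y σ'), Complex.ofReal_prod]
      congr 1
      refine prod_congr rfl fun i _ => ?_
      exact LC_one (hp i) a a0 (σ i) (σ' i)
    rw [e, Complex.ofReal_re]
  have hPH0 : ∀ σ : ι → Option κ, 0 < 1 / PH p (supp σ) := fun σ => by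
    have : 0 < PH p (supp σ) := prod_pos fun i _ => by
      have := u_ge h3 i
      linarith
    positivity
  have hdiag : ∀ σ : ι → Option κ, 1 / PH p (supp σ) ≤ ∏ i, GE (p i) a a0 (σ i) (σ i) := by
    intro σ
    have hPH : ∏ i ∈ supp σ, (1 / ((p i : ℝ) - 1)) = 1 / PH p (supp σ) := by
      unfold PH
      rw [prod_div_distrib, prod_const_one]
    rw [← hPH, ← prod_supp σ (fun i => 1 / ((p i : ℝ) - 1))]
    refine prod_le_prod (fun i _ => ?_) fun i _ => ?_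
    · have := u_ge h3 i
      split_ifs
      · positivity
      · exact zero_le_one
    · by_cases hi : i ∈ supp σ
      · rw [if_pos hi]
        rw [mem_supp] at hi
        obtain ⟨j, hj⟩ := Option.ne_none_iff_exists'.1 hi
        rw [hj]
        exact (GE_same (hp i) (h3 i) a a0 (h0 i) j).1
      · rw [if_neg hi]
        rw [mem_supp, not_not] at hi
        rw [hi, GE_none_none (hp i)]
  have hquad := quad_ge (fun σ σ' : ι → Option κ => ∏ i, GE (p i) a a0 (σ i) (σ' i))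
    (fun σ σ' => prod_congr rfl fun i _ => GE_symm _ _ _ _ _)
    (fun σ => (hPH0 σ).le.trans (hdiag σ)) Y
  rw [hcf]
  refine le_trans ?_ hquad
  rw [mul_sum]
  refine sum_le_sum fun σ _ => ?_
  by_cases hY : Y σ = 0
  · rw [hY]
    simp
  · have h1 := row_sum hp h3 a a0 h0 hd hk σ (hN σ hY)
    have h2 : ∑ σ' : ι → Option κ, |∏ i, GE (p i) a a0 (σ i) (σ' i)| =
        ∑ σ' : ι → Option κ, ∏ i, |GE (p i) a a0 (σ i) (σ' i)| :=
      sum_congr rfl fun σ' _ => abs_prod _ _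
    rw [h2]
    have h4 := hdiag σ
    have h5 := hPH0 σ
    have h6 : 4 / 5 * (1 / PH p (supp σ)) ≤ 2 * ∏ i, GE (p i) a a0 (σ i) (σ i) -
        ∑ σ' : ι → Option κ, ∏ i, |GE (p i) a a0 (σ i) (σ' i)| := by linarith
    calc 4 / 5 * (Y σ ^ 2 / PH p (supp σ)) = Y σ ^ 2 * (4 / 5 * (1 / PH p (supp σ))) := by ring
      _ ≤ _ := mul_le_mul_of_nonneg_left h6 (sq_nonneg _)

end Pool.Agent.AT
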