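import Pool.Agent.AT.CdL

/-! AT/Cd.  DECAY of the coefficients in the conductor: the new point of the project. -/

namespace Pool.Agent.AT

open Finset Pool.Agent.RS

variable {ι κ : Type} [Fintype ι] [DecidableEq ι] [DecidableEq κ] [Fintype κ]

/-- symmetric bound: `∑∑ |Y||Y'| G ≤ ∑ Y² (row sum)` for symmetric `G ≥ 0` -/
private theorem sym_bound {A : Type} [Fintype A] (Y : A → ℝ) (G : A → A → ℝ)
    (hG : ∀ x y, 0 ≤ G x y) (hs : ∀ x y, G x y = G y x) :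
    ∑ x, ∑ y, |Y x| * |Y y| * G x y ≤ ∑ x, Y x ^ 2 * ∑ y, G x y := by
  have h1 : ∀ x y, |Y x| * |Y y| * G x y ≤ Y x ^ 2 * G x y / 2 + Y y ^ 2 * G x y / 2 := by
    intro x y
    have h2 : |Y x| * |Y y| ≤ (Y x ^ 2 + Y y ^ 2) / 2 := by
      have h3 := sq_nonneg (|Y x| - |Y y|)
      have h4 : |Y x| ^ 2 = Y x ^ 2 := sq_abs _
      have h5 : |Y y| ^ 2 = Y y ^ 2 := sq_abs _
      nlinarith
    calc |Y x| * |Y y| * G x y ≤ (Y x ^ 2 + Y y ^ 2) / 2 * G x y :=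
          mul_le_mul_of_nonneg_right h2 (hG x y)
      _ = _ := by ring
  have h6 : ∑ x, ∑ y, Y y ^ 2 * G x y / 2 = ∑ x, ∑ y, Y x ^ 2 * G x y / 2 := by
    rw [sum_comm]
    refine sum_congr rfl fun x _ => sum_congr rfl fun y _ => ?_
    rw [hs y x]
  calc ∑ x, ∑ y, |Y x| * |Y y| * G x y
      ≤ ∑ x, ∑ y, (Y x ^ 2 * G x y / 2 + Y y ^ 2 * G x y / 2) :=
        sum_le_sum fun x _ => sum_le_sum fun y _ => h1 x y
    _ = ∑ x, ∑ y, Y x ^ 2 * G x y / 2 + ∑ x, ∑ y, Y y ^ 2 * G x y / 2 := by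
        simp only [sum_add_distrib]
    _ = ∑ x, Y x ^ 2 * ∑ y, G x y := by
        rw [h6, ← sum_add_distrib]
        refine sum_congr rfl fun x _ => ?_
        rw [← sum_add_distrib, mul_sum]
        refine sum_congr rfl fun y _ => ?_
        ring

omit [DecidableEq κ] [Fintype κ] in
/-- product formula for a double sum over two boxes -/
private theorem box_sum (L : ι → Option κ → Option κ → ℝ) (t t' : ι → Finset (Option κ)) :
    ∑ σ ∈ Fintype.piFinset t, ∑ σ' ∈ Fintype.piFinset t', ∏ i, L i (σ i) (σ' i) =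
      ∏ i, ∑ o ∈ t i, ∑ o' ∈ t' i, L i o o' := by
  calc ∑ σ ∈ Fintype.piFinset t, ∑ σ' ∈ Fintype.piFinset t', ∏ i, L i (σ i) (σ' i)
      = ∑ σ ∈ Fintype.piFinset t, ∏ i, ∑ o' ∈ t' i, L i (σ i) o' :=
        sum_congr rfl fun σ _ => (prod_univ_sum t' fun i o' => L i (σ i) o').symm
    _ = _ := (prod_univ_sum t fun i o => ∑ o' ∈ t' i, L i o o').symm

/-- grouping of the pairs of assignments by their erasures -/
private theorem group (S : Finset ι) (Y : (ι → Option κ) → ℝ) (L : ι → Option κ → Option κ → ℝ)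
    (G : ι → Option κ → Option κ → ℝ) (C : ι → ℝ) (hL : ∀ i o o', 0 ≤ L i o o')
    (hG : ∀ i o o', 0 ≤ G i o o') (hC : ∀ i ∈ S, 0 ≤ C i)
    (hout : ∀ i, i ∉ S → ∀ o o', L i o o' ≤ G i o o')
    (hin : ∀ i ∈ S, ∑ o, ∑ o', L i o o' ≤ G i none none * C i) :
    ∑ σ, ∑ σ', |Y (eraS S σ)| * |Y (eraS S σ')| * ∏ i, L i (σ i) (σ' i) ≤
      (∑ τ, ∑ τ', |Y τ| * |Y τ'| * ∏ i, G i (τ i) (τ' i)) * ∏ i ∈ S, C i := by
  classical
  have hfib : ∀ f : (ι → Option κ) → ℝ,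
      ∑ τ, ∑ σ ∈ univ.filter (fun σ : ι → Option κ => eraS S σ = τ), f σ = ∑ σ, f σ :=
    fun f => sum_fiberwise univ (fun σ => eraS S σ) f
  have h1 : ∑ σ, ∑ σ', |Y (eraS S σ)| * |Y (eraS S σ')| * ∏ i, L i (σ i) (σ' i) =
      ∑ τ, ∑ τ', ∑ σ ∈ univ.filter (fun σ : ι → Option κ => eraS S σ = τ),
        ∑ σ' ∈ univ.filter (fun σ : ι → Option κ => eraS S σ = τ'),
          |Y (eraS S σ)| * |Y (eraS S σ')| * ∏ i, L i (σ i) (σ' i) := by
    rw [← hfib]
    refine sum_congr rfl fun τ _ => ?_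
    conv_rhs => rw [sum_comm]
    refine sum_congr rfl fun σ _ => ?_
    rw [← hfib]
  rw [h1, sum_mul]
  refine sum_le_sum fun τ _ => ?_
  rw [sum_mul]
  refine sum_le_sum fun τ' _ => ?_
  have hCS : 0 ≤ ∏ i ∈ S, C i := prod_nonneg hC
  have hR0 : 0 ≤ |Y τ| * |Y τ'| * (∏ i, G i (τ i) (τ' i)) * ∏ i ∈ S, C i :=
    mul_nonneg (mul_nonneg (mul_nonneg (abs_nonneg _) (abs_nonneg _))
      (prod_nonneg fun i _ => hG i _ _)) hCS
  -- a fibre is empty unless the assignment vanishes on `S`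
  have hemp : ∀ τ : ι → Option κ, (¬ ∀ i ∈ S, τ i = none) →
      univ.filter (fun σ : ι → Option κ => eraS S σ = τ) = ∅ := by
    intro τ hτ
    refine filter_eq_empty_iff.2 fun σ _ hσ => hτ fun i hi => ?_
    rw [← hσ]
    simp [eraS, hi]
  by_cases hτ : ∀ i ∈ S, τ i = none
  · by_cases hτ' : ∀ i ∈ S, τ' i = none
    · set t : (ι → Option κ) → ι → Finset (Option κ) :=
        fun τ i => if i ∈ S then univ else {τ i} with ht
      have hsub : ∀ τ : ι → Option κ, univ.filter (fun σ : ι → Option κ => eraS S σ = τ) ⊆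
          Fintype.piFinset (t τ) := by
        intro τ σ hσ
        rw [mem_filter] at hσ
        rw [Fintype.mem_piFinset]
        intro i
        by_cases hi : i ∈ S
        · simp [ht, hi]
        · have : τ i = σ i := by
            rw [← hσ.2]
            simp [eraS, hi]
          simp [ht, hi, this]
      have hP : ∀ σ σ' : ι → Option κ, 0 ≤ ∏ i, L i (σ i) (σ' i) :=
        fun σ σ' => prod_nonneg fun i _ => hL i _ _
      calc ∑ σ ∈ univ.filter (fun σ : ι → Option κ => eraS S σ = τ),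
            ∑ σ' ∈ univ.filter (fun σ : ι → Option κ => eraS S σ = τ'),
              |Y (eraS S σ)| * |Y (eraS S σ')| * ∏ i, L i (σ i) (σ' i)
          = |Y τ| * |Y τ'| * ∑ σ ∈ univ.filter (fun σ : ι → Option κ => eraS S σ = τ),
            ∑ σ' ∈ univ.filter (fun σ : ι → Option κ => eraS S σ = τ'),
              ∏ i, L i (σ i) (σ' i) := by
            rw [mul_sum]
            refine sum_congr rfl fun σ hσ => ?_
            rw [mul_sum]
            refine sum_congr rfl fun σ' hσ' => ?_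
            rw [(mem_filter.1 hσ).2, (mem_filter.1 hσ').2]
        _ ≤ |Y τ| * |Y τ'| * ∑ σ ∈ Fintype.piFinset (t τ),
            ∑ σ' ∈ Fintype.piFinset (t τ'), ∏ i, L i (σ i) (σ' i) := by
            refine mul_le_mul_of_nonneg_left ?_ (mul_nonneg (abs_nonneg _) (abs_nonneg _))
            refine (sum_le_sum fun σ _ => sum_le_sum_of_subset_of_nonneg (hsub τ')
              fun σ' _ _ => hP σ σ').trans ?_
            exact sum_le_sum_of_subset_of_nonneg (hsub τ) fun σ _ _ =>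
              sum_nonneg fun σ' _ => hP σ σ'
        _ = |Y τ| * |Y τ'| * ∏ i, ∑ o ∈ t τ i, ∑ o' ∈ t τ' i, L i o o' := by
            rw [box_sum]
        _ ≤ |Y τ| * |Y τ'| * ∏ i, (G i (τ i) (τ' i) * if i ∈ S then C i else 1) := by
            refine mul_le_mul_of_nonneg_left ?_ (mul_nonneg (abs_nonneg _) (abs_nonneg _))
            refine prod_le_prod (fun i _ => sum_nonneg fun o _ => sum_nonneg fun o' _ => hL i _ _)
              fun i _ => ?_
            by_cases hi : i ∈ S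
            · simp only [ht, hi, if_true]
              rw [hτ i hi, hτ' i hi]
              exact hin i hi
            · simp only [ht, hi, if_false, sum_singleton, mul_one]
              exact hout i hi _ _
        _ = |Y τ| * |Y τ'| * (∏ i, G i (τ i) (τ' i)) * ∏ i ∈ S, C i := by
            rw [prod_mul_distrib, prod_ite_mem, univ_inter]
            ring
    · rw [hemp τ' hτ']
      simpa using hR0
  · rw [hemp τ hτ]
    simpa using hR0

/-- PLAN.  Let `S = fsupp χ`.  `|Y σ| ≤ |Y (eraS S σ)|` (`hmono`).  Group the pairs `(σ, σ')` by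
`(τ, τ') = (eraS S σ, eraS S σ')` and the restrictions to `S`:
`‖cf‖ ≤ ∑_{τ,τ' with τ = eraS S τ, τ' = eraS S τ'} |Y τ||Y τ'| ∏_{i ∉ S} |GE (τ i) (τ' i)| * ∏_{i ∈ S} (∑_{o,o'} ‖LC o o' (χ i)‖)`
(`LC _ _ 1 = GE`, `LC_one`; for `i ∈ S` with `τ i = τ' i = none` one has `GE none none = 1`, so the first
product is also `∏_{all i} |GE (τ i)(τ' i)|`), `|Y τ||Y τ'| ≤ (Y τ^2 + Y τ'^2)/2`, symmetry and `row_sum`:
`∑_{τ,τ'} ≤ 11/10 * ∑_σ Y σ^2/PH ≤ 6/5 * ...`.  Last factor: `loc_sum`. -/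
theorem cf_decay {p : ι → ℕ} (hp : ∀ i, (p i).Prime) (h3 : ∀ i, 3 ≤ p i) (a : κ → ℤ) (a0 : ℤ)
    (h0 : ∀ i j, ¬ (p i : ℤ) ∣ a j - a0) (hd : ∀ i j j', j ≠ j' → ¬ (p i : ℤ) ∣ a j - a j')
    (hk : ∑ i, (Fintype.card κ : ℝ) / ((p i : ℝ) - 1) ^ 2 ≤ 1 / 100)
    (hkp : ∀ i, (Fintype.card κ : ℝ) ≤ (p i : ℝ) - 1) (Y : (ι → Option κ) → ℝ)
    (hN : ∀ σ, Y σ ≠ 0 → ∑ i ∈ supp σ, (Fintype.card κ : ℝ) / ((p i : ℝ) - 1) ≤ 1 / 100)
    (hmono : ∀ S σ, |Y σ| ≤ |Y (eraS S σ)|) (χ : Fam p) :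
    ‖cf p a a0 Y χ‖ ≤ 6 / 5 * (∑ σ : ι → Option κ, Y σ ^ 2 / PH p (supp σ)) *
      ∏ i ∈ fsupp χ, (10 * Fintype.card κ / ((p i : ℝ) - 1)) := by
  classical
  have hu : ∀ i, (0 : ℝ) < (p i : ℝ) - 1 := by
    intro i
    have : (3 : ℝ) ≤ p i := by exact_mod_cast h3 i
    linarith
  have hC0 : ∀ i ∈ fsupp χ, (0 : ℝ) ≤ 10 * Fintype.card κ / ((p i : ℝ) - 1) :=
    fun i _ => div_nonneg (by positivity) (hu i).le
  have h1 : ‖cf p a a0 Y χ‖ ≤ ∑ σ, ∑ σ', |Y (eraS (fsupp χ) σ)| * |Y (eraS (fsupp χ) σ')| *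
      ∏ i, ‖LC (p i) a a0 (σ i) (σ' i) (χ i)‖ := by
    unfold cf
    refine (norm_sum_le _ _).trans (sum_le_sum fun σ _ =>
      (norm_sum_le _ _).trans (sum_le_sum fun σ' _ => ?_))
    rw [norm_mul, norm_prod, Complex.norm_real, Real.norm_eq_abs, abs_mul]
    exact mul_le_mul_of_nonneg_right (mul_le_mul (hmono _ σ) (hmono _ σ') (abs_nonneg _)
      (abs_nonneg _)) (prod_nonneg fun i _ => norm_nonneg _)
  have hout : ∀ i, i ∉ fsupp χ → ∀ o o' : Option κ,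
      ‖LC (p i) a a0 o o' (χ i)‖ ≤ |GE (p i) a a0 o o'| := by
    intro i hi o o'
    have hχ : χ i = 1 := by
      by_contra hne
      exact hi (mem_filter.2 ⟨mem_univ _, hne⟩)
    rw [hχ, LC_one (hp i), Complex.norm_real, Real.norm_eq_abs]
  have hin : ∀ i ∈ fsupp χ, ∑ o : Option κ, ∑ o' : Option κ, ‖LC (p i) a a0 o o' (χ i)‖ ≤
      |GE (p i) a a0 none none| * (10 * Fintype.card κ / ((p i : ℝ) - 1)) := by
    intro i hi
    have hχ : χ i ≠ 1 := (mem_filter.1 hi).2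
    have h4 := loc_sum (hp i) (h3 i) a a0 (h0 i) (hd i) (hkp i) hχ
    rw [GE_none_none (hp i), abs_one, one_mul]
    exact h4
  have h2 := group (fsupp χ) Y (fun i o o' => ‖LC (p i) a a0 o o' (χ i)‖)
    (fun i o o' => |GE (p i) a a0 o o'|) (fun i => 10 * Fintype.card κ / ((p i : ℝ) - 1))
    (fun i o o' => norm_nonneg _) (fun i o o' => abs_nonneg _) hC0 hout hin
  refine h1.trans (h2.trans (mul_le_mul_of_nonneg_right ?_ (prod_nonneg hC0)))
  refine (sym_bound Y (fun τ τ' => ∏ i, |GE (p i) a a0 (τ i) (τ' i)|)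
    (fun τ τ' => prod_nonneg fun i _ => abs_nonneg _)
    (fun τ τ' => prod_congr rfl fun i _ => by rw [GE_symm])).trans ?_
  rw [mul_sum]
  refine sum_le_sum fun σ _ => ?_
  by_cases hY : Y σ = 0
  · rw [hY]
    simp
  · have hr := row_sum hp h3 a a0 h0 hd hk σ (hN σ hY)
    have hPH : 0 < PH p (supp σ) := prod_pos fun i _ => hu i
    calc Y σ ^ 2 * ∑ σ' : ι → Option κ, ∏ i, |GE (p i) a a0 (σ i) (σ' i)|
        ≤ Y σ ^ 2 * (11 / 10 * (1 / PH p (supp σ))) :=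
          mul_le_mul_of_nonneg_left hr (sq_nonneg _)
      _ = 11 / 10 * (Y σ ^ 2 / PH p (supp σ)) := by ring
      _ ≤ 6 / 5 * (Y σ ^ 2 / PH p (supp σ)) := by
          have : 0 ≤ Y σ ^ 2 / PH p (supp σ) := by positivity
          linarith

end Pool.Agent.AT
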