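import Pool.Agent.AT.C1

/-! AT/CdL.  Local sums and monotonicity of the weights. -/

namespace Pool.Agent.AT

open Finset Pool.Agent.RS

variable {ι κ : Type} [Fintype ι] [DecidableEq ι] [DecidableEq κ] [Fintype κ]

/-- erase the places of `S` from an assignment -/
def eraS (S : Finset ι) (σ : ι → Option κ) : ι → Option κ := fun i => if i ∈ S then none else σ i

/-- local sum.  PLAN: `(none,some)`, `(some,none)`: `2k * 2/u`; `(j,j)`: `k * 2/u`; `(i,j)`: `k^2 * 4/u^2`;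
with `k ≤ u` in total `≤ 10 k/u` (`(none,none)` contributes `0`). -/
theorem loc_sum {q : ℕ} (hq : q.Prime) (h3 : 3 ≤ q) (a : κ → ℤ) (a0 : ℤ)
    (h0 : ∀ j, ¬ (q : ℤ) ∣ a j - a0) (hd : ∀ i j, i ≠ j → ¬ (q : ℤ) ∣ a i - a j)
    (hk : (Fintype.card κ : ℝ) ≤ (q : ℝ) - 1) {χ : DirichletCharacter ℂ q} (hχ : χ ≠ 1) :
    ∑ o : Option κ, ∑ o' : Option κ, ‖LC q a a0 o o' χ‖ ≤ 10 * Fintype.card κ / ((q : ℝ) - 1) := by
  have hq3 : (3 : ℝ) ≤ (q : ℝ) := by exact_mod_cast h3
  set u : ℝ := (q : ℝ) - 1 with hu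
  set k : ℝ := (Fintype.card κ : ℝ) with hkk
  have hu0 : 0 < u := by rw [hu]; linarith
  have hk0 : 0 ≤ k := Nat.cast_nonneg _
  have hcard : ((univ : Finset κ).card : ℝ) = k := by rw [Finset.card_univ]
  rw [Fintype.sum_option]
  have h1 : ∑ o' : Option κ, ‖LC q a a0 none o' χ‖ ≤ k * (2 / u) := by
    rw [Fintype.sum_option, LC_none_none hq a a0 hχ, norm_zero, zero_add]
    calc ∑ j : κ, ‖LC q a a0 none (some j) χ‖ ≤ ∑ _j : κ, 2 / u :=
          Finset.sum_le_sum fun j _ => (LC_none_some hq h3 a a0 h0 j χ).1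
      _ = k * (2 / u) := by rw [Finset.sum_const, nsmul_eq_mul, hcard]
  have h2 : ∀ i : κ, ∑ o' : Option κ, ‖LC q a a0 (some i) o' χ‖ ≤
      2 / u + (2 / u + k * (4 / u ^ 2)) := by
    intro i
    rw [Fintype.sum_option]
    refine add_le_add (LC_none_some hq h3 a a0 h0 i χ).2 ?_
    rw [← Finset.add_sum_erase univ _ (Finset.mem_univ i)]
    refine add_le_add (LC_same hq h3 a a0 h0 i χ) ?_
    have h4 : (0 : ℝ) ≤ 4 / u ^ 2 := by positivity
    calc ∑ j ∈ univ.erase i, ‖LC q a a0 (some i) (some j) χ‖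
        ≤ ∑ _j ∈ univ.erase i, 4 / u ^ 2 := by
          refine Finset.sum_le_sum fun j hj => ?_
          exact LC_diff hq h3 a a0 h0 hd (Ne.symm (Finset.ne_of_mem_erase hj)) χ
      _ = ((univ.erase i).card : ℝ) * (4 / u ^ 2) := by rw [Finset.sum_const, nsmul_eq_mul]
      _ ≤ k * (4 / u ^ 2) := by
          refine mul_le_mul_of_nonneg_right ?_ h4
          rw [← hcard]
          exact_mod_cast Finset.card_le_card (Finset.erase_subset i univ)
  have h3' : ∑ i : κ, ∑ o' : Option κ, ‖LC q a a0 (some i) o' χ‖ ≤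
      k * (2 / u + (2 / u + k * (4 / u ^ 2))) := by
    calc ∑ i : κ, ∑ o' : Option κ, ‖LC q a a0 (some i) o' χ‖
        ≤ ∑ _i : κ, (2 / u + (2 / u + k * (4 / u ^ 2))) := Finset.sum_le_sum fun i _ => h2 i
      _ = k * (2 / u + (2 / u + k * (4 / u ^ 2))) := by rw [Finset.sum_const, nsmul_eq_mul, hcard]
  have h4 : k * (4 / u ^ 2) ≤ 4 / u := by
    have h5 : k * (4 / u ^ 2) = (4 / u) * (k / u) := by
      field_simp
    rw [h5]
    have h6 : k / u ≤ 1 := (div_le_one hu0).2 hk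
    have h7 : (0 : ℝ) ≤ 4 / u := by positivity
    calc 4 / u * (k / u) ≤ 4 / u * 1 := mul_le_mul_of_nonneg_left h6 h7
      _ = 4 / u := mul_one _
  have h5 : k * (2 / u + (2 / u + k * (4 / u ^ 2))) ≤ k * (2 / u + (2 / u + 4 / u)) :=
    mul_le_mul_of_nonneg_left (by linarith) hk0
  calc _ ≤ k * (2 / u) + k * (2 / u + (2 / u + 4 / u)) := add_le_add h1 (h3'.trans h5)
    _ = 10 * k / u := by ring

/-- monotonicity for the truncated product weights.  PLAN: `cell (eraS S σ) j = cell σ j \ S`,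
`supp (eraS S σ) = supp σ \ S`, `PP` decreases, so the truncation is kept; products of `|y|`. -/
theorem Yd_mono {p : ι → ℕ} (hp : ∀ i, 2 ≤ p i) (y : Finset ι → ℝ) (D : ℝ)
    (hy : ∀ S T : Finset ι, T ⊆ S → |y S| ≤ |y T|) (S : Finset ι) (σ : ι → Option κ) :
    |Yd p y D σ| ≤ |Yd p y D (eraS S σ)| := by
  unfold Yd
  by_cases h1 : PP p (supp σ) ≤ D
  · have hsub : supp (eraS S σ) ⊆ supp σ := by
      intro i hi
      rw [mem_supp] at hi ⊢
      intro h2
      apply hi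
      unfold eraS
      rw [h2]
      split_ifs <;> rfl
    have h2 : PP p (supp (eraS S σ)) ≤ PP p (supp σ) := by
      unfold PP
      rw [← Nat.cast_prod, ← Nat.cast_prod]
      have h3 : ∏ i ∈ supp (eraS S σ), p i ∣ ∏ i ∈ supp σ, p i :=
        Finset.prod_dvd_prod_of_subset _ _ _ hsub
      have h4 : 0 < ∏ i ∈ supp σ, p i := Finset.prod_pos fun i _ => by
        have := hp i
        omega
      exact_mod_cast Nat.le_of_dvd h4 h3
    rw [if_pos h1, if_pos (h2.trans h1)]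
    unfold Yt
    rw [Finset.abs_prod, Finset.abs_prod]
    refine Finset.prod_le_prod (fun j _ => abs_nonneg _) fun j _ => ?_
    refine hy _ _ ?_
    intro i hi
    rw [mem_cell] at hi ⊢
    unfold eraS at hi
    split_ifs at hi with h3
    exact hi
  · rw [if_neg h1, abs_zero]
    exact abs_nonneg _

end Pool.Agent.AT
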