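import Pool.Agent.AT.ParA
import Pool.Agent.RS.Chern
import Pool.Agent.RS.Tot

/-! AT/ParB.  The normalising constant and the tail: variation of the proof of `coreD` in RS/CoreD
(there `s = d/(4 lam)`, here `sx L = dd L/(16 lam)`, `lam = Nat.log 2 L`, `B = ∅`). -/

namespace Pool.Agent.AT

open Finset Pool.Agent.RS

private theorem grow (C : ℝ) : ∃ m0 : ℕ, ∀ m : ℕ, m0 ≤ m → C * ((m : ℝ) + 1) ^ 2 ≤ 2 ^ m := by
  have h := tendsto_pow_const_div_const_pow_of_one_lt 2 (r := (2 : ℝ)) (by norm_num)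
  have h2 : Filter.Tendsto (fun m : ℕ => |C| * 2 * (((m + 1 : ℕ) : ℝ) ^ 2 / 2 ^ (m + 1)))
      Filter.atTop (nhds (|C| * 2 * 0)) :=
    Filter.Tendsto.const_mul _ ((Filter.tendsto_add_atTop_iff_nat 1).2 h)
  rw [mul_zero] at h2
  obtain ⟨m0, hm0⟩ := Filter.eventually_atTop.1 (h2.eventually_le_const (show (0 : ℝ) < 1 by norm_num))
  refine ⟨m0, fun m hm => ?_⟩
  have h3 := hm0 m hm
  have h4 : (0 : ℝ) < 2 ^ m := by positivity
  have h5 : |C| * ((m : ℝ) + 1) ^ 2 / 2 ^ m ≤ 1 := by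
    refine le_trans (le_of_eq ?_) h3
    push_cast
    field_simp
    ring
  rw [div_le_one h4] at h5
  have h6 : C * ((m : ℝ) + 1) ^ 2 ≤ |C| * ((m : ℝ) + 1) ^ 2 :=
    mul_le_mul_of_nonneg_right (le_abs_self C) (by positivity)
  linarith

private theorem arith {lam I E P s d T : ℝ} (hI : 0 ≤ I) (hE : 1 ≤ E) (hlam1 : 1 ≤ lam)
    (hlamI : lam + 1 ≤ 4 * (I + 1)) (hP1 : 1 ≤ P) (h1 : 64 * 97 * E * (I + 1) ^ 2 ≤ T)
    (hdr : P * T ≤ d) (hs : d ≤ 16 * lam * (s + 1)) :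
    P * (12 * (lam + 1) * E) ≤ s * (1 / 2) := by
  have hP0 : 0 ≤ P := by linarith
  have hIE : 0 ≤ (I + 1) * E := by positivity
  have e3 : 1 ≤ (I + 1) * E := by nlinarith
  have e4 : (lam + 1) * E ≤ 4 * (I + 1) * E := mul_le_mul_of_nonneg_right hlamI (by linarith)
  have e1 : 24 * (lam + 1) * E + 1 ≤ 97 * ((I + 1) * E) := by linarith
  have e2 : 16 * lam ≤ 64 * (I + 1) := by linarith
  have hkey : (24 * (lam + 1) * E + 1) * (16 * lam) ≤ T := by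
    refine le_trans ?_ h1
    calc (24 * (lam + 1) * E + 1) * (16 * lam)
        ≤ (97 * ((I + 1) * E)) * (64 * (I + 1)) :=
          mul_le_mul e1 e2 (by linarith) (by linarith)
      _ = 64 * 97 * E * (I + 1) ^ 2 := by ring
  have h7 : 16 * lam * (P * (24 * (lam + 1) * E + 1)) ≤ 16 * lam * (s + 1) := by
    calc 16 * lam * (P * (24 * (lam + 1) * E + 1))
        = P * ((24 * (lam + 1) * E + 1) * (16 * lam)) := by ring
      _ ≤ P * T := mul_le_mul_of_nonneg_left hkey hP0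
      _ ≤ d := hdr
      _ ≤ _ := hs
  have h8 : P * (24 * (lam + 1) * E + 1) ≤ s + 1 :=
    le_of_mul_le_mul_left h7 (by linarith)
  have h8' : P * (24 * (lam + 1) * E + 1) = 2 * (P * (12 * (lam + 1) * E)) + P := by ring
  linarith

private theorem dd_low {L lam J I : ℕ} (hpow : 2 ^ lam ≤ L) (h : J + I + 16 ≤ lam) :
    2 ^ J * 2 ^ I ≤ dd L := by
  unfold dd
  rw [Nat.le_div_iff_mul_le (by norm_num)]
  have h2 : 2 ^ J * 2 ^ I * 10000 ≤ 2 ^ J * 2 ^ I * 2 ^ 16 :=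
    Nat.mul_le_mul_left _ (by norm_num)
  refine h2.trans (le_trans ?_ hpow)
  rw [← pow_add, ← pow_add]
  exact Nat.pow_le_pow_right (by norm_num) h

private theorem sx_low {L : ℕ} (h : 0 < Nat.log 2 L) :
    (dd L : ℝ) ≤ 16 * (Nat.log 2 L : ℝ) * ((sx L : ℝ) + 1) := by
  have hb : dd L ≤ 16 * Nat.log 2 L * (sx L + 1) := by
    unfold sx
    generalize Nat.log 2 L = m at h
    exact (Nat.lt_mul_div_succ _ (by omega)).le
  exact_mod_cast hb

/-- arithmetic of the parameters -/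
private theorem paramsX : ∃ L0 : ℕ, ∀ L : ℕ, L0 ≤ L →
    64 ≤ Nat.log 2 L ∧ 1000 * Real.exp 9 ≤ (Nat.log 2 L : ℝ) ∧
    (2 : ℝ) ^ (Nat.log 2 L / 2) / (Real.exp (-9) / (12 * ((Nat.log 2 L : ℝ) + 1))) ≤
      (sx L : ℝ) * Real.log 2 ∧ L ≤ 20000 * dd L := by
  obtain ⟨m1, hm1⟩ := grow (64 * 97 * Real.exp 9)
  obtain ⟨m3, hm3⟩ := exists_nat_ge (1000 * Real.exp 9)
  obtain ⟨m, hm⟩ : ∃ m : ℕ, m = 4 * m1 + m3 + 64 := ⟨_, rfl⟩
  refine ⟨2 ^ m, fun L hL => ?_⟩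
  have hlam0 : m ≤ Nat.log 2 L := Nat.le_log_of_pow_le (by norm_num) hL
  have hLpos : L ≠ 0 := by
    have : 0 < 2 ^ m := by positivity
    omega
  have hpow : 2 ^ Nat.log 2 L ≤ L := Nat.pow_log_le_self 2 hLpos
  have hsl := sx_low (L := L) (by omega)
  have hdl := dd_low (L := L) (J := Nat.log 2 L / 2) (I := Nat.log 2 L / 2 / 2) hpow (by omega)
  have hL16 : 65536 ≤ L := by
    have h1 : 2 ^ 16 ≤ 2 ^ Nat.log 2 L := Nat.pow_le_pow_right (by norm_num) (by omega)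
    norm_num at h1
    omega
  have h1 := hm1 (Nat.log 2 L / 2 / 2) (by omega)
  refine ⟨by omega, ?_, ?_, ?_⟩
  · have : (m3 : ℝ) ≤ (Nat.log 2 L : ℝ) := by exact_mod_cast (by omega : m3 ≤ Nat.log 2 L)
    linarith
  · have hlamI : Nat.log 2 L + 1 ≤ 4 * (Nat.log 2 L / 2 / 2 + 1) := by omega
    have hlam1 : 1 ≤ Nat.log 2 L := by omega
    have hlog2 : (1 / 2 : ℝ) ≤ Real.log 2 := by
      have := Real.log_two_gt_d9
      linarith
    have hdr : (2 : ℝ) ^ (Nat.log 2 L / 2) * (2 : ℝ) ^ (Nat.log 2 L / 2 / 2) ≤ (dd L : ℝ) := by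
      have h2 := (Nat.cast_le (α := ℝ)).2 hdl
      push_cast at h2
      exact h2
    have hlamI2 : (Nat.log 2 L : ℝ) + 1 ≤ 4 * (((Nat.log 2 L / 2 / 2 : ℕ) : ℝ) + 1) := by
      exact_mod_cast hlamI
    have hdiv : (2 : ℝ) ^ (Nat.log 2 L / 2) / (Real.exp (-9) / (12 * ((Nat.log 2 L : ℝ) + 1))) =
        2 ^ (Nat.log 2 L / 2) * (12 * ((Nat.log 2 L : ℝ) + 1) * Real.exp 9) := by
      rw [Real.exp_neg]
      have h3 : Real.exp 9 ≠ 0 := (Real.exp_pos 9).ne'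
      have h4 : (Nat.log 2 L : ℝ) + 1 ≠ 0 := by positivity
      field_simp
    rw [hdiv]
    refine (arith (I := ((Nat.log 2 L / 2 / 2 : ℕ) : ℝ)) (Nat.cast_nonneg _)
      (Real.one_le_exp (by norm_num)) (by exact_mod_cast hlam1) hlamI2
      (one_le_pow₀ (by norm_num)) h1 hdr hsl).trans ?_
    exact mul_le_mul_of_nonneg_left hlog2 (Nat.cast_nonneg _)
  · unfold dd
    omega

private theorem sx_le (L : ℕ) : sx L ≤ dd L := Nat.div_le_self _ _

private theorem H1_ge' : ∃ L0 : ℕ, ∀ L : ℕ, L0 ≤ L →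
    1 ≤ sx L ∧ Real.exp (-9) / 400 ≤ H1 (px L) (2 ^ sx L) ∧
    (∀ i, 1 ≤ H1 (px L) (2 ^ sx L) * Real.log (px L i)) ∧
    64 ≤ Nat.log 2 L ∧ L ≤ 20000 * dd L := by
  obtain ⟨L0, hL0⟩ := paramsX
  refine ⟨L0, fun L hL => ?_⟩
  obtain ⟨hlam64, hlamE, hJ, hdd⟩ := hL0 L hL
  set lam := Nat.log 2 L with hlam
  have hlamr : (64 : ℝ) ≤ lam := by exact_mod_cast hlam64
  have hL4 : 2 ^ 10 ≤ L := by
    have h := Nat.pow_log_le_self 2 (x := L) (by rintro rfl; simp [hlam] at hlam64)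
    exact (Nat.pow_le_pow_right (by norm_num) (by omega)).trans h
  have hLr : (1024 : ℝ) ≤ L := by exact_mod_cast hL4
  have hlog2 : (0 : ℝ) < Real.log 2 := Real.log_pos (by norm_num)
  have hlog2' : (0.69 : ℝ) ≤ Real.log 2 := by
    have := Real.log_two_gt_d9
    linarith
  have hspos : 1 ≤ sx L := by
    by_contra h
    have hs0 : sx L = 0 := Nat.lt_one_iff.1 (not_le.1 h)
    rw [hs0] at hJ
    have : (0 : ℝ) < (2 : ℝ) ^ (lam / 2) / (Real.exp (-9) / (12 * ((lam : ℝ) + 1))) := by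
      positivity
    simp at hJ
    linarith
  have hH1 : Real.exp (-9) / 400 ≤ H1 (px L) ((2 : ℝ) ^ sx L) := by
    have hV : 0 < Real.exp (-9) / (12 * ((lam : ℝ) + 1)) := by positivity
    have h := H1_lower (z := 2 ^ dd L) (E := excl L ∅ (2 ^ dd L)) (Finset.filter_subset _ _) hV
      (excl_prod (by omega) (by simp) (by simp) (2 ^ dd L)) (S1 := (2 : ℝ) ^ sx L)
      (one_lt_pow₀ (by norm_num) (by omega))
      (by exact_mod_cast Nat.pow_le_pow_right (by norm_num) (sx_le L)) (lam / 2)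
      (by rw [Real.log_pow]; exact hJ)
    refine le_trans ?_ h
    have hJr : ((lam : ℝ) - 1) / 2 ≤ ((lam / 2 : ℕ) : ℝ) := by
      have : lam ≤ 2 * (lam / 2) + 1 := by omega
      have h2 : (lam : ℝ) ≤ 2 * ((lam / 2 : ℕ) : ℝ) + 1 := by exact_mod_cast this
      linarith
    have h3 : (1 : ℝ) / 400 ≤ ((((lam / 2 : ℕ) : ℝ)) - 1) / (4 * (12 * ((lam : ℝ) + 1))) := by
      rw [div_le_div_iff₀ (by norm_num) (by positivity)]
      nlinarith
    calc Real.exp (-9) / 400 = Real.exp (-9) * (1 / 400) := by ring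
      _ ≤ Real.exp (-9) * (((((lam / 2 : ℕ) : ℝ)) - 1) / (4 * (12 * ((lam : ℝ) + 1)))) :=
          mul_le_mul_of_nonneg_left h3 (Real.exp_pos _).le
      _ = _ := by
          have : ((lam : ℝ) + 1) ≠ 0 := by positivity
          field_simp
  have hH1pos : 0 < H1 (px L) ((2 : ℝ) ^ sx L) := lt_of_lt_of_le (by positivity) hH1
  refine ⟨hspos, hH1, fun i => ?_, hlam64, hdd⟩
  have h1 : Real.log (L : ℝ) * 6 ≤ Real.log ((px L i : ℕ) : ℝ) := by
    have h2 : Real.log ((L : ℝ) ^ 6) ≤ Real.log ((px L i : ℕ) : ℝ) :=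
      Real.log_le_log (by positivity) (by exact_mod_cast (px_gt i).le)
    rw [Real.log_pow] at h2
    push_cast at h2
    linarith
  have h3 : (lam : ℝ) * Real.log 2 ≤ Real.log (L : ℝ) := by
    have h4 : (2 : ℝ) ^ lam ≤ L := by
      exact_mod_cast Nat.pow_log_le_self 2 (x := L) (by omega)
    have h5 := Real.log_le_log (by positivity) h4
    rwa [Real.log_pow] at h5
  have h6 : 1000 * Real.exp 9 * 0.69 * 6 ≤ Real.log ((px L i : ℕ) : ℝ) := by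
    have : 1000 * Real.exp 9 * 0.69 ≤ (lam : ℝ) * Real.log 2 :=
      mul_le_mul hlamE hlog2' (by norm_num) (by positivity)
    linarith
  have h7 : Real.exp (-9) / 400 * (1000 * Real.exp 9 * 0.69 * 6) ≤
      H1 (px L) ((2 : ℝ) ^ sx L) * Real.log ((px L i : ℕ) : ℝ) :=
    mul_le_mul hH1 h6 (by positivity) hH1pos.le
  refine le_trans ?_ h7
  have h8 : Real.exp (-9) * Real.exp 9 = 1 := by
    rw [← Real.exp_add]; norm_num
  have : Real.exp (-9) / 400 * (1000 * Real.exp 9 * 0.69 * 6) =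
      (Real.exp (-9) * Real.exp 9) * (1000 * 0.69 * 6 / 400) := by ring
  rw [this, h8]
  norm_num

theorem H1_ge : ∃ L0 : ℕ, ∀ L : ℕ, L0 ≤ L →
    1 ≤ sx L ∧ Real.exp (-9) / 400 ≤ H1 (px L) (2 ^ sx L) ∧
    (∀ i, 1 ≤ H1 (px L) (2 ^ sx L) * Real.log (px L i)) := by
  obtain ⟨L0, h⟩ := H1_ge'
  exact ⟨L0, fun L hL => ⟨(h L hL).1, (h L hL).2.1, (h L hL).2.2.1⟩⟩

theorem tail_x : ∃ L0 : ℕ, ∀ L : ℕ, L0 ≤ L → ∀ R : Finset ℕ, (R.card : ℝ) ≤ c0 * L →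
    ∑ σ ∈ (univ : Finset (Ix L → Option {j : ℕ // j ∈ R})).filter
        (fun σ => (2 : ℝ) ^ dd L / 2 ^ sx L < PP (px L) (supp σ)),
      Yx L R σ ^ 2 / PH (px L) (supp σ) ≤ 1 / (L : ℝ) ^ 4 * Zx L R := by
  obtain ⟨L0, hL0⟩ := H1_ge'
  refine ⟨L0, fun L hL R hR => ?_⟩
  obtain ⟨hs1, hH1, -, hlam, hdd⟩ := hL0 L hL
  have hH0 : 0 < H1 (px L) ((2 : ℝ) ^ sx L) := lt_of_lt_of_le (by positivity) hH1
  have hS1 : (1 : ℝ) < (2 : ℝ) ^ sx L := one_lt_pow₀ (by norm_num) (by omega)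
  have hlS : 0 < Real.log ((2 : ℝ) ^ sx L) := Real.log_pos hS1
  have hp : ∀ i, 2 ≤ px L i := fun i => (px_prime i).two_le
  have hD0 : (0 : ℝ) < (2 : ℝ) ^ dd L := by positivity
  have hS10 : (0 : ℝ) < (2 : ℝ) ^ sx L := by positivity
  have hD2 : (0 : ℝ) < (2 : ℝ) ^ dd L / 2 ^ sx L := by positivity
  have htail := tail (κ := {j : ℕ // j ∈ R}) hp (wt (px L) (2 ^ sx L)) (wt_empty (px L) (2 ^ sx L))
    (D := (2 : ℝ) ^ dd L) (D2 := (2 : ℝ) ^ dd L / 2 ^ sx L) hD2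
    (lam := 1 / Real.log ((2 : ℝ) ^ sx L)) (θ := 2 / (H1 (px L) (2 ^ sx L) *
      Real.log ((2 : ℝ) ^ sx L))) (by positivity) (by positivity) (wt_theta hp hS1 hH0)
  have hcard : (Fintype.card {j : ℕ // j ∈ R} : ℝ) = R.card := by simp
  rw [hcard] at htail
  have hlog2' : (0.69 : ℝ) ≤ Real.log 2 := by
    have := Real.log_two_gt_d9
    linarith
  have hddr : (L : ℝ) ≤ 20000 * (dd L : ℝ) := by exact_mod_cast hdd
  have hd0r : (0 : ℝ) ≤ (dd L : ℝ) := Nat.cast_nonneg _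
  have hsd : 16 * Nat.log 2 L * sx L ≤ dd L := Nat.mul_div_le _ _
  have hlamr : (64 : ℝ) ≤ (Nat.log 2 L : ℝ) := by exact_mod_cast hlam
  have hsr : (1 : ℝ) ≤ (sx L : ℝ) := by exact_mod_cast hs1
  have hsdr : 16 * (Nat.log 2 L : ℝ) * (sx L : ℝ) ≤ (dd L : ℝ) := by exact_mod_cast hsd
  have hHk : 2 * (R.card : ℝ) / H1 (px L) (2 ^ sx L) ≤ Real.log ((2 : ℝ) ^ dd L) / 4 := by
    have h1 : 2 * (R.card : ℝ) / H1 (px L) (2 ^ sx L) ≤ 2 * (c0 * L) / (Real.exp (-9) / 400) := by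
      apply div_le_div₀ _ (by linarith) (by positivity) hH1
      have : 0 ≤ c0 := by
        unfold c0
        positivity
      positivity
    refine h1.trans ?_
    have h2 : 2 * (c0 * L) / (Real.exp (-9) / 400) = (L : ℝ) * (8 / 10 ^ 6) := by
      unfold c0
      have := (Real.exp_pos (-9)).ne'
      field_simp
      ring
    rw [h2, Real.log_pow]
    have h3 : (dd L : ℝ) * 0.69 ≤ (dd L : ℝ) * Real.log 2 :=
      mul_le_mul_of_nonneg_left hlog2' hd0r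
    have h4 : (L : ℝ) * (8 / 10 ^ 6) ≤ 20000 * (dd L : ℝ) * (8 / 10 ^ 6) :=
      mul_le_mul_of_nonneg_right hddr (by norm_num)
    have h5 : 20000 * (dd L : ℝ) * (8 / 10 ^ 6) ≤ (dd L : ℝ) * 0.69 / 4 := by
      have h6 : 20000 * (dd L : ℝ) * (8 / 10 ^ 6) = (dd L : ℝ) * 0.16 := by ring
      rw [h6]
      linarith
    linarith
  have hS1D : Real.log ((2 : ℝ) ^ sx L) ≤ Real.log ((2 : ℝ) ^ dd L) / 4 := by
    rw [Real.log_pow, Real.log_pow]
    have h1 : 4 * (sx L : ℝ) ≤ dd L := by nlinarith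
    nlinarith
  have hτ : ((2 : ℝ) ^ dd L / 2 ^ sx L) ^ (-(1 / Real.log ((2 : ℝ) ^ sx L))) *
      Real.exp (2 / (H1 (px L) (2 ^ sx L) * Real.log ((2 : ℝ) ^ sx L)) * (R.card : ℝ)) ≤
      Real.exp (-(Real.log ((2 : ℝ) ^ dd L) / (2 * Real.log ((2 : ℝ) ^ sx L)))) := by
    rw [Real.rpow_def_of_pos hD2, ← Real.exp_add, Real.log_div hD0.ne' hS10.ne']
    apply Real.exp_le_exp.2
    generalize Real.log ((2 : ℝ) ^ dd L) = lD at *
    generalize Real.log ((2 : ℝ) ^ sx L) = lS at *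
    generalize H1 (px L) ((2 : ℝ) ^ sx L) = H at *
    have e1 : (lD - lS) * (-(1 / lS)) + 2 / (H * lS) * (R.card : ℝ) =
        (2 * (R.card : ℝ) / H - lD + lS) / lS := by
      field_simp
      ring
    have e2 : -(lD / (2 * lS)) = (-(lD / 2)) / lS := by
      field_simp
    rw [e1, e2]
    apply div_le_div_of_nonneg_right _ hlS.le
    linarith
  have hfin : Real.exp (-(Real.log ((2 : ℝ) ^ dd L) / (2 * Real.log ((2 : ℝ) ^ sx L)))) ≤
      1 / (L : ℝ) ^ 4 := by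
    have hL1 : 1 ≤ L := by
      rcases Nat.eq_zero_or_pos L with h | h
      · rw [h] at hlam
        simp at hlam
      · exact h
    have hLr : (0 : ℝ) < L := by exact_mod_cast hL1
    have h1 : 8 * (Nat.log 2 L : ℝ) ≤
        Real.log ((2 : ℝ) ^ dd L) / (2 * Real.log ((2 : ℝ) ^ sx L)) := by
      rw [le_div_iff₀ (by positivity), Real.log_pow, Real.log_pow]
      have hlog20 : (0 : ℝ) < Real.log 2 := by linarith
      nlinarith
    have h2 : (L : ℝ) ^ 4 ≤ Real.exp (8 * (Nat.log 2 L : ℝ)) := by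
      have h3 : (L : ℝ) ≤ 2 ^ (Nat.log 2 L + 1) := by
        exact_mod_cast (Nat.lt_pow_succ_log_self (by norm_num : 1 < 2) L).le
      have h4 : Real.exp (8 * (Nat.log 2 L : ℝ)) = Real.exp 1 ^ (8 * Nat.log 2 L) := by
        rw [← Real.exp_nat_mul]
        congr 1
        push_cast
        ring
      rw [h4]
      have h5 : (2 : ℝ) ≤ Real.exp 1 := by
        have := Real.exp_one_gt_d9
        linarith
      calc (L : ℝ) ^ 4 ≤ (2 ^ (Nat.log 2 L + 1)) ^ 4 := pow_le_pow_left₀ hLr.le h3 4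
        _ = 2 ^ ((Nat.log 2 L + 1) * 4) := by rw [← pow_mul]
        _ ≤ 2 ^ (8 * Nat.log 2 L) := pow_le_pow_right₀ (by norm_num) (by omega)
        _ ≤ Real.exp 1 ^ (8 * Nat.log 2 L) := pow_le_pow_left₀ (by norm_num) h5 _
    calc Real.exp (-(Real.log ((2 : ℝ) ^ dd L) / (2 * Real.log ((2 : ℝ) ^ sx L))))
        ≤ Real.exp (-(8 * (Nat.log 2 L : ℝ))) := Real.exp_le_exp.2 (by linarith)
      _ = 1 / Real.exp (8 * (Nat.log 2 L : ℝ)) := by rw [Real.exp_neg, one_div]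
      _ ≤ 1 / (L : ℝ) ^ 4 := one_div_le_one_div_of_le (by positivity) h2
  have hZ : 0 ≤ Zx L R := by
    have := Zx_one_le L R
    linarith
  have hgoal : ∑ σ ∈ (univ : Finset (Ix L → Option {j : ℕ // j ∈ R})).filter
        (fun σ => (2 : ℝ) ^ dd L / 2 ^ sx L < PP (px L) (supp σ)),
      Yx L R σ ^ 2 / PH (px L) (supp σ) ≤
      ((2 : ℝ) ^ dd L / 2 ^ sx L) ^ (-(1 / Real.log ((2 : ℝ) ^ sx L))) *
      Real.exp (2 / (H1 (px L) (2 ^ sx L) * Real.log ((2 : ℝ) ^ sx L)) * (R.card : ℝ)) *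
        Zx L R := by
    refine le_trans (le_of_eq ?_) htail
    refine Finset.sum_congr ?_ fun _ _ => rfl
    ext σ
    simp only [Finset.mem_filter]
  exact hgoal.trans (mul_le_mul_of_nonneg_right (hτ.trans hfin) hZ)

theorem cc_x : ∃ L0 : ℕ, ∀ L : ℕ, L0 ≤ L → ∀ U : Finset (Ix L),
    PP (px L) U ≤ (2 : ℝ) ^ dd L / 2 ^ sx L → |cc (px L) (yx L) (2 ^ dd L) U| ≤ 1 / (L : ℝ) ^ 4 := by
  obtain ⟨L0, hL0⟩ := H1_ge'
  refine ⟨L0, fun L hL U hU => ?_⟩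
  obtain ⟨hs1, hH1, hH, hlam, hdd⟩ := hL0 L hL
  have hH0 : 0 < H1 (px L) ((2 : ℝ) ^ sx L) := lt_of_lt_of_le (by positivity) hH1
  have hS10 : (0 : ℝ) < (2 : ℝ) ^ sx L := by positivity
  have hp : ∀ i, 2 ≤ px L i := fun i => (px_prime i).two_le
  have h1 : PP (px L) U * (2 : ℝ) ^ sx L ≤ 2 ^ dd L := by
    have := mul_le_mul_of_nonneg_right hU hS10.le
    rwa [div_mul_cancel₀ _ hS10.ne'] at this
  refine (cc_wt_small hp hH0 hH U h1).trans ?_
  have hL2 : 2 ≤ L := by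
    by_contra h
    have h2 : Nat.log 2 L = 0 := Nat.log_of_lt (by omega)
    omega
  have hU2 : PP (px L) U ≤ (2 : ℝ) ^ L := by
    refine hU.trans ((div_le_self (by positivity) (one_le_pow₀ (by norm_num))).trans ?_)
    exact pow_le_pow_right₀ (by norm_num) (Nat.div_le_self _ _)
  have h2 := px_sum (L := L) (by omega) U hU2
  have h3 : ∑ i ∈ U, 2 / ((px L i : ℝ) - 1) = 2 * ∑ i ∈ U, 1 / ((px L i : ℝ) - 1) := by
    rw [Finset.mul_sum]
    refine Finset.sum_congr rfl fun i _ => ?_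
    ring
  rw [h3]
  have hLr : (2 : ℝ) ≤ L := by exact_mod_cast hL2
  have hL0' : (0 : ℝ) < L := by linarith
  calc 2 * ∑ i ∈ U, 1 / ((px L i : ℝ) - 1) ≤ 2 * (1 / (L : ℝ) ^ 5) :=
        mul_le_mul_of_nonneg_left h2 (by norm_num)
    _ ≤ L * (1 / (L : ℝ) ^ 5) := mul_le_mul_of_nonneg_right hLr (by positivity)
    _ = 1 / (L : ℝ) ^ 4 := by field_simp

end Pool.Agent.AT
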