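import Pool.Agent.AT.Par

/-! AT/Prog.  The elements of a residue class in an interval as a finite arithmetic progression.
PLAN.  `n0` = the smallest integer `> P - H` which is `≡ b` modulo `M`, `T = (3 P + H)/M + 1 ≤ 4P/M + 1`;
the map `n ↦ (n - n0)/M` is injective. -/

namespace Pool.Agent.AT

open Finset

private theorem prog_key {P H M b n : ℕ} (hM : 0 < M) (hH : H ≤ P)
    (hn : n ∈ Nw P H M b) :
    ∃ t : ℕ, t < (3 * P + H) / M + 1 ∧
      (n : ℤ) = (((P - H : ℕ) : ℤ) + 1 + ((b : ℤ) - ((P - H : ℕ) : ℤ) - 1) % (M : ℤ)) +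
        (M : ℤ) * (t : ℤ) := by
  classical
  unfold Nw at hn
  rw [mem_filter, mem_Ioc] at hn
  obtain ⟨⟨h1, h2⟩, h3⟩ := hn
  have hM' : (0 : ℤ) < M := by exact_mod_cast hM
  set a : ℤ := ((P - H : ℕ) : ℤ) with ha
  have h1' : a + 1 ≤ (n : ℤ) := by
    rw [ha]
    exact_mod_cast h1
  have h2' : (n : ℤ) ≤ 4 * P := by exact_mod_cast h2
  set r : ℤ := ((b : ℤ) - a - 1) % (M : ℤ) with hr
  have hr0 : 0 ≤ r := Int.emod_nonneg _ hM'.ne'
  have hrM : r < M := Int.emod_lt_of_pos _ hM'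
  have h4 : (M : ℤ) ∣ (n : ℤ) - (a + 1 + r) := by
    have h5 : (M : ℤ) ∣ (n : ℤ) - (b : ℤ) := (Nat.modEq_iff_dvd.1 h3.symm)
    have h6 : (M : ℤ) ∣ ((b : ℤ) - a - 1) - r := by
      rw [hr]
      exact Int.dvd_self_sub_of_emod_eq rfl
    have h7 : (n : ℤ) - (a + 1 + r) = ((n : ℤ) - (b : ℤ)) + (((b : ℤ) - a - 1) - r) := by ring
    rw [h7]
    exact dvd_add h5 h6
  obtain ⟨t, ht⟩ := h4
  have ht0 : 0 ≤ t := by
    by_contra hneg
    push Not at hneg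
    have h8 : (M : ℤ) * t ≤ (M : ℤ) * (-1) := mul_le_mul_of_nonneg_left (by omega) hM'.le
    have h9 : (n : ℤ) - (a + 1 + r) ≤ -M := by linarith
    linarith
  obtain ⟨k, rfl⟩ := Int.eq_ofNat_of_zero_le ht0
  refine ⟨k, ?_, by linarith⟩
  rw [Nat.lt_succ_iff, Nat.le_div_iff_mul_le hM]
  have ha' : a = (P : ℤ) - H := by
    rw [ha]
    push_cast [hH]
    ring
  have h10 : (M : ℤ) * k ≤ 3 * P + H := by
    rw [← ht]
    linarith
  have h11 : ((k * M : ℕ) : ℤ) ≤ ((3 * P + H : ℕ) : ℤ) := by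
    push_cast
    linarith
  exact_mod_cast h11

open Classical in
theorem prog {P H M : ℕ} (hM : 0 < M) (hH : H ≤ P) (b : ℕ) :
    ∃ (n0 : ℤ) (T : ℕ), (T : ℝ) ≤ 4 * P / M + 1 ∧
      ∀ (F : ℤ → ℝ) (Q : ℤ → Prop), (∀ n, 0 ≤ F n) →
        ∑ n ∈ (Nw P H M b).filter (fun n : ℕ => Q (n : ℤ)), F (n : ℤ) ≤
          ∑ t ∈ (range T).filter (fun t : ℕ => Q (n0 + M * (t : ℤ))), F (n0 + M * (t : ℤ)) := by
  refine ⟨((P - H : ℕ) : ℤ) + 1 + ((b : ℤ) - ((P - H : ℕ) : ℤ) - 1) % (M : ℤ),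
    (3 * P + H) / M + 1, ?_, fun F Q hF => ?_⟩
  · have h1 : (((3 * P + H) / M : ℕ) : ℝ) ≤ ((3 * P + H : ℕ) : ℝ) / (M : ℝ) := Nat.cast_div_le
    have hM' : (0 : ℝ) < M := by exact_mod_cast hM
    have h2 : ((3 * P + H : ℕ) : ℝ) / (M : ℝ) ≤ 4 * P / M := by
      apply div_le_div_of_nonneg_right _ hM'.le
      have h3 : (H : ℝ) ≤ P := by exact_mod_cast hH
      push_cast
      linarith
    rw [Nat.cast_add, Nat.cast_one]
    linarith
  · set n0 : ℤ := ((P - H : ℕ) : ℤ) + 1 + ((b : ℤ) - ((P - H : ℕ) : ℤ) - 1) % (M : ℤ) with hn0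
    have hk : ∀ n ∈ Nw P H M b, ∃ t : ℕ, t < (3 * P + H) / M + 1 ∧
        (n : ℤ) = n0 + (M : ℤ) * (t : ℤ) := fun n hn => prog_key hM hH hn
    choose! τ hτ1 hτ2 using hk
    have hinj : Set.InjOn τ ((Nw P H M b).filter (fun n : ℕ => Q (n : ℤ)) : Finset ℕ) := by
      intro x hx y hy hxy
      rw [mem_coe, mem_filter] at hx hy
      have h1 := hτ2 x hx.1
      have h2 := hτ2 y hy.1
      rw [hxy] at h1
      have h3 : (x : ℤ) = y := by rw [h1, h2]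
      exact_mod_cast h3
    have h1 : ∑ n ∈ (Nw P H M b).filter (fun n : ℕ => Q (n : ℤ)), F (n : ℤ) =
        ∑ t ∈ ((Nw P H M b).filter (fun n : ℕ => Q (n : ℤ))).image τ, F (n0 + M * (t : ℤ)) := by
      rw [sum_image hinj]
      apply sum_congr rfl
      intro n hn
      rw [← hτ2 n (mem_filter.1 hn).1]
    rw [h1]
    apply sum_le_sum_of_subset_of_nonneg
    · intro t ht
      rw [mem_image] at ht
      obtain ⟨n, hn, rfl⟩ := ht
      rw [mem_filter] at hn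
      rw [mem_filter, mem_range, ← hτ2 n hn.1]
      exact ⟨hτ1 n hn.1, hn.2⟩
    · intro t _ _
      exact hF _

end Pool.Agent.AT
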