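import Pool.Agent.AT.Pr1
import Pool.Agent.AT.Cd

/-! AT/Pr.  Primes weighted by the square of a sieve weight. -/

namespace Pool.Agent.AT

open Finset Pool.Agent.RS

variable {ι κ : Type} [Fintype ι] [DecidableEq ι] [DecidableEq κ] [Fintype κ]

private theorem fch_norm {p : ι → ℕ} (χ : Fam p) (m : ℕ) : ‖fch χ m‖ ≤ 1 := by
  unfold fch
  rw [norm_prod]
  apply prod_le_one
  · intro i _
    exact norm_nonneg _
  · intro i _
    exact DirichletCharacter.norm_le_one _ _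

private theorem fsupp_one (p : ι → ℕ) : fsupp (fun i => (1 : DirichletCharacter ℂ (p i))) = ∅ := by
  classical
  apply eq_empty_of_forall_notMem
  intro i hi
  unfold fsupp at hi
  rw [mem_filter] at hi
  exact hi.2 rfl

private theorem fsupp_empty {p : ι → ℕ} {χ : Fam p} (h : fsupp χ = ∅) : χ = fun _ => 1 := by
  classical
  funext i
  by_contra hi
  have h1 : i ∈ fsupp χ := by
    unfold fsupp
    rw [mem_filter]
    exact ⟨mem_univ _, hi⟩
  rw [h] at h1
  exact notMem_empty i h1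

/-- a multiple of some `p i ≤ P` which is larger than `P` is not a prime -/
private theorem not_prime_of_dvd {P q m : ℕ} (hq : q.Prime) (hqP : q ≤ P) (hm : P < m)
    (h : q ∣ m) : ¬ m.Prime := by
  intro hm'
  have := (Nat.prime_dvd_prime_iff_eq hq hm').1 h
  omega

/-- The weighted number of primes in a residue class: exact expansion, errors still explicit.
PLAN.  `G m = (∑ Y EE (m+a0))^2 ≥ 0`.  Sum over the `m ∈ Ioc P (4P)`, `m ≡ r`, prime to all `p i`:
`∑ Λ G ≤ ∑_{m prime} log m G + (prime powers) * (2 D^2)^2` (`pp_err`, `weight_sup`).  By `sq_exp`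
`∑ Λ G = Re ∑_χ cf χ ∑_{m prime to all p i} Λ m fch χ m`, only `fcd χ ≤ D^2` (`cf_zero`, `LC_none_none`).
An `m` with `Λ m ≠ 0` divisible by some `p i ≤ P` is a proper prime power, so dropping the condition
`prime to all p i` costs `≤ pp_err` for each `χ`, in total `≤ pp_err * ∑ ‖cf‖ ≤ pp_err * (6/5) Z * 2 D^4`
(`cf_decay` with the product bounded by `1`, `card_fam`).  For `χ = 1`: `cf_one_ge`, `fch 1 m = 1`. -/
theorem prime_sum {p : ι → ℕ} (hp : ∀ i, (p i).Prime) (h3 : ∀ i, 3 ≤ p i)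
    (hinj : Function.Injective p) {P M r : ℕ} (hP : 2 ≤ P) (hpP : ∀ i, p i ≤ P)
    (a : κ → ℤ) (a0 : ℤ) (h0 : ∀ i j, ¬ (p i : ℤ) ∣ a j - a0)
    (hd : ∀ i j j', j ≠ j' → ¬ (p i : ℤ) ∣ a j - a j')
    (hk : ∑ i, (Fintype.card κ : ℝ) / ((p i : ℝ) - 1) ^ 2 ≤ 1 / 100)
    (hkp : ∀ i, 10 * (Fintype.card κ : ℝ) / ((p i : ℝ) - 1) ≤ (p i : ℝ) ^ (-(3 / 4) : ℝ))
    {D : ℝ} (hD : 1 ≤ D) {Y : (ι → Option κ) → ℝ} (hY1 : ∀ σ, |Y σ| ≤ 1)
    (hYs : ∀ σ, Y σ ≠ 0 → PP p (supp σ) ≤ D)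
    (hN : ∀ σ, Y σ ≠ 0 → ∑ i ∈ supp σ, (Fintype.card κ : ℝ) / ((p i : ℝ) - 1) ≤ 1 / 100)
    (hmono : ∀ S σ, |Y σ| ≤ |Y (eraS S σ)|) {Z : ℝ}
    (hZ : Z = ∑ σ : ι → Option κ, Y σ ^ 2 / PH p (supp σ)) (hZ1 : 1 ≤ Z) {B : ℝ}
    (hB : ∑ χ ∈ (univ : Finset (Fam p)).filter (fun χ => fsupp χ ≠ ∅ ∧ (fcd χ : ℝ) ≤ D ^ 2),
      (fcd χ : ℝ) ^ (-(3 / 4) : ℝ) *
        ‖∑ m ∈ (Ioc P (4 * P)).filter (fun m => m ≡ r [MOD M]),
          ((ArithmeticFunction.vonMangoldt m : ℝ) : ℂ) * fch χ m‖ ≤ B) :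
    4 / 5 * Z * psi M r P - 6 / 5 * Z * B - 100 * Z * D ^ 4 * √P * Real.log (4 * P) ^ 2 ≤
      ∑ m ∈ (Ioc P (4 * P)).filter (fun m => m ≡ r [MOD M] ∧ m.Prime),
        Real.log m * (∑ σ : ι → Option κ, Y σ * EE p a σ ((m : ℤ) + a0)) ^ 2 := by
  classical
  have hZ0 : 0 ≤ Z := by linarith
  have hk1 : ∀ i, (Fintype.card κ : ℝ) ≤ (p i : ℝ) - 1 ∧ (1 : ℝ) < p i := by
    intro i
    have h1 : (3 : ℝ) ≤ p i := by exact_mod_cast h3 i
    have h2 : (p i : ℝ) ^ (-(3 / 4) : ℝ) ≤ 1 :=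
      Real.rpow_le_one_of_one_le_of_nonpos (by linarith) (by norm_num)
    have h4 := (hkp i).trans h2
    rw [div_le_one (by linarith)] at h4
    have h5 : (0 : ℝ) ≤ Fintype.card κ := Nat.cast_nonneg _
    constructor
    · linarith
    · linarith
  -- size of the coefficients
  have hcf : ∀ χ : Fam p, ‖cf p a a0 Y χ‖ ≤ 6 / 5 * Z * (fcd χ : ℝ) ^ (-(3 / 4) : ℝ) := by
    intro χ
    have h1 := cf_decay hp h3 a a0 h0 hd hk (fun i => (hk1 i).1) Y hN hmono χ
    rw [← hZ] at h1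
    refine h1.trans (mul_le_mul_of_nonneg_left ?_ (by positivity))
    unfold fcd
    push_cast
    rw [← Real.finsetProd_rpow _ _ (fun i _ => Nat.cast_nonneg _)]
    apply prod_le_prod
    · intro i _
      have := (hk1 i).2
      apply div_nonneg
      · positivity
      · linarith
    · intro i _
      exact hkp i
  have hcf1 : ∀ χ : Fam p, ‖cf p a a0 Y χ‖ ≤ 6 / 5 * Z := by
    intro χ
    refine (hcf χ).trans ?_
    have h1 : (1 : ℝ) ≤ fcd χ := by
      unfold fcd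
      have : 1 ≤ ∏ i ∈ fsupp χ, p i := Nat.one_le_iff_ne_zero.2
        (prod_ne_zero_iff.2 fun i _ => (hp i).ne_zero)
      exact_mod_cast this
    have h2 : (fcd χ : ℝ) ^ (-(3 / 4) : ℝ) ≤ 1 :=
      Real.rpow_le_one_of_one_le_of_nonpos h1 (by norm_num)
    calc 6 / 5 * Z * (fcd χ : ℝ) ^ (-(3 / 4) : ℝ) ≤ 6 / 5 * Z * 1 :=
          mul_le_mul_of_nonneg_left h2 (by positivity)
      _ = 6 / 5 * Z := mul_one _
  have hcf0 : ∀ χ : Fam p, ¬ (fcd χ : ℝ) ≤ D ^ 2 → cf p a a0 Y χ = 0 := by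
    intro χ hχ
    exact cf_zero hp a a0 (fun i χ hχ => LC_none_none (hp i) a a0 hχ) (by linarith) hYs χ
      (not_le.1 hχ)
  -- the sets
  set W := (Ioc P (4 * P)).filter (fun m => m ≡ r [MOD M]) with hW
  set W1 := W.filter (fun m => ∀ i, ¬ p i ∣ m) with hW1
  set G : ℕ → ℝ := fun m => (∑ σ : ι → Option κ, Y σ * EE p a σ ((m : ℤ) + a0)) ^ 2 with hG
  have hG0 : ∀ m, 0 ≤ G m := fun m => sq_nonneg _
  set pp := ∑ m ∈ (Ioc P (4 * P)).filter (fun m => ¬ m.Prime), ArithmeticFunction.vonMangoldt m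
    with hpp
  have hppb := pp_err hP
  have hΛ : ∀ m : ℕ, 0 ≤ (ArithmeticFunction.vonMangoldt m : ℝ) := fun m =>
    ArithmeticFunction.vonMangoldt_nonneg
  have hpp0 : 0 ≤ pp := sum_nonneg fun m _ => hΛ m
  -- primes
  have hprime : ∑ m ∈ W1, ArithmeticFunction.vonMangoldt m * G m ≤
      ∑ m ∈ (Ioc P (4 * P)).filter (fun m => m ≡ r [MOD M] ∧ m.Prime), Real.log m * G m +
        4 * D ^ 4 * pp := by
    have h1 : ∑ m ∈ W1, ArithmeticFunction.vonMangoldt m * G m =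
        ∑ m ∈ W1.filter (fun m => m.Prime), ArithmeticFunction.vonMangoldt m * G m +
        ∑ m ∈ W1.filter (fun m => ¬ m.Prime), ArithmeticFunction.vonMangoldt m * G m :=
      (sum_filter_add_sum_filter_not _ _ _).symm
    rw [h1]
    apply add_le_add
    · have h2 : ∑ m ∈ W1.filter (fun m => m.Prime), ArithmeticFunction.vonMangoldt m * G m =
          ∑ m ∈ W1.filter (fun m => m.Prime), Real.log m * G m := by
        apply sum_congr rfl
        intro m hm
        rw [mem_filter] at hm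
        rw [ArithmeticFunction.vonMangoldt_apply_prime hm.2]
      rw [h2]
      apply sum_le_sum_of_subset_of_nonneg
      · intro m hm
        rw [mem_filter, hW1, mem_filter, hW, mem_filter] at hm
        rw [mem_filter]
        exact ⟨hm.1.1.1, hm.1.1.2, hm.2⟩
      · intro m _ _
        exact mul_nonneg (Real.log_natCast_nonneg m) (hG0 m)
    · have hsup : ∀ m : ℕ, G m ≤ 4 * D ^ 4 := by
        intro m
        have h2 := weight_sup (p := p) (fun i => (hp i).two_le) (by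
          refine le_trans (sum_le_sum (g := fun i => (Fintype.card κ : ℝ) / ((p i : ℝ) - 1) ^ 2)
            fun i _ => ?_) (hk.trans (by norm_num))
          have := (hk1 i).2
          apply div_le_div_of_nonneg_left (Nat.cast_nonneg _) (by
            have : 0 < (p i : ℝ) - 1 := by linarith
            positivity)
          exact pow_le_pow_left₀ (by linarith) (by linarith) 2) a (by linarith : 0 ≤ D) hY1 hYs
          ((m : ℤ) + a0)
        have h3 : G m = |∑ σ : ι → Option κ, Y σ * EE p a σ ((m : ℤ) + a0)| ^ 2 := by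
          rw [hG, sq_abs]
        rw [h3]
        calc |∑ σ : ι → Option κ, Y σ * EE p a σ ((m : ℤ) + a0)| ^ 2 ≤ (2 * D ^ 2) ^ 2 :=
              pow_le_pow_left₀ (abs_nonneg _) h2 2
          _ = 4 * D ^ 4 := by ring
      calc ∑ m ∈ W1.filter (fun m => ¬ m.Prime), ArithmeticFunction.vonMangoldt m * G m ≤
          ∑ m ∈ W1.filter (fun m => ¬ m.Prime), ArithmeticFunction.vonMangoldt m * (4 * D ^ 4) :=
            sum_le_sum fun m _ => mul_le_mul_of_nonneg_left (hsup m) (hΛ m)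
        _ = (∑ m ∈ W1.filter (fun m => ¬ m.Prime), ArithmeticFunction.vonMangoldt m) *
            (4 * D ^ 4) := by rw [sum_mul]
        _ ≤ pp * (4 * D ^ 4) := by
            apply mul_le_mul_of_nonneg_right _ (by positivity)
            apply sum_le_sum_of_subset_of_nonneg
            · intro m hm
              rw [mem_filter, hW1, mem_filter, hW, mem_filter] at hm
              rw [mem_filter]
              exact ⟨hm.1.1.1, hm.2⟩
            · intro m _ _
              exact hΛ m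
        _ = 4 * D ^ 4 * pp := mul_comm _ _
  -- expansion
  set T : Fam p → ℂ := fun χ => ∑ m ∈ W, ((ArithmeticFunction.vonMangoldt m : ℝ) : ℂ) * fch χ m
    with hT
  set T1 : Fam p → ℂ := fun χ => ∑ m ∈ W1, ((ArithmeticFunction.vonMangoldt m : ℝ) : ℂ) * fch χ m
    with hT1
  have hexp : ((∑ m ∈ W1, ArithmeticFunction.vonMangoldt m * G m : ℝ) : ℂ) =
      ∑ χ : Fam p, cf p a a0 Y χ * T1 χ := by
    have h1 : ∀ m ∈ W1, ((G m : ℝ) : ℂ) = ∑ χ : Fam p, cf p a a0 Y χ * fch χ m := by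
      intro m hm
      rw [hW1, mem_filter] at hm
      exact sq_exp hp a a0 Y hm.2
    rw [Complex.ofReal_sum]
    have h2 : ∀ m ∈ W1, ((ArithmeticFunction.vonMangoldt m * G m : ℝ) : ℂ) =
        ∑ χ : Fam p, cf p a a0 Y χ * (((ArithmeticFunction.vonMangoldt m : ℝ) : ℂ) * fch χ m) := by
      intro m hm
      rw [Complex.ofReal_mul, h1 m hm, mul_sum]
      apply sum_congr rfl
      intro χ _
      ring
    rw [sum_congr rfl h2, sum_comm]
    apply sum_congr rfl
    intro χ _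
    rw [hT1, mul_sum]
  have hTT : ∀ χ, ‖T χ - T1 χ‖ ≤ pp := by
    intro χ
    have h1 : T χ - T1 χ = ∑ m ∈ W.filter (fun m => ¬ ∀ i, ¬ p i ∣ m),
        ((ArithmeticFunction.vonMangoldt m : ℝ) : ℂ) * fch χ m := by
      rw [hT, hT1, hW1]
      rw [sub_eq_iff_eq_add, add_comm]
      exact (sum_filter_add_sum_filter_not _ _ _).symm
    rw [h1]
    refine (norm_sum_le _ _).trans ?_
    calc ∑ m ∈ W.filter (fun m => ¬ ∀ i, ¬ p i ∣ m),
        ‖((ArithmeticFunction.vonMangoldt m : ℝ) : ℂ) * fch χ m‖ ≤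
        ∑ m ∈ W.filter (fun m => ¬ ∀ i, ¬ p i ∣ m), ArithmeticFunction.vonMangoldt m := by
          apply sum_le_sum
          intro m _
          rw [norm_mul, Complex.norm_real, Real.norm_of_nonneg (hΛ m)]
          exact mul_le_of_le_one_right (hΛ m) (fch_norm χ m)
      _ ≤ pp := by
          apply sum_le_sum_of_subset_of_nonneg
          · intro m hm
            rw [mem_filter, hW, mem_filter] at hm
            rw [mem_filter]
            refine ⟨hm.1.1, ?_⟩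
            have h2 := hm.2
            push Not at h2
            obtain ⟨i, hi⟩ := h2
            exact not_prime_of_dvd (hp i) (hpP i) (mem_Ioc.1 hm.1.1).1 hi
          · intro m _ _
            exact hΛ m
  -- restriction to small conductor
  set F := (univ : Finset (Fam p)).filter (fun χ => (fcd χ : ℝ) ≤ D ^ 2) with hF
  set F' := (univ : Finset (Fam p)).filter (fun χ => fsupp χ ≠ ∅ ∧ (fcd χ : ℝ) ≤ D ^ 2) with hF'
  have hres : ∀ f : Fam p → ℂ, ∑ χ : Fam p, cf p a a0 Y χ * f χ = ∑ χ ∈ F, cf p a a0 Y χ * f χ := by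
    intro f
    symm
    apply sum_subset (subset_univ _)
    intro χ _ hχ
    rw [hF, mem_filter] at hχ
    rw [hcf0 χ (fun h => hχ ⟨mem_univ _, h⟩), zero_mul]
  have hFcard : (F.card : ℝ) ≤ 2 * D ^ 4 := by
    have h1 := card_fam hp hinj (D := D ^ 2) (one_le_pow₀ hD)
    calc (F.card : ℝ) ≤ 2 * (D ^ 2) ^ 2 := h1
      _ = 2 * D ^ 4 := by ring
  have hF1 : F = insert (fun _ => 1) F' := by
    ext χ
    rw [hF, hF', mem_insert, mem_filter, mem_filter]
    constructor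
    · rintro ⟨_, h2⟩
      by_cases h : fsupp χ = ∅
      · left
        exact fsupp_empty h
      · right
        exact ⟨mem_univ _, h, h2⟩
    · rintro (h | h)
      · refine ⟨mem_univ _, ?_⟩
        rw [h]
        unfold fcd
        rw [fsupp_one, prod_empty]
        push_cast
        exact one_le_pow₀ hD
      · exact ⟨mem_univ _, h.2.2⟩
  have hnot : (fun _ => 1 : Fam p) ∉ F' := by
    rw [hF', mem_filter]
    rintro ⟨_, h2, _⟩
    exact h2 (fsupp_one p)
  have hT0 : T (fun _ => 1) = ((psi M r P : ℝ) : ℂ) := by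
    rw [hT, psi, Complex.ofReal_sum]
    apply sum_congr rfl
    intro m _
    unfold fch
    rw [fsupp_one, prod_empty, mul_one]
  have hpsi0 : 0 ≤ psi M r P := sum_nonneg fun m _ => hΛ m
  -- main term
  have hmain : 4 / 5 * Z * psi M r P ≤ (cf p a a0 Y (fun _ => 1) * T (fun _ => 1)).re := by
    have h1 := cf_one_ge hp h3 a a0 h0 hd hk Y hN
    rw [← hZ] at h1
    rw [hT0, Complex.re_mul_ofReal]
    exact mul_le_mul_of_nonneg_right h1 hpsi0
  have herr1 : ‖∑ χ ∈ F', cf p a a0 Y χ * T χ‖ ≤ 6 / 5 * Z * B := by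
    refine (norm_sum_le _ _).trans ?_
    calc ∑ χ ∈ F', ‖cf p a a0 Y χ * T χ‖ ≤
        ∑ χ ∈ F', 6 / 5 * Z * ((fcd χ : ℝ) ^ (-(3 / 4) : ℝ) * ‖T χ‖) := by
          apply sum_le_sum
          intro χ _
          rw [norm_mul, ← mul_assoc]
          exact mul_le_mul_of_nonneg_right (hcf χ) (norm_nonneg _)
      _ = 6 / 5 * Z * ∑ χ ∈ F', ((fcd χ : ℝ) ^ (-(3 / 4) : ℝ) * ‖T χ‖) := by rw [mul_sum]
      _ ≤ 6 / 5 * Z * B := mul_le_mul_of_nonneg_left hB (by positivity)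
  have herr2 : ‖∑ χ ∈ F, cf p a a0 Y χ * (T χ - T1 χ)‖ ≤ 12 / 5 * Z * D ^ 4 * pp := by
    refine (norm_sum_le _ _).trans ?_
    calc ∑ χ ∈ F, ‖cf p a a0 Y χ * (T χ - T1 χ)‖ ≤ ∑ _χ ∈ F, 6 / 5 * Z * pp := by
          apply sum_le_sum
          intro χ _
          rw [norm_mul]
          exact mul_le_mul (hcf1 χ) (hTT χ) (norm_nonneg _) (by positivity)
      _ = F.card * (6 / 5 * Z * pp) := by rw [sum_const, nsmul_eq_mul]
      _ ≤ 2 * D ^ 4 * (6 / 5 * Z * pp) := mul_le_mul_of_nonneg_right hFcard (by positivity)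
      _ = 12 / 5 * Z * D ^ 4 * pp := by ring
  -- assembly
  have hS1 : 4 / 5 * Z * psi M r P - 6 / 5 * Z * B - 12 / 5 * Z * D ^ 4 * pp ≤
      ∑ m ∈ W1, ArithmeticFunction.vonMangoldt m * G m := by
    have h1 : (∑ m ∈ W1, ArithmeticFunction.vonMangoldt m * G m : ℝ) =
        (∑ χ ∈ F, cf p a a0 Y χ * T χ).re - (∑ χ ∈ F, cf p a a0 Y χ * (T χ - T1 χ)).re := by
      have h2 := congrArg Complex.re hexp
      rw [Complex.ofReal_re] at h2
      rw [h2, hres, ← Complex.sub_re, ← sum_sub_distrib]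
      congr 1
      apply sum_congr rfl
      intro χ _
      ring
    have h2 : (∑ χ ∈ F, cf p a a0 Y χ * T χ).re =
        (cf p a a0 Y (fun _ => 1) * T (fun _ => 1)).re + (∑ χ ∈ F', cf p a a0 Y χ * T χ).re := by
      rw [hF1, sum_insert hnot, Complex.add_re]
    have h4 := Complex.abs_re_le_norm (∑ χ ∈ F', cf p a a0 Y χ * T χ)
    have h5 := Complex.abs_re_le_norm (∑ χ ∈ F, cf p a a0 Y χ * (T χ - T1 χ))
    rw [abs_le] at h4 h5
    rw [h1, h2]
    linarith [h4.1, h5.2]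
  have hfin : 12 / 5 * Z * D ^ 4 * pp + 4 * D ^ 4 * pp ≤
      100 * Z * D ^ 4 * √P * Real.log (4 * P) ^ 2 := by
    have h1 : 4 * D ^ 4 * pp ≤ 4 * Z * D ^ 4 * pp := by
      have h2 : 0 ≤ D ^ 4 * pp := by positivity
      nlinarith
    have h2 : 12 / 5 * Z * D ^ 4 * pp + 4 * Z * D ^ 4 * pp = 32 / 5 * Z * D ^ 4 * pp := by ring
    have h4 : 32 / 5 * Z * D ^ 4 * pp ≤
        32 / 5 * Z * D ^ 4 * (10 * √P * Real.log (4 * P) ^ 2) :=
      mul_le_mul_of_nonneg_left hppb (by positivity)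
    have h5 : 0 ≤ Z * D ^ 4 * (√P * Real.log (4 * P) ^ 2) := by positivity
    have h6 : 32 / 5 * Z * D ^ 4 * (10 * √P * Real.log (4 * P) ^ 2) =
        64 * (Z * D ^ 4 * (√P * Real.log (4 * P) ^ 2)) := by ring
    have h7 : 100 * Z * D ^ 4 * √P * Real.log (4 * P) ^ 2 =
        100 * (Z * D ^ 4 * (√P * Real.log (4 * P) ^ 2)) := by ring
    linarith
  linarith

end Pool.Agent.AT
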