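import Pool.Agent.RS.Wt
import Pool.Agent.RS.Rough

/-! AT/Wm.  Monotonicity of the basic weight.
PLAN.  `T = ∅`: `wt ∅ = 1` and `wt_abs`.  `T ≠ ∅`: then `S ≠ ∅`; if `PP p S ≤ S1` then also
`PP p T ≤ PP p S ≤ S1` (all `p i ≥ 1`), both weights are `1/(H1 log PP)` in absolute value and
`0 < log PP T ≤ log PP S`; otherwise `wt S = 0`. -/

namespace Pool.Agent.AT

open Finset Pool.Agent.RS

variable {ι : Type} [Fintype ι] [DecidableEq ι]

theorem wt_mono {p : ι → ℕ} (hp : ∀ i, 2 ≤ p i) {S1 : ℝ} (hH0 : 0 < H1 p S1)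
    (hH : ∀ i, 1 ≤ H1 p S1 * Real.log (p i)) (S T : Finset ι) (h : T ⊆ S) :
    |wt p S1 S| ≤ |wt p S1 T| := by
  rcases Finset.eq_empty_or_nonempty T with hT | hT
  · have h1 : wt p S1 T = 1 := by
      unfold wt
      rw [if_pos hT]
    rw [h1, abs_one]
    exact wt_abs hp hH S
  have hT' : T ≠ ∅ := hT.ne_empty
  have hS' : S ≠ ∅ := (hT.mono h).ne_empty
  have hTS : PP p T ≤ PP p S := by
    have h1 : PP p (S \ T) * PP p T = PP p S := by
      unfold PP
      exact Finset.prod_sdiff h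
    have h2 := one_le_PP hp (S \ T)
    have h3 := one_le_PP hp T
    nlinarith
  by_cases hS1 : PP p S ≤ S1
  · have hT1 : PP p T ≤ S1 := hTS.trans hS1
    have h2 : 2 ≤ PP p T := by
      obtain ⟨i, hi⟩ := hT
      have h1 : PP p (T \ {i}) * PP p {i} = PP p T := by
        unfold PP
        exact Finset.prod_sdiff (Finset.singleton_subset_iff.2 hi)
      have h3 := one_le_PP hp (T \ {i})
      have h4 : PP p {i} = p i := by simp [PP]
      have h5 : (2 : ℝ) ≤ p i := by exact_mod_cast hp i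
      rw [h4] at h1
      nlinarith
    have hlT : 0 < Real.log (PP p T) := Real.log_pos (by linarith)
    have hl : Real.log (PP p T) ≤ Real.log (PP p S) :=
      Real.log_le_log (by linarith) hTS
    have hlS : 0 < Real.log (PP p S) := hlT.trans_le hl
    unfold wt
    rw [if_neg hS', if_neg hT', if_pos hS1, if_pos hT1, abs_div, abs_div, abs_neg, abs_one,
      abs_of_pos (mul_pos hH0 hlS), abs_of_pos (mul_pos hH0 hlT)]
    exact one_div_le_one_div_of_le (mul_pos hH0 hlT) (mul_le_mul_of_nonneg_left hl hH0.le)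
  · have h1 : wt p S1 S = 0 := by
      unfold wt
      rw [if_neg hS', if_neg hS1]
    rw [h1, abs_zero]
    exact abs_nonneg _

end Pool.Agent.AT
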