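import Pool.Agent.AT.En
import Pool.Agent.AT.ParB
import Pool.Agent.AT.Wm
import Pool.Agent.AT.Pr
import Pool.Agent.AT.BV

/-! AT/E1.  PLAN.  Apply `prime_sum` with `p = px L`, `a = ax R`, `a0 = -j`, `r = b + j`, `D = 2 ^ dd L`,
`Y = Yx L R` (hypotheses: `px_*`; `hk` from `px_sum_sq`, `hkp = px_quarter`, `hN` from `px_sum` and `Yx_level`,
`hmono` from `Yd_mono` and `wt_mono`, `H1_ge`), and `B` = the bound of `bv` with `Q0 = L^6`,
`D := (2 ^ dd L)^2 ≤ P^(1/1000)`:  `B = C (P/M) (log P)^3 (L^6)^(-3/4) ≤ C (P/M) (2L)^3 L^(-9/2) ≤ (P/M)/(4L)`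
for `L` large (`log P ≤ (L+1) log 2 ≤ L`).  The error `100 Z D^4 √P log(4P)^2` is `≤ Z (P/M)/(4L)` because
`P/M ≥ P^(999/1000)` and `D^4 ≤ 2^(4L/10000)`.
Then `m ↦ n = m - j` maps the primes `m ∈ Ioc P (4P)`, `m ≡ b + j` injectively into `(Nw P H M b).filter ..`
(`m - j > P - H` since `j < H`), `(m : ℤ) + a0 = n`, and `log m ≤ log (4P) ≤ 2 log P`. -/

namespace Pool.Agent.AT

open Finset Pool.Agent.RS

private theorem e1_log {P L : ℕ} (hL : L = Nat.log 2 P) (hP : P ≠ 0) (hL3 : 10 ≤ L) :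
    Real.log P ≤ L := by
  have h1 : P < 2 ^ (L + 1) := by rw [hL]; exact Nat.lt_pow_succ_log_self (by norm_num) P
  have h2 : (P : ℝ) ≤ 2 ^ (L + 1) := by exact_mod_cast h1.le
  have hP0 : (0 : ℝ) < P := by exact_mod_cast Nat.pos_of_ne_zero hP
  have h3 := Real.log_le_log hP0 h2
  rw [Real.log_pow] at h3
  have h4 := Real.log_two_lt_d9
  have h5 : (10 : ℝ) ≤ L := by exact_mod_cast hL3
  push_cast at h3
  nlinarith

private theorem e1_two {P L : ℕ} (hL : L = Nat.log 2 P) (hP : P ≠ 0) : (2 : ℝ) ^ L ≤ P := by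
  have h1 : 2 ^ L ≤ P := by rw [hL]; exact Nat.pow_log_le_self 2 hP
  exact_mod_cast h1

private theorem e1_D {P L : ℕ} (hL : L = Nat.log 2 P) (hP : P ≠ 0) :
    (2 : ℝ) ^ dd L ≤ (P : ℝ) ^ (1 / 10000 : ℝ) := by
  have h1 : ((dd L : ℕ) : ℝ) ≤ (L : ℝ) * (1 / 10000) := by
    unfold dd
    have := Nat.cast_div_le (α := ℝ) (m := L) (n := 10000)
    push_cast at this
    linarith
  calc (2 : ℝ) ^ dd L = (2 : ℝ) ^ ((dd L : ℕ) : ℝ) := (Real.rpow_natCast _ _).symm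
    _ ≤ (2 : ℝ) ^ ((L : ℝ) * (1 / 10000)) := Real.rpow_le_rpow_of_exponent_le (by norm_num) h1
    _ = ((2 : ℝ) ^ L) ^ (1 / 10000 : ℝ) := by
        rw [Real.rpow_mul (by norm_num), Real.rpow_natCast]
    _ ≤ (P : ℝ) ^ (1 / 10000 : ℝ) :=
        Real.rpow_le_rpow (by positivity) (e1_two hL hP) (by norm_num)

private theorem e1_quarter {P L : ℕ} (hL : L = Nat.log 2 P) (hP : P ≠ 0) (hL8 : 10 ^ 8 ≤ L) :
    800 * (L : ℝ) ^ 3 ≤ (P : ℝ) ^ (1 / 4 : ℝ) := by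
  have hL' : (10 : ℝ) ^ 8 ≤ L := by exact_mod_cast hL8
  have h1 : ((2 : ℝ) ^ L) ^ (1 / 4 : ℝ) ≤ (P : ℝ) ^ (1 / 4 : ℝ) :=
    Real.rpow_le_rpow (by positivity) (e1_two hL hP) (by norm_num)
  have h2 : ((2 : ℝ) ^ L) ^ (1 / 4 : ℝ) = Real.exp ((L : ℝ) * Real.log 2 / 4) := by
    rw [← Real.rpow_natCast, ← Real.rpow_mul (by norm_num), Real.rpow_def_of_pos (by norm_num)]
    congr 1
    ring
  have hl : 0.69 ≤ Real.log 2 := by linarith [Real.log_two_gt_d9]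
  have h3 : 0.17 * (L : ℝ) ≤ (L : ℝ) * Real.log 2 / 4 := by nlinarith
  have h4 := Real.pow_div_factorial_le_exp (0.17 * (L : ℝ)) (by positivity) 4
  have h5 : Real.exp (0.17 * (L : ℝ)) ≤ Real.exp ((L : ℝ) * Real.log 2 / 4) :=
    Real.exp_le_exp.2 h3
  have h6 : ((Nat.factorial 4 : ℕ) : ℝ) = 24 := by norm_num [Nat.factorial]
  rw [h6] at h4
  have h7 : 800 * (L : ℝ) ^ 3 ≤ (0.17 * (L : ℝ)) ^ 4 / 24 := by
    have h8 : (0.17 * (L : ℝ)) ^ 4 / 24 = (0.17 ^ 4 / 24 * L) * (L : ℝ) ^ 3 := by ring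
    rw [h8]
    refine mul_le_mul_of_nonneg_right ?_ (by positivity)
    norm_num
    linarith
  rw [← h2] at h5
  linarith

private theorem e1_pow {L : ℕ} (hL : 1 ≤ L) :
    (L : ℝ) ^ 3 * ((L : ℝ) ^ 6) ^ (-(3 / 4) : ℝ) = 1 / ((L : ℝ) * √(L : ℝ)) := by
  have hL0 : (0 : ℝ) < L := by exact_mod_cast hL
  have h1 : (L : ℝ) ^ 3 = (L : ℝ) ^ (3 : ℝ) := by
    rw [← Real.rpow_natCast]; norm_num
  have h2 : ((L : ℝ) ^ 6) ^ (-(3 / 4) : ℝ) = (L : ℝ) ^ (-(9 / 2) : ℝ) := by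
    rw [← Real.rpow_natCast, ← Real.rpow_mul hL0.le]
    norm_num
  have h3 : 1 / ((L : ℝ) * √(L : ℝ)) = (L : ℝ) ^ (-(3 / 2) : ℝ) := by
    rw [Real.rpow_neg hL0.le, one_div, Real.sqrt_eq_rpow]
    congr 1
    rw [show (3 / 2 : ℝ) = 1 + 1 / 2 by norm_num, Real.rpow_add hL0, Real.rpow_one]
  rw [h1, h2, h3, ← Real.rpow_add hL0]
  norm_num

theorem E1 : SE1 := by
  classical
  obtain ⟨C, hC, P1, hbv⟩ := bv
  obtain ⟨L1, hH1⟩ := H1_ge
  obtain ⟨L2, hL2⟩ := exists_nat_ge ((12 / 5 * C) ^ 2)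
  refine ⟨max P1 (2 ^ (max (max L1 L2) (10 ^ 8))), ?_⟩
  intro P hP L M H R hA b j hj hjR hcop
  have hPP1 : P1 ≤ P := le_trans (le_max_left _ _) hP
  have hP2 : 2 ^ (max (max L1 L2) (10 ^ 8)) ≤ P := le_trans (le_max_right _ _) hP
  have hP0 : P ≠ 0 := by
    have : 0 < 2 ^ (max (max L1 L2) (10 ^ 8)) := by positivity
    omega
  have hLL : max (max L1 L2) (10 ^ 8) ≤ L := by
    rw [hA.hL]
    exact Nat.le_log_of_pow_le (by norm_num) hP2
  have hLL1 : L1 ≤ L := le_trans (le_trans (le_max_left _ _) (le_max_left _ _)) hLL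
  have hLL2 : L2 ≤ L := le_trans (le_trans (le_max_right _ _) (le_max_left _ _)) hLL
  have hL8 : 10 ^ 8 ≤ L := le_trans (le_max_right _ _) hLL
  obtain ⟨-, hHpos', hHlog⟩ := hH1 L hLL1
  have hHpos : 0 < H1 (px L) (2 ^ sx L) := lt_of_lt_of_le (by positivity) hHpos'
  have hLr : (10 : ℝ) ^ 8 ≤ L := by exact_mod_cast hL8
  have hL0 : (0 : ℝ) < L := lt_of_lt_of_le (by norm_num) hLr
  have h2L := e1_two hA.hL hP0
  have hlogP := e1_log hA.hL hP0 (by omega)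
  have hPbig : (10 : ℝ) ^ 8 ≤ P := by
    have h1 : (L : ℝ) ≤ 2 ^ L := by exact_mod_cast (Nat.lt_two_pow_self (n := L)).le
    linarith
  have hPr0 : (0 : ℝ) < P := lt_of_lt_of_le (by norm_num) hPbig
  have hPnat : 10 ^ 8 ≤ P := by exact_mod_cast hPbig
  have hquart := e1_quarter hA.hL hP0 hL8
  have hLsq : L ^ 2 ≤ P := by
    have h1 : (P : ℝ) ^ (1 / 4 : ℝ) ≤ (P : ℝ) ^ (1 : ℝ) :=
      Real.rpow_le_rpow_of_exponent_le (by linarith) (by norm_num)
    rw [Real.rpow_one] at h1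
    have h2 : (L : ℝ) ^ 2 ≤ 800 * (L : ℝ) ^ 3 := by
      have h3 : 800 * (L : ℝ) ^ 3 = (800 * L) * (L : ℝ) ^ 2 := by ring
      rw [h3]
      exact le_mul_of_one_le_left (by positivity) (by linarith)
    have h4 : (L : ℝ) ^ 2 ≤ P := by linarith
    exact_mod_cast h4
  have hM0 : (0 : ℝ) < M := by exact_mod_cast hA.hM0
  set D : ℝ := 2 ^ dd L with hD
  have hD1 : 1 ≤ D := one_le_pow₀ (by norm_num)
  have hDP : D ≤ (P : ℝ) ^ (1 / 10000 : ℝ) := e1_D hA.hL hP0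
  have hkL : (R.card : ℝ) ≤ L := by
    refine hA.hk.trans ?_
    have : c0 ≤ 1 := by
      unfold c0
      have : Real.exp (-9) ≤ 1 := Real.exp_le_one_iff.2 (by norm_num)
      rw [div_le_one (by norm_num)]
      linarith
    nlinarith
  have hcardκ : (Fintype.card {j : ℕ // j ∈ R} : ℝ) = R.card := by
    rw [Fintype.card_coe]
  have hp : ∀ i : Ix L, (px L i).Prime := px_prime
  have h3 : ∀ i : Ix L, 3 ≤ px L i := fun i => by
    have h1 := px_gt i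
    have h2 : 3 ≤ L ^ 6 := by
      calc 3 ≤ L := by omega
        _ = L ^ 1 := (pow_one L).symm
        _ ≤ L ^ 6 := Nat.pow_le_pow_right (by omega) (by norm_num)
    omega
  have hddL : dd L ≤ L := Nat.div_le_self _ _
  have hpP : ∀ i : Ix L, px L i ≤ P := fun i => by
    have h1 := px_le i
    have h2 : 2 ^ dd L ≤ 2 ^ L := Nat.pow_le_pow_right (by norm_num) hddL
    have h4 : 2 ^ L ≤ P := by exact_mod_cast h2L
    omega
  have hHL : H ≤ L ^ 2 := hA.hH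
  have hRlt : ∀ i : {j : ℕ // j ∈ R}, (i : ℕ) < L ^ 2 := fun i => by
    have := mem_range.1 (hA.hR i.2)
    omega
  have h0 : ∀ (i : Ix L) (k : {j : ℕ // j ∈ R}), ¬ (px L i : ℤ) ∣ ax R k - (-(j : ℤ)) := by
    intro i k
    exact px_not_dvd (by omega) i (hRlt k) (by omega) (fun h => hjR (h ▸ k.2))
  have hd : ∀ (i : Ix L) (k k' : {j : ℕ // j ∈ R}), k ≠ k' →
      ¬ (px L i : ℤ) ∣ ax R k - ax R k' := by
    intro i k k' hkk
    exact px_not_dvd (by omega) i (hRlt k) (hRlt k') (fun h => hkk (Subtype.ext h))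
  have hL5 : (L : ℝ) * (1 / (L : ℝ) ^ 5) ≤ 1 / 100 := by
    have h1 : (L : ℝ) * (1 / (L : ℝ) ^ 5) = 1 / (L : ℝ) ^ 4 := by
      field_simp
    rw [h1]
    apply one_div_le_one_div_of_le (by norm_num)
    calc (100 : ℝ) ≤ L := by linarith
      _ = (L : ℝ) ^ 1 := (pow_one _).symm
      _ ≤ (L : ℝ) ^ 4 := pow_le_pow_right₀ (by linarith) (by norm_num)
  have hk : ∑ i : Ix L, (Fintype.card {j : ℕ // j ∈ R} : ℝ) / ((px L i : ℝ) - 1) ^ 2 ≤ 1 / 100 := by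
    rw [hcardκ]
    have h1 : ∑ i : Ix L, (R.card : ℝ) / ((px L i : ℝ) - 1) ^ 2 =
        (R.card : ℝ) * ∑ i : Ix L, 1 / ((px L i : ℝ) - 1) ^ 2 := by
      rw [Finset.mul_sum]
      exact Finset.sum_congr rfl fun i _ => by rw [mul_one_div]
    rw [h1]
    have h2 := px_sum_sq (L := L) (by omega)
    refine le_trans (mul_le_mul hkL h2 ?_ hL0.le) hL5
    exact Finset.sum_nonneg fun i _ => div_nonneg zero_le_one (sq_nonneg _)
  have hkp : ∀ i : Ix L, 10 * (Fintype.card {j : ℕ // j ∈ R} : ℝ) / ((px L i : ℝ) - 1) ≤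
      (px L i : ℝ) ^ (-(3 / 4) : ℝ) := by
    intro i
    rw [hcardκ]
    exact px_quarter (by omega) i hkL
  have hY1 : ∀ σ, |Yx L R σ| ≤ 1 := Yx_abs hHlog R
  have hYs : ∀ σ, Yx L R σ ≠ 0 → PP (px L) (supp σ) ≤ D := fun σ h => Yx_level h
  have hN : ∀ σ, Yx L R σ ≠ 0 →
      ∑ i ∈ supp σ, (Fintype.card {j : ℕ // j ∈ R} : ℝ) / ((px L i : ℝ) - 1) ≤ 1 / 100 := by
    intro σ hσ
    rw [hcardκ]
    have h1 : ∑ i ∈ supp σ, (R.card : ℝ) / ((px L i : ℝ) - 1) =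
        (R.card : ℝ) * ∑ i ∈ supp σ, 1 / ((px L i : ℝ) - 1) := by
      rw [Finset.mul_sum]
      exact Finset.sum_congr rfl fun i _ => by rw [mul_one_div]
    rw [h1]
    have h2 := px_sum (L := L) (by omega) (supp σ) ((hYs σ hσ).trans
      (pow_le_pow_right₀ (by norm_num) hddL))
    refine le_trans (mul_le_mul hkL h2 ?_ hL0.le) hL5
    refine Finset.sum_nonneg fun i _ => ?_
    have h4 : (3 : ℝ) ≤ px L i := by exact_mod_cast h3 i
    exact div_nonneg zero_le_one (by linarith)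
  have hmono : ∀ (S : Finset (Ix L)) (σ : Ix L → Option {j : ℕ // j ∈ R}),
      |Yx L R σ| ≤ |Yx L R (eraS S σ)| := by
    intro S σ
    unfold Yx
    exact Yd_mono (fun i => (hp i).two_le) (yx L) _
      (fun S T h => wt_mono (fun i => (hp i).two_le) hHpos hHlog S T h) S σ
  have hZ1 : 1 ≤ Zx L R := Zx_one_le L R
  have hL6 : (1 : ℝ) ≤ (L : ℝ) ^ 6 := one_le_pow₀ (by linarith)
  have hD2P : D ^ 2 ≤ (P : ℝ) ^ (1 / 1000 : ℝ) := by
    calc D ^ 2 ≤ ((P : ℝ) ^ (1 / 10000 : ℝ)) ^ 2 := pow_le_pow_left₀ (by linarith) hDP 2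
      _ = (P : ℝ) ^ (2 / 10000 : ℝ) := by
          rw [← Real.rpow_natCast, ← Real.rpow_mul hPr0.le]; norm_num
      _ ≤ (P : ℝ) ^ (1 / 1000 : ℝ) :=
          Real.rpow_le_rpow_of_exponent_le (by linarith) (by norm_num)
  have hB := hbv P hPP1 M (b + j) hA.hM0 hA.hMP hcop (Ix L) (px L) hp (px_inj L)
    (fun i => hA.hM _ (hp i) (px_gt i)) ((L : ℝ) ^ 6) (D ^ 2) hL6
    (fun i => by exact_mod_cast (px_gt i).le) hD2P
  have hmain := prime_sum hp h3 (px_inj L) (P := P) (M := M) (r := b + j) (by omega) hpP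
    (ax R) (-(j : ℤ)) h0 hd hk hkp hD1 hY1 hYs hN hmono (Z := Zx L R) rfl hZ1 hB
  have hZ0 : 0 < Zx L R := by linarith
  have hPM0 : 0 < (P : ℝ) / M := by positivity
  -- first error
  have herr1 : 6 / 5 * (C * (P / M) * Real.log P ^ 3 * ((L : ℝ) ^ 6) ^ (-(3 / 4) : ℝ)) ≤
      ((P : ℝ) / M) / (2 * L) := by
    clear hmain hB hbv hH1 hmono hN hYs hY1 hkp hk hd h0 hRlt hpP h3 hp hHlog hA hP hP2
    have hlp0 : 0 ≤ Real.log P := Real.log_natCast_nonneg P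
    have h1 : Real.log P ^ 3 ≤ (L : ℝ) ^ 3 := pow_le_pow_left₀ hlp0 hlogP 3
    have h2 : (0 : ℝ) ≤ ((L : ℝ) ^ 6) ^ (-(3 / 4) : ℝ) := by positivity
    have h4 : 12 / 5 * C ≤ √(L : ℝ) := by
      apply Real.le_sqrt_of_sq_le
      refine hL2.trans ?_
      exact_mod_cast hLL2
    have hs0 : 0 < √(L : ℝ) := Real.sqrt_pos.2 hL0
    calc 6 / 5 * (C * (P / M) * Real.log P ^ 3 * ((L : ℝ) ^ 6) ^ (-(3 / 4) : ℝ))
        ≤ 6 / 5 * (C * (P / M) * (L : ℝ) ^ 3 * ((L : ℝ) ^ 6) ^ (-(3 / 4) : ℝ)) := by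
          gcongr
      _ = 6 / 5 * (C * (P / M)) * ((L : ℝ) ^ 3 * ((L : ℝ) ^ 6) ^ (-(3 / 4) : ℝ)) := by ring
      _ = 6 / 5 * (C * (P / M)) * (1 / ((L : ℝ) * √(L : ℝ))) := by rw [e1_pow (by omega)]
      _ = ((P : ℝ) / M) / (2 * L) * (12 / 5 * C / √(L : ℝ)) := by
          field_simp
          ring
      _ ≤ ((P : ℝ) / M) / (2 * L) * 1 := by
          refine mul_le_mul_of_nonneg_left ?_ (by positivity)
          rw [div_le_one hs0]
          exact h4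
      _ = _ := mul_one _
  -- second error
  have hlog4 : Real.log (4 * P) ≤ 2 * Real.log P := by
    have h1 : Real.log (4 * P) ≤ Real.log ((P : ℝ) ^ 2) := by
      apply Real.log_le_log (by positivity)
      nlinarith
    rw [Real.log_pow] at h1
    exact_mod_cast h1
  have herr2 : 100 * D ^ 4 * √P * Real.log (4 * P) ^ 2 ≤ ((P : ℝ) / M) / (2 * L) := by
    have hMP := hA.hMP
    clear hmain hB hbv hH1 hmono hN hYs hY1 hkp hk hd h0 hRlt hpP h3 hp hHlog hA hP hP2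
    have h1 : Real.log (4 * P) ^ 2 ≤ (2 * (L : ℝ)) ^ 2 := by
      refine pow_le_pow_left₀ (Real.log_nonneg (by linarith)) ?_ 2
      linarith
    have h2 : D ^ 4 ≤ (P : ℝ) ^ (4 / 10000 : ℝ) := by
      calc D ^ 4 ≤ ((P : ℝ) ^ (1 / 10000 : ℝ)) ^ 4 := pow_le_pow_left₀ (by linarith) hDP 4
        _ = (P : ℝ) ^ (4 / 10000 : ℝ) := by
            rw [← Real.rpow_natCast, ← Real.rpow_mul hPr0.le]; norm_num
    have h4 : √(P : ℝ) = (P : ℝ) ^ (1 / 2 : ℝ) := Real.sqrt_eq_rpow _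
    have h5 : (P : ℝ) ^ (999 / 1000 : ℝ) ≤ (P : ℝ) / M := by
      rw [le_div_iff₀ hM0]
      calc (P : ℝ) ^ (999 / 1000 : ℝ) * M
          ≤ (P : ℝ) ^ (999 / 1000 : ℝ) * (P : ℝ) ^ (1 / 1000 : ℝ) :=
            mul_le_mul_of_nonneg_left hMP (by positivity)
        _ = P := by rw [← Real.rpow_add hPr0]; norm_num
    have h6 : 800 * (L : ℝ) ^ 3 * (P : ℝ) ^ (5004 / 10000 : ℝ) ≤ (P : ℝ) ^ (999 / 1000 : ℝ) := by
      calc 800 * (L : ℝ) ^ 3 * (P : ℝ) ^ (5004 / 10000 : ℝ)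
          ≤ (P : ℝ) ^ (1 / 4 : ℝ) * (P : ℝ) ^ (5004 / 10000 : ℝ) :=
            mul_le_mul_of_nonneg_right hquart (by positivity)
        _ = (P : ℝ) ^ (7504 / 10000 : ℝ) := by rw [← Real.rpow_add hPr0]; norm_num
        _ ≤ (P : ℝ) ^ (999 / 1000 : ℝ) :=
            Real.rpow_le_rpow_of_exponent_le (by linarith) (by norm_num)
    calc 100 * D ^ 4 * √P * Real.log (4 * P) ^ 2
        ≤ 100 * (P : ℝ) ^ (4 / 10000 : ℝ) * (P : ℝ) ^ (1 / 2 : ℝ) * (2 * (L : ℝ)) ^ 2 := by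
          rw [h4]
          gcongr
      _ = 400 * (L : ℝ) ^ 2 * ((P : ℝ) ^ (4 / 10000 : ℝ) * (P : ℝ) ^ (1 / 2 : ℝ)) := by ring
      _ = 400 * (L : ℝ) ^ 2 * (P : ℝ) ^ (5004 / 10000 : ℝ) := by
          rw [← Real.rpow_add hPr0]; norm_num
      _ = 800 * (L : ℝ) ^ 3 * (P : ℝ) ^ (5004 / 10000 : ℝ) / (2 * L) := by
          field_simp
          ring
      _ ≤ (P : ℝ) ^ (999 / 1000 : ℝ) / (2 * L) :=
          div_le_div_of_nonneg_right h6 (by positivity)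
      _ ≤ ((P : ℝ) / M) / (2 * L) := div_le_div_of_nonneg_right h5 (by positivity)
  -- the sums
  have hsum : ∑ m ∈ (Ioc P (4 * P)).filter (fun m => m ≡ b + j [MOD M] ∧ m.Prime),
        Real.log m * (∑ σ : Ix L → Option {j : ℕ // j ∈ R},
          Yx L R σ * EE (px L) (ax R) σ ((m : ℤ) + (-(j : ℤ)))) ^ 2 ≤
      2 * Real.log P * ∑ n ∈ (Nw P H M b).filter (fun n => (n + j).Prime), gx L R (n : ℤ) ^ 2 := by
    have hmj : ∀ m ∈ (Ioc P (4 * P)).filter (fun m => m ≡ b + j [MOD M] ∧ m.Prime), j ≤ m := by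
      intro m hm
      have := (mem_Ioc.1 (mem_filter.1 hm).1).1
      omega
    rw [Finset.mul_sum]
    calc ∑ m ∈ (Ioc P (4 * P)).filter (fun m => m ≡ b + j [MOD M] ∧ m.Prime),
        Real.log m * (∑ σ : Ix L → Option {j : ℕ // j ∈ R},
          Yx L R σ * EE (px L) (ax R) σ ((m : ℤ) + (-(j : ℤ)))) ^ 2
        ≤ ∑ m ∈ (Ioc P (4 * P)).filter (fun m => m ≡ b + j [MOD M] ∧ m.Prime),
          2 * Real.log P * gx L R (((m - j : ℕ) : ℕ) : ℤ) ^ 2 := by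
          refine Finset.sum_le_sum fun m hm => ?_
          have h1 := mem_Ioc.1 (mem_filter.1 hm).1
          have h2 : ((m : ℤ) + (-(j : ℤ))) = ((m - j : ℕ) : ℤ) := by
            rw [Nat.cast_sub (hmj m hm)]; ring
          rw [h2]
          have h4 : Real.log m ≤ 2 * Real.log P := by
            refine le_trans (Real.log_le_log ?_ ?_) hlog4
            · have : 0 < m := by omega
              exact_mod_cast this
            · exact_mod_cast h1.2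
          exact mul_le_mul_of_nonneg_right h4 (sq_nonneg _)
      _ = ∑ n ∈ ((Ioc P (4 * P)).filter (fun m => m ≡ b + j [MOD M] ∧ m.Prime)).image
            (fun m => m - j), 2 * Real.log P * gx L R (n : ℤ) ^ 2 := by
          rw [Finset.sum_image]
          intro m hm m' hm' h
          have h1 := hmj m hm
          have h2 := hmj m' hm'
          simp only at h
          omega
      _ ≤ ∑ n ∈ (Nw P H M b).filter (fun n => (n + j).Prime),
            2 * Real.log P * gx L R (n : ℤ) ^ 2 := by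
          refine Finset.sum_le_sum_of_subset_of_nonneg ?_ ?_
          · intro n hn
            obtain ⟨m, hm, rfl⟩ := mem_image.1 hn
            have h1 := mem_Ioc.1 (mem_filter.1 hm).1
            have h2 := (mem_filter.1 hm).2
            have h4 := hmj m hm
            have h5 : m - j + j = m := Nat.sub_add_cancel h4
            rw [mem_filter, h5]
            refine ⟨?_, h2.2⟩
            unfold Nw
            rw [mem_filter, mem_Ioc]
            refine ⟨⟨by omega, by omega⟩, ?_⟩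
            have h6 : m - j + j ≡ b + j [MOD M] := by rw [h5]; exact h2.1
            exact Nat.ModEq.add_right_cancel' j h6
          · intro n _ _
            have : 0 ≤ Real.log P := Real.log_natCast_nonneg P
            exact mul_nonneg (mul_nonneg zero_le_two this) (sq_nonneg _)
  have hfin : 6 / 5 * Zx L R * (C * (P / M) * Real.log P ^ 3 * ((L : ℝ) ^ 6) ^ (-(3 / 4) : ℝ)) +
      100 * Zx L R * D ^ 4 * √P * Real.log (4 * P) ^ 2 ≤ Zx L R * ((P : ℝ) / M) / L := by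
    have h1 := mul_le_mul_of_nonneg_left herr1 hZ0.le
    have h2 := mul_le_mul_of_nonneg_left herr2 hZ0.le
    have h4 : Zx L R * ((P : ℝ) / M) / L =
        Zx L R * (((P : ℝ) / M) / (2 * L)) + Zx L R * (((P : ℝ) / M) / (2 * L)) := by
      field_simp
      ring
    rw [h4]
    refine le_trans (le_of_eq ?_) (add_le_add h1 h2)
    ring
  have hcomm : 4 / 5 * Zx L R * psi M (b + j) P - Zx L R * ((P : ℝ) / M) / L ≤
      4 / 5 * Zx L R * psi M (b + j) P -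
        6 / 5 * Zx L R * (C * (P / M) * Real.log P ^ 3 * ((L : ℝ) ^ 6) ^ (-(3 / 4) : ℝ)) -
        100 * Zx L R * D ^ 4 * √P * Real.log (4 * P) ^ 2 := by
    linarith
  exact hcomm.trans (hmain.trans hsum)

end Pool.Agent.AT
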