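import Pool.Agent.AT.Sel

/-! AT/Pair.  Upper bounds for one or two extra rough elements, and for the killed elements. -/

namespace Pool.Agent.AT

open Finset Pool.Agent.RS

variable {ι κ : Type} [Fintype ι] [DecidableEq ι] [DecidableEq κ] [Fintype κ]

private theorem pair_aux {p : ι → ℕ} {M : ℕ} (hp : ∀ i, 2 ≤ p i)
    (hc : ∀ i j, i ≠ j → Nat.Coprime (p i) (p j)) (hM : ∀ i, Nat.Coprime M (p i)) (n0 : ℤ)
    (a : κ → ℤ) (hd : ∀ i j j', j ≠ j' → ¬ (p i : ℤ) ∣ a j - a j')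
    (hk : ∑ i, (Fintype.card κ : ℝ) / (p i : ℝ) ^ 2 ≤ 1 / 2) {D : ℝ} (hD : 0 ≤ D)
    (hN : ∀ S : Finset ι, PP p S ≤ D →
      ∑ i ∈ S, (Fintype.card κ : ℝ) / ((p i : ℝ) - 1) ≤ 1 / 6)
    (Y : (ι → Option κ) → ℝ) (hY1 : ∀ σ, |Y σ| ≤ 1) (hYs : ∀ σ, Y σ ≠ 0 → PP p (supp σ) ≤ D)
    (T : ℕ) (s : Finset ℕ) (hs : s ⊆ range T) (Z : ℕ → ℝ)
    (hZ : ∀ t ∈ s, ∑ σ, Y σ * EE p a σ (n0 + M * (t : ℤ)) = Z t) {Q : ℝ}
    (hQ : ∑ σ, Y σ ^ 2 / PH p (supp σ) ≤ Q) :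
    ∑ t ∈ s, Z t ^ 2 ≤ 6 / 5 * (T * Q) + 8 * D ^ 6 := by
  have h1 := near_orth hp hc hM n0 a hd hk hD hN Y hY1 hYs T
  have h2 : ∑ t ∈ s, Z t ^ 2 ≤
      ∑ t ∈ range T, (∑ σ, Y σ * EE p a σ (n0 + M * (t : ℤ))) ^ 2 := by
    have h3 : ∑ t ∈ s, Z t ^ 2 = ∑ t ∈ s, (∑ σ, Y σ * EE p a σ (n0 + M * (t : ℤ))) ^ 2 :=
      sum_congr rfl fun t ht => by rw [hZ t ht]
    rw [h3]
    exact sum_le_sum_of_subset_of_nonneg hs fun t _ _ => sq_nonneg _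
  have h4 := (abs_le.1 h1).2
  have h5 : (T : ℝ) * ∑ σ, Y σ ^ 2 / PH p (supp σ) ≤ T * Q :=
    mul_le_mul_of_nonneg_left hQ (Nat.cast_nonneg T)
  linarith

omit [Fintype ι] [DecidableEq ι] [DecidableEq κ] [Fintype κ] in
private theorem pair_ndvd {p : ι → ℕ} (a : κ → ℤ) (a1 : ℤ)
    (hd : ∀ i j j', j ≠ j' → ¬ (p i : ℤ) ∣ a j - a j') (h1 : ∀ i j, ¬ (p i : ℤ) ∣ a j - a1) :
    ∀ i, ∀ j j' : Option κ, j ≠ j' →
      ¬ (p i : ℤ) ∣ (fun o : Option κ => o.elim a1 a) j - (fun o : Option κ => o.elim a1 a) j' := by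
  intro i j j' hj hdvd
  rcases j with _ | j
  · rcases j' with _ | j'
    · exact hj rfl
    · refine h1 i j' ?_
      have h2 : (p i : ℤ) ∣ a1 - a j' := hdvd
      rw [← neg_sub]
      exact h2.neg_right
  · rcases j' with _ | j'
    · exact h1 i j hdvd
    · exact hd i j j' (fun h => hj (congrArg some h)) hdvd

omit [DecidableEq κ] in
private theorem pair_card : ((Fintype.card (Option κ) : ℕ) : ℝ) = (Fintype.card κ : ℝ) + 1 := by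
  rw [Fintype.card_option]
  push_cast
  ring

open Classical in
/-- one extra rough element: `add_one` and `near_orth` for `Option κ`, level `D * D1` -/
theorem single_bound {p : ι → ℕ} {M : ℕ} (hp : ∀ i, 2 ≤ p i)
    (hc : ∀ i j, i ≠ j → Nat.Coprime (p i) (p j)) (hM : ∀ i, Nat.Coprime M (p i)) (n0 : ℤ)
    (a : κ → ℤ) (a1 : ℤ) (hd : ∀ i j j', j ≠ j' → ¬ (p i : ℤ) ∣ a j - a j')
    (h1 : ∀ i j, ¬ (p i : ℤ) ∣ a j - a1)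
    (hk : ∑ i, ((Fintype.card κ : ℝ) + 1) / (p i : ℝ) ^ 2 ≤ 1 / 2) {D D1 Gm : ℝ}
    (hD : 1 ≤ D) (hD1 : 1 ≤ D1)
    (hN : ∀ S : Finset ι, PP p S ≤ D * D1 →
      ∑ i ∈ S, ((Fintype.card κ : ℝ) + 1) / ((p i : ℝ) - 1) ≤ 1 / 6)
    (hGm : 1 ≤ Gm) (hG : ∀ U, PP p U ≤ D → Gm ≤ GS p D1 U)
    (Y : (ι → Option κ) → ℝ) (hY1 : ∀ σ, |Y σ| ≤ 1) (hYs : ∀ σ, Y σ ≠ 0 → PP p (supp σ) ≤ D)
    (T : ℕ) :
    ∑ t ∈ (range T).filter (fun t : ℕ => ∀ i, ¬ (p i : ℤ) ∣ n0 + M * (t : ℤ) - a1),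
      (∑ σ, Y σ * EE p a σ (n0 + M * (t : ℤ))) ^ 2 ≤
      6 / 5 * (T * ((∑ σ, Y σ ^ 2 / PH p (supp σ)) / Gm)) + 8 * (D * D1) ^ 6 := by
  obtain ⟨Y', hY'1, hY's, hY'q, hY'e⟩ := add_one hp a a1 hD hD1 hGm hG Y hY1 hYs
  refine pair_aux hp hc hM n0 (fun o : Option κ => o.elim a1 a) (pair_ndvd a a1 hd h1) ?_
    (by positivity) ?_ Y' hY'1 hY's T _ (filter_subset _ _)
    (fun t => ∑ σ, Y σ * EE p a σ (n0 + M * (t : ℤ))) (fun t ht => ?_) hY'q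
  · rw [pair_card]
    exact hk
  · rw [pair_card]
    exact hN
  · exact hY'e _ (mem_filter.1 ht).2

open Classical in
/-- two extra rough elements: `add_one` twice and `near_orth`, level `D * D1 * D1` -/
theorem pair_bound {p : ι → ℕ} {M : ℕ} (hp : ∀ i, 2 ≤ p i)
    (hc : ∀ i j, i ≠ j → Nat.Coprime (p i) (p j)) (hM : ∀ i, Nat.Coprime M (p i)) (n0 : ℤ)
    (a : κ → ℤ) (a1 a2 : ℤ) (hd : ∀ i j j', j ≠ j' → ¬ (p i : ℤ) ∣ a j - a j')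
    (h1 : ∀ i j, ¬ (p i : ℤ) ∣ a j - a1) (h2 : ∀ i j, ¬ (p i : ℤ) ∣ a j - a2)
    (h12 : ∀ i, ¬ (p i : ℤ) ∣ a1 - a2)
    (hk : ∑ i, ((Fintype.card κ : ℝ) + 2) / (p i : ℝ) ^ 2 ≤ 1 / 2) {D D1 Gm : ℝ}
    (hD : 1 ≤ D) (hD1 : 1 ≤ D1)
    (hN : ∀ S : Finset ι, PP p S ≤ D * D1 * D1 →
      ∑ i ∈ S, ((Fintype.card κ : ℝ) + 2) / ((p i : ℝ) - 1) ≤ 1 / 6)
    (hGm : 1 ≤ Gm) (hG : ∀ U, PP p U ≤ D * D1 → Gm ≤ GS p D1 U)
    (Y : (ι → Option κ) → ℝ) (hY1 : ∀ σ, |Y σ| ≤ 1) (hYs : ∀ σ, Y σ ≠ 0 → PP p (supp σ) ≤ D)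
    (T : ℕ) :
    ∑ t ∈ (range T).filter (fun t : ℕ => (∀ i, ¬ (p i : ℤ) ∣ n0 + M * (t : ℤ) - a1) ∧
        ∀ i, ¬ (p i : ℤ) ∣ n0 + M * (t : ℤ) - a2),
      (∑ σ, Y σ * EE p a σ (n0 + M * (t : ℤ))) ^ 2 ≤
      6 / 5 * (T * ((∑ σ, Y σ ^ 2 / PH p (supp σ)) / Gm ^ 2)) + 8 * (D * D1 * D1) ^ 6 := by
  obtain ⟨Y1, hY11, hY1s, hY1q, hY1e⟩ := add_one hp a a1 hD hD1 hGm
    (fun U hU => hG U (hU.trans (le_mul_of_one_le_right (by linarith) hD1))) Y hY1 hYs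
  obtain ⟨Y2, hY21, hY2s, hY2q, hY2e⟩ := add_one hp (fun o : Option κ => o.elim a1 a) a2
    (one_le_mul_of_one_le_of_one_le hD hD1) hD1 hGm hG Y1 hY11 hY1s
  have hcard : ((Fintype.card (Option (Option κ)) : ℕ) : ℝ) = (Fintype.card κ : ℝ) + 2 := by
    rw [pair_card, pair_card]
    ring
  have h2' : ∀ i, ∀ j : Option κ, ¬ (p i : ℤ) ∣ (fun o : Option κ => o.elim a1 a) j - a2 := by
    intro i j
    rcases j with _ | j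
    · exact h12 i
    · exact h2 i j
  refine pair_aux hp hc hM n0 (fun o : Option (Option κ) => o.elim a2
      (fun o : Option κ => o.elim a1 a))
    (pair_ndvd (fun o : Option κ => o.elim a1 a) a2 (pair_ndvd a a1 hd h1) h2') ?_
    (by positivity) ?_ Y2 hY21 hY2s T _ (filter_subset _ _)
    (fun t => ∑ σ, Y σ * EE p a σ (n0 + M * (t : ℤ))) (fun t ht => ?_) ?_
  · rw [hcard]
    exact hk
  · rw [hcard]
    exact hN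
  · have h3 := (mem_filter.1 ht).2
    exact (hY2e _ h3.2).trans (hY1e _ h3.1)
  · refine hY2q.trans ?_
    rw [sq, ← div_div]
    exact div_le_div_of_nonneg_right hY1q (by linarith)

end Pool.Agent.AT
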