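import Pool.Agent.RS.Near
import Pool.Agent.RS.Rough

/-! AT/Sel.  Upper bound sieve for extra elements (Selberg's trick inside the weights). -/

namespace Pool.Agent.AT

open Finset Pool.Agent.RS

variable {ι κ : Type} [Fintype ι] [DecidableEq ι] [DecidableEq κ] [Fintype κ]

open Classical in
/-- the normalising sum -/
noncomputable def GS (p : ι → ℕ) (D1 : ℝ) (U : Finset ι) : ℝ :=
  ∑ S ∈ (univ \ U).powerset.filter (fun S => PP p S ≤ D1), 1 / PH p S

private def selUp (σ : ι → Option κ) : ι → Option (Option κ) := fun i => (σ i).map some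

private def selDn (σ : ι → Option (Option κ)) : ι → Option κ := fun i => (σ i).join

omit [Fintype ι] [DecidableEq ι] [DecidableEq κ] [Fintype κ] in
private theorem selDn_up (σ : ι → Option κ) : selDn (selUp σ) = σ := by
  funext i
  unfold selDn selUp
  cases σ i <;> rfl

private theorem selSupp_up (σ : ι → Option κ) : supp (selUp σ) = supp σ := by
  ext i
  rw [mem_supp, mem_supp]
  unfold selUp
  cases σ i <;> simp

private theorem selCell_up (σ : ι → Option κ) : cell (selUp σ) none = ∅ := by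
  ext i
  rw [mem_cell]
  unfold selUp
  cases σ i <;> simp

private theorem selUp_dn (σ : ι → Option (Option κ)) (h : cell σ none = ∅) :
    selUp (selDn σ) = σ := by
  funext i
  have hi : ¬ σ i = some none := by
    intro hi
    have := mem_cell.2 hi
    rw [h] at this
    exact absurd this (notMem_empty i)
  unfold selUp selDn
  rcases hσ : σ i with _ | _ | j
  · rfl
  · exact absurd hσ hi
  · rfl

private theorem selEE_up (p : ι → ℕ) (a : κ → ℤ) (a1 n : ℤ) (σ : ι → Option κ) :
    EE p (fun o : Option κ => o.elim a1 a) (selUp σ) n = EE p a σ n := by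
  unfold EE
  refine prod_congr rfl fun i _ => ?_
  unfold selUp
  cases σ i <;> rfl

private theorem sel_sum (Φ : (ι → Option (Option κ)) → Finset ι → ℝ) :
    ∑ σ, Φ (era σ none) (cell σ none) =
      ∑ σ : ι → Option κ, ∑ S ∈ (univ \ supp σ).powerset, Φ (selUp σ) S := by
  classical
  refine (decomp (κ := Option κ) none Φ).trans ?_
  refine Finset.sum_nbij' selDn selUp ?_ ?_ ?_ ?_ ?_
  · intro σ _
    exact mem_univ _
  · intro σ _
    exact mem_filter.2 ⟨mem_univ _, selCell_up σ⟩
  · intro σ hσ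
    exact selUp_dn σ (mem_filter.1 hσ).2
  · intro σ _
    exact selDn_up σ
  · intro σ hσ
    have h1 := selUp_dn σ (mem_filter.1 hσ).2
    have h2 : supp (selDn σ) = supp σ := by rw [← selSupp_up, h1]
    rw [h1, h2]

private theorem selGS_ite (p : ι → ℕ) (D1 : ℝ) (U : Finset ι) (c : ℝ) :
    (open Classical in ∑ S ∈ (univ \ U).powerset, if PP p S ≤ D1 then c * (1 / PH p S) else 0) =
      c * GS p D1 U := by
  classical
  unfold GS
  rw [Finset.mul_sum, Finset.sum_filter]

private theorem selGS_one {p : ι → ℕ} (hp : ∀ i, 2 ≤ p i) {D1 : ℝ} (hD1 : 1 ≤ D1)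
    (U : Finset ι) : 1 ≤ GS p D1 U := by
  classical
  unfold GS
  have h1 : 1 / PH p (∅ : Finset ι) = (1 : ℝ) := by rw [PH_empty, div_one]
  refine h1.symm.le.trans ?_
  refine Finset.single_le_sum (f := fun S => 1 / PH p S) ?_ ?_
  · intro S _
    exact div_nonneg zero_le_one (zero_le_one.trans (one_le_PH hp S))
  · rw [mem_filter, PP_empty]
    exact ⟨Finset.empty_mem_powerset _, hD1⟩

/-- Add one element `a1` (the new element is `none : Option κ`).
PLAN.  An assignment `σ' : ι → Option (Option κ)` splits in `σ` (erase the cell of `none`, i.e. `σ i = none` if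
`σ' i = some none`, `σ i = some j` if `σ' i = some (some j)`) and `S = cell σ' none`, disjoint from `supp σ`
(`RS/Decomp: decomp`, `era`, `put`, with `κ := Option κ`, `m := none`).
`Y' σ' = if PP p S ≤ D1 then Y σ / GS p D1 (supp σ) else 0`.
* `|Y'| ≤ 1` since `GS ≥ Gm ≥ 1`; level `D * D1`;
* `∑ Y'^2/PH = ∑_σ Y σ^2/PH(supp σ) / GS^2 * ∑_{S} 1/PH S = ∑ Y^2/(PH GS) ≤ (∑ Y^2/PH)/Gm`;
* if no `p i` divides `n - a1`, then `∏_{i ∈ S} ee (p i) (n - a1) = 1/PH S`, so the sum over `S` gives
  `Y σ EE σ n / GS * GS`. -/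
theorem add_one {p : ι → ℕ} (hp : ∀ i, 2 ≤ p i) (a : κ → ℤ) (a1 : ℤ) {D D1 Gm : ℝ}
    (hD : 1 ≤ D) (hD1 : 1 ≤ D1) (hGm : 1 ≤ Gm) (hG : ∀ U, PP p U ≤ D → Gm ≤ GS p D1 U)
    (Y : (ι → Option κ) → ℝ) (hY1 : ∀ σ, |Y σ| ≤ 1) (hYs : ∀ σ, Y σ ≠ 0 → PP p (supp σ) ≤ D) :
    ∃ Y' : (ι → Option (Option κ)) → ℝ, (∀ σ, |Y' σ| ≤ 1) ∧
      (∀ σ, Y' σ ≠ 0 → PP p (supp σ) ≤ D * D1) ∧
      (∑ σ, Y' σ ^ 2 / PH p (supp σ) ≤ (∑ σ, Y σ ^ 2 / PH p (supp σ)) / Gm) ∧
      ∀ n : ℤ, (∀ i, ¬ (p i : ℤ) ∣ n - a1) →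
        ∑ σ, Y' σ * EE p (fun o : Option κ => o.elim a1 a) σ n = ∑ σ, Y σ * EE p a σ n := by
  classical
  have hPH : ∀ S : Finset ι, 0 < PH p S := fun S => lt_of_lt_of_le one_pos (one_le_PH hp S)
  have hGS : ∀ U, 1 ≤ GS p D1 U := selGS_one hp hD1
  have hGS0 : ∀ U, 0 < GS p D1 U := fun U => lt_of_lt_of_le one_pos (hGS U)
  let F0 : (ι → Option (Option κ)) → Finset ι → ℝ := fun τ S =>
    if PP p S ≤ D1 then Y (selDn τ) / GS p D1 (supp τ) else 0
  have hF0 : ∀ τ S, F0 τ S = if PP p S ≤ D1 then Y (selDn τ) / GS p D1 (supp τ) else 0 :=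
    fun _ _ => rfl
  refine ⟨fun σ => F0 (era σ none) (cell σ none), ?_, ?_, ?_, ?_⟩
  · intro σ
    simp only
    rw [hF0]
    split_ifs
    · rw [abs_div, abs_of_pos (hGS0 _), div_le_one (hGS0 _)]
      exact (hY1 _).trans (hGS _)
    · rw [abs_zero]
      exact zero_le_one
  · intro σ h
    simp only at h
    rw [hF0] at h
    by_cases h1 : PP p (cell σ none) ≤ D1
    · rw [if_pos h1] at h
      have h2 : Y (selDn (era σ none)) ≠ 0 := by
        intro h3
        rw [h3, zero_div] at h
        exact h rfl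
      have h3 := hYs _ h2
      have h4 : supp (selDn (era σ none)) = supp (era σ none) := by
        rw [← selSupp_up, selUp_dn _ (cell_era_self σ none)]
      rw [h4] at h3
      rw [PP_supp_split p σ none, mul_comm]
      exact mul_le_mul h3 h1 (zero_le_one.trans (one_le_PP hp _)) (zero_le_one.trans hD)
    · rw [if_neg h1] at h
      exact absurd rfl h
  · have h1 : ∑ σ : ι → Option (Option κ),
        F0 (era σ none) (cell σ none) ^ 2 / PH p (supp σ) =
        ∑ σ : ι → Option κ, ∑ S ∈ (univ \ supp σ).powerset,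
          (fun τ S => F0 τ S ^ 2 / (PH p S * PH p (supp τ))) (selUp σ) S := by
      rw [← sel_sum (fun τ S => F0 τ S ^ 2 / (PH p S * PH p (supp τ)))]
      refine Finset.sum_congr rfl fun σ _ => ?_
      rw [PH_supp_split p σ none]
    rw [h1, Finset.sum_div]
    refine Finset.sum_le_sum fun σ _ => ?_
    have h2 : ∀ S ∈ (univ \ supp σ).powerset,
        (fun τ S => F0 τ S ^ 2 / (PH p S * PH p (supp τ))) (selUp σ) S =
        if PP p S ≤ D1 then
          Y σ ^ 2 / GS p D1 (supp σ) ^ 2 / PH p (supp σ) * (1 / PH p S) else 0 := by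
      intro S _
      simp only
      rw [hF0, selDn_up, selSupp_up]
      split_ifs
      · have := (hPH S).ne'
        have := (hPH (supp σ)).ne'
        have := (hGS0 (supp σ)).ne'
        field_simp
      · rw [zero_pow two_ne_zero, zero_div]
    rw [Finset.sum_congr rfl h2, selGS_ite]
    have h3 : Y σ ^ 2 / GS p D1 (supp σ) ^ 2 / PH p (supp σ) * GS p D1 (supp σ) =
        Y σ ^ 2 / PH p (supp σ) / GS p D1 (supp σ) := by
      have := (hPH (supp σ)).ne'
      have := (hGS0 (supp σ)).ne'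
      field_simp
    rw [h3]
    by_cases h4 : Y σ = 0
    · rw [h4]
      simp
    · exact div_le_div_of_nonneg_left (div_nonneg (sq_nonneg _) (hPH _).le)
        (zero_lt_one.trans_le hGm) (hG _ (hYs σ h4))
  · intro n hn
    have hee : ∀ S : Finset ι, ∏ i ∈ S, ee (p i) (n - a1) = 1 / PH p S := by
      intro S
      have h1 : ∀ i ∈ S, ee (p i) (n - a1) = 1 / ((p i : ℝ) - 1) := by
        intro i _
        unfold ee
        rw [if_neg (hn i)]
      rw [Finset.prod_congr rfl h1, PH, Finset.prod_div_distrib]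
      simp
    have h1 : ∑ σ : ι → Option (Option κ),
        F0 (era σ none) (cell σ none) * EE p (fun o : Option κ => o.elim a1 a) σ n =
        ∑ σ : ι → Option κ, ∑ S ∈ (univ \ supp σ).powerset,
          (fun τ S => F0 τ S * (1 / PH p S * EE p (fun o : Option κ => o.elim a1 a) τ n))
            (selUp σ) S := by
      rw [← sel_sum (fun τ S => F0 τ S *
        (1 / PH p S * EE p (fun o : Option κ => o.elim a1 a) τ n))]
      refine Finset.sum_congr rfl fun σ _ => ?_
      rw [EE_split p _ σ none]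
      simp only [Option.elim_none]
      rw [hee]
    simp only
    rw [h1]
    refine Finset.sum_congr rfl fun σ _ => ?_
    have h2 : ∀ S ∈ (univ \ supp σ).powerset,
        (fun τ S => F0 τ S * (1 / PH p S * EE p (fun o : Option κ => o.elim a1 a) τ n))
            (selUp σ) S =
        if PP p S ≤ D1 then Y σ / GS p D1 (supp σ) * EE p a σ n * (1 / PH p S) else 0 := by
      intro S _
      simp only
      rw [hF0, selDn_up, selSupp_up, selEE_up]
      split_ifs
      · ring
      · rw [zero_mul]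
    rw [Finset.sum_congr rfl h2, selGS_ite]
    have := (hGS0 (supp σ)).ne'
    field_simp

end Pool.Agent.AT
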