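import Pool.Agent.AT.ParA
import Pool.Agent.AT.Sel

/-! AT/ParC.  Lower bound of the sieve sum `GS`.
PLAN.  Transfer the sum over subsets of `univ \ U` in the subtype `Ix L` to subsets of
`prz z \ E`, `z = 2 ^ dd L`, `E = excl L ∅ z ∪ U.image (px L)` (`Finset.subtype`/`Finset.map`; compare the
proof of `H1_lower` in RS/Tot).  `tot2` with `y = z`:
`GS ≥ (∏_{q ∈ E} (1 - 1/q)) * dd * log 2`.  The product over `excl L ∅ z` is `≥ exp(-9)/(12 (lam+1))`
(`excl_prod` with `B = ∅`), the product over the image of `U` is `≥ 1 - ∑_{U} 1/q ≥ 1/2` (`px_sum`: `PP U ≤ 2^L`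
because `4 dd L ≤ L`).  `dd L ≥ L/20000` for `L ≥ 20000`. -/

namespace Pool.Agent.AT

open Finset Pool.Agent.RS

private theorem one_sub_le {ι : Type} [DecidableEq ι] (s : Finset ι) (f : ι → ℝ)
    (h0 : ∀ q ∈ s, 0 ≤ f q) (h1 : ∀ q ∈ s, f q ≤ 1) : 1 - ∑ q ∈ s, f q ≤ ∏ q ∈ s, (1 - f q) := by
  induction s using Finset.induction_on with
  | empty => simp
  | insert a s ha ih =>
    rw [Finset.sum_insert ha, Finset.prod_insert ha]
    have e1 := ih (fun q hq => h0 q (Finset.mem_insert_of_mem hq))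
      (fun q hq => h1 q (Finset.mem_insert_of_mem hq))
    have e2 := h0 a (Finset.mem_insert_self a s)
    have e3 := h1 a (Finset.mem_insert_self a s)
    have e4 : 0 ≤ ∑ q ∈ s, f q := Finset.sum_nonneg fun q hq => h0 q (Finset.mem_insert_of_mem hq)
    have e5 : (1 - f a) * (1 - ∑ q ∈ s, f q) ≤ (1 - f a) * ∏ q ∈ s, (1 - f q) :=
      mul_le_mul_of_nonneg_left e1 (by linarith)
    nlinarith [mul_nonneg e2 e4]

private theorem px_two {L : ℕ} (i : Ix L) : (2 : ℝ) ≤ px L i := by
  exact_mod_cast (px_prime i).two_le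

/-- the product over the image of `U` -/
private theorem parc_U {L : ℕ} (hL : 2 ≤ L) (U : Finset (Ix L)) (hU : PP (px L) U ≤ 2 ^ (4 * dd L)) :
    1 / 2 ≤ ∏ q ∈ U.image (px L), (1 - 1 / (q : ℝ)) := by
  classical
  rw [Finset.prod_image fun a _ b _ h => px_inj L h]
  have h1 : (2 : ℝ) ^ (4 * dd L) ≤ 2 ^ L := by
    apply pow_le_pow_right₀ (by norm_num)
    unfold dd
    omega
  have h2 := px_sum (by omega) U (hU.trans h1)
  have h3 := one_sub_le U (fun i => 1 / (px L i : ℝ))
    (fun i _ => by positivity)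
    (fun i _ => by
      have := px_two i
      rw [div_le_one (by linarith)]
      linarith)
  have h4 : ∑ i ∈ U, 1 / (px L i : ℝ) ≤ ∑ i ∈ U, 1 / ((px L i : ℝ) - 1) := by
    apply Finset.sum_le_sum
    intro i _
    have := px_two i
    apply one_div_le_one_div_of_le (by linarith) (by linarith)
  have h5 : 1 / (L : ℝ) ^ 5 ≤ 1 / 2 := by
    apply one_div_le_one_div_of_le (by norm_num)
    have h6 : (2 : ℝ) ≤ L := by exact_mod_cast hL
    have h7 : (2 : ℝ) ^ 5 ≤ (L : ℝ) ^ 5 := pow_le_pow_left₀ (by norm_num) h6 5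
    linarith
  linarith

/-- transfer of the sum -/
private theorem parc_sum {L : ℕ} (U : Finset (Ix L)) :
    (open Classical in ∑ S ∈ (prz (2 ^ dd L) \ (excl L ∅ (2 ^ dd L) ∪ U.image (px L))).powerset.filter
      (fun S : Finset ℕ => (∏ q ∈ S, (q : ℝ)) ≤ 2 ^ dd L), 1 / ∏ q ∈ S, ((q : ℝ) - 1)) =
      GS (px L) (2 ^ dd L) U := by
  classical
  unfold GS
  symm
  refine Finset.sum_nbij' (fun S => S.map (Function.Embedding.subtype _))
    (fun S => S.subtype _) ?_ ?_ ?_ ?_ ?_
  · intro S hS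
    rw [Finset.mem_filter, Finset.mem_powerset] at hS
    rw [Finset.mem_filter, Finset.mem_powerset]
    constructor
    · intro q hq
      rw [Finset.mem_map] at hq
      obtain ⟨a, ha, rfl⟩ := hq
      have h1 := Finset.mem_sdiff.mp a.2
      have h2 := (Finset.mem_sdiff.mp (hS.1 ha)).2
      rw [Finset.mem_sdiff, Finset.mem_union]
      refine ⟨h1.1, ?_⟩
      rintro (h3 | h3)
      · exact h1.2 h3
      · obtain ⟨b, hb, hba⟩ := Finset.mem_image.mp h3
        have : b = a := px_inj L hba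
        exact h2 (this ▸ hb)
    · rw [Finset.prod_map]
      exact hS.2
  · intro S hS
    rw [Finset.mem_filter, Finset.mem_powerset] at hS
    rw [Finset.mem_filter, Finset.mem_powerset]
    have h4 : (S.subtype (· ∈ prz (2 ^ dd L) \ excl L ∅ (2 ^ dd L))).map
        (Function.Embedding.subtype _) = S := by
      rw [Finset.subtype_map]
      refine Finset.filter_true_of_mem fun x hx => ?_
      have h5 := Finset.mem_sdiff.mp (hS.1 hx)
      rw [Finset.mem_union, not_or] at h5
      exact Finset.mem_sdiff.mpr ⟨h5.1, h5.2.1⟩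
    have h5 : PP (px L) (S.subtype (· ∈ prz (2 ^ dd L) \ excl L ∅ (2 ^ dd L))) =
        ∏ q ∈ S, (q : ℝ) := by
      conv_rhs => rw [← h4]
      rw [Finset.prod_map]; rfl
    refine ⟨?_, by rw [h5]; exact hS.2⟩
    intro a ha
    rw [Finset.mem_subtype] at ha
    have h6 := Finset.mem_sdiff.mp (hS.1 ha)
    rw [Finset.mem_union, not_or] at h6
    rw [Finset.mem_sdiff]
    refine ⟨Finset.mem_univ _, fun h7 => h6.2.2 ?_⟩
    exact Finset.mem_image.mpr ⟨a, h7, rfl⟩
  · intro S _
    exact Finset.map_injective (Function.Embedding.subtype _) (by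
      rw [Finset.subtype_map]
      refine Finset.filter_true_of_mem fun x hx => ?_
      rw [Finset.mem_map] at hx
      obtain ⟨a, _, rfl⟩ := hx
      exact a.2)
  · intro S hS
    rw [Finset.mem_filter, Finset.mem_powerset] at hS
    rw [Finset.subtype_map]
    refine Finset.filter_true_of_mem fun x hx => ?_
    have h5 := Finset.mem_sdiff.mp (hS.1 hx)
    rw [Finset.mem_union, not_or] at h5
    exact Finset.mem_sdiff.mpr ⟨h5.1, h5.2.1⟩
  · intro S _
    rw [Finset.prod_map]; rfl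

theorem GS_ge : ∃ c : ℝ, 0 < c ∧ ∃ L0 : ℕ, ∀ L : ℕ, L0 ≤ L → ∀ U : Finset (Ix L),
    PP (px L) U ≤ 2 ^ (4 * dd L) →
    c * L / (Nat.log 2 L : ℝ) ≤ GS (px L) (2 ^ dd L) U := by
  classical
  have hlog2 : 0 < Real.log 2 := Real.log_pos (by norm_num)
  refine ⟨Real.exp (-9) * Real.log 2 / 960000, by positivity, 20000, ?_⟩
  intro L hL U hU
  set lam := Nat.log 2 L with hlam
  have hlam1 : 1 ≤ lam := Nat.le_log_of_pow_le (by norm_num) (by omega)
  have hlr : (1 : ℝ) ≤ lam := by exact_mod_cast hlam1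
  set E0 := excl L ∅ (2 ^ dd L) with hE0
  set E := E0 ∪ U.image (px L) with hE
  have hE0p : E0 ⊆ prz (2 ^ dd L) := by
    rw [hE0]; unfold excl; exact Finset.filter_subset _ _
  have hEp : E ⊆ prz (2 ^ dd L) := by
    refine Finset.union_subset hE0p ?_
    intro q hq
    obtain ⟨a, _, rfl⟩ := Finset.mem_image.mp hq
    exact (Finset.mem_sdiff.mp a.2).1
  have hdisj : Disjoint E0 (U.image (px L)) := by
    rw [Finset.disjoint_left]
    intro q hq hq2
    obtain ⟨a, _, rfl⟩ := Finset.mem_image.mp hq2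
    exact (Finset.mem_sdiff.mp a.2).2 hq
  have h1 := tot2 (z := 2 ^ dd L) (y := 2 ^ dd L) (one_le_pow₀ (by norm_num))
    (by push_cast; exact le_rfl) hEp
  rw [parc_sum U] at h1
  refine le_trans ?_ h1
  rw [hE, Finset.prod_union hdisj, Real.log_pow]
  have h2 := excl_prod (L := L) (by omega) (B := ∅) (by simp) (by simp) (2 ^ dd L)
  rw [← hE0, ← hlam] at h2
  have h3 := parc_U (by omega) U hU
  have h4 : (L : ℝ) / 20000 ≤ dd L := by
    have h5 : L ≤ 20000 * dd L := by
      unfold dd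
      omega
    have h6 : (L : ℝ) ≤ 20000 * (dd L : ℝ) := by exact_mod_cast h5
    linarith
  have h5 : Real.exp (-9) / (24 * (lam : ℝ)) ≤ Real.exp (-9) / (12 * ((lam : ℝ) + 1)) := by
    apply div_le_div_of_nonneg_left (Real.exp_pos _).le (by positivity)
    linarith
  have h6 := h5.trans h2
  have h7 : 0 ≤ Real.exp (-9) / (24 * (lam : ℝ)) := by positivity
  calc Real.exp (-9) * Real.log 2 / 960000 * L / (lam : ℝ)
      = Real.exp (-9) / (24 * (lam : ℝ)) * (1 / 2) * ((L : ℝ) / 20000 * Real.log 2) := by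
        field_simp
        ring
    _ ≤ (∏ q ∈ E0, (1 - 1 / (q : ℝ))) * (∏ q ∈ U.image (px L), (1 - 1 / (q : ℝ))) *
        ((dd L : ℝ) * Real.log 2) := by
        apply mul_le_mul
        · exact mul_le_mul h6 h3 (by norm_num) (h7.trans h6)
        · exact mul_le_mul_of_nonneg_right h4 hlog2.le
        · positivity
        · exact mul_nonneg (h7.trans h6) (le_trans (by norm_num) h3)

end Pool.Agent.AT
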