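import Pool.Agent.AT.En
import Pool.Agent.AT.Prog
import Pool.Agent.AT.ParB
import Pool.Agent.AT.ParC
import Pool.Agent.AT.Pair

/-! AT/E2.  Pairs of primes, and Brun-Titchmarsh: `pair_bound` and `single_bound` with the concrete
parameters, transferred to the window by `prog`. -/

namespace Pool.Agent.AT

open Finset Pool.Agent.RS

private theorem grow2 (C : ℝ) : ∃ m0 : ℕ, ∀ m : ℕ, m0 ≤ m → C * ((m : ℝ) + 1) ^ 2 ≤ 2 ^ m := by
  have h := tendsto_pow_const_div_const_pow_of_one_lt 2 (r := (2 : ℝ)) (by norm_num)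
  have h2 : Filter.Tendsto (fun m : ℕ => |C| * 2 * (((m + 1 : ℕ) : ℝ) ^ 2 / 2 ^ (m + 1)))
      Filter.atTop (nhds (|C| * 2 * 0)) :=
    Filter.Tendsto.const_mul _ ((Filter.tendsto_add_atTop_iff_nat 1).2 h)
  rw [mul_zero] at h2
  obtain ⟨m0, hm0⟩ := Filter.eventually_atTop.1 (h2.eventually_le_const (show (0 : ℝ) < 1 by norm_num))
  refine ⟨m0, fun m hm => ?_⟩
  have h3 := hm0 m hm
  have h4 : (0 : ℝ) < 2 ^ m := by positivity
  have h5 : |C| * ((m : ℝ) + 1) ^ 2 / 2 ^ m ≤ 1 := by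
    refine le_trans (le_of_eq ?_) h3
    push_cast
    field_simp
    ring
  rw [div_le_one h4] at h5
  have h6 : C * ((m : ℝ) + 1) ^ 2 ≤ |C| * ((m : ℝ) + 1) ^ 2 :=
    mul_le_mul_of_nonneg_right (le_abs_self C) (by positivity)
  linarith

private theorem lam_grow {c : ℝ} (hc : 0 < c) : ∃ L0 : ℕ, ∀ L : ℕ, L0 ≤ L →
    1 ≤ Nat.log 2 L ∧ (1 : ℝ) ≤ c * L / (Nat.log 2 L : ℝ) := by
  obtain ⟨m0, hm0⟩ := grow2 (1 / c)
  refine ⟨2 ^ (m0 + 1), fun L hL => ?_⟩
  have h1 : m0 + 1 ≤ Nat.log 2 L := Nat.le_log_of_pow_le (by norm_num) hL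
  have hL0 : L ≠ 0 := by
    have : 0 < 2 ^ (m0 + 1) := by positivity
    omega
  have h2 : 2 ^ Nat.log 2 L ≤ L := Nat.pow_log_le_self 2 hL0
  have h3 := hm0 (Nat.log 2 L) (by omega)
  have h4 : (0 : ℝ) < (Nat.log 2 L : ℝ) := by exact_mod_cast (by omega : 0 < Nat.log 2 L)
  refine ⟨by omega, ?_⟩
  rw [le_div_iff₀ h4, one_mul]
  have h5 : ((2 : ℝ) ^ Nat.log 2 L) ≤ L := by exact_mod_cast h2
  have h6 : ((Nat.log 2 L : ℝ) + 1) ^ 2 ≤ c * L := by
    have h7 := h3.trans h5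
    rw [div_mul_eq_mul_div, one_mul, div_le_iff₀ hc] at h7
    linarith
  nlinarith

/-- sizes -/
private theorem sizes {P L M : ℕ} (hL : L = Nat.log 2 P) (hL100 : 100 ≤ L) (hM0 : 0 < M)
    (hMP : (M : ℝ) ≤ (P : ℝ) ^ (1 / 1000 : ℝ)) :
    (2 : ℝ) ^ (9 * (L / 10)) ≤ (P : ℝ) / M ∧ √(P : ℝ) ≤ 2 ^ (5 * (L / 10) + 5) ∧
      Real.log (4 * P) ≤ L ∧ 2 ^ L ≤ P := by
  have hP0 : P ≠ 0 := by
    rintro rfl
    rw [hL] at hL100
    simp at hL100
  have hPL : 2 ^ L ≤ P := by rw [hL]; exact Nat.pow_log_le_self 2 hP0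
  have hPU : P < 2 ^ (L + 1) := by rw [hL]; exact Nat.lt_pow_succ_log_self (by norm_num) P
  have hPr : (1 : ℝ) ≤ P := by exact_mod_cast Nat.one_le_iff_ne_zero.2 hP0
  have hM0r : (0 : ℝ) < M := by exact_mod_cast hM0
  set q := L / 10 with hq
  have hq1 : 10 * q ≤ L := by omega
  have hq2 : L ≤ 10 * q + 9 := by omega
  refine ⟨?_, ?_, ?_, hPL⟩
  · have h1 : (M : ℝ) ≤ (P : ℝ) ^ (1 / 10 : ℝ) :=
      hMP.trans (Real.rpow_le_rpow_of_exponent_le hPr (by norm_num))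
    have h2 : (P : ℝ) = (P : ℝ) ^ (1 / 10 : ℝ) * (P : ℝ) ^ (9 / 10 : ℝ) := by
      rw [← Real.rpow_add (by linarith)]
      norm_num
    have h3 : (0 : ℝ) < (P : ℝ) ^ (1 / 10 : ℝ) := Real.rpow_pos_of_pos (by linarith) _
    have h4 : (0 : ℝ) < (P : ℝ) ^ (9 / 10 : ℝ) := Real.rpow_pos_of_pos (by linarith) _
    have h5 : (P : ℝ) ^ (9 / 10 : ℝ) ≤ (P : ℝ) / M := by
      rw [le_div_iff₀ hM0r]
      calc (P : ℝ) ^ (9 / 10 : ℝ) * M ≤ (P : ℝ) ^ (9 / 10 : ℝ) * (P : ℝ) ^ (1 / 10 : ℝ) :=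
            mul_le_mul_of_nonneg_left h1 h4.le
        _ = (P : ℝ) := by rw [mul_comm]; exact h2.symm
    refine le_trans ?_ h5
    have h6 : ((2 : ℝ) ^ q) ^ (10 : ℕ) ≤ P := by
      rw [← pow_mul]
      have : 2 ^ (q * 10) ≤ P := (Nat.pow_le_pow_right (by norm_num) (by omega)).trans hPL
      exact_mod_cast this
    have h7 : (2 : ℝ) ^ (9 * q) = (((2 : ℝ) ^ q) ^ (10 : ℕ)) ^ (9 / 10 : ℝ) := by
      rw [← Real.rpow_natCast ((2 : ℝ) ^ q) 10, ← Real.rpow_mul (by positivity)]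
      have e1 : ((10 : ℕ) : ℝ) * (9 / 10) = ((9 : ℕ) : ℝ) := by norm_num
      rw [e1, Real.rpow_natCast, ← pow_mul, mul_comm]
    rw [h7]
    exact Real.rpow_le_rpow (by positivity) h6 (by norm_num)
  · rw [Real.sqrt_le_left (by positivity), ← pow_mul]
    have h1 : P ≤ 2 ^ ((5 * q + 5) * 2) :=
      hPU.le.trans (Nat.pow_le_pow_right (by norm_num) (by omega))
    exact_mod_cast h1
  · have h1 : (4 * (P : ℝ)) ≤ 2 ^ (L + 3) := by
      have : 4 * P ≤ 2 ^ (L + 3) := by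
        have e : 2 ^ (L + 3) = 4 * 2 ^ (L + 1) := by ring
        rw [e]
        omega
      exact_mod_cast this
    have h2 : Real.log (4 * P) ≤ Real.log ((2 : ℝ) ^ (L + 3)) :=
      Real.log_le_log (by linarith) h1
    rw [Real.log_pow] at h2
    push_cast at h2
    have h3 : Real.log 2 ≤ 0.7 := by
      have := Real.log_two_lt_d9
      linarith
    have h4 : (100 : ℝ) ≤ L := by exact_mod_cast hL100
    nlinarith

/-- numerical inequalities with `q = L / 10` -/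
private theorem nums {L : ℕ} (hL100 : 100 ≤ L) :
    8 * ((2 : ℝ) ^ dd L * 2 ^ dd L * 2 ^ dd L) ^ 6 * (L : ℝ) ^ 2 ≤ 2 ^ (9 * (L / 10)) ∧
    10 * (2 : ℝ) ^ (5 * (L / 10) + 5) * (L : ℝ) ^ 2 ≤ 2 ^ (9 * (L / 10)) := by
  set q := L / 10 with hq
  have hq10 : 10 ≤ q := by omega
  have hLq : (L : ℝ) ≤ 10 * ((q : ℝ) + 1) := by
    have : L ≤ 10 * (q + 1) := by omega
    exact_mod_cast this
  have hq1 : (q : ℝ) + 1 ≤ 2 ^ q := by
    have : q + 1 ≤ 2 ^ q := Nat.lt_two_pow_self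
    exact_mod_cast this
  have hq0 : (0 : ℝ) ≤ (q : ℝ) := Nat.cast_nonneg _
  have hL2 : (L : ℝ) ^ 2 ≤ 100 * ((2 : ℝ) ^ q) ^ 2 := by
    have h1 : (L : ℝ) ≤ 10 * 2 ^ q := by linarith
    calc (L : ℝ) ^ 2 ≤ (10 * 2 ^ q) ^ 2 := pow_le_pow_left₀ (Nat.cast_nonneg _) h1 2
      _ = _ := by ring
  have hbig : (2 : ℝ) ^ 10 ≤ 2 ^ q := pow_le_pow_right₀ (by norm_num) hq10
  set x : ℝ := (2 : ℝ) ^ q with hx
  have hx0 : 0 < x := by positivity
  have hx1 : (1024 : ℝ) ≤ x := by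
    norm_num at hbig
    exact hbig
  have e9 : (2 : ℝ) ^ (9 * q) = x ^ 9 := by rw [hx, ← pow_mul, mul_comm]
  constructor
  · have h1 : ((2 : ℝ) ^ dd L * 2 ^ dd L * 2 ^ dd L) ^ 6 ≤ x := by
      rw [← pow_add, ← pow_add, ← pow_mul]
      apply pow_le_pow_right₀ (by norm_num)
      unfold dd
      omega
    rw [e9]
    have h2 : 800 * x ^ 3 ≤ x ^ 9 := by
      have h3 : x ^ 4 ≤ x ^ 9 := pow_le_pow_right₀ (by linarith) (by norm_num)
      have h4 : 800 * x ^ 3 ≤ x * x ^ 3 := mul_le_mul_of_nonneg_right (by linarith) (by positivity)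
      nlinarith
    calc 8 * ((2 : ℝ) ^ dd L * 2 ^ dd L * 2 ^ dd L) ^ 6 * (L : ℝ) ^ 2
        ≤ 8 * x * (100 * x ^ 2) :=
          mul_le_mul (mul_le_mul_of_nonneg_left h1 (by norm_num)) hL2 (by positivity) (by positivity)
      _ = 800 * x ^ 3 := by ring
      _ ≤ x ^ 9 := h2
  · have e5 : (2 : ℝ) ^ (5 * q + 5) = 32 * x ^ 5 := by
      rw [pow_add, hx, ← pow_mul, mul_comm 5 q]
      norm_num
      ring
    rw [e9, e5]
    have h2 : 32000 * x ^ 7 ≤ x ^ 9 := by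
      have h4 : (32000 : ℝ) ≤ x ^ 2 := by nlinarith
      have h5 : 32000 * x ^ 7 ≤ x ^ 2 * x ^ 7 := mul_le_mul_of_nonneg_right h4 (by positivity)
      calc _ ≤ _ := h5
        _ = x ^ 9 := by ring
    calc 10 * (32 * x ^ 5) * (L : ℝ) ^ 2 ≤ 10 * (32 * x ^ 5) * (100 * x ^ 2) :=
          mul_le_mul_of_nonneg_left hL2 (by positivity)
      _ = 32000 * x ^ 7 := by ring
      _ ≤ x ^ 9 := h2

/-- sums over the primes -/
private theorem sums {L : ℕ} (hL100 : 100 ≤ L) {k : ℝ} (hk0 : 0 ≤ k) (hk : k ≤ L + 2) :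
    ∑ i : Ix L, k / (px L i : ℝ) ^ 2 ≤ 1 / 2 ∧
      ∀ S : Finset (Ix L), PP (px L) S ≤ 2 ^ L → ∑ i ∈ S, k / ((px L i : ℝ) - 1) ≤ 1 / 6 := by
  have hLr : (100 : ℝ) ≤ L := by exact_mod_cast hL100
  have hL5 : (L + 2 : ℝ) * (1 / (L : ℝ) ^ 5) ≤ 1 / 6 := by
    rw [mul_one_div, div_le_div_iff₀ (by positivity) (by norm_num)]
    have h1 : (L : ℝ) ^ 2 ≤ (L : ℝ) ^ 5 := pow_le_pow_right₀ (by linarith) (by norm_num)
    nlinarith
  constructor
  · have h1 : ∑ i : Ix L, k / (px L i : ℝ) ^ 2 ≤ ∑ i : Ix L, k * (1 / ((px L i : ℝ) - 1) ^ 2) := by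
      refine sum_le_sum fun i _ => ?_
      have h2 : (2 : ℝ) ≤ px L i := by exact_mod_cast (px_prime i).two_le
      rw [mul_one_div]
      apply div_le_div_of_nonneg_left hk0
      · have : (0 : ℝ) < (px L i : ℝ) - 1 := by linarith
        positivity
      · exact pow_le_pow_left₀ (by linarith) (by linarith) 2
    refine h1.trans ?_
    rw [← mul_sum]
    have h2 := px_sum_sq (L := L) (by omega)
    calc k * ∑ i : Ix L, 1 / ((px L i : ℝ) - 1) ^ 2 ≤ (L + 2) * (1 / (L : ℝ) ^ 5) :=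
          mul_le_mul hk h2 (sum_nonneg fun i _ => by positivity) (by linarith)
      _ ≤ 1 / 6 := hL5
      _ ≤ 1 / 2 := by norm_num
  · intro S hS
    have h1 : ∑ i ∈ S, k / ((px L i : ℝ) - 1) = k * ∑ i ∈ S, 1 / ((px L i : ℝ) - 1) := by
      rw [mul_sum]
      exact sum_congr rfl fun i _ => by rw [mul_one_div]
    rw [h1]
    have h2 := px_sum (L := L) (by omega) S hS
    have h3 : 0 ≤ ∑ i ∈ S, 1 / ((px L i : ℝ) - 1) := sum_nonneg fun i _ => by
      have h2 : (2 : ℝ) ≤ px L i := by exact_mod_cast (px_prime i).two_le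
      have : (0 : ℝ) < (px L i : ℝ) - 1 := by linarith
      positivity
    calc k * ∑ i ∈ S, 1 / ((px L i : ℝ) - 1) ≤ (L + 2) * (1 / (L : ℝ) ^ 5) :=
          mul_le_mul hk h2 h3 (by linarith)
      _ ≤ 1 / 6 := hL5

/-- a prime larger than the level is divisible by no `px` -/
private theorem prime_nd {L : ℕ} {n : ℕ} (hn : n.Prime) (h : 2 ^ dd L < n) (i : Ix L) :
    ¬ (px L i : ℤ) ∣ (n : ℤ) := by
  intro hd
  have h1 : px L i ∣ n := by exact_mod_cast hd
  have h2 := (Nat.prime_dvd_prime_iff_eq (px_prime i) hn).1 h1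
  have h3 := px_le i
  omega

private theorem c0_le : c0 ≤ 1 := by
  unfold c0
  have h1 : Real.exp (-9) ≤ 1 := Real.exp_le_one_iff.2 (by norm_num)
  rw [div_le_one (by norm_num)]
  linarith

theorem E2 : SE2 := by
  classical
  obtain ⟨c, hc, L1, hL1⟩ := GS_ge
  obtain ⟨L2, hL2⟩ := lam_grow hc
  obtain ⟨L3, hL3⟩ := H1_ge
  refine ⟨6 / c ^ 2 + 1, by positivity, 2 ^ (L1 + L2 + L3 + 100), ?_⟩
  intro P hP L M H R hA b j j' hj hj' hjj hjR hjR'
  have hLbig : L1 + L2 + L3 + 100 ≤ L := by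
    rw [hA.hL]
    exact Nat.le_log_of_pow_le (by norm_num) hP
  have hL100 : 100 ≤ L := by omega
  obtain ⟨s1, s2, s3, s4⟩ := sizes hA.hL hL100 hA.hM0 hA.hMP
  obtain ⟨n1, -⟩ := nums hL100
  obtain ⟨hlam1, hGm⟩ := hL2 L (by omega)
  obtain ⟨-, -, hH1⟩ := hL3 L (by omega)
  have hLr : (100 : ℝ) ≤ L := by exact_mod_cast hL100
  have hM0r : (0 : ℝ) < M := by exact_mod_cast hA.hM0
  have hlamr : (1 : ℝ) ≤ (Nat.log 2 L : ℝ) := by exact_mod_cast hlam1
  -- the sizes of `H` and of the level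
  have hL2P : 2 * L ^ 2 + 2 ^ dd L ≤ P := by
    refine le_trans ?_ s4
    have h1 : L ^ 2 ≤ 2 ^ (L - 2) := by
      have h2 : ∀ m : ℕ, (m + 10) ^ 2 ≤ 2 ^ (m + 8) := by
        intro m
        induction m with
        | zero => norm_num
        | succ m ih =>
          have e : 2 ^ (m + 1 + 8) = 2 * 2 ^ (m + 8) := by ring
          rw [e]
          calc (m + 1 + 10) ^ 2 ≤ 2 * (m + 10) ^ 2 :=
                Nat.le.intro (k := m ^ 2 + 18 * m + 79) (by ring)
            _ ≤ 2 * 2 ^ (m + 8) := Nat.mul_le_mul_left 2 ih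
      have h3 := h2 (L - 10)
      have e1 : L - 10 + 10 = L := by omega
      have e2 : L - 10 + 8 = L - 2 := by omega
      rwa [e1, e2] at h3
    have h2 : 2 ^ dd L ≤ 2 ^ (L - 1) := Nat.pow_le_pow_right (by norm_num) (by unfold dd; omega)
    have e1 : 2 ^ (L - 1) = 2 * 2 ^ (L - 2) := by
      rw [← pow_succ']
      congr 1
      omega
    have e2 : 2 ^ L = 2 * 2 ^ (L - 1) := by
      rw [← pow_succ']
      congr 1
      omega
    omega
  have hHP : H ≤ P := by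
    have := hA.hH
    have hpos : 0 < 2 ^ dd L := by positivity
    omega
  have hlev : ∀ n ∈ Nw P H M b, 2 ^ dd L < n := by
    intro n hn
    unfold Nw at hn
    have h1 := (mem_Ioc.1 (mem_filter.1 hn).1).1
    have := hA.hH
    have hpos : 0 < 2 ^ dd L := by positivity
    omega
  obtain ⟨n0, T, hT, hprog⟩ := prog hA.hM0 hHP b
  have hRL : ∀ x : {j : ℕ // j ∈ R}, (x : ℕ) < L ^ 2 := fun x =>
    lt_of_lt_of_le (mem_range.1 (hA.hR x.2)) hA.hH
  have hjL : j < L ^ 2 := lt_of_lt_of_le hj hA.hH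
  have hjL' : j' < L ^ 2 := lt_of_lt_of_le hj' hA.hH
  have hcard : (Fintype.card {j : ℕ // j ∈ R} : ℝ) ≤ L := by
    rw [Fintype.card_coe]
    refine hA.hk.trans ?_
    have := c0_le
    nlinarith
  obtain ⟨t1, t2⟩ := sums hL100 (k := (Fintype.card {j : ℕ // j ∈ R} : ℝ) + 2)
    (by positivity) (by linarith)
  have hD1 : (1 : ℝ) ≤ 2 ^ dd L := one_le_pow₀ (by norm_num)
  have hpb := pair_bound (p := px L) (M := M) (fun i => (px_prime i).two_le)
    (fun i i' h => px_coprime i i' h) (fun i => hA.hM _ (px_prime i) (px_gt i)) n0 (ax R)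
    (-(j : ℤ)) (-(j' : ℤ))
    (fun i x x' hx => px_not_dvd (by omega) i (hRL x) (hRL x') (fun h => hx (Subtype.ext h)))
    (fun i x => px_not_dvd (by omega) i (hRL x) hjL (fun h => hjR (h ▸ x.2)))
    (fun i x => px_not_dvd (by omega) i (hRL x) hjL' (fun h => hjR' (h ▸ x.2)))
    (fun i => px_not_dvd (by omega) i hjL hjL' hjj)
    t1 hD1 hD1
    (fun S hS => t2 S (hS.trans (by
      rw [← pow_add, ← pow_add]
      exact pow_le_pow_right₀ (by norm_num) (by unfold dd; omega))))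
    hGm
    (fun U hU => hL1 L (by omega) U (hU.trans (by
      rw [← pow_add]
      exact pow_le_pow_right₀ (by norm_num) (by omega))))
    (Yx L R) (fun σ => Yx_abs hH1 R σ) (fun σ h => Yx_level h) T
  obtain ⟨Q, hQ⟩ : ∃ Q : ℤ → Prop, ∀ n, Q n ↔ ((∀ i, ¬ (px L i : ℤ) ∣ n - (-(j : ℤ))) ∧
      ∀ i, ¬ (px L i : ℤ) ∣ n - (-(j' : ℤ))) := ⟨_, fun _ => Iff.rfl⟩
  have hsub : ∑ n ∈ (Nw P H M b).filter (fun n => (n + j).Prime ∧ (n + j').Prime),
      gx L R (n : ℤ) ^ 2 ≤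
      ∑ n ∈ (Nw P H M b).filter (fun n : ℕ => Q (n : ℤ)), gx L R (n : ℤ) ^ 2 := by
    apply sum_le_sum_of_subset_of_nonneg
    · intro n hn
      rw [mem_filter] at hn
      rw [mem_filter, hQ]
      have h1 := hlev n hn.1
      refine ⟨hn.1, fun i => ?_, fun i => ?_⟩
      · have e : (n : ℤ) - (-(j : ℤ)) = ((n + j : ℕ) : ℤ) := by push_cast; ring
        rw [e]
        exact prime_nd hn.2.1 (by omega) i
      · have e : (n : ℤ) - (-(j' : ℤ)) = ((n + j' : ℕ) : ℤ) := by push_cast; ring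
        rw [e]
        exact prime_nd hn.2.2 (by omega) i
    · intro n _ _
      exact sq_nonneg _
  have hpr := hprog (fun n => gx L R n ^ 2) Q (fun n => sq_nonneg _)
  have hmain : ∑ n ∈ (Nw P H M b).filter (fun n => (n + j).Prime ∧ (n + j').Prime),
      gx L R (n : ℤ) ^ 2 ≤
      6 / 5 * (T * (Zx L R / (c * L / (Nat.log 2 L : ℝ)) ^ 2)) +
        8 * (2 ^ dd L * 2 ^ dd L * 2 ^ dd L) ^ 6 := by
    refine hsub.trans (hpr.trans (le_trans (le_of_eq ?_) hpb))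
    apply sum_congr _ (fun _ _ => rfl)
    ext t
    rw [mem_filter, mem_filter, hQ]
  refine hmain.trans ?_
  set PM := (P : ℝ) / M with hPM
  have hPM1 : (1 : ℝ) ≤ PM := le_trans (one_le_pow₀ (by norm_num)) s1
  have hZ1 := Zx_one_le L R
  set Z := Zx L R
  set lam : ℝ := (Nat.log 2 L : ℝ) with hlamdef
  have hT2 : (T : ℝ) ≤ 5 * PM := by
    have e : 4 * (P : ℝ) / M = 4 * PM := by rw [hPM]; ring
    rw [e] at hT
    linarith
  have h1 : 6 / 5 * (T * (Z / (c * L / lam) ^ 2)) ≤ 6 / c ^ 2 * PM * (lam / L) ^ 2 * Z := by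
    have e : Z / (c * L / lam) ^ 2 = (lam / L) ^ 2 * Z / c ^ 2 := by
      have : (L : ℝ) ≠ 0 := by positivity
      have h2 : lam ≠ 0 := by positivity
      have h3 := hc.ne'
      field_simp
    rw [e]
    have h2 : 0 ≤ (lam / L) ^ 2 * Z / c ^ 2 := by positivity
    calc 6 / 5 * (T * ((lam / L) ^ 2 * Z / c ^ 2)) ≤
        6 / 5 * (5 * PM * ((lam / L) ^ 2 * Z / c ^ 2)) :=
          mul_le_mul_of_nonneg_left (mul_le_mul_of_nonneg_right hT2 h2) (by norm_num)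
      _ = _ := by ring
  have h2 : 8 * ((2 : ℝ) ^ dd L * 2 ^ dd L * 2 ^ dd L) ^ 6 ≤ PM * (lam / L) ^ 2 * Z := by
    have h3 := n1.trans s1
    have h4 : 8 * ((2 : ℝ) ^ dd L * 2 ^ dd L * 2 ^ dd L) ^ 6 ≤ PM / (L : ℝ) ^ 2 := by
      rw [le_div_iff₀ (by positivity)]
      exact h3
    refine h4.trans ?_
    have h5 : PM / (L : ℝ) ^ 2 * 1 ≤ PM / (L : ℝ) ^ 2 * (lam ^ 2 * Z) := by
      apply mul_le_mul_of_nonneg_left _ (by positivity)
      have h6 : 1 ≤ lam ^ 2 := one_le_pow₀ hlamr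
      nlinarith
    calc PM / (L : ℝ) ^ 2 = PM / (L : ℝ) ^ 2 * 1 := (mul_one _).symm
      _ ≤ _ := h5
      _ = _ := by rw [div_pow]; ring
  calc _ ≤ 6 / c ^ 2 * PM * (lam / L) ^ 2 * Z + PM * (lam / L) ^ 2 * Z := add_le_add h1 h2
    _ = _ := by ring

theorem BT : SBT := by
  classical
  obtain ⟨c, hc, L1, hL1⟩ := GS_ge
  obtain ⟨L2, hL2⟩ := lam_grow hc
  refine ⟨6 / c + 2, by positivity, 2 ^ (L1 + L2 + 100), ?_⟩
  intro P hP L M r hL hM0 hM hMP
  have hLbig : L1 + L2 + 100 ≤ L := by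
    rw [hL]
    exact Nat.le_log_of_pow_le (by norm_num) hP
  have hL100 : 100 ≤ L := by omega
  obtain ⟨s1, s2, s3, s4⟩ := sizes hL hL100 hM0 hMP
  obtain ⟨n1, n2⟩ := nums hL100
  obtain ⟨hlam1, hGm⟩ := hL2 L (by omega)
  have hLr : (100 : ℝ) ≤ L := by exact_mod_cast hL100
  have hM0r : (0 : ℝ) < M := by exact_mod_cast hM0
  have hlamr : (1 : ℝ) ≤ (Nat.log 2 L : ℝ) := by exact_mod_cast hlam1
  have hlevP : 2 ^ dd L ≤ P := (Nat.pow_le_pow_right (by norm_num) (by unfold dd; omega)).trans s4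
  have hP1 : 1 ≤ P := le_trans (Nat.one_le_two_pow) s4
  have hPr : (1 : ℝ) ≤ P := by exact_mod_cast hP1
  obtain ⟨n0, T, hT, hprog⟩ := prog hM0 (Nat.zero_le P) r
  obtain ⟨t1, t2⟩ := sums hL100 (k := (Fintype.card Empty : ℝ) + 1)
    (by positivity) (by
      rw [Fintype.card_eq_zero]
      push_cast
      linarith)
  have hD1 : (1 : ℝ) ≤ 2 ^ dd L := one_le_pow₀ (by norm_num)
  have hsupp : ∀ σ : Ix L → Option Empty, supp σ = ∅ := by
    intro σ
    apply eq_empty_of_forall_notMem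
    intro i hi
    rw [mem_supp] at hi
    rcases hσ : σ i with _ | e
    · exact hi hσ
    · exact e.elim
  have hsb := single_bound (p := px L) (M := M) (κ := Empty) (fun i => (px_prime i).two_le)
    (fun i i' h => px_coprime i i' h) (fun i => hM _ (px_prime i) (px_gt i)) n0
    (fun e => e.elim) 0 (fun i x => x.elim) (fun i x => x.elim) t1 (D := 1) (D1 := 2 ^ dd L)
    le_rfl hD1
    (fun S hS => t2 S (hS.trans (by
      rw [one_mul]
      exact pow_le_pow_right₀ (by norm_num) (by unfold dd; omega))))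
    hGm
    (fun U hU => hL1 L (by omega) U (hU.trans (one_le_pow₀ (by norm_num))))
    (fun _ => 1) (fun σ => by simp) (fun σ _ => by rw [hsupp, PP_empty]) T
  have huniv : (univ : Finset (Ix L → Option Empty)) = {fun _ => none} := by
    apply eq_singleton_iff_unique_mem.2
    refine ⟨mem_univ _, fun σ _ => ?_⟩
    funext i
    rcases hσ : σ i with _ | e
    · rfl
    · exact e.elim
  have hEE : ∀ n : ℤ, ∑ σ : Ix L → Option Empty, (1 : ℝ) * EE (px L) (fun e => e.elim) σ n = 1 := by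
    intro n
    rw [huniv, sum_singleton, one_mul]
    unfold EE
    apply prod_eq_one
    intro i _
    rfl
  have hZ : ∑ σ : Ix L → Option Empty, (1 : ℝ) ^ 2 / PH (px L) (supp σ) = 1 := by
    rw [huniv, sum_singleton, hsupp, PH_empty]
    norm_num
  rw [hZ] at hsb
  -- the number of primes
  set W := (Ioc P (4 * P)).filter (fun m => m ≡ r [MOD M]) with hW
  have hNw : Nw P 0 M r = W := by
    unfold Nw
    rw [Nat.sub_zero]
  rw [hNw] at hprog
  obtain ⟨Q, hQ⟩ : ∃ Q : ℤ → Prop, ∀ n, Q n ↔ ∀ i, ¬ (px L i : ℤ) ∣ n - 0 :=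
    ⟨_, fun _ => Iff.rfl⟩
  have hpr := hprog (fun _ => 1) Q (fun _ => by norm_num)
  have hcount : ((W.filter (fun m => m.Prime)).card : ℝ) ≤
      6 / 5 * (T * (1 / (c * L / (Nat.log 2 L : ℝ)))) + 8 * (1 * 2 ^ dd L) ^ 6 := by
    have h1 : ((W.filter (fun m => m.Prime)).card : ℝ) ≤
        ∑ n ∈ W.filter (fun n : ℕ => Q (n : ℤ)), (1 : ℝ) := by
      rw [sum_const, nsmul_eq_mul, mul_one]
      have h2 : (W.filter (fun m => m.Prime)).card ≤
          (W.filter (fun n : ℕ => Q (n : ℤ))).card := by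
        apply card_le_card
        intro n hn
        rw [mem_filter] at hn
        rw [mem_filter, hQ]
        refine ⟨hn.1, fun i => ?_⟩
        rw [sub_zero]
        have h3 := (mem_Ioc.1 (mem_filter.1 hn.1).1).1
        exact prime_nd hn.2 (by omega) i
      exact_mod_cast h2
    refine h1.trans (hpr.trans (le_trans (le_of_eq ?_) hsb))
    apply sum_congr
    · ext t
      rw [mem_filter, mem_filter, hQ]
    · intro t _
      rw [hEE]
      norm_num
  set PM := (P : ℝ) / M with hPM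
  have hPM1 : (1 : ℝ) ≤ PM := le_trans (one_le_pow₀ (by norm_num)) s1
  set lam : ℝ := (Nat.log 2 L : ℝ) with hlamdef
  have hT2 : (T : ℝ) ≤ 5 * PM := by
    have e : 4 * (P : ℝ) / M = 4 * PM := by rw [hPM]; ring
    rw [e] at hT
    linarith
  have hΛ : ∀ m : ℕ, 0 ≤ (ArithmeticFunction.vonMangoldt m : ℝ) := fun m =>
    ArithmeticFunction.vonMangoldt_nonneg
  have hpsi : psi M r P ≤ L * ((W.filter (fun m => m.Prime)).card : ℝ) +
      10 * √P * Real.log (4 * P) ^ 2 := by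
    unfold psi
    rw [← hW, ← sum_filter_add_sum_filter_not W (fun m => m.Prime)]
    apply add_le_add
    · calc ∑ m ∈ W.filter (fun m => m.Prime), (ArithmeticFunction.vonMangoldt m : ℝ)
          ≤ ∑ _m ∈ W.filter (fun m => m.Prime), (L : ℝ) := by
            apply sum_le_sum
            intro m hm
            rw [mem_filter] at hm
            rw [ArithmeticFunction.vonMangoldt_apply_prime hm.2]
            refine le_trans ?_ s3
            apply Real.log_le_log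
            · exact_mod_cast hm.2.pos
            · have h1 := (mem_Ioc.1 (mem_filter.1 hm.1).1).2
              exact_mod_cast h1
        _ = L * ((W.filter (fun m => m.Prime)).card : ℝ) := by
            rw [sum_const, nsmul_eq_mul, mul_comm]
    · refine le_trans ?_ (pp_err (P := P) (by
        have : 2 ^ 1 ≤ 2 ^ L := Nat.pow_le_pow_right (by norm_num) (by omega)
        omega))
      apply sum_le_sum_of_subset_of_nonneg
      · intro m hm
        rw [mem_filter, hW, mem_filter] at hm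
        rw [mem_filter]
        exact ⟨hm.1.1, hm.2⟩
      · intro m _ _
        exact hΛ m
  have hlog0 : 0 ≤ Real.log (4 * (P : ℝ)) := Real.log_nonneg (by linarith)
  have e1 : 10 * √(P : ℝ) * Real.log (4 * P) ^ 2 ≤ PM := by
    calc 10 * √(P : ℝ) * Real.log (4 * P) ^ 2 ≤ 10 * 2 ^ (5 * (L / 10) + 5) * (L : ℝ) ^ 2 := by
          apply mul_le_mul
          · exact mul_le_mul_of_nonneg_left s2 (by norm_num)
          · exact pow_le_pow_left₀ hlog0 s3 2
          · positivity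
          · positivity
      _ ≤ _ := n2
      _ ≤ PM := s1
  have e2 : (L : ℝ) * (8 * (1 * 2 ^ dd L) ^ 6) ≤ PM := by
    refine le_trans ?_ (n1.trans s1)
    have h1 : (1 * (2 : ℝ) ^ dd L) ^ 6 ≤ (2 ^ dd L * 2 ^ dd L * 2 ^ dd L) ^ 6 := by
      apply pow_le_pow_left₀ (by positivity)
      have h2 : (1 : ℝ) ≤ 2 ^ dd L * 2 ^ dd L := one_le_mul_of_one_le_of_one_le hD1 hD1
      exact mul_le_mul_of_nonneg_right h2 (by positivity)
    have h2 : (L : ℝ) ≤ (L : ℝ) ^ 2 := by nlinarith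
    calc (L : ℝ) * (8 * (1 * 2 ^ dd L) ^ 6) ≤
        (L : ℝ) ^ 2 * (8 * (2 ^ dd L * 2 ^ dd L * 2 ^ dd L) ^ 6) :=
          mul_le_mul h2 (mul_le_mul_of_nonneg_left h1 (by norm_num)) (by positivity)
            (by positivity)
      _ = _ := by ring
  have e3 : (L : ℝ) * (6 / 5 * (T * (1 / (c * L / lam)))) ≤ 6 / c * PM * lam := by
    have e : (L : ℝ) * (6 / 5 * (T * (1 / (c * L / lam)))) = 6 / 5 * T * (lam / c) := by
      have : (L : ℝ) ≠ 0 := by positivity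
      have h2 : lam ≠ 0 := by positivity
      have h3 := hc.ne'
      field_simp
    rw [e]
    calc 6 / 5 * T * (lam / c) ≤ 6 / 5 * (5 * PM) * (lam / c) := by
          apply mul_le_mul_of_nonneg_right _ (by positivity)
          exact mul_le_mul_of_nonneg_left hT2 (by norm_num)
      _ = _ := by ring
  have e4 : (L : ℝ) * ((W.filter (fun m => m.Prime)).card : ℝ) ≤
      L * (6 / 5 * (T * (1 / (c * L / lam))) + 8 * (1 * 2 ^ dd L) ^ 6) :=
    mul_le_mul_of_nonneg_left hcount (by positivity)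
  have e5 : PM ≤ PM * lam := by nlinarith
  calc psi M r P ≤ _ := hpsi
    _ ≤ (6 / c * PM * lam + PM) + PM := by
        rw [mul_add] at e4
        linarith
    _ ≤ (6 / c + 2) * PM * lam := by nlinarith

end Pool.Agent.AT
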