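import Pool.Agent.AT.En
import Pool.Agent.AT.Prog
import Pool.Agent.AT.ParB
import Pool.Agent.AT.Bad

/-! AT/E3.  The killed elements.  A prime `n + j > P - H ≥ 2 ^ dd L` is divisible by no `px L i`;
`prog` and `bad_bound` give the bound. -/

namespace Pool.Agent.AT

open Finset Pool.Agent.RS

private theorem e3_pow {L : ℕ} (hL : 100 ≤ L) : 256 * L ^ 4 * 2 ^ (12 * dd L) ≤ 2 ^ L := by
  have h1 : L / 64 + 1 ≤ 2 ^ (L / 64) := Nat.lt_two_pow_self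
  have h2 : L ≤ 64 * 2 ^ (L / 64) := by omega
  have h3 : L ^ 4 ≤ (64 * 2 ^ (L / 64)) ^ 4 := Nat.pow_le_pow_left h2 4
  have h4 : 256 * (64 * 2 ^ (L / 64)) ^ 4 * 2 ^ (12 * dd L) =
      2 ^ (32 + 4 * (L / 64) + 12 * dd L) := by
    rw [mul_pow, ← pow_mul, pow_add, pow_add, mul_comm (L / 64) 4]
    norm_num
    ring
  have h5 : 32 + 4 * (L / 64) + 12 * dd L ≤ L := by
    unfold dd
    omega
  calc 256 * L ^ 4 * 2 ^ (12 * dd L) ≤ 256 * (64 * 2 ^ (L / 64)) ^ 4 * 2 ^ (12 * dd L) := by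
        gcongr
    _ = 2 ^ (32 + 4 * (L / 64) + 12 * dd L) := h4
    _ ≤ 2 ^ L := Nat.pow_le_pow_right (by norm_num) h5

private theorem e3_win {L H P : ℕ} (hL : 100 ≤ L) (hH : H ≤ L ^ 2) (hP : 2 ^ L ≤ P) :
    2 ^ dd L ≤ P - H := by
  have h1 := e3_pow hL
  have h2 : 1 ≤ 2 ^ (12 * dd L) := Nat.one_le_two_pow
  have h3 : 256 * L ^ 4 ≤ 2 ^ L := le_trans (Nat.le_mul_of_pos_right _ h2) h1
  have h4 : L ^ 2 ≤ L ^ 4 := Nat.pow_le_pow_right (by omega) (by norm_num)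
  have h5 : 2 ^ (12 * dd L) ≤ 2 ^ L := le_trans (Nat.le_mul_of_pos_left _ (by positivity)) h1
  have h6 : dd L ≤ L - 1 := by unfold dd; omega
  have h7 : 2 ^ dd L ≤ 2 ^ (L - 1) := Nat.pow_le_pow_right (by norm_num) h6
  have h8 : 2 ^ L = 2 * 2 ^ (L - 1) := by
    rw [← pow_succ']
    congr 1
    omega
  omega

private theorem e3_not_dvd {P H L M b n : ℕ} {R : Finset ℕ} (hL : 100 ≤ L) (hH : H ≤ L ^ 2)
    (hP : 2 ^ L ≤ P) (hn : n ∈ Nw P H M b) {j : ℕ} (hj : j ∈ R) (hp : (n + j).Prime) (i : Ix L) :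
    ¬ (px L i : ℤ) ∣ (n : ℤ) - ax R ⟨j, hj⟩ := by
  intro h
  have h1 : (n : ℤ) - ax R ⟨j, hj⟩ = ((n + j : ℕ) : ℤ) := by
    unfold ax
    push_cast
    ring
  rw [h1, Int.natCast_dvd_natCast] at h
  have h2 := (Nat.prime_dvd_prime_iff_eq (px_prime i) hp).1 h
  have h3 := px_le i
  have h4 := e3_win hL hH hP
  unfold Nw at hn
  have h5 := (mem_Ioc.1 (mem_filter.1 hn).1).1
  omega

private theorem e3_M {P M : ℕ} (hP : 1 ≤ P) (hMP : (M : ℝ) ≤ (P : ℝ) ^ (1 / 1000 : ℝ)) :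
    (M : ℝ) ^ 2 ≤ P := by
  have hP1 : (1 : ℝ) ≤ P := by exact_mod_cast hP
  have h1 : (M : ℝ) ≤ (P : ℝ) ^ (1 / 2 : ℝ) :=
    hMP.trans (Real.rpow_le_rpow_of_exponent_le hP1 (by norm_num))
  have h2 : ((P : ℝ) ^ (1 / 2 : ℝ)) ^ 2 = P := by
    rw [← Real.rpow_natCast, ← Real.rpow_mul (by positivity)]
    norm_num
  calc (M : ℝ) ^ 2 ≤ ((P : ℝ) ^ (1 / 2 : ℝ)) ^ 2 := by gcongr
    _ = (P : ℝ) := h2

private theorem e3_main {P L M : ℕ} (hL : 100 ≤ L) (hP : 2 ^ L ≤ P) (hM0 : 0 < M)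
    (hMP : (M : ℝ) ≤ (P : ℝ) ^ (1 / 1000 : ℝ)) :
    16 * (L : ℝ) ^ 2 * (2 ^ dd L) ^ 6 ≤ (P : ℝ) / M := by
  have hP1 : 1 ≤ P := le_trans Nat.one_le_two_pow hP
  have h1 := e3_M hP1 hMP
  have hM : (0 : ℝ) < M := by exact_mod_cast hM0
  have h2 : (16 * (L : ℝ) ^ 2 * (2 ^ dd L) ^ 6) ^ 2 ≤ P := by
    have h3 : ((256 * L ^ 4 * 2 ^ (12 * dd L) : ℕ) : ℝ) ≤ P := by
      exact_mod_cast (e3_pow hL).trans hP
    have h4 : (16 * (L : ℝ) ^ 2 * (2 ^ dd L) ^ 6) ^ 2 =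
        ((256 * L ^ 4 * 2 ^ (12 * dd L) : ℕ) : ℝ) := by
      push_cast
      rw [mul_comm 12 (dd L), pow_mul 2 (dd L) 12]
      ring
    rw [h4]
    exact h3
  rw [le_div_iff₀ hM]
  have h5 : (16 * (L : ℝ) ^ 2 * (2 ^ dd L) ^ 6 * M) ^ 2 ≤ (P : ℝ) ^ 2 := by
    rw [mul_pow, sq (P : ℝ)]
    exact mul_le_mul h2 h1 (by positivity) (by positivity)
  exact (pow_le_pow_iff_left₀ (by positivity) (by positivity) (by norm_num)).1 h5

private theorem e3_num {L X Z k T D6 : ℝ} (hL : 100 ≤ L) (hX : 16 * L ^ 2 * D6 ≤ X) (hX1 : 1 ≤ X)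
    (hZ : 1 ≤ Z) (hk : k ≤ L) (hT : T ≤ 5 * X) (hD : 0 ≤ D6) (hT0 : 0 ≤ T) :
    k * (6 / 5 * (T * (((1 / L ^ 4) ^ 2 + 1 / L ^ 4) * Z)) + 8 * D6) ≤ X / L * Z := by
  have hL0 : 0 < L := by linarith
  have h1 : (1 / L ^ 4) ^ 2 + 1 / L ^ 4 ≤ 2 / L ^ 4 := by
    have h2 : 1 / L ^ 4 ≤ 1 := by
      rw [div_le_one (by positivity)]
      exact one_le_pow₀ (by linarith)
    have h3 : 0 ≤ 1 / L ^ 4 := by positivity
    have h4 : 2 / L ^ 4 = 1 / L ^ 4 + 1 / L ^ 4 := by ring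
    rw [h4]
    nlinarith
  have h5 : 6 / 5 * (T * (((1 / L ^ 4) ^ 2 + 1 / L ^ 4) * Z)) ≤
      6 / 5 * (5 * X * (2 / L ^ 4 * Z)) := by
    gcongr
  have h6 : 6 / 5 * (5 * X * (2 / L ^ 4 * Z)) ≤ X * Z / (2 * L ^ 2) := by
    have h7 : 6 / 5 * (5 * X * (2 / L ^ 4 * Z)) = X * Z * (12 / L ^ 4) := by ring
    have h8 : X * Z / (2 * L ^ 2) = X * Z * (1 / (2 * L ^ 2)) := by ring
    rw [h7, h8]
    apply mul_le_mul_of_nonneg_left _ (by positivity)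
    rw [div_le_div_iff₀ (by positivity) (by positivity)]
    have h9 : L ^ 4 = L ^ 2 * L ^ 2 := by ring
    rw [h9]
    have h10 : 24 ≤ L ^ 2 := by nlinarith
    have h11 : 0 ≤ L ^ 2 := by positivity
    nlinarith
  have h12 : 8 * D6 ≤ X * Z / (2 * L ^ 2) := by
    rw [le_div_iff₀ (by positivity)]
    nlinarith
  have h13 : 0 ≤ 6 / 5 * (T * (((1 / L ^ 4) ^ 2 + 1 / L ^ 4) * Z)) + 8 * D6 := by positivity
  calc k * (6 / 5 * (T * (((1 / L ^ 4) ^ 2 + 1 / L ^ 4) * Z)) + 8 * D6)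
      ≤ L * (X * Z / (2 * L ^ 2) + X * Z / (2 * L ^ 2)) :=
        mul_le_mul hk (by linarith) h13 hL0.le
    _ = X / L * Z := by
        field_simp
        ring

private theorem e3_c0 : c0 ≤ 1 := by
  unfold c0
  have h1 : Real.exp (-9) ≤ 1 := Real.exp_le_one_iff.2 (by norm_num)
  rw [div_le_one (by positivity)]
  linarith [show (1 : ℝ) ≤ 10 ^ 8 by norm_num]

theorem E3 : SE3 := by
  classical
  obtain ⟨L1, h1⟩ := H1_ge
  obtain ⟨L2, h2⟩ := tail_x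
  obtain ⟨L3, h3⟩ := cc_x
  refine ⟨2 ^ (L1 + L2 + L3 + 100), fun P hP L M H R hA b => ?_⟩
  have hL : L1 + L2 + L3 + 100 ≤ L := by
    rw [hA.hL]
    exact Nat.le_log_of_pow_le (by norm_num) hP
  have hP0 : P ≠ 0 := by
    have : 1 ≤ 2 ^ (L1 + L2 + L3 + 100) := Nat.one_le_two_pow
    omega
  have hLP : 2 ^ L ≤ P := by
    rw [hA.hL]
    exact Nat.pow_log_le_self 2 hP0
  have hL100 : 100 ≤ L := by omega
  have hLr : (100 : ℝ) ≤ L := by exact_mod_cast hL100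
  have hk0 : (R.card : ℝ) ≤ L := hA.hk.trans (by nlinarith [e3_c0])
  have hcard : (Fintype.card {j : ℕ // j ∈ R} : ℝ) = R.card := by
    rw [Fintype.card_coe]
  have hMX := e3_main hL100 hLP hA.hM0 hA.hMP
  have hD1 : (1 : ℝ) ≤ 2 ^ dd L := one_le_pow₀ (by norm_num)
  have hX1 : (1 : ℝ) ≤ (P : ℝ) / M := by
    refine le_trans ?_ hMX
    have h4 : (1 : ℝ) ≤ (2 ^ dd L) ^ 6 := one_le_pow₀ hD1
    nlinarith
  have hHP : H ≤ P := by
    have h4 := e3_win hL100 hA.hH hLP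
    have h5 : 0 < 2 ^ dd L := by positivity
    omega
  obtain ⟨n0, T, hT, hprog⟩ := prog hA.hM0 hHP b
  obtain ⟨hs1, hH1, hH2⟩ := h1 L (by omega)
  have hH0 : 0 < H1 (px L) (2 ^ sx L) := lt_of_lt_of_le (by positivity) hH1
  have hp2 : ∀ i, 2 ≤ px L i := fun i => (px_prime i).two_le
  have hsub : ∀ i : Ix L, (1 : ℝ) ≤ (px L i : ℝ) - 1 := by
    intro i
    have : (2 : ℝ) ≤ px L i := by exact_mod_cast hp2 i
    linarith
  have hbad := bad_bound (κ := {j : ℕ // j ∈ R}) (p := px L) (M := M) hp2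
    (fun i j h => px_coprime i j h) (fun i => hA.hM _ (px_prime i) (px_gt i)) n0 (ax R)
    (fun i j j' h => px_not_dvd (by omega) i
      (lt_of_lt_of_le (mem_range.1 (hA.hR j.2)) hA.hH)
      (lt_of_lt_of_le (mem_range.1 (hA.hR j'.2)) hA.hH) (fun h' => h (Subtype.ext h')))
    (by
      have h4 := px_sum_sq (L := L) (by omega)
      have h5 : ∀ i ∈ (univ : Finset (Ix L)),
          (Fintype.card {j : ℕ // j ∈ R} : ℝ) / (px L i : ℝ) ^ 2 ≤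
            L * (1 / ((px L i : ℝ) - 1) ^ 2) := by
        intro i _
        have h6 := hsub i
        rw [hcard, mul_one_div]
        have h7 : ((px L i : ℝ) - 1) ^ 2 ≤ (px L i : ℝ) ^ 2 := by nlinarith
        exact div_le_div₀ (by positivity) hk0 (by positivity) h7
      refine (sum_le_sum h5).trans ?_
      rw [← mul_sum]
      have h8 : (L : ℝ) * ∑ i : Ix L, 1 / ((px L i : ℝ) - 1) ^ 2 ≤ L * (1 / (L : ℝ) ^ 5) :=
        mul_le_mul_of_nonneg_left h4 (by positivity)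
      refine h8.trans ?_
      have h9 : (L : ℝ) * (1 / (L : ℝ) ^ 5) = 1 / (L : ℝ) ^ 4 := by
        field_simp
      rw [h9]
      exact one_div_le_one_div_of_le (by norm_num) (by
        have : (1 : ℝ) ≤ (L : ℝ) ^ 3 := one_le_pow₀ (by linarith)
        nlinarith))
    (D := 2 ^ dd L) (D2 := 2 ^ dd L / 2 ^ sx L) (δ := 1 / (L : ℝ) ^ 4) (τ := 1 / (L : ℝ) ^ 4) hD1
    (by
      intro S hS
      have hdd : dd L ≤ L := by unfold dd; omega
      have h4 := px_sum (L := L) (by omega) S (hS.trans (pow_le_pow_right₀ (by norm_num) hdd))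
      have h5 : ∀ i ∈ S, (Fintype.card {j : ℕ // j ∈ R} : ℝ) / ((px L i : ℝ) - 1) ≤
            L * (1 / ((px L i : ℝ) - 1)) := by
        intro i _
        have h6 := hsub i
        rw [hcard, mul_one_div]
        exact div_le_div_of_nonneg_right hk0 (by linarith)
      refine (sum_le_sum h5).trans ?_
      rw [← mul_sum]
      have h8 : (L : ℝ) * ∑ i ∈ S, 1 / ((px L i : ℝ) - 1) ≤ L * (1 / (L : ℝ) ^ 5) :=
        mul_le_mul_of_nonneg_left h4 (by positivity)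
      refine h8.trans ?_
      have h9 : (L : ℝ) * (1 / (L : ℝ) ^ 5) = 1 / (L : ℝ) ^ 4 := by
        field_simp
      rw [h9]
      exact one_div_le_one_div_of_le (by norm_num) (by
        have : (1 : ℝ) ≤ (L : ℝ) ^ 3 := one_le_pow₀ (by linarith)
        nlinarith))
    (yx L) (wt_empty _ _) (fun S => wt_abs hp2 hH2 S) (fun U => cc_wt_abs hp2 hH0 U)
    (fun U hU => h3 L (by omega) U hU) (h2 L (by omega) R hA.hk) T
  have hZ1 := Zx_one_le L R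
  have hT5 : (T : ℝ) ≤ 5 * ((P : ℝ) / M) := by
    have h4 : 4 * (P : ℝ) / M = 4 * ((P : ℝ) / M) := by ring
    rw [h4] at hT
    linarith
  have hnum := e3_num (L := L) (X := (P : ℝ) / M) (Z := Zx L R) (k := (R.card : ℝ)) (T := T)
    (D6 := (2 ^ dd L) ^ 6) hLr hMX hX1 hZ1 hk0 hT5 (by positivity) (by positivity)
  have hpr := hprog (fun n => gx L R n ^ 2)
    (fun n => ∃ j : {j : ℕ // j ∈ R}, ∀ i, ¬ (px L i : ℤ) ∣ n - ax R j) (fun n => sq_nonneg _)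
  refine le_trans (sum_le_sum_of_subset_of_nonneg ?_ fun n _ _ => sq_nonneg _) (hpr.trans ?_)
  · intro n hn
    obtain ⟨hn1, j, hj, hjp⟩ := mem_filter.1 hn
    simp only [Finset.mem_filter]
    exact ⟨hn1, ⟨j, hj⟩, fun i => e3_not_dvd hL100 hA.hH hLP hn1 hj hjp i⟩
  · refine le_trans ?_ hnum
    rw [hcard] at hbad
    refine le_trans (le_of_eq (sum_congr ?_ fun _ _ => rfl)) hbad
    ext t
    simp only [mem_filter]

end Pool.Agent.AT
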