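import Pool.Agent.AT.Defs
import Pool.Agent.RS.Gram

/-! AT/Loc.  Local coefficients: expansion of the local factors in the characters modulo a prime.

`eo q a n o` (RS/Base): `1` for `o = none`, `-1` or `1/(q-1)` for `o = some j` according to
`q ∣ n - a j`.  The prime to be attracted is `m = n - a0`, i.e. `n = m + a0`. -/

namespace Pool.Agent.AT

open Finset Pool.Agent.RS

variable {κ : Type} [DecidableEq κ]

/-- the local coefficient: average over the classes `r ≠ 0` modulo `q` -/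
noncomputable def LC (q : ℕ) (a : κ → ℤ) (a0 : ℤ) (o o' : Option κ) (χ : DirichletCharacter ℂ q) : ℂ :=
  (1 / ((q : ℂ) - 1)) * ∑ r ∈ (range q).filter (fun r => r ≠ 0),
    ((eo q a ((r : ℤ) + a0) o * eo q a ((r : ℤ) + a0) o' : ℝ) : ℂ) * χ⁻¹ (r : ZMod q)

/-- the real local average -/
noncomputable def GE (q : ℕ) (a : κ → ℤ) (a0 : ℤ) (o o' : Option κ) : ℝ :=
  (1 / ((q : ℝ) - 1)) * ∑ r ∈ (range q).filter (fun r => r ≠ 0),
    (eo q a ((r : ℤ) + a0) o * eo q a ((r : ℤ) + a0) o')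

omit [DecidableEq κ] in
private theorem loc_eo (q : ℕ) (a : κ → ℤ) (o : Option κ) {x y : ℤ} (h : (q : ℤ) ∣ x - y) :
    eo q a x o = eo q a y o := by
  cases o with
  | none => rfl
  | some j =>
    show ee q (x - a j) = ee q (y - a j)
    unfold ee
    have h1 : (q : ℤ) ∣ x - a j ↔ (q : ℤ) ∣ y - a j := by
      have h2 : x - a j = (y - a j) + (x - y) := by ring
      rw [h2]
      exact dvd_add_left h
    by_cases h3 : (q : ℤ) ∣ x - a j
    · rw [if_pos h3, if_pos (h1.1 h3)]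
    · rw [if_neg h3, if_neg (fun h4 => h3 (h1.2 h4))]

/-- PLAN: for a unit `m` of `ZMod q`, by `DirichletCharacter.sum_char_inv_mul_char_eq`
(orthogonality) the right side is `∑_r F r * [r = m]`, `F r = eo * eo'` depends only on the class
modulo `q` (see `eo_eq_fz` in RS/Gram: `eo` is a function of the class of `n` modulo `q`). -/
theorem loc_exp {q : ℕ} (hq : q.Prime) (a : κ → ℤ) (a0 : ℤ) (o o' : Option κ) {m : ℕ}
    (hm : ¬ q ∣ m) :
    ((eo q a ((m : ℤ) + a0) o * eo q a ((m : ℤ) + a0) o' : ℝ) : ℂ) =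
      ∑ χ : DirichletCharacter ℂ q, LC q a a0 o o' χ * χ (m : ZMod q) := by
  have : Fact q.Prime := ⟨hq⟩
  have : NeZero q := ⟨hq.ne_zero⟩
  have hq1 : ((q : ℂ) - 1) ≠ 0 := by
    have : (1 : ℝ) < q := by exact_mod_cast hq.one_lt
    intro h
    have h2 : (q : ℂ) = 1 := sub_eq_zero.1 h
    have h3 : q = 1 := by exact_mod_cast h2
    exact hq.one_lt.ne' h3
  set F : ℕ → ℂ := fun r => ((eo q a ((r : ℤ) + a0) o * eo q a ((r : ℤ) + a0) o' : ℝ) : ℂ) with hF
  have h1 : ∀ r ∈ (range q).filter (fun r => r ≠ 0),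
      ∑ χ : DirichletCharacter ℂ q, χ⁻¹ (r : ZMod q) * χ (m : ZMod q) =
        if (r : ZMod q) = (m : ZMod q) then ((q : ℂ) - 1) else 0 := by
    intro r hr
    simp only [mem_filter, mem_range] at hr
    have hr0 : (r : ZMod q) ≠ 0 := by
      intro h
      rw [ZMod.natCast_eq_zero_iff] at h
      exact absurd (Nat.le_of_dvd (Nat.pos_of_ne_zero hr.2) h) (by omega)
    have h2 := DirichletCharacter.sum_char_inv_mul_char_eq ℂ
      (a := (r : ZMod q)) (isUnit_iff_ne_zero.2 hr0) (m : ZMod q)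
    rw [Nat.totient_prime hq] at h2
    have h3 : ∀ χ : DirichletCharacter ℂ q, χ⁻¹ (r : ZMod q) = χ (r : ZMod q)⁻¹ :=
      fun χ => MulChar.inv_apply' χ _
    simp_rw [h3]
    rw [h2]
    have h4 : ((q - 1 : ℕ) : ℂ) = (q : ℂ) - 1 := by
      rw [Nat.cast_sub hq.one_le, Nat.cast_one]
    rw [h4]
  have h2 : ∑ χ : DirichletCharacter ℂ q, LC q a a0 o o' χ * χ (m : ZMod q) =
      (1 / ((q : ℂ) - 1)) * ∑ r ∈ (range q).filter (fun r => r ≠ 0),
        F r * (if (r : ZMod q) = (m : ZMod q) then ((q : ℂ) - 1) else 0) := by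
    unfold LC
    simp_rw [mul_assoc, ← Finset.mul_sum, Finset.sum_mul]
    rw [Finset.sum_comm]
    congr 1
    refine Finset.sum_congr rfl fun r hr => ?_
    rw [← h1 r hr, Finset.mul_sum]
    refine Finset.sum_congr rfl fun χ _ => ?_
    simp only [hF]
    ring
  rw [h2]
  have hmq : (m % q) ∈ (range q).filter (fun r => r ≠ 0) := by
    simp only [mem_filter, mem_range]
    exact ⟨Nat.mod_lt _ hq.pos, fun h => hm (Nat.dvd_of_mod_eq_zero h)⟩
  rw [Finset.sum_eq_single_of_mem _ hmq]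
  · rw [if_pos (by simp)]
    have h5 : F (m % q) = F m := by
      simp only [hF]
      have h6 : (q : ℤ) ∣ (((m % q : ℕ) : ℤ) + a0) - ((m : ℤ) + a0) := by
        have h7 : (((m % q : ℕ) : ℤ) + a0) - ((m : ℤ) + a0) = -((m : ℤ) - ((m % q : ℕ) : ℤ)) := by
          ring
        rw [h7]
        refine (dvd_neg).2 ⟨((m / q : ℕ) : ℤ), ?_⟩
        have h8 : m = q * (m / q) + m % q := (Nat.div_add_mod m q).symm
        have h9 : (m : ℤ) = q * ((m / q : ℕ) : ℤ) + ((m % q : ℕ) : ℤ) := by exact_mod_cast h8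
        linarith
      rw [loc_eo q a o h6, loc_eo q a o' h6]
    rw [h5]
    field_simp
    rfl
  · intro r hr hne
    simp only [mem_filter, mem_range] at hr
    rw [if_neg, mul_zero]
    intro h
    rw [ZMod.natCast_eq_natCast_iff] at h
    apply hne
    have h3 : r % q = m % q := h
    rw [Nat.mod_eq_of_lt hr.1] at h3
    exact h3

/-- PLAN: `χ⁻¹ r = 1` for `χ = 1` and `r ≠ 0`. -/
theorem LC_one {q : ℕ} (hq : q.Prime) (a : κ → ℤ) (a0 : ℤ) (o o' : Option κ) :
    LC q a a0 o o' 1 = (GE q a a0 o o' : ℂ) := by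
  have : Fact q.Prime := ⟨hq⟩
  unfold LC GE
  push_cast
  congr 1
  refine Finset.sum_congr rfl fun r hr => ?_
  simp only [mem_filter, mem_range] at hr
  have hr0 : (r : ZMod q) ≠ 0 := by
    intro h
    rw [ZMod.natCast_eq_zero_iff] at h
    exact absurd (Nat.le_of_dvd (Nat.pos_of_ne_zero hr.2) h) (by omega)
  rw [inv_one, MulChar.one_apply (isUnit_iff_ne_zero.2 hr0), mul_one]

end Pool.Agent.AT
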