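import Pool.Agent.AT.Loc

/-! AT/LocB.  Bounds of the local coefficients.  `q` prime, `u = q - 1`; the elements are distinct
modulo `q` and different from `a0` modulo `q`.  Exactly one class `r = c_j ≠ 0` satisfies
`q ∣ r + a0 - a j`; there the factor is `-1`, at the other classes it is `1/u`.  The real averages are
computed exactly, and the coefficients with a character are bounded by the averages of the absolute values. -/

namespace Pool.Agent.AT

open Finset Pool.Agent.RS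

variable {κ : Type} [DecidableEq κ]

private theorem cls {q : ℕ} (hq : q.Prime) (b : ℤ) (hb : ¬ (q : ℤ) ∣ b) :
    ∃ c : ℕ, c ∈ (range q).filter (fun r => r ≠ 0) ∧
      ∀ r ∈ (range q).filter (fun r => r ≠ 0), ((q : ℤ) ∣ (r : ℤ) - b ↔ r = c) := by
  have hq0 : (0 : ℤ) < q := by exact_mod_cast hq.pos
  have h1 : 0 ≤ b % q := Int.emod_nonneg _ hq0.ne'
  have h2 : b % q < q := Int.emod_lt_of_pos _ hq0
  obtain ⟨c, hc⟩ := Int.eq_ofNat_of_zero_le h1
  have hc2 : c < q := by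
    rw [hc] at h2
    exact_mod_cast h2
  have hc0 : c ≠ 0 := by
    rintro rfl
    exact hb (Int.dvd_of_emod_eq_zero (by rw [hc]; rfl))
  refine ⟨c, mem_filter.2 ⟨mem_range.2 hc2, hc0⟩, fun r hr => ?_⟩
  have hr2 : r < q := mem_range.1 (mem_filter.1 hr).1
  have hr3 : (r : ℤ) % q = r := Int.emod_eq_of_lt (by positivity) (by exact_mod_cast hr2)
  rw [← Int.modEq_iff_dvd]
  unfold Int.ModEq
  rw [hr3, hc]
  constructor
  · intro h
    exact_mod_cast h.symm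
  · intro h
    rw [h]

omit [DecidableEq κ] in
private theorem eo_cls {q : ℕ} (hq : q.Prime) (a : κ → ℤ) (a0 : ℤ) (j : κ)
    (h0 : ¬ (q : ℤ) ∣ a j - a0) :
    ∃ c : ℕ, c ∈ (range q).filter (fun r => r ≠ 0) ∧ (q : ℤ) ∣ (c : ℤ) - (a j - a0) ∧
      ∀ r ∈ (range q).filter (fun r => r ≠ 0),
        eo q a ((r : ℤ) + a0) (some j) = if r = c then -1 else 1 / ((q : ℝ) - 1) := by
  obtain ⟨c, hc, h⟩ := cls hq _ h0
  refine ⟨c, hc, (h c hc).2 rfl, fun r hr => ?_⟩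
  have h1 : (r : ℤ) + a0 - a j = (r : ℤ) - (a j - a0) := by ring
  show ee q ((r : ℤ) + a0 - a j) = _
  unfold ee
  rw [h1]
  by_cases h2 : r = c
  · rw [if_pos ((h r hr).2 h2), if_pos h2]
  · rw [if_neg (fun h3 => h2 ((h r hr).1 h3)), if_neg h2]

private theorem card_R {q : ℕ} (hq : q.Prime) :
    (((range q).filter (fun r => r ≠ 0)).card : ℝ) = (q : ℝ) - 1 := by
  have h1 : (range q).filter (fun r => r ≠ 0) = (range q).erase 0 := Finset.filter_ne' _ _
  rw [h1, card_erase_of_mem (mem_range.2 hq.pos), card_range, Nat.cast_sub hq.pos, Nat.cast_one]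

private theorem sum_R {q : ℕ} (hq : q.Prime) (y x z : ℝ) {c c' : ℕ}
    (hc : c ∈ (range q).filter (fun r => r ≠ 0)) (hc' : c' ∈ (range q).filter (fun r => r ≠ 0)) :
    ∑ r ∈ (range q).filter (fun r => r ≠ 0),
      (y + (if r = c then x else 0) + (if r = c' then z else 0)) = ((q : ℝ) - 1) * y + x + z := by
  rw [sum_add_distrib, sum_add_distrib, sum_const, nsmul_eq_mul, card_R hq, Finset.sum_ite_eq',
    Finset.sum_ite_eq', if_pos hc, if_pos hc']

private theorem u_two {q : ℕ} (h3 : 3 ≤ q) : (2 : ℝ) ≤ (q : ℝ) - 1 := by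
  have : (3 : ℝ) ≤ q := by exact_mod_cast h3
  linarith

omit [DecidableEq κ] in
private theorem LC_le {q : ℕ} (hq : q.Prime) (a : κ → ℤ) (a0 : ℤ) (o o' : Option κ)
    (χ : DirichletCharacter ℂ q) :
    ‖LC q a a0 o o' χ‖ ≤ 1 / ((q : ℝ) - 1) * ∑ r ∈ (range q).filter (fun r => r ≠ 0),
      |eo q a ((r : ℤ) + a0) o * eo q a ((r : ℤ) + a0) o'| := by
  unfold LC
  have h1 : (0 : ℝ) < (q : ℝ) - 1 := by
    have : (1 : ℝ) < q := by exact_mod_cast hq.one_lt
    linarith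
  rw [norm_mul]
  have h2 : ‖(1 / ((q : ℂ) - 1))‖ = 1 / ((q : ℝ) - 1) := by
    have h3 : (1 / ((q : ℂ) - 1)) = ((1 / ((q : ℝ) - 1) : ℝ) : ℂ) := by push_cast; rfl
    rw [h3, Complex.norm_real, Real.norm_of_nonneg (by positivity)]
  rw [h2]
  refine mul_le_mul_of_nonneg_left ?_ (by positivity)
  refine (norm_sum_le _ _).trans (sum_le_sum fun r _ => ?_)
  rw [norm_mul, Complex.norm_real, Real.norm_eq_abs]
  exact mul_le_of_le_one_right (abs_nonneg _) (DirichletCharacter.norm_le_one _ _)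

theorem GE_none_none {q : ℕ} (hq : q.Prime) (a : κ → ℤ) (a0 : ℤ) : GE q a a0 none none = 1 := by
  have h1 : (0 : ℝ) < (q : ℝ) - 1 := by
    have : (1 : ℝ) < q := by exact_mod_cast hq.one_lt
    linarith
  unfold GE
  simp only [eo, mul_one]
  rw [sum_const, nsmul_eq_mul, card_R hq, mul_one, one_div_mul_cancel h1.ne']

theorem GE_symm (q : ℕ) (a : κ → ℤ) (a0 : ℤ) (o o' : Option κ) :
    GE q a a0 o o' = GE q a a0 o' o := by
  unfold GE
  simp only [mul_comm (eo q a _ o) (eo q a _ o')]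

theorem GE_none_some {q : ℕ} (hq : q.Prime) (h3 : 3 ≤ q) (a : κ → ℤ) (a0 : ℤ)
    (h0 : ∀ j, ¬ (q : ℤ) ∣ a j - a0) (j : κ) :
    |GE q a a0 none (some j)| ≤ 1 / ((q : ℝ) - 1) ^ 2 := by
  obtain ⟨c, hc, -, h⟩ := eo_cls hq a a0 j (h0 j)
  have hu := u_two h3
  have h1 : GE q a a0 none (some j) = -(1 / ((q : ℝ) - 1) ^ 2) := by
    unfold GE
    have h2 : ∑ r ∈ (range q).filter (fun r => r ≠ 0),
        (eo q a ((r : ℤ) + a0) none * eo q a ((r : ℤ) + a0) (some j)) =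
        ∑ r ∈ (range q).filter (fun r => r ≠ 0),
          (1 / ((q : ℝ) - 1) + (if r = c then -1 - 1 / ((q : ℝ) - 1) else 0) +
            (if r = c then 0 else 0)) := by
      refine sum_congr rfl fun r hr => ?_
      rw [h r hr]
      show 1 * _ = _
      split_ifs <;> ring
    rw [h2, sum_R hq _ _ _ hc hc]
    generalize (q : ℝ) - 1 = u at hu
    have : u ≠ 0 := by positivity
    field_simp
    ring
  rw [h1, abs_neg, abs_of_nonneg (by positivity)]

omit [DecidableEq κ] in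
private theorem sum_same {q : ℕ} (hq : q.Prime) (h3 : 3 ≤ q) (a : κ → ℤ) (a0 : ℤ)
    (h0 : ∀ j, ¬ (q : ℤ) ∣ a j - a0) (j : κ) :
    ∑ r ∈ (range q).filter (fun r => r ≠ 0),
      (eo q a ((r : ℤ) + a0) (some j) * eo q a ((r : ℤ) + a0) (some j)) =
      1 + 1 / ((q : ℝ) - 1) - 1 / ((q : ℝ) - 1) ^ 2 := by
  obtain ⟨c, hc, -, h⟩ := eo_cls hq a a0 j (h0 j)
  have hu := u_two h3
  have h2 : ∑ r ∈ (range q).filter (fun r => r ≠ 0),
      (eo q a ((r : ℤ) + a0) (some j) * eo q a ((r : ℤ) + a0) (some j)) =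
      ∑ r ∈ (range q).filter (fun r => r ≠ 0),
        (1 / ((q : ℝ) - 1) ^ 2 + (if r = c then 1 - 1 / ((q : ℝ) - 1) ^ 2 else 0) +
          (if r = c then 0 else 0)) := by
    refine sum_congr rfl fun r hr => ?_
    rw [h r hr]
    generalize (q : ℝ) - 1 = u
    split_ifs <;> ring
  rw [h2, sum_R hq _ _ _ hc hc]
  generalize (q : ℝ) - 1 = u at hu
  have : u ≠ 0 := by positivity
  field_simp
  ring

theorem GE_same {q : ℕ} (hq : q.Prime) (h3 : 3 ≤ q) (a : κ → ℤ) (a0 : ℤ)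
    (h0 : ∀ j, ¬ (q : ℤ) ∣ a j - a0) (j : κ) :
    1 / ((q : ℝ) - 1) ≤ GE q a a0 (some j) (some j) ∧
    GE q a a0 (some j) (some j) ≤ 1 / ((q : ℝ) - 1) * (1 + 1 / ((q : ℝ) - 1)) := by
  have hu := u_two h3
  unfold GE
  rw [sum_same hq h3 a a0 h0 j]
  generalize (q : ℝ) - 1 = u at hu
  have h1 : 0 < 1 / u := by positivity
  have h2 : 1 / u ^ 2 ≤ 1 / u := by
    apply one_div_le_one_div_of_le (by positivity)
    nlinarith
  have h4 : 0 < 1 / u ^ 2 := by positivity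
  constructor
  · nlinarith
  · nlinarith

omit [DecidableEq κ] in
private theorem two_cls {q : ℕ} (hq : q.Prime) (a : κ → ℤ) (a0 : ℤ)
    (h0 : ∀ j, ¬ (q : ℤ) ∣ a j - a0) (hd : ∀ i j, i ≠ j → ¬ (q : ℤ) ∣ a i - a j) {i j : κ}
    (hij : i ≠ j) :
    ∃ c c' : ℕ, c ∈ (range q).filter (fun r => r ≠ 0) ∧
      c' ∈ (range q).filter (fun r => r ≠ 0) ∧ c ≠ c' ∧
      ∀ r ∈ (range q).filter (fun r => r ≠ 0),
        eo q a ((r : ℤ) + a0) (some i) = (if r = c then -1 else 1 / ((q : ℝ) - 1)) ∧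
        eo q a ((r : ℤ) + a0) (some j) = (if r = c' then -1 else 1 / ((q : ℝ) - 1)) := by
  obtain ⟨c, hc, hc1, h⟩ := eo_cls hq a a0 i (h0 i)
  obtain ⟨c', hc', hc1', h'⟩ := eo_cls hq a a0 j (h0 j)
  refine ⟨c, c', hc, hc', ?_, fun r hr => ⟨h r hr, h' r hr⟩⟩
  rintro rfl
  refine hd i j hij ?_
  have h2 := dvd_sub hc1' hc1
  have h4 : (c : ℤ) - (a j - a0) - ((c : ℤ) - (a i - a0)) = a i - a j := by ring
  rwa [h4] at h2

theorem GE_diff {q : ℕ} (hq : q.Prime) (h3 : 3 ≤ q) (a : κ → ℤ) (a0 : ℤ)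
    (h0 : ∀ j, ¬ (q : ℤ) ∣ a j - a0) (hd : ∀ i j, i ≠ j → ¬ (q : ℤ) ∣ a i - a j) {i j : κ}
    (hij : i ≠ j) :
    |GE q a a0 (some i) (some j)| ≤ 4 / ((q : ℝ) - 1) ^ 2 := by
  obtain ⟨c, c', hc, hc', hcc, h⟩ := two_cls hq a a0 h0 hd hij
  have hu := u_two h3
  unfold GE
  have h2 : ∑ r ∈ (range q).filter (fun r => r ≠ 0),
      (eo q a ((r : ℤ) + a0) (some i) * eo q a ((r : ℤ) + a0) (some j)) =
      ∑ r ∈ (range q).filter (fun r => r ≠ 0),
        (1 / ((q : ℝ) - 1) ^ 2 +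
          (if r = c then -(1 / ((q : ℝ) - 1)) - 1 / ((q : ℝ) - 1) ^ 2 else 0) +
          (if r = c' then -(1 / ((q : ℝ) - 1)) - 1 / ((q : ℝ) - 1) ^ 2 else 0)) := by
    refine sum_congr rfl fun r hr => ?_
    rw [(h r hr).1, (h r hr).2]
    generalize (q : ℝ) - 1 = u
    by_cases h4 : r = c
    · have h5 : r ≠ c' := fun h6 => hcc (h4.symm.trans h6)
      rw [if_pos h4, if_neg h5, if_pos h4, if_neg h5]
      ring
    · by_cases h5 : r = c'
      · rw [if_neg h4, if_pos h5, if_neg h4, if_pos h5]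
        ring
      · rw [if_neg h4, if_neg h5, if_neg h4, if_neg h5]
        ring
  rw [h2, sum_R hq _ _ _ hc hc']
  generalize (q : ℝ) - 1 = u at hu
  have hu0 : u ≠ 0 := by positivity
  have h6 : 1 / u * (u * (1 / u ^ 2) + (-(1 / u) - 1 / u ^ 2) + (-(1 / u) - 1 / u ^ 2)) =
      -((1 + 2 / u) / u ^ 2) := by
    field_simp
    ring
  rw [h6, abs_neg, abs_of_nonneg (by positivity)]
  refine div_le_div_of_nonneg_right ?_ (by positivity)
  have : 2 / u ≤ 1 := by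
    rw [div_le_one (by linarith)]
    exact hu
  linarith

theorem LC_none_none {q : ℕ} (hq : q.Prime) (a : κ → ℤ) (a0 : ℤ)
    {χ : DirichletCharacter ℂ q} (hχ : χ ≠ 1) : LC q a a0 none none χ = 0 := by
  have hne : NeZero q := ⟨hq.ne_zero⟩
  unfold LC
  have h1 : ∑ r ∈ (range q).filter (fun r => r ≠ 0),
      (((eo q a ((r : ℤ) + a0) none * eo q a ((r : ℤ) + a0) none : ℝ) : ℂ) *
        χ⁻¹ (r : ZMod q)) = 0 := by
    have h2 : ∑ x : ZMod q, χ⁻¹ x = 0 := MulChar.sum_eq_zero_of_ne_one (inv_ne_one.2 hχ)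
    have h3 : ∑ r ∈ range q, χ⁻¹ (r : ZMod q) = ∑ x : ZMod q, χ⁻¹ x := by
      refine Finset.sum_bij (fun r _ => (r : ZMod q)) (fun _ _ => mem_univ _) ?_ ?_
        (fun _ _ => rfl)
      · intro r hr s hs hrs
        have h4 := (ZMod.natCast_eq_natCast_iff' r s q).1 hrs
        rwa [Nat.mod_eq_of_lt (mem_range.1 hr), Nat.mod_eq_of_lt (mem_range.1 hs)] at h4
      · intro x _
        exact ⟨x.val, mem_range.2 (ZMod.val_lt x), ZMod.natCast_zmod_val x⟩
    have h4 : ∑ r ∈ (range q).filter (fun r => r ≠ 0), χ⁻¹ (r : ZMod q) = 0 := by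
      rw [← h2, ← h3]
      refine Finset.sum_subset (filter_subset _ _) fun r _ hr2 => ?_
      have h5 : r = 0 := by
        by_contra h6
        exact hr2 (mem_filter.2 ⟨by assumption, h6⟩)
      rw [h5, Nat.cast_zero]
      have : Nontrivial (ZMod q) := by
        have : Fact (1 < q) := ⟨hq.one_lt⟩
        infer_instance
      exact MulChar.map_zero _
    rw [← h4]
    refine sum_congr rfl fun r _ => ?_
    simp [eo]
  rw [h1, mul_zero]

omit [DecidableEq κ] in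
private theorem LC_ns {q : ℕ} (hq : q.Prime) (h3 : 3 ≤ q) (a : κ → ℤ) (a0 : ℤ)
    (h0 : ∀ j, ¬ (q : ℤ) ∣ a j - a0) (j : κ) (χ : DirichletCharacter ℂ q) :
    ‖LC q a a0 none (some j) χ‖ ≤ 2 / ((q : ℝ) - 1) := by
  obtain ⟨c, hc, -, h⟩ := eo_cls hq a a0 j (h0 j)
  have hu := u_two h3
  refine (LC_le hq a a0 _ _ χ).trans ?_
  have h2 : ∑ r ∈ (range q).filter (fun r => r ≠ 0),
      |eo q a ((r : ℤ) + a0) none * eo q a ((r : ℤ) + a0) (some j)| =
      ∑ r ∈ (range q).filter (fun r => r ≠ 0),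
        (1 / ((q : ℝ) - 1) + (if r = c then 1 - 1 / ((q : ℝ) - 1) else 0) +
          (if r = c then 0 else 0)) := by
    refine sum_congr rfl fun r hr => ?_
    rw [h r hr]
    show |1 * _| = _
    rw [one_mul]
    split_ifs
    · rw [abs_neg, abs_one]
      ring
    · rw [abs_of_nonneg (by positivity)]
      ring
  rw [h2, sum_R hq _ _ _ hc hc]
  generalize (q : ℝ) - 1 = u at hu
  have hu0 : u ≠ 0 := by positivity
  have h6 : 1 / u * (u * (1 / u) + (1 - 1 / u) + 0) = (2 - 1 / u) / u := by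
    field_simp
    ring
  rw [h6]
  refine div_le_div_of_nonneg_right ?_ (by positivity)
  have : 0 < 1 / u := by positivity
  linarith

theorem LC_none_some {q : ℕ} (hq : q.Prime) (h3 : 3 ≤ q) (a : κ → ℤ) (a0 : ℤ)
    (h0 : ∀ j, ¬ (q : ℤ) ∣ a j - a0) (j : κ) (χ : DirichletCharacter ℂ q) :
    ‖LC q a a0 none (some j) χ‖ ≤ 2 / ((q : ℝ) - 1) ∧
    ‖LC q a a0 (some j) none χ‖ ≤ 2 / ((q : ℝ) - 1) := by
  refine ⟨LC_ns hq h3 a a0 h0 j χ, ?_⟩
  have h1 : LC q a a0 (some j) none χ = LC q a a0 none (some j) χ := by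
    unfold LC
    simp only [mul_comm (eo q a _ (some j)) (eo q a _ none)]
  rw [h1]
  exact LC_ns hq h3 a a0 h0 j χ

theorem LC_same {q : ℕ} (hq : q.Prime) (h3 : 3 ≤ q) (a : κ → ℤ) (a0 : ℤ)
    (h0 : ∀ j, ¬ (q : ℤ) ∣ a j - a0) (j : κ) (χ : DirichletCharacter ℂ q) :
    ‖LC q a a0 (some j) (some j) χ‖ ≤ 2 / ((q : ℝ) - 1) := by
  have hu := u_two h3
  refine (LC_le hq a a0 _ _ χ).trans ?_
  simp only [abs_mul_self]
  rw [sum_same hq h3 a a0 h0 j]
  generalize (q : ℝ) - 1 = u at hu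
  have h6 : 1 / u * (1 + 1 / u - 1 / u ^ 2) = (1 + 1 / u - 1 / u ^ 2) / u := by ring
  rw [h6]
  refine div_le_div_of_nonneg_right ?_ (by positivity)
  have h7 : 0 < 1 / u ^ 2 := by positivity
  have h8 : 1 / u ≤ 1 := by
    rw [div_le_one (by linarith)]
    linarith
  linarith

theorem LC_diff {q : ℕ} (hq : q.Prime) (h3 : 3 ≤ q) (a : κ → ℤ) (a0 : ℤ)
    (h0 : ∀ j, ¬ (q : ℤ) ∣ a j - a0) (hd : ∀ i j, i ≠ j → ¬ (q : ℤ) ∣ a i - a j) {i j : κ}
    (hij : i ≠ j) (χ : DirichletCharacter ℂ q) :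
    ‖LC q a a0 (some i) (some j) χ‖ ≤ 4 / ((q : ℝ) - 1) ^ 2 := by
  obtain ⟨c, c', hc, hc', hcc, h⟩ := two_cls hq a a0 h0 hd hij
  have hu := u_two h3
  refine (LC_le hq a a0 _ _ χ).trans ?_
  have h2 : ∑ r ∈ (range q).filter (fun r => r ≠ 0),
      |eo q a ((r : ℤ) + a0) (some i) * eo q a ((r : ℤ) + a0) (some j)| =
      ∑ r ∈ (range q).filter (fun r => r ≠ 0),
        (1 / ((q : ℝ) - 1) ^ 2 +
          (if r = c then 1 / ((q : ℝ) - 1) - 1 / ((q : ℝ) - 1) ^ 2 else 0) +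
          (if r = c' then 1 / ((q : ℝ) - 1) - 1 / ((q : ℝ) - 1) ^ 2 else 0)) := by
    refine sum_congr rfl fun r hr => ?_
    rw [(h r hr).1, (h r hr).2]
    have hpos : |1 / ((q : ℝ) - 1)| = 1 / ((q : ℝ) - 1) := abs_of_nonneg (by positivity)
    generalize (q : ℝ) - 1 = u at hpos
    by_cases h4 : r = c
    · have h5 : r ≠ c' := fun h6 => hcc (h4.symm.trans h6)
      rw [if_pos h4, if_neg h5, if_pos h4, if_neg h5, abs_mul, abs_neg, abs_one, hpos]
      ring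
    · by_cases h5 : r = c'
      · rw [if_neg h4, if_pos h5, if_neg h4, if_pos h5, abs_mul, abs_neg, abs_one, hpos]
        ring
      · rw [if_neg h4, if_neg h5, if_neg h4, if_neg h5, abs_mul, hpos]
        ring
  rw [h2, sum_R hq _ _ _ hc hc']
  generalize (q : ℝ) - 1 = u at hu
  have hu0 : u ≠ 0 := by positivity
  have h6 : 1 / u * (u * (1 / u ^ 2) + (1 / u - 1 / u ^ 2) + (1 / u - 1 / u ^ 2)) =
      (3 - 2 / u) / u ^ 2 := by
    field_simp
    ring
  rw [h6]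
  refine div_le_div_of_nonneg_right ?_ (by positivity)
  have : 0 < 2 / u := by positivity
  linarith

end Pool.Agent.AT
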