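import Mathlib

/-! AT/Mom.  The moment inequality.  PLAN: pointwise `N ≤ m` if `¬ E`, and
`N ≤ (θ/2) N^2 + 1/(2θ)` if `E` (AM-GM), `N^2 = N (N-1) + N`. -/

namespace Pool.Agent.AT

open Finset

open Classical in
theorem mom {Ω : Type*} (s : Finset Ω) (w : Ω → ℝ) (hw : ∀ x ∈ s, 0 ≤ w x) (N : Ω → ℕ)
    (E : Ω → Prop) (m : ℕ) {θ : ℝ} (hθ : 0 < θ) (hN : ∀ x ∈ s, ¬ E x → N x ≤ m) :
    ∑ x ∈ s, w x * N x ≤ m * ∑ x ∈ s, w x +
      θ / 2 * (∑ x ∈ s, w x * (N x * (N x - 1)) + ∑ x ∈ s, w x * N x) +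
      1 / (2 * θ) * ∑ x ∈ s.filter E, w x := by
  have h1 : ∀ x ∈ s, w x * N x ≤ m * w x + θ / 2 * (w x * (N x * (N x - 1)) + w x * N x) +
      1 / (2 * θ) * (if E x then w x else 0) := by
    intro x hx
    have hwx := hw x hx
    have hNx : (0 : ℝ) ≤ N x := Nat.cast_nonneg _
    have h2 : w x * ((N x : ℝ) * (N x - 1)) + w x * N x = w x * (N x : ℝ) ^ 2 := by ring
    rw [h2]
    have h3 : 0 ≤ θ / 2 * (w x * (N x : ℝ) ^ 2) := by positivity
    by_cases hE : E x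
    · rw [if_pos hE]
      have h4 : (N x : ℝ) ≤ θ / 2 * (N x : ℝ) ^ 2 + 1 / (2 * θ) := by
        have h5 : 0 ≤ (θ * N x - 1) ^ 2 / (2 * θ) := by positivity
        have h6 : (θ * (N x : ℝ) - 1) ^ 2 / (2 * θ) =
            θ / 2 * (N x : ℝ) ^ 2 + 1 / (2 * θ) - N x := by
          field_simp
          ring
        linarith
      have h7 : 0 ≤ (m : ℝ) * w x := mul_nonneg (Nat.cast_nonneg _) hwx
      have h8 := mul_le_mul_of_nonneg_left h4 hwx
      calc w x * N x ≤ w x * (θ / 2 * (N x : ℝ) ^ 2 + 1 / (2 * θ)) := h8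
        _ = θ / 2 * (w x * (N x : ℝ) ^ 2) + 1 / (2 * θ) * w x := by ring
        _ ≤ _ := by linarith
    · rw [if_neg hE, mul_zero, add_zero]
      have h4 : (N x : ℝ) ≤ m := by exact_mod_cast hN x hx hE
      have h8 := mul_le_mul_of_nonneg_left h4 hwx
      linarith
  calc ∑ x ∈ s, w x * N x ≤ ∑ x ∈ s, (m * w x + θ / 2 * (w x * (N x * (N x - 1)) + w x * N x) +
      1 / (2 * θ) * (if E x then w x else 0)) := sum_le_sum h1
    _ = _ := by
      rw [sum_filter, sum_add_distrib, sum_add_distrib, ← mul_sum, ← mul_sum, ← mul_sum,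
        sum_add_distrib]

end Pool.Agent.AT
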