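import Pool.Agent.AT.En
import Pool.Agent.AT.ParA
import Pool.Agent.AT.Mom

/-! AT/One.  THE ONE CLASS THEOREM (for project REC): one residue class `b` modulo `M`; `R` = the killed
shifts, `J i` = the attracted shifts of the cluster `i`, at most `ε L/l` of them, `l = Nat.log 2 L`.
If the total number of primes in the classes `b + j`, `j ∈ ⋃ J i`, is at least `c2 K ε L (P/M)`, then some
`n ≡ b` modulo `M` has no prime `n + j` with `j ∈ R`, at most one prime in each cluster and at least `m + 1`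
primes `n + j`, `j ∈ ⋃ J i`.
PLAN (compare As0, As1, As2, PX, where the same is done on average over `b`).
Constants: `C ≥ 1` the constant of `SE2`, `c2' = c2/5`, `μ = 56 (m+1)/c2'`, `θ = min 1 (c2'/(4 C μ))`, `K` a
natural number with `K ≥ μ` and `K ≥ 8 C μ/(c2' θ)`, `ε = μ/K`.
`s = Nw P H M b`, `w n = gx L R n ^ 2/Zx L R`, `N n` = the number of `j ∈ ⋃ J i` with `n + j` prime, `E n` = two
distinct primes in one cluster or a prime in `n + R`.
`T0 = ∑ w ≤ 7 P/M` (`SE0`).  `T1 = ∑ w N ≥ (1/(2 log P)) ∑_j (4/5 psi - (P/M)/L) ≥ c2' μ (P/M)` (`SE1`; number of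
`j` at most `K ε L/l = μ L/l`, `log P ≤ (L+1) log 2`, so `(4/5)/(2 * 0.7) > 1/2`; the second term is
negligible).  `T2 = ∑ w N (N-1) ≤ (μ L/l)^2 C (P/M)(l/L)^2 = C μ^2 (P/M)` (`SE2`).
`T3 = ∑_E w ≤ K (ε L/l)^2 C (P/M) (l/L)^2 + (P/M)/L = (C μ^2/K + 1/L)(P/M)` (`SE2`, `SE3`).
If no `n` works then `¬ E n → N n ≤ m`, and `mom` gives
`c2' μ/2 ≤ 7 m + θ C μ^2/2 + C μ^2/(2 θ K) + 1/(2 θ L)`, false for `P` large. -/

namespace Pool.Agent.AT

open Finset

/-- the combination of the moments -/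
private theorem one_real {c2 C μ θ K L P m T0 T1 T2 T3 : ℝ} (hc2 : 0 < c2) (hμ : 0 < μ) (hθ : 0 < θ)
    (hC : 0 < C) (hK : 0 < K) (hL : 0 < L) (hP : 0 < P) (hm : 0 ≤ m)
    (hθ1 : θ ≤ 1) (hμm : c2 * μ = 56 * (m + 1)) (hθ2 : θ * (4 * C * μ) ≤ c2)
    (hKb : 8 * C * μ ≤ K * (c2 * θ)) (hLb : 8 ≤ L * (θ * (c2 * μ)))
    (hT1 : c2 * μ * P ≤ T1) (hT0 : T0 ≤ 7 * P) (hT2 : T2 ≤ C * μ ^ 2 * P)
    (hT3 : T3 ≤ C * (μ ^ 2 / K) * P + P / L)
    (hmom : T1 ≤ m * T0 + θ / 2 * (T2 + T1) + 1 / (2 * θ) * T3) : False := by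
  have hx : 0 < c2 * μ := mul_pos hc2 hμ
  have hxP : 0 < c2 * μ * P := mul_pos hx hP
  have h1 : m * T0 ≤ (c2 * μ * P) / 8 - 7 * P := by
    have h2 : m * T0 ≤ m * (7 * P) := mul_le_mul_of_nonneg_left hT0 hm
    have h3 : c2 * μ * P = 56 * (m + 1) * P := by rw [hμm]
    rw [h3]
    linarith
  have h2 : θ / 2 * T2 ≤ (c2 * μ * P) / 8 := by
    have h3 : θ / 2 * T2 ≤ θ / 2 * (C * μ ^ 2 * P) :=
      mul_le_mul_of_nonneg_left hT2 (by positivity)
    have h4 : θ / 2 * (C * μ ^ 2 * P) = (θ * (4 * C * μ)) * (μ * P) / 8 := by ring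
    have h5 : (θ * (4 * C * μ)) * (μ * P) ≤ c2 * (μ * P) :=
      mul_le_mul_of_nonneg_right hθ2 (by positivity)
    rw [h4] at h3
    linarith
  have h3 : θ / 2 * T1 ≤ T1 / 2 := by
    have h4 : 0 ≤ T1 := hxP.le.trans hT1
    have : θ * T1 ≤ 1 * T1 := mul_le_mul_of_nonneg_right hθ1 h4
    linarith
  have h4 : 1 / (2 * θ) * T3 ≤ (c2 * μ * P) / 16 + (c2 * μ * P) / 16 := by
    have h5 : 1 / (2 * θ) * T3 ≤ 1 / (2 * θ) * (C * (μ ^ 2 / K) * P + P / L) :=
      mul_le_mul_of_nonneg_left hT3 (by positivity)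
    have h6 : 1 / (2 * θ) * (C * (μ ^ 2 / K) * P) ≤ (c2 * μ * P) / 16 := by
      rw [show 1 / (2 * θ) * (C * (μ ^ 2 / K) * P) = (8 * C * μ) * (μ * P) / (16 * (θ * K)) by
        field_simp; ring, div_le_div_iff₀ (by positivity) (by norm_num)]
      have h7 : (8 * C * μ) * (μ * P) ≤ (K * (c2 * θ)) * (μ * P) :=
        mul_le_mul_of_nonneg_right hKb (by positivity)
      have e : c2 * μ * P * (16 * (θ * K)) = 16 * ((K * (c2 * θ)) * (μ * P)) := by ring
      rw [e]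
      linarith
    have h7 : 1 / (2 * θ) * (P / L) ≤ (c2 * μ * P) / 16 := by
      rw [show 1 / (2 * θ) * (P / L) = P / (2 * θ * L) by field_simp,
        div_le_div_iff₀ (by positivity) (by norm_num)]
      have h8 : 8 * P ≤ (L * (θ * (c2 * μ))) * P := mul_le_mul_of_nonneg_right hLb hP.le
      have e : c2 * μ * P * (2 * θ * L) = 2 * ((L * (θ * (c2 * μ))) * P) := by ring
      rw [e]
      linarith
    rw [mul_add] at h5
    linarith
  have h5 : θ / 2 * (T2 + T1) = θ / 2 * T2 + θ / 2 * T1 := by ring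
  rw [h5] at hmom
  linarith

/-- normalised weight -/
private noncomputable def w1 (L : ℕ) (R : Finset ℕ) (n : ℕ) : ℝ := gx L R (n : ℤ) ^ 2 / Zx L R

private theorem w1_nonneg (L : ℕ) (R : Finset ℕ) (n : ℕ) : 0 ≤ w1 L R n := by
  unfold w1
  exact div_nonneg (sq_nonneg _) (zero_le_one.trans (Zx_one_le _ _))

private theorem Zx_pos (L : ℕ) (R : Finset ℕ) : 0 < Zx L R := zero_lt_one.trans_le (Zx_one_le _ _)

/-- the bound of `SE2` for given data -/
private def Q2 (C2 : ℝ) (P : ℕ) : Prop :=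
  ∀ (L M H : ℕ) (R : Finset ℕ),
  Adm P L M H R → ∀ b j j' : ℕ, j < H → j' < H → j ≠ j' → j ∉ R → j' ∉ R →
  ∑ n ∈ (Nw P H M b).filter (fun n => (n + j).Prime ∧ (n + j').Prime), gx L R (n : ℤ) ^ 2 ≤
    C2 * ((P : ℝ) / M) * ((Nat.log 2 L : ℝ) / L) ^ 2 * Zx L R

/-- sum over the pairs of a set `S` of shifts -/
private theorem one_pair_sum {C2 : ℝ} {P L M H : ℕ} {R : Finset ℕ} (hC2 : 0 ≤ C2)
    (hse : Q2 C2 P) {b : ℕ} (hadm : Adm P L M H R) {S : Finset ℕ}
    (hS : ∀ j ∈ S, j < H ∧ j ∉ R) {X : ℝ} (hX : (S.card : ℝ) ≤ X) :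
    ∑ q ∈ S.offDiag, ∑ n ∈ (Nw P H M b).filter
        (fun n => (n + q.1).Prime ∧ (n + q.2).Prime), w1 L R n ≤
      X ^ 2 * (C2 * ((P : ℝ) / M) * ((Nat.log 2 L : ℝ) / L) ^ 2) := by
  have hB : 0 ≤ C2 * ((P : ℝ) / M) * ((Nat.log 2 L : ℝ) / L) ^ 2 := by positivity
  have h1 : ∀ q ∈ S.offDiag, ∑ n ∈ (Nw P H M b).filter
      (fun n => (n + q.1).Prime ∧ (n + q.2).Prime), w1 L R n ≤
      C2 * ((P : ℝ) / M) * ((Nat.log 2 L : ℝ) / L) ^ 2 := by
    intro q hq
    rw [mem_offDiag] at hq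
    have h1 := hse L M H R hadm b q.1 q.2 (hS _ hq.1).1 (hS _ hq.2.1).1 hq.2.2
      (hS _ hq.1).2 (hS _ hq.2.1).2
    unfold w1
    rw [← sum_div, div_le_iff₀ (Zx_pos L R)]
    exact h1
  refine (sum_le_sum h1).trans ?_
  rw [sum_const, nsmul_eq_mul]
  refine mul_le_mul_of_nonneg_right ?_ hB
  have h2 : S.offDiag.card ≤ S.card * S.card := by
    rw [offDiag_card]
    exact Nat.sub_le _ _
  have h3 : (S.offDiag.card : ℝ) ≤ (S.card : ℝ) * S.card := by exact_mod_cast h2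
  have h0 : (0 : ℝ) ≤ S.card := Nat.cast_nonneg _
  calc (S.offDiag.card : ℝ) ≤ (S.card : ℝ) * S.card := h3
    _ ≤ X * X := mul_le_mul hX hX h0 (h0.trans hX)
    _ = X ^ 2 := (sq X).symm

/-- the final numerical step -/
private theorem one_num {C2 ε k t : ℝ} (hC2 : 0 ≤ C2) (ht : 0 ≤ t) (L : ℕ) :
    (k * (ε * L / (Nat.log 2 L : ℝ))) ^ 2 * (C2 * t * ((Nat.log 2 L : ℝ) / L) ^ 2) ≤
      C2 * (k * ε) ^ 2 * t := by
  have hR : 0 ≤ C2 * (k * ε) ^ 2 * t := by positivity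
  by_cases hl : (Nat.log 2 L : ℝ) = 0
  · rw [hl]
    simpa using hR
  · by_cases hL : (L : ℝ) = 0
    · rw [hL]
      simpa using hR
    · refine le_of_eq ?_
      field_simp

private theorem one_count (S : Finset ℕ) (n : ℕ) :
    ((S.filter (fun j => (n + j).Prime)).card : ℝ) *
      (((S.filter (fun j => (n + j).Prime)).card : ℝ) - 1) =
      ∑ q ∈ S.offDiag, if (n + q.1).Prime ∧ (n + q.2).Prime then (1 : ℝ) else 0 := by
  have h1 : (S.filter (fun j => (n + j).Prime)).offDiag =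
      S.offDiag.filter (fun q => (n + q.1).Prime ∧ (n + q.2).Prime) := by
    ext q
    simp only [mem_offDiag, mem_filter]
    tauto
  rw [← sum_filter, ← h1, sum_const, nsmul_eq_mul, mul_one, offDiag_card,
    Nat.cast_sub (Nat.le_mul_self _), Nat.cast_mul]
  ring

/-- the second moment -/
private theorem one_T2 {C2 ε : ℝ} {K P L M H : ℕ} {R U : Finset ℕ} (hC2 : 0 ≤ C2)
    (hse : Q2 C2 P) (hadm : Adm P L M H R) (b : ℕ) (hU : ∀ j ∈ U, j < H ∧ j ∉ R)
    (hX : (U.card : ℝ) ≤ K * (ε * L / (Nat.log 2 L : ℝ))) :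
    ∑ n ∈ Nw P H M b, w1 L R n * (((U.filter (fun j => (n + j).Prime)).card : ℝ) *
      (((U.filter (fun j => (n + j).Prime)).card : ℝ) - 1)) ≤
      C2 * (K * ε) ^ 2 * ((P : ℝ) / M) := by
  have h1 := one_pair_sum (b := b) hC2 hse hadm hU hX
  refine le_trans (le_of_eq ?_) (h1.trans (one_num hC2 (by positivity) L))
  have h3 : ∀ n ∈ Nw P H M b, w1 L R n * (((U.filter (fun j => (n + j).Prime)).card : ℝ) *
      (((U.filter (fun j => (n + j).Prime)).card : ℝ) - 1)) =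
      ∑ q ∈ U.offDiag, if (n + q.1).Prime ∧ (n + q.2).Prime then w1 L R n else 0 := by
    intro n _
    rw [one_count, mul_sum]
    refine sum_congr rfl fun q _ => ?_
    rw [mul_ite, mul_one, mul_zero]
  rw [sum_congr rfl h3, sum_comm]
  refine sum_congr rfl fun q _ => ?_
  rw [sum_filter]

/-- the bad event: two primes in one cluster, or a killed element is prime -/
private def Bd1 {K : ℕ} (J : Fin K → Finset ℕ) (R : Finset ℕ) (n : ℕ) : Prop :=
  (∃ i, ∃ j ∈ J i, ∃ j' ∈ J i, j ≠ j' ∧ (n + j).Prime ∧ (n + j').Prime) ∨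
  ∃ j ∈ R, (n + j).Prime

open Classical in
/-- the bad event is rare -/
private theorem one_T3 {C2 ε : ℝ} {K P L M H : ℕ} {R : Finset ℕ} (hC2 : 0 ≤ C2)
    (hse : Q2 C2 P) (hadm : Adm P L M H R) (b : ℕ) {J : Fin K → Finset ℕ}
    (hJ : ∀ i, ∀ j ∈ J i, j < H ∧ j ∉ R)
    (hX : ∀ i, ((J i).card : ℝ) ≤ ε * L / (Nat.log 2 L : ℝ))
    (h3 : ∑ n ∈ (Nw P H M b).filter (fun n => ∃ j ∈ R, (n + j).Prime), gx L R (n : ℤ) ^ 2 ≤
      ((P : ℝ) / M) / L * Zx L R) :
    ∑ n ∈ (Nw P H M b).filter (fun n => Bd1 J R n), w1 L R n ≤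
      C2 * (K * ε ^ 2) * ((P : ℝ) / M) + ((P : ℝ) / M) / L := by
  set w := w1 L R with hw
  have hw0 : ∀ n, 0 ≤ w n := fun n => w1_nonneg _ _ _
  have hA : ∀ i, ∑ q ∈ (J i).offDiag, ∑ n ∈ (Nw P H M b).filter
      (fun n => (n + q.1).Prime ∧ (n + q.2).Prime), w n ≤
      C2 * (1 * ε) ^ 2 * ((P : ℝ) / M) := by
    intro i
    have hX1 : ((J i).card : ℝ) ≤ 1 * (ε * L / (Nat.log 2 L : ℝ)) := by
      rw [one_mul]
      exact hX i
    exact (one_pair_sum hC2 hse hadm (hJ i) hX1).trans (one_num hC2 (by positivity) L)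
  have hB : ∑ n ∈ (Nw P H M b).filter (fun n => ∃ j ∈ R, (n + j).Prime),
      w n ≤ ((P : ℝ) / M) / L := by
    rw [hw]
    unfold w1
    rw [← sum_div, div_le_iff₀ (Zx_pos L R)]
    exact h3
  -- pointwise
  have hpt : ∀ n ∈ Nw P H M b, (if Bd1 J R n then w n else 0) ≤
      (∑ i, ∑ q ∈ (J i).offDiag, if (n + q.1).Prime ∧ (n + q.2).Prime then w n else 0) +
        if ∃ j ∈ R, (n + j).Prime then w n else 0 := by
    intro n _
    have hs1 : 0 ≤ ∑ i, ∑ q ∈ (J i).offDiag,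
        if (n + q.1).Prime ∧ (n + q.2).Prime then w n else 0 :=
      sum_nonneg fun i _ => sum_nonneg fun q _ => by
        split_ifs
        · exact hw0 n
        · exact le_rfl
    have hs2 : 0 ≤ if ∃ j ∈ R, (n + j).Prime then w n else 0 := by
      split_ifs
      · exact hw0 n
      · exact le_rfl
    by_cases hBd : Bd1 J R n
    · rw [if_pos hBd]
      rcases hBd with ⟨i, j, hj, j', hj', hne, hp, hp'⟩ | hR
      · refine le_trans ?_ (le_add_of_nonneg_right hs2)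
        have h4 : (j, j') ∈ (J i).offDiag := by
          rw [mem_offDiag]
          exact ⟨hj, hj', hne⟩
        have h5 : w n ≤ ∑ q ∈ (J i).offDiag,
            if (n + q.1).Prime ∧ (n + q.2).Prime then w n else 0 := by
          have h6 := single_le_sum (s := (J i).offDiag)
            (f := fun q => if (n + q.1).Prime ∧ (n + q.2).Prime then w n else 0)
            (fun q _ => by
              split_ifs
              · exact hw0 n
              · exact le_rfl) h4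
          simp only at h6
          rwa [if_pos ⟨hp, hp'⟩] at h6
        refine h5.trans ?_
        exact single_le_sum (s := univ)
          (f := fun i => ∑ q ∈ (J i).offDiag,
            if (n + q.1).Prime ∧ (n + q.2).Prime then w n else 0)
          (fun i _ => sum_nonneg fun q _ => by
            split_ifs
            · exact hw0 n
            · exact le_rfl) (mem_univ i)
      · rw [if_pos hR]
        linarith
    · rw [if_neg hBd]
      linarith
  have h7 : ∑ n ∈ (Nw P H M b).filter (fun n => Bd1 J R n), w n ≤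
      (∑ i, ∑ q ∈ (J i).offDiag, ∑ n ∈ (Nw P H M b).filter
        (fun n => (n + q.1).Prime ∧ (n + q.2).Prime), w n) +
      ∑ n ∈ (Nw P H M b).filter (fun n => ∃ j ∈ R, (n + j).Prime), w n := by
    rw [sum_filter]
    refine (sum_le_sum hpt).trans (le_of_eq ?_)
    rw [sum_add_distrib, sum_comm]
    congr 1
    · refine sum_congr rfl fun i _ => ?_
      rw [sum_comm]
      refine sum_congr rfl fun q _ => ?_
      rw [sum_filter]
    · rw [sum_filter]
  refine h7.trans ?_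
  have h8 : ∑ i : Fin K, ∑ q ∈ (J i).offDiag, ∑ n ∈ (Nw P H M b).filter
      (fun n => (n + q.1).Prime ∧ (n + q.2).Prime), w n ≤
      K * (C2 * (1 * ε) ^ 2 * ((P : ℝ) / M)) := by
    refine (sum_le_sum fun i _ => hA i).trans (le_of_eq ?_)
    rw [sum_const, card_univ, Fintype.card_fin, nsmul_eq_mul]
  refine (add_le_add h8 hB).trans (le_of_eq ?_)
  ring

/-- the first moment -/
private theorem one_T1 {P L M H b : ℕ} {R U : Finset ℕ} {X : ℝ}
    (hse : ∀ j ∈ U, 4 / 5 * Zx L R * psi M (b + j) P - Zx L R * X ≤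
      2 * Real.log P * ∑ n ∈ (Nw P H M b).filter (fun n => (n + j).Prime),
        gx L R (n : ℤ) ^ 2) :
    4 / 5 * (∑ j ∈ U, psi M (b + j) P) - U.card * X ≤
      2 * Real.log P * ∑ n ∈ Nw P H M b, w1 L R n *
        ((U.filter (fun j => (n + j).Prime)).card : ℝ) := by
  classical
  have hZ : 0 < Zx L R := Zx_pos L R
  have hsum : ∑ n ∈ Nw P H M b, w1 L R n * ((U.filter (fun j => (n + j).Prime)).card : ℝ) =
      ∑ j ∈ U, (∑ n ∈ (Nw P H M b).filter (fun n => (n + j).Prime),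
        gx L R (n : ℤ) ^ 2) / Zx L R := by
    have h1 : ∀ n ∈ Nw P H M b, w1 L R n * ((U.filter (fun j => (n + j).Prime)).card : ℝ) =
        ∑ j ∈ U, if (n + j).Prime then gx L R (n : ℤ) ^ 2 / Zx L R else 0 := by
      intro n _
      unfold w1
      rw [card_filter, Nat.cast_sum, mul_sum]
      refine sum_congr rfl fun j _ => ?_
      split_ifs <;> simp
    rw [sum_congr rfl h1, sum_comm]
    refine sum_congr rfl fun j _ => ?_
    rw [← sum_filter, sum_div]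
  rw [hsum, mul_sum, mul_sum]
  have h2 : ∑ j ∈ U, 4 / 5 * psi M (b + j) P - U.card * X =
      ∑ j ∈ U, (4 / 5 * psi M (b + j) P - X) := by
    rw [sum_sub_distrib, sum_const, nsmul_eq_mul]
  rw [h2]
  refine sum_le_sum fun j hj => ?_
  have h3 := hse j hj
  rw [← mul_div_assoc, le_div_iff₀ hZ]
  calc (4 / 5 * psi M (b + j) P - X) * Zx L R =
        4 / 5 * Zx L R * psi M (b + j) P - Zx L R * X := by ring
    _ ≤ _ := h3

private theorem one_log {P L : ℕ} (hP : 1 ≤ P) (hL : L = Nat.log 2 P) :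
    Real.log P ≤ (L : ℝ) + 1 := by
  have h1 : P < 2 ^ (L + 1) := by
    rw [hL]
    exact Nat.lt_pow_succ_log_self (by norm_num) P
  have h2 : (P : ℝ) ≤ 2 ^ (L + 1) := by exact_mod_cast h1.le
  have hP' : (0 : ℝ) < P := by exact_mod_cast hP
  have h3 : Real.log P ≤ Real.log (2 ^ (L + 1)) := Real.log_le_log hP' h2
  rw [Real.log_pow] at h3
  have h4 : Real.log 2 ≤ 1 := by linarith [Real.log_two_lt_d9]
  have h5 : ((L + 1 : ℕ) : ℝ) * Real.log 2 ≤ ((L + 1 : ℕ) : ℝ) * 1 :=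
    mul_le_mul_of_nonneg_left h4 (Nat.cast_nonneg _)
  push_cast at h3 h5
  linarith

/-- arithmetic of the first moment -/
private theorem one_low {c2 μ X S T1 lP Lr lr Uc : ℝ} (hc2 : 0 < c2) (hμ : 0 < μ) (hX : 0 < X)
    (hL2 : 4 ≤ Lr) (hl : 1 ≤ lr) (hcL : 10 ≤ c2 * Lr) (hT1 : 0 ≤ T1) (hlP : lP ≤ Lr + 1)
    (hU : Uc ≤ μ * Lr / lr) (hS : c2 * μ * Lr * X ≤ S)
    (h : 4 / 5 * S - Uc * (X / Lr) ≤ 2 * lP * T1) : c2 / 5 * μ * X ≤ T1 := by
  have hLr : 0 < Lr := by linarith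
  have hlr : 0 < lr := by linarith
  have h1 : Uc * (X / Lr) ≤ μ * X := by
    have h2 : Uc * (X / Lr) ≤ μ * Lr / lr * (X / Lr) :=
      mul_le_mul_of_nonneg_right hU (by positivity)
    have h3 : μ * Lr / lr * (X / Lr) = μ * X / lr := by
      field_simp
    have h4 : μ * X / lr ≤ μ * X := div_le_self (by positivity) hl
    linarith
  have h2 : 2 * lP * T1 ≤ 2 * (Lr + 1) * T1 :=
    mul_le_mul_of_nonneg_right (by linarith) hT1
  have h3 : 2 * (Lr + 1) * (c2 / 5 * μ * X) ≤ 2 * (Lr + 1) * T1 := by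
    have h4 : 2 * (Lr + 1) * (c2 / 5 * μ * X) = 2 / 5 * (c2 * Lr + c2) * (μ * X) := by ring
    have h5 : c2 ≤ c2 * Lr / 4 := by nlinarith
    have h6 : 2 / 5 * (c2 * Lr + c2) * (μ * X) ≤ (4 / 5 * (c2 * Lr) - 1) * (μ * X) := by
      apply mul_le_mul_of_nonneg_right _ (by positivity)
      linarith
    have h7 : (4 / 5 * (c2 * Lr) - 1) * (μ * X) = 4 / 5 * (c2 * μ * Lr * X) - μ * X := by ring
    linarith
  have h4 : 0 < 2 * (Lr + 1) := by linarith
  exact le_of_mul_le_mul_left h3 h4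

theorem one_class (h0 : SE0) (h1 : SE1) (h2 : SE2) (h3 : SE3) (m : ℕ) {c2 : ℝ} (hc2 : 0 < c2) :
    ∃ K : ℕ, 0 < K ∧ ∃ ε : ℝ, 0 < ε ∧ ∃ P0 : ℕ, ∀ P : ℕ, P0 ≤ P → ∀ (L M H : ℕ) (R : Finset ℕ),
    Adm P L M H R → ∀ (b : ℕ) (J : Fin K → Finset ℕ), (∀ i, J i ⊆ range H) →
    (∀ i i', i ≠ i' → Disjoint (J i) (J i')) → (∀ i, Disjoint (J i) R) →
    (∀ i, ∀ j ∈ J i, Nat.Coprime (b + j) M) →
    (∀ i, ((J i).card : ℝ) ≤ ε * L / (Nat.log 2 L : ℝ)) →
    c2 * (K * ε) * L * ((P : ℝ) / M) ≤ ∑ i, ∑ j ∈ J i, psi M (b + j) P →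
    ∃ n : ℕ, P - H < n ∧ n ≤ 4 * P ∧ n ≡ b [MOD M] ∧ (∀ j ∈ R, ¬ (n + j).Prime) ∧
      (∀ i, ∀ j ∈ J i, ∀ j' ∈ J i, (n + j).Prime → (n + j').Prime → j = j') ∧
      m + 1 ≤ ((univ.biUnion J).filter (fun j => (n + j).Prime)).card := by
  obtain ⟨PA, hPA⟩ := h0
  obtain ⟨PB, hPB⟩ := h1
  obtain ⟨C, hC, PC, hPC⟩ := h2
  obtain ⟨PD, hPD⟩ := h3
  set c3 : ℝ := c2 / 5 with hc3def
  have hc3 : 0 < c3 := by positivity
  set μ : ℝ := 56 * ((m : ℝ) + 1) / c3 with hμdef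
  have hm0 : (0 : ℝ) ≤ m := Nat.cast_nonneg m
  have hμ : 0 < μ := by positivity
  have hμm : c3 * μ = 56 * ((m : ℝ) + 1) := by
    rw [hμdef]; field_simp
  set θ : ℝ := min 1 (c3 / (4 * C * μ)) with hθdef
  have hθ : 0 < θ := lt_min one_pos (by positivity)
  have hθ1 : θ ≤ 1 := min_le_left _ _
  have hθ2 : θ * (4 * C * μ) ≤ c3 := by
    have h4 : θ ≤ c3 / (4 * C * μ) := min_le_right _ _
    rwa [le_div_iff₀ (by positivity)] at h4
  obtain ⟨K, hK⟩ := exists_nat_ge (max μ (8 * C * μ / (c3 * θ)))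
  have hK1 : μ ≤ K := (le_max_left _ _).trans hK
  have hK2 : 8 * C * μ / (c3 * θ) ≤ K := (le_max_right _ _).trans hK
  have hK0 : (0 : ℝ) < K := lt_of_lt_of_le hμ hK1
  have hKb : 8 * C * μ ≤ K * (c3 * θ) := by
    rwa [div_le_iff₀ (by positivity)] at hK2
  set ε : ℝ := μ / K with hεdef
  have hε : 0 < ε := by positivity
  have hKε : (K : ℝ) * ε = μ := by
    rw [hεdef]; field_simp
  have hKε2 : (K : ℝ) * ε ^ 2 = μ ^ 2 / K := by
    rw [hεdef]; field_simp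
  obtain ⟨L1, hL1⟩ := exists_nat_ge (8 / (θ * (c3 * μ)))
  obtain ⟨L2, hL2⟩ := exists_nat_ge (10 / c2)
  refine ⟨K, by exact_mod_cast hK0, ε, hε, PA + PB + PC + PD + 2 ^ (L1 + L2 + 5), ?_⟩
  intro P hP L M H R hadm b J hJH hJd hJR hJc hJcard hlow
  have hpow : 0 < 2 ^ (L1 + L2 + 5) := by positivity
  have hP1 : 1 ≤ P := by omega
  have hLL : L1 + L2 + 5 ≤ L := by
    rw [hadm.hL]
    exact Nat.le_log_of_pow_le (by norm_num) (by omega)
  have hLpos : (0 : ℝ) < L := by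
    have : 0 < L := by omega
    exact_mod_cast this
  have hL4 : (4 : ℝ) ≤ L := by
    have : 4 ≤ L := by omega
    exact_mod_cast this
  have hl1 : (1 : ℝ) ≤ (Nat.log 2 L : ℝ) := by
    have : 1 ≤ Nat.log 2 L := Nat.le_log_of_pow_le (by norm_num) (by omega)
    exact_mod_cast this
  have hPpos : (0 : ℝ) < P := by exact_mod_cast hP1
  have hMpos : (0 : ℝ) < M := by exact_mod_cast hadm.hM0
  have hX : (0 : ℝ) < (P : ℝ) / M := by positivity
  by_contra hcon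
  classical
  set U : Finset ℕ := univ.biUnion J with hU
  have hUmem : ∀ j ∈ U, ∃ i, j ∈ J i := by
    intro j hj
    rw [hU, mem_biUnion] at hj
    obtain ⟨i, _, hi⟩ := hj
    exact ⟨i, hi⟩
  have hJ1 : ∀ i, ∀ j ∈ J i, j < H ∧ j ∉ R := by
    intro i j hj
    exact ⟨mem_range.1 (hJH i hj), fun h => Finset.disjoint_left.1 (hJR i) hj h⟩
  have hU1 : ∀ j ∈ U, j < H ∧ j ∉ R := by
    intro j hj
    obtain ⟨i, hi⟩ := hUmem j hj
    exact hJ1 i j hi
  have hUcard : (U.card : ℝ) ≤ K * (ε * L / (Nat.log 2 L : ℝ)) := by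
    have h4 : (U.card : ℝ) ≤ ∑ i : Fin K, ((J i).card : ℝ) := by
      exact_mod_cast card_biUnion_le
    refine h4.trans ((sum_le_sum fun i _ => hJcard i).trans (le_of_eq ?_))
    rw [sum_const, card_univ, Fintype.card_fin, nsmul_eq_mul]
  have hmom := mom (Nw P H M b) (fun n => w1 L R n) (fun n _ => w1_nonneg L R n)
    (fun n => (U.filter (fun j => (n + j).Prime)).card) (fun n => Bd1 J R n) m hθ (by
      intro n hn hB
      by_contra hN
      push Not at hN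
      apply hcon
      unfold Nw at hn
      rw [mem_filter, mem_Ioc] at hn
      refine ⟨n, hn.1.1, hn.1.2, hn.2, ?_, ?_, hN⟩
      · intro j hj hp
        exact hB (Or.inr ⟨j, hj, hp⟩)
      · intro i j hj j' hj' hp hp'
        by_contra hne
        exact hB (Or.inl ⟨i, j, hj, j', hj', hne, hp, hp'⟩))
  have hT0 : ∑ n ∈ Nw P H M b, w1 L R n ≤ 7 * ((P : ℝ) / M) := by
    have h4 := hPA P (by omega) L M H R hadm b
    unfold w1
    rw [← sum_div, div_le_iff₀ (Zx_pos L R)]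
    exact h4
  have hT2 := one_T2 (ε := ε) (K := K) hC.le (hPC P (by omega)) hadm b hU1 hUcard
  have hT3 := one_T3 (ε := ε) (K := K) hC.le (hPC P (by omega)) hadm b hJ1 hJcard
    (hPD P (by omega) L M H R hadm b)
  have hT1 := one_T1 (P := P) (L := L) (M := M) (H := H) (b := b) (R := R) (U := U)
    (X := ((P : ℝ) / M) / L) (by
      intro j hj
      obtain ⟨i, hi⟩ := hUmem j hj
      have h4 := hPB P (by omega) L M H R hadm b j (hU1 j hj).1 (hU1 j hj).2 (hJc i j hi)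
      rw [mul_div_assoc] at h4
      exact h4)
  have hsumU : ∑ j ∈ U, psi M (b + j) P = ∑ i, ∑ j ∈ J i, psi M (b + j) P := by
    rw [hU, sum_biUnion]
    intro i _ i' _ hne
    exact hJd i i' hne
  have hT1' : c3 * μ * ((P : ℝ) / M) ≤ ∑ n ∈ Nw P H M b, w1 L R n *
      ((U.filter (fun j => (n + j).Prime)).card : ℝ) := by
    refine one_low hc2 hμ hX hL4 hl1 ?_ ?_ (one_log hP1 hadm.hL) ?_ ?_ hT1
    · have h4 : (L2 : ℝ) ≤ L := by
        have : L2 ≤ L := by omega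
        exact_mod_cast this
      have h5 : 10 / c2 ≤ L := hL2.trans h4
      rw [div_le_iff₀ hc2] at h5
      linarith
    · exact sum_nonneg fun n _ => mul_nonneg (w1_nonneg L R n) (Nat.cast_nonneg _)
    · refine hUcard.trans (le_of_eq ?_)
      rw [← hKε]
      ring
    · rw [hsumU]
      rw [hKε] at hlow
      exact hlow
  have hLb : 8 ≤ L * (θ * (c3 * μ)) := by
    have h4 : (L1 : ℝ) ≤ L := by
      have : L1 ≤ L := by omega
      exact_mod_cast this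
    have h5 : 8 / (θ * (c3 * μ)) ≤ L := hL1.trans h4
    rwa [div_le_iff₀ (by positivity)] at h5
  rw [hKε] at hT2
  rw [hKε2] at hT3
  exact one_real hc3 hμ hθ hC hK0 hLpos hX hm0 hθ1 hμm hθ2 hKb hLb hT1' hT0 hT2 hT3 hmom

end Pool.Agent.AT
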