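import Pool.Agent.AT.As1
import Pool.Agent.AT.As2
import Pool.Agent.AT.Mom

/-! AT/PX.  THEOREM PX: all primes of `[n, n+H)` in prescribed short clusters, at most one in each,
at least `m+1` in total.
PLAN.  Constants: `c2`, `c` from `T1`, `C ≥ 1` a common constant of `T2`, `T3`.
`μ = 56 (m+1)/c2`, `θ = min 1 (c2/(4 C μ))`, `K` a natural number with `K ≥ 4000 μ` and
`K ≥ 8 C μ/(c2 θ)`, `ε = μ/K`.  Assume that no `n` works.  Take `s` = the pairs `(b, n)`, `b ∈ Gd`,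
`n ∈ Nw P H M b` (a `Finset.sigma`), `w = wg`, `N = Nn`, `E = Bd`.  CLAIM: for such a pair `¬ Bd → Nn ≤ m`:
otherwise `n` works: `P - H < n ≤ 4P`; every prime `q = n + j`, `j < H`, is `> P/2 > L/2000`, so coprime to `M`,
hence `b + j` is coprime to `M` (`n ≡ b`), `j ∈ Jv`, and `j ∈ Cl` as `¬ Bd`; distinct primes in one cluster
contradict `¬ Bd`; the total number is `≥ Nn ≥ m+1`.  `mom` gives
`T1 ≤ 7 m P + (θ/2)(C μ^2 P + T1) + (C μ^2/K + 1/L) P/(2θ)`, so `T1/2 ≤ ..` and with `T1 ≥ c2 μ P`: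
`c2 μ/2 ≤ 7 m + θ C μ^2/2 + C μ^2/(2 θ K) + 1/(2 θ L) ≤ c2 μ/8 + c2 μ/8 + c2 μ/16 + (small)`, false for `P` large. -/

namespace Pool.Agent.AT

open Finset

/-- the combination of the moments -/
private theorem px_real {c2 C μ θ K L P m T0 T1 T2 T3 : ℝ} (hc2 : 0 < c2) (hμ : 0 < μ) (hθ : 0 < θ)
    (hC : 0 < C) (hK : 0 < K) (hL : 0 < L) (hP : 0 < P) (hm : 0 ≤ m)
    (hθ1 : θ ≤ 1) (hμm : c2 * μ = 56 * (m + 1)) (hθ2 : θ * (4 * C * μ) ≤ c2)
    (hKb : 8 * C * μ ≤ K * (c2 * θ)) (hLb : 8 ≤ L * (θ * (c2 * μ)))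
    (hT1 : c2 * μ * P ≤ T1) (hT0 : T0 ≤ 7 * P) (hT2 : T2 ≤ C * μ ^ 2 * P)
    (hT3 : T3 ≤ C * (μ ^ 2 / K) * P + P / L)
    (hmom : T1 ≤ m * T0 + θ / 2 * (T2 + T1) + 1 / (2 * θ) * T3) : False := by
  have hx : 0 < c2 * μ := mul_pos hc2 hμ
  have hxP : 0 < c2 * μ * P := mul_pos hx hP
  have h1 : m * T0 ≤ (c2 * μ * P) / 8 - 7 * P := by
    have h2 : m * T0 ≤ m * (7 * P) := mul_le_mul_of_nonneg_left hT0 hm
    have h3 : c2 * μ * P = 56 * (m + 1) * P := by rw [hμm]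
    rw [h3]
    linarith
  have h2 : θ / 2 * T2 ≤ (c2 * μ * P) / 8 := by
    have h3 : θ / 2 * T2 ≤ θ / 2 * (C * μ ^ 2 * P) :=
      mul_le_mul_of_nonneg_left hT2 (by positivity)
    have h4 : θ / 2 * (C * μ ^ 2 * P) = (θ * (4 * C * μ)) * (μ * P) / 8 := by ring
    have h5 : (θ * (4 * C * μ)) * (μ * P) ≤ c2 * (μ * P) :=
      mul_le_mul_of_nonneg_right hθ2 (by positivity)
    rw [h4] at h3
    linarith
  have h3 : θ / 2 * T1 ≤ T1 / 2 := by
    have h4 : 0 ≤ T1 := hxP.le.trans hT1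
    have : θ * T1 ≤ 1 * T1 := mul_le_mul_of_nonneg_right hθ1 h4
    linarith
  have h4 : 1 / (2 * θ) * T3 ≤ (c2 * μ * P) / 16 + (c2 * μ * P) / 16 := by
    have h5 : 1 / (2 * θ) * T3 ≤ 1 / (2 * θ) * (C * (μ ^ 2 / K) * P + P / L) :=
      mul_le_mul_of_nonneg_left hT3 (by positivity)
    have h6 : 1 / (2 * θ) * (C * (μ ^ 2 / K) * P) ≤ (c2 * μ * P) / 16 := by
      rw [show 1 / (2 * θ) * (C * (μ ^ 2 / K) * P) = (8 * C * μ) * (μ * P) / (16 * (θ * K)) by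
        field_simp; ring, div_le_div_iff₀ (by positivity) (by norm_num)]
      have h7 : (8 * C * μ) * (μ * P) ≤ (K * (c2 * θ)) * (μ * P) :=
        mul_le_mul_of_nonneg_right hKb (by positivity)
      have e : c2 * μ * P * (16 * (θ * K)) = 16 * ((K * (c2 * θ)) * (μ * P)) := by ring
      rw [e]
      linarith
    have h7 : 1 / (2 * θ) * (P / L) ≤ (c2 * μ * P) / 16 := by
      rw [show 1 / (2 * θ) * (P / L) = P / (2 * θ * L) by field_simp,
        div_le_div_iff₀ (by positivity) (by norm_num)]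
      have h8 : 8 * P ≤ (L * (θ * (c2 * μ))) * P := mul_le_mul_of_nonneg_right hLb hP.le
      have e : c2 * μ * P * (2 * θ * L) = 2 * ((L * (θ * (c2 * μ))) * P) := by ring
      rw [e]
      linarith
    rw [mul_add] at h5
    linarith
  have h5 : θ / 2 * (T2 + T1) = θ / 2 * T2 + θ / 2 * T1 := by ring
  rw [h5] at hmom
  linarith

/-- growth of the logarithm -/
private theorem px_log (c : ℝ) (hc : 0 < c) : ∃ L0 : ℕ, ∀ L : ℕ, L0 ≤ L →
    c * (Nat.log 2 L : ℝ) ≤ L := by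
  obtain ⟨n, hn⟩ := exists_nat_ge (4 * c ^ 2)
  refine ⟨n + 1, fun L hL => ?_⟩
  have hL0 : L ≠ 0 := by omega
  have h1 : 2 ^ Nat.log 2 L ≤ L := Nat.pow_log_le_self 2 hL0
  set l := Nat.log 2 L with hl
  have h2 : (2 : ℝ) ^ l ≤ L := by exact_mod_cast h1
  have h3 : (n : ℝ) + 1 ≤ L := by exact_mod_cast hL
  have h4 : ((l : ℝ)) ^ 2 ≤ 4 * (2 : ℝ) ^ l := by
    have : ∀ l : ℕ, l ^ 2 ≤ 4 * 2 ^ l := by
      intro l
      induction l with
      | zero => norm_num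
      | succ l ih =>
        rcases Nat.lt_or_ge l 3 with h | h
        · interval_cases l <;> norm_num
        · have e : (l + 1) ^ 2 ≤ 2 * l ^ 2 := by nlinarith
          rw [pow_succ 2 l]
          omega
    exact_mod_cast this l
  have h5 : ((l : ℝ)) ^ 2 ≤ 4 * L := by linarith
  have h6 : (c * l) ^ 2 ≤ (L : ℝ) ^ 2 := by
    have h7 : c ^ 2 * (l : ℝ) ^ 2 ≤ c ^ 2 * (4 * L) := mul_le_mul_of_nonneg_left h5 (by positivity)
    have h8 : 4 * c ^ 2 * (L : ℝ) ≤ L * L := by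
      apply mul_le_mul_of_nonneg_right _ (Nat.cast_nonneg L)
      linarith
    nlinarith
  exact le_of_sq_le_sq h6 (Nat.cast_nonneg L)

private theorem px_claim {P L H E K m : ℕ} {u : Fin K → ℕ} (hP : 1 ≤ P) (hL : L = Nat.log 2 P)
    (hPH : L ≤ P - H) (hcfg : Cfg H u E) {b n : ℕ} (hn : n ∈ Nw P H (Mw L) b)
    (hBd : ¬ Bd (Mw L) H u E b n) (hN : m < Nn (Mw L) H u E b n) :
    P - H < n ∧ n ≤ 4 * P ∧
      (∀ q ∈ Ico n (n + H), q.Prime → ∃ i, n + u i ≤ q ∧ q < n + u i + E) ∧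
      (∀ i, ∀ q q' : ℕ, q.Prime → q'.Prime → n + u i ≤ q → q < n + u i + E →
        n + u i ≤ q' → q' < n + u i + E → q = q') ∧
      m + 1 ≤ ((Ico n (n + H)).filter Nat.Prime).card := by
  classical
  unfold Nw at hn
  rw [mem_filter, mem_Ioc] at hn
  obtain ⟨⟨hn1, hn2⟩, hn3⟩ := hn
  obtain ⟨_, _, hM, _⟩ := Mw_facts hP hL
  have hcop : ∀ j, (n + j).Prime → Nat.Coprime (b + j) (Mw L) := by
    intro j hj
    have h1 : Nat.Coprime (n + j) (Mw L) := by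
      rw [hj.coprime_iff_not_dvd, hM _ hj]
      have : L / 2000 ≤ L := Nat.div_le_self _ _
      omega
    have h2 : n + j ≡ b + j [MOD (Mw L)] := hn3.add_right j
    have h3 := h2.gcd_eq
    unfold Nat.Coprime at h1 ⊢
    rw [← h3]
    exact h1
  have hJv : ∀ j, j < H → (n + j).Prime → j ∈ Jv (Mw L) b H := by
    intro j hj hp
    unfold Jv
    rw [mem_filter, mem_range]
    exact ⟨hj, hcop j hp⟩
  have hCl : ∀ j, j < H → (n + j).Prime → j ∈ Cl u E := by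
    intro j hj hp
    by_contra hcon
    apply hBd
    refine Or.inr ⟨j, ?_, hp⟩
    unfold Rv
    rw [mem_filter]
    exact ⟨hJv j hj hp, hcon⟩
  have hJ1 : ∀ j, j < H → (n + j).Prime → j ∈ J1 (Mw L) b H u E := by
    intro j hj hp
    unfold J1
    rw [mem_filter]
    exact ⟨hJv j hj hp, hCl j hj hp⟩
  refine ⟨hn1, hn2, ?_, ?_, ?_⟩
  · intro q hq hp
    rw [mem_Ico] at hq
    obtain ⟨j, rfl⟩ := Nat.exists_eq_add_of_le hq.1
    have h1 := hCl j (by omega) hp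
    unfold Cl at h1
    rw [mem_biUnion] at h1
    obtain ⟨i, _, hi⟩ := h1
    rw [mem_Ico] at hi
    exact ⟨i, by omega, by omega⟩
  · intro i q q' hq hq' h1 h2 h3 h4
    obtain ⟨j, rfl⟩ := Nat.exists_eq_add_of_le (show n ≤ q by omega)
    obtain ⟨j', rfl⟩ := Nat.exists_eq_add_of_le (show n ≤ q' by omega)
    by_contra hne
    apply hBd
    have h5 := hcfg.hin i
    refine Or.inl ⟨i, j, hJ1 j (by omega) hq, j', hJ1 j' (by omega) hq', ?_, ?_, ?_, hq, hq'⟩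
    · rintro rfl
      exact hne rfl
    · rw [mem_Ico]; omega
    · rw [mem_Ico]; omega
  · have h1 : Nn (Mw L) H u E b n ≤ ((Ico n (n + H)).filter Nat.Prime).card := by
      unfold Nn
      apply Finset.card_le_card_of_injOn (fun j => n + j)
      · intro j hj
        have hj' := mem_filter.1 (Finset.mem_coe.1 hj)
        have hjJ : j ∈ Jv (Mw L) b H := (mem_filter.1 hj'.1).1
        have hjH : j < H := mem_range.1 (mem_filter.1 hjJ).1
        refine Finset.mem_coe.2 (mem_filter.2 ⟨mem_Ico.2 ⟨?_, ?_⟩, hj'.2⟩)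
        · show n ≤ n + j
          omega
        · show n + j < n + H
          omega
      · intro j _ j' _ h
        have : n + j = n + j' := h
        omega
    omega

private theorem px_wg (L M H : ℕ) {K : ℕ} (u : Fin K → ℕ) (E b n : ℕ) : 0 ≤ wg L M H u E b n := by
  unfold wg
  have := Zx_one_le L (Rv M b H u E)
  positivity

private theorem px_pow (L : ℕ) (h : 5 ≤ L) : L ^ 2 + L ≤ 2 ^ L := by
  induction L, h using Nat.le_induction with
  | base => norm_num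
  | succ n hn ih =>
    rw [pow_succ 2 n]
    nlinarith

theorem PX (h0 : SE0) (h1 : SE1) (h2 : SE2) (h3 : SE3) (hB : SBT) (m : ℕ) :
    ∃ c : ℝ, 0 < c ∧ ∃ K : ℕ, 0 < K ∧ ∃ ε : ℝ, 0 < ε ∧ ∃ P0 : ℕ, ∀ P : ℕ, P0 ≤ P → ∀ L : ℕ,
    L = Nat.log 2 P → ∀ (H : ℕ) (u : Fin K → ℕ), (H : ℝ) ≤ c * L * (Nat.log 2 L : ℝ) →
    Cfg H u ⌊ε * L⌋₊ → ∃ n : ℕ, P - H < n ∧ n ≤ 4 * P ∧
      (∀ q ∈ Ico n (n + H), q.Prime → ∃ i, n + u i ≤ q ∧ q < n + u i + ⌊ε * L⌋₊) ∧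
      (∀ i, ∀ q q' : ℕ, q.Prime → q'.Prime → n + u i ≤ q → q < n + u i + ⌊ε * L⌋₊ →
        n + u i ≤ q' → q' < n + u i + ⌊ε * L⌋₊ → q = q') ∧
      m + 1 ≤ ((Ico n (n + H)).filter Nat.Prime).card := by
  obtain ⟨c, hc, c2, hc2, hT1⟩ := T1 h1 hB
  obtain ⟨C', hC', hT2⟩ := T2 h2
  obtain ⟨C'', hC'', hT3⟩ := T3 h2 h3
  obtain ⟨PT0, hT0⟩ := T0 h0
  set C : ℝ := max C' C'' with hCdef
  have hC : 0 < C := lt_max_of_lt_left hC'
  set μ : ℝ := 56 * ((m : ℝ) + 1) / c2 with hμdef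
  have hm0 : (0 : ℝ) ≤ m := Nat.cast_nonneg m
  have hμ : 0 < μ := by positivity
  have hμm : c2 * μ = 56 * ((m : ℝ) + 1) := by
    rw [hμdef]; field_simp
  set θ : ℝ := min 1 (c2 / (4 * C * μ)) with hθdef
  have hθ : 0 < θ := lt_min one_pos (by positivity)
  have hθ1 : θ ≤ 1 := min_le_left _ _
  have hθ2 : θ * (4 * C * μ) ≤ c2 := by
    have h4 : θ ≤ c2 / (4 * C * μ) := min_le_right _ _
    rwa [le_div_iff₀ (by positivity)] at h4
  obtain ⟨K, hK⟩ := exists_nat_ge (max (4000 * μ) (8 * C * μ / (c2 * θ)))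
  have hK1 : 4000 * μ ≤ K := (le_max_left _ _).trans hK
  have hK2 : 8 * C * μ / (c2 * θ) ≤ K := (le_max_right _ _).trans hK
  have hK0 : (0 : ℝ) < K := lt_of_lt_of_le (by positivity) hK1
  have hKb : 8 * C * μ ≤ K * (c2 * θ) := by
    rwa [div_le_iff₀ (by positivity)] at hK2
  set ε : ℝ := μ / K with hεdef
  have hε : 0 < ε := by positivity
  have hε1 : ε ≤ 1 / 4000 := by
    rw [hεdef, div_le_div_iff₀ hK0 (by norm_num)]
    linarith
  have hKε : (K : ℝ) * ε = μ := by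
    rw [hεdef]; field_simp
  have hKε2 : (K : ℝ) * ε ^ 2 = μ ^ 2 / K := by
    rw [hεdef]; field_simp
  obtain ⟨P1, hP1⟩ := hT1 K ε hε hε1
  obtain ⟨P2, hP2⟩ := hT2 K ε hε hε1
  obtain ⟨P3, hP3⟩ := hT3 K ε hε hε1
  obtain ⟨L0, hL0⟩ := px_log c hc
  obtain ⟨L1, hL1⟩ := exists_nat_ge (8 / (θ * (c2 * μ)))
  refine ⟨c, hc, K, by exact_mod_cast hK0, ε, hε,
    PT0 + P1 + P2 + P3 + 2 ^ (L0 + L1 + 5), ?_⟩
  intro P hP L hL H u hH hcfg
  have hpow : 0 < 2 ^ (L0 + L1 + 5) := by positivity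
  have hP1' : 1 ≤ P := by omega
  have hLL : L0 + L1 + 5 ≤ L := by
    rw [hL]
    exact Nat.le_log_of_pow_le (by norm_num) (by omega)
  have hHL : H ≤ L ^ 2 := by
    have h4 := hL0 L (by omega)
    have h5 : (H : ℝ) ≤ (L : ℝ) ^ 2 := by
      calc (H : ℝ) ≤ c * L * (Nat.log 2 L : ℝ) := hH
        _ = L * (c * (Nat.log 2 L : ℝ)) := by ring
        _ ≤ L * L := mul_le_mul_of_nonneg_left h4 (Nat.cast_nonneg L)
        _ = (L : ℝ) ^ 2 := by ring
    exact_mod_cast h5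
  have hP2L : 2 ^ L ≤ P := by
    rw [hL]
    exact Nat.pow_log_le_self 2 (by omega)
  have hPH : L ≤ P - H := by
    have h4 := px_pow L (by omega)
    omega
  by_contra hcon
  classical
  set E : ℕ := ⌊ε * L⌋₊ with hEdef
  set s : Finset (Σ _ : ℕ, ℕ) := (Gd L (Mw L) H u E).sigma (fun b => Nw P H (Mw L) b) with hs
  have hmom := mom s (fun x => wg L (Mw L) H u E x.1 x.2) (fun x _ => px_wg L (Mw L) H u E x.1 x.2)
    (fun x => Nn (Mw L) H u E x.1 x.2) (fun x => Bd (Mw L) H u E x.1 x.2) m hθ (by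
      intro x hx hB
      by_contra hN
      push Not at hN
      apply hcon
      refine ⟨x.2, px_claim hP1' hL hPH hcfg ?_ hB hN⟩
      rw [hs, mem_sigma] at hx
      exact hx.2)
  have hsum : ∀ F : ℕ → ℕ → ℝ, ∑ x ∈ s, F x.1 x.2 =
      ∑ b ∈ Gd L (Mw L) H u E, ∑ n ∈ Nw P H (Mw L) b, F b n := by
    intro F
    rw [hs, sum_sigma]
  have hsumf : ∑ x ∈ s.filter (fun x => Bd (Mw L) H u E x.1 x.2), wg L (Mw L) H u E x.1 x.2 =
      ∑ b ∈ Gd L (Mw L) H u E, ∑ n ∈ (Nw P H (Mw L) b).filter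
        (fun n => Bd (Mw L) H u E b n), wg L (Mw L) H u E b n := by
    rw [sum_filter, hs, sum_sigma]
    refine sum_congr rfl fun b _ => ?_
    rw [sum_filter]
  rw [hsumf, hsum (fun b n => wg L (Mw L) H u E b n * (Nn (Mw L) H u E b n : ℝ)),
    hsum (fun b n => wg L (Mw L) H u E b n),
    hsum (fun b n => wg L (Mw L) H u E b n * ((Nn (Mw L) H u E b n : ℝ) *
      ((Nn (Mw L) H u E b n : ℝ) - 1)))] at hmom
  have hLpos : (0 : ℝ) < L := by
    have : 0 < L := by omega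
    exact_mod_cast this
  have hPpos : (0 : ℝ) < P := by exact_mod_cast hP1'
  have hb1 := hP1 P (by omega) L hL H u hH hcfg
  have hb2 := hP2 P (by omega) L hL H u hHL hcfg
  have hb3 := hP3 P (by omega) L hL H u hHL hcfg
  have hb0 := hT0 P (by omega) L hL K H E u hHL
  rw [hKε] at hb1 hb2
  rw [hKε2] at hb3
  have hLb : 8 ≤ L * (θ * (c2 * μ)) := by
    have h4 : (L1 : ℝ) ≤ L := by
      have : L1 ≤ L := by omega
      exact_mod_cast this
    have h5 : 8 / (θ * (c2 * μ)) ≤ L := hL1.trans h4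
    rwa [div_le_iff₀ (by positivity)] at h5
  refine px_real hc2 hμ hθ hC hK0 hLpos hPpos hm0 hθ1 hμm hθ2 hKb hLb hb1 hb0 ?_ ?_ hmom
  · refine hb2.trans ?_
    have : C' ≤ C := le_max_left _ _
    gcongr
  · refine hb3.trans ?_
    have : C'' ≤ C := le_max_right _ _
    gcongr

end Pool.Agent.AT
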