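import Pool.Agent.RS.Prm
import Pool.Agent.RS.Wt

/-! AT/Par.  The concrete parameters.  `L = Nat.log 2 P`, level `2 ^ dd L` with `dd L = L / 10000`,
primes in `(L ^ 6, 2 ^ dd L]`, weights `wt` of level `2 ^ sx L`, `sx L = dd L / (16 log_2 L)`;
`R` = the finite set of the shifts `j` to be killed, `n + j`. -/

namespace Pool.Agent.AT

open Finset Pool.Agent.RS

/-- exponent of the level -/
def dd (L : ℕ) : ℕ := L / 10000

/-- exponent of the level of a single weight -/
def sx (L : ℕ) : ℕ := dd L / (16 * Nat.log 2 L)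

/-- the constant in the number of killed elements -/
noncomputable def c0 : ℝ := Real.exp (-9) / 10 ^ 8

/-- the primes used -/
abbrev Ix (L : ℕ) : Type := {q : ℕ // q ∈ prz (2 ^ dd L) \ excl L ∅ (2 ^ dd L)}

/-- the prime with index `q` -/
def px (L : ℕ) : Ix L → ℕ := fun q => (q : ℕ)

/-- the weights -/
noncomputable def yx (L : ℕ) : Finset (Ix L) → ℝ := wt (px L) (2 ^ sx L)

/-- the element attached to the shift `j` -/
def ax (R : Finset ℕ) : {j : ℕ // j ∈ R} → ℤ := fun j => -((j : ℕ) : ℤ)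

/-- coefficients of the repelling weight -/
noncomputable def Yx (L : ℕ) (R : Finset ℕ) (σ : Ix L → Option {j : ℕ // j ∈ R}) : ℝ :=
  Yd (px L) (yx L) (2 ^ dd L) σ

/-- the repelling weight for `n + j`, `j ∈ R` -/
noncomputable def gx (L : ℕ) (R : Finset ℕ) (n : ℤ) : ℝ :=
  ∑ σ : Ix L → Option {j : ℕ // j ∈ R}, Yx L R σ * EE (px L) (ax R) σ n

/-- its mean square -/
noncomputable def Zx (L : ℕ) (R : Finset ℕ) : ℝ :=
  ∑ σ : Ix L → Option {j : ℕ // j ∈ R}, Yx L R σ ^ 2 / PH (px L) (supp σ)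

/-- admissible data -/
structure Adm (P L M H : ℕ) (R : Finset ℕ) : Prop where
  hL : L = Nat.log 2 P
  hM0 : 0 < M
  hM : ∀ q : ℕ, q.Prime → L ^ 6 < q → Nat.Coprime M q
  hMP : (M : ℝ) ≤ (P : ℝ) ^ (1 / 1000 : ℝ)
  hH : H ≤ L ^ 2
  hR : R ⊆ range H
  hk : (R.card : ℝ) ≤ c0 * L

open Classical in
/-- the `n` of the class `b` in the window -/
noncomputable def Nw (P H M b : ℕ) : Finset ℕ :=
  (Ioc (P - H) (4 * P)).filter (fun n => n ≡ b [MOD M])

end Pool.Agent.AT
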