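import Pool.Agent.AT.PtD

/-! AT/Pt1.  The primes of the window are consecutive primes, and they lie in different clusters, in
increasing order. -/

namespace Pool.Agent.AT

open Finset

theorem pt1 {m K n H E : ℕ} {u : Fin K → ℕ} (hc : Cfg H u E)
    (h1 : ∀ q ∈ Ico n (n + H), q.Prime → ∃ i, n + u i ≤ q ∧ q < n + u i + E)
    (h2 : ∀ i, ∀ q q' : ℕ, q.Prime → q'.Prime → n + u i ≤ q → q < n + u i + E →
      n + u i ≤ q' → q' < n + u i + E → q = q')
    (h3 : m + 1 ≤ ((Ico n (n + H)).filter Nat.Prime).card) :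
    ∃ N : ℕ, ∃ i : Fin (m + 1) → Fin K, StrictMono i ∧ ∀ r : Fin (m + 1),
      n + u (i r) ≤ Nat.nth Nat.Prime (N + r) ∧ Nat.nth Nat.Prime (N + r) < n + u (i r) + E := by
  have hinf : (Set.ofPred Nat.Prime).Infinite := Nat.infinite_setOfPred_prime
  have hcount : Nat.count Nat.Prime (n + H) =
      Nat.count Nat.Prime n + ((Ico n (n + H)).filter Nat.Prime).card := by
    rw [Nat.count_eq_card_filter_range, Nat.count_eq_card_filter_range]
    have hU : (range (n + H)).filter Nat.Prime =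
        (range n).filter Nat.Prime ∪ (Ico n (n + H)).filter Nat.Prime := by
      ext q
      simp only [mem_filter, mem_union, mem_range, mem_Ico]
      constructor
      · rintro ⟨ha, hb⟩
        by_cases hq : q < n
        · exact Or.inl ⟨hq, hb⟩
        · exact Or.inr ⟨⟨by omega, ha⟩, hb⟩
      · rintro (⟨ha, hb⟩ | ⟨⟨_, ha⟩, hb⟩)
        · exact ⟨by omega, hb⟩
        · exact ⟨ha, hb⟩
    rw [hU, card_union_of_disjoint]
    rw [disjoint_left]
    intro q hq hq'
    rw [mem_filter, mem_range] at hq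
    rw [mem_filter, mem_Ico] at hq'
    omega
  set N := Nat.count Nat.Prime n with hN
  have hlo : ∀ r : ℕ, n ≤ Nat.nth Nat.Prime (N + r) := fun r =>
    (Nat.count_le_iff_le_nth hinf).1 (by omega)
  have hhi : ∀ r : Fin (m + 1), Nat.nth Nat.Prime (N + r) < n + H := by
    intro r
    apply Nat.nth_lt_of_lt_count
    have := r.isLt
    omega
  have hpr : ∀ r : ℕ, (Nat.nth Nat.Prime (N + r)).Prime := fun r =>
    Nat.nth_mem_of_infinite hinf _
  have hex : ∀ r : Fin (m + 1), ∃ i, n + u i ≤ Nat.nth Nat.Prime (N + r) ∧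
      Nat.nth Nat.Prime (N + r) < n + u i + E := fun r =>
    h1 _ (mem_Ico.2 ⟨hlo r, hhi r⟩) (hpr r)
  choose i hi1 hi2 using hex
  refine ⟨N, i, ?_, fun r => ⟨hi1 r, hi2 r⟩⟩
  rw [Fin.strictMono_iff_lt_succ]
  intro r
  have hlt : Nat.nth Nat.Prime (N + (r.castSucc : Fin (m + 1))) <
      Nat.nth Nat.Prime (N + (r.succ : Fin (m + 1))) := by
    apply Nat.nth_strictMono hinf
    rw [Fin.val_castSucc, Fin.val_succ]
    omega
  have a1 := hi1 r.castSucc
  have a2 := hi2 r.castSucc
  have b1 := hi1 r.succ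
  have b2 := hi2 r.succ
  rcases lt_trichotomy (i r.castSucc) (i r.succ) with h | h | h
  · exact h
  · exfalso
    rw [← h] at b1 b2
    have := h2 (i r.castSucc) _ _ (hpr _) (hpr _) a1 a2 b1 b2
    omega
  · exfalso
    have := hc.hdis _ _ h
    omega

end Pool.Agent.AT
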