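import Pool.Agent.AT.Pt1

/-! AT/Pt2.  From clusters to approximate patterns of consecutive differences.
PLAN.  Given `δ`, `X`.  Take `P` large, `δ' > 0` small (depending on `δ` and on the smallest difference of the
`β i`; if `K ≤ 1` there is no difference to care about), `H`, `E` from `hX δ'`, `u i = ⌊β i * f P⌋₊`.  `Cfg H u E`:
`u i + E ≤ f P + E ≤ H`; for `i < j`, `u j - u i ≥ (β j - β i) f P - 1 ≥ E`.  `Cncl` and `pt1` give `N` and `i`;
`q_r := nth Prime (N + r)` satisfies `n + u (i r) ≤ q_r < n + u (i r) + E`, so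
`q_{r+1} - q_r = (β (i r.succ) - β (i r.castSucc)) f P + O(E + 1)`.  `N ≥ X` because `q_0 ≥ n > P - H ≥ P/2` is
larger than the `X`-th prime.  `P/2 ≤ q_r ≤ 4P + H ≤ 8P` (`H ≤ 3 f P ≤ 3 √P`), so by `hs` used
four times (from `P/2` or from `P` in steps of factor 2) `f (q_r)/f P → 1`.  Finally
`2 √q (√q' - √q) = (q' - q) * 2√q/(√q' + √q)` and `1 - 2√q/(√q'+√q) ≤ (q'-q)/q ≤ 6 √P/(P/2)` is small. -/

namespace Pool.Agent.AT

open Finset Filter Topology

/-- the elementary estimate for one difference of square roots -/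
private theorem one_diff {q q' F t P Δ fq : ℝ} (ht0 : 0 < t) (ht : t ≤ 1 / 20) (hP : 0 < P)
    (hF : 4 / t ≤ F) (hFP : F ≤ √P) (hq : P / 2 ≤ q) (hqq : q ≤ q') (hD : q' - q ≤ 3 * √P)
    (he : |(q' - q) - Δ * F| ≤ 2 * t * F) (hfq : |fq - F| ≤ 5 * t * F) (hΔ0 : 0 ≤ Δ)
    (hΔ1 : Δ ≤ 1) : |2 * √q * (√q' - √q) / fq - Δ| ≤ 16 * t := by
  have hF0 : 0 < F := lt_of_lt_of_le (by positivity) hF
  have hsP : 0 < √P := Real.sqrt_pos.2 hP
  have hq0 : 0 < q := by linarith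
  have hq0' : 0 < q' := by linarith
  obtain ⟨s, hs⟩ : ∃ s, s = √q := ⟨_, rfl⟩
  obtain ⟨s', hs'⟩ : ∃ s', s' = √q' := ⟨_, rfl⟩
  have hs0 : 0 < s := by rw [hs]; exact Real.sqrt_pos.2 hq0
  have hss : s ≤ s' := by rw [hs, hs']; exact Real.sqrt_le_sqrt hqq
  have hs2 : s * s = q := by rw [hs]; exact Real.mul_self_sqrt hq0.le
  have hs2' : s' * s' = q' := by rw [hs']; exact Real.mul_self_sqrt hq0'.le
  have hPP : √P * √P = P := Real.mul_self_sqrt hP.le
  rw [← hs, ← hs']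
  have hsum : 0 < s' + s := by linarith
  -- `s' - s ≤ t (s' + s)`
  have h1 : s' - s ≤ t * (s' + s) := by
    have h2 : (s' - s) * (s' + s) ≤ t * (s' + s) * (s' + s) := by
      have h3 : (s' - s) * (s' + s) = q' - q := by rw [← hs2, ← hs2']; ring
      rw [h3]
      have h4 : 4 * q ≤ (s' + s) * (s' + s) := by
        rw [← hs2]
        nlinarith
      have h5 : 4 ≤ t * √P := by
        have h6 : 4 / t ≤ √P := hF.trans hFP
        rw [div_le_iff₀ ht0] at h6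
        linarith
      have h7 : 4 * √P ≤ t * √P * √P := mul_le_mul_of_nonneg_right h5 hsP.le
      have h8 : t * √P * √P = t * P := by rw [mul_assoc, hPP]
      have h9 : t * (4 * q) ≤ t * ((s' + s) * (s' + s)) := mul_le_mul_of_nonneg_left h4 ht0.le
      have h10 : t * (2 * P) ≤ t * (4 * q) := mul_le_mul_of_nonneg_left (by linarith) ht0.le
      have h11 : t * (s' + s) * (s' + s) = t * ((s' + s) * (s' + s)) := by ring
      rw [h11]
      linarith
    exact le_of_mul_le_mul_right h2 hsum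
  obtain ⟨ρ, hρ⟩ : ∃ ρ, ρ = 2 * s / (s' + s) := ⟨_, rfl⟩
  have hρ0 : 0 ≤ ρ := by rw [hρ]; positivity
  have hρ1 : ρ ≤ 1 := by
    rw [hρ, div_le_one hsum]
    linarith
  have hρ2 : 1 - ρ ≤ t := by
    have : 1 - ρ = (s' - s) / (s' + s) := by
      rw [hρ]
      field_simp
      ring
    rw [this, div_le_iff₀ hsum]
    exact h1
  have hmul : 2 * s * (s' - s) = (q' - q) * ρ := by
    rw [hρ, ← hs2, ← hs2']
    field_simp
    ring
  have hfq2 : F / 2 ≤ fq := by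
    have h2 := (abs_le.1 hfq).1
    have h3 : t * F ≤ 1 / 20 * F := mul_le_mul_of_nonneg_right ht hF0.le
    linarith
  have hfq0 : 0 < fq := by linarith
  have hA : |2 * s * (s' - s) - Δ * fq| ≤ 8 * t * F := by
    have e : 2 * s * (s' - s) - Δ * fq =
        ((q' - q) - Δ * F) * ρ + Δ * F * (ρ - 1) + Δ * (F - fq) := by
      rw [hmul]
      ring
    rw [e]
    have a1 : |((q' - q) - Δ * F) * ρ| ≤ 2 * t * F := by
      rw [abs_mul, abs_of_nonneg hρ0]
      calc |(q' - q) - Δ * F| * ρ ≤ |(q' - q) - Δ * F| * 1 :=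
            mul_le_mul_of_nonneg_left hρ1 (abs_nonneg _)
        _ ≤ _ := by rw [mul_one]; exact he
    have a2 : |Δ * F * (ρ - 1)| ≤ t * F := by
      rw [abs_mul, abs_of_nonneg (mul_nonneg hΔ0 hF0.le), abs_of_nonpos (by linarith)]
      calc Δ * F * -(ρ - 1) ≤ Δ * F * t :=
            mul_le_mul_of_nonneg_left (by linarith) (mul_nonneg hΔ0 hF0.le)
        _ ≤ 1 * F * t := by
            refine mul_le_mul_of_nonneg_right ?_ ht0.le
            exact mul_le_mul_of_nonneg_right hΔ1 hF0.le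
        _ = t * F := by ring
    have a3 : |Δ * (F - fq)| ≤ 5 * t * F := by
      rw [abs_mul, abs_of_nonneg hΔ0, abs_sub_comm]
      calc Δ * |fq - F| ≤ 1 * |fq - F| := mul_le_mul_of_nonneg_right hΔ1 (abs_nonneg _)
        _ ≤ _ := by rw [one_mul]; exact hfq
    calc |((q' - q) - Δ * F) * ρ + Δ * F * (ρ - 1) + Δ * (F - fq)|
        ≤ |((q' - q) - Δ * F) * ρ + Δ * F * (ρ - 1)| + |Δ * (F - fq)| := abs_add_le _ _
      _ ≤ |((q' - q) - Δ * F) * ρ| + |Δ * F * (ρ - 1)| + |Δ * (F - fq)| := by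
          have := abs_add_le (((q' - q) - Δ * F) * ρ) (Δ * F * (ρ - 1))
          linarith
      _ ≤ 8 * t * F := by linarith
  have e2 : 2 * s * (s' - s) / fq - Δ = (2 * s * (s' - s) - Δ * fq) / fq := by
    field_simp
  rw [e2, abs_div, abs_of_pos hfq0, div_le_iff₀ hfq0]
  refine hA.trans ?_
  have : 16 * t * (F / 2) ≤ 16 * t * fq := mul_le_mul_of_nonneg_left hfq2 (by positivity)
  linarith

/-- a slowly varying function on `[P/2, 8P]` -/
private theorem slow {f : ℝ → ℝ} {t P : ℝ} (ht0 : 0 < t) (ht : t ≤ 1 / 20) (hP : 0 < P)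
    (hfP : 0 < f P)
    (hs : ∀ x : ℝ, P / 2 ≤ x → ∀ y : ℝ, x ≤ y → y ≤ 2 * x → |f y - f x| ≤ t * f x) {q : ℝ}
    (hq : P / 2 ≤ q) (hq' : q ≤ 8 * P) : |f q - f P| ≤ 5 * t * f P := by
  have h1 := abs_le.1 (hs (P / 2) le_rfl P (by linarith) (by linarith))
  have h2 := abs_le.1 (hs P (by linarith) (2 * P) (by linarith) (by linarith))
  have h4 := abs_le.1 (hs (2 * P) (by linarith) (4 * P) (by linarith) (by linarith))
  obtain ⟨F, hF⟩ : ∃ F, F = f P := ⟨_, rfl⟩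
  obtain ⟨A, hA⟩ : ∃ A, A = f (P / 2) := ⟨_, rfl⟩
  obtain ⟨B, hB⟩ : ∃ B, B = f (2 * P) := ⟨_, rfl⟩
  obtain ⟨C, hC⟩ : ∃ C, C = f (4 * P) := ⟨_, rfl⟩
  rw [← hF] at hfP
  rw [← hF, ← hA] at h1
  rw [← hF, ← hB] at h2
  rw [← hB, ← hC] at h4
  rw [← hF]
  have htF : 0 < t * F := by positivity
  have htF2 : t * (t * F) ≤ 1 / 20 * (t * F) := mul_le_mul_of_nonneg_right ht htF.le
  have hA2 : A ≤ 20 / 19 * F := by
    by_contra hlt
    rw [not_le] at hlt
    have hA0 : 0 < A := lt_trans (by positivity) hlt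
    have h5 : t * A ≤ 1 / 20 * A := mul_le_mul_of_nonneg_right ht hA0.le
    linarith
  have htA : t * A ≤ t * (20 / 19 * F) := mul_le_mul_of_nonneg_left hA2 ht0.le
  have htB : t * B ≤ t * (F + t * F) := mul_le_mul_of_nonneg_left (by linarith) ht0.le
  have htB' : t * (F - t * F) ≤ t * B := mul_le_mul_of_nonneg_left (by linarith) ht0.le
  have htC : t * C ≤ t * (B + t * B) := mul_le_mul_of_nonneg_left (by linarith) ht0.le
  have htB2 : t * (t * B) ≤ 1 / 20 * (t * B) := by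
    refine mul_le_mul_of_nonneg_right ht ?_
    nlinarith
  rcases le_total q P with hc | hc
  · have h5 := abs_le.1 (hs (P / 2) le_rfl q hq (by linarith))
    rw [← hA] at h5
    refine abs_le.2 ⟨?_, ?_⟩ <;> nlinarith
  rcases le_total q (2 * P) with hc2 | hc2
  · have h5 := abs_le.1 (hs P (by linarith) q hc hc2)
    rw [← hF] at h5
    refine abs_le.2 ⟨?_, ?_⟩ <;> linarith
  rcases le_total q (4 * P) with hc4 | hc4
  · have h5 := abs_le.1 (hs (2 * P) (by linarith) q hc2 (by linarith))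
    rw [← hB] at h5
    refine abs_le.2 ⟨?_, ?_⟩ <;> nlinarith
  · have h5 := abs_le.1 (hs (4 * P) (by linarith) q hc4 (by linarith))
    rw [← hC] at h5
    refine abs_le.2 ⟨?_, ?_⟩ <;> nlinarith

/-- a lower bound for the differences of a strictly increasing finite sequence -/
private theorem min_gap {K : ℕ} (β : Fin K → ℝ) (hβ : StrictMono β) :
    ∃ g : ℝ, 0 < g ∧ ∀ i j, i < j → g ≤ β j - β i := by
  classical
  set S : Finset (Fin K × Fin K) := univ.filter fun q => q.1 < q.2 with hS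
  rcases S.eq_empty_or_nonempty with h | h
  · refine ⟨1, one_pos, fun i j hij => ?_⟩
    have : (i, j) ∈ S := by
      rw [hS, mem_filter]
      exact ⟨mem_univ _, hij⟩
    rw [h] at this
    simp at this
  · obtain ⟨q, hq, hmin⟩ := S.exists_min_image (fun q => β q.2 - β q.1) h
    rw [hS, mem_filter] at hq
    refine ⟨β q.2 - β q.1, sub_pos.2 (hβ hq.2), fun i j hij => ?_⟩
    exact hmin (i, j) (by rw [hS, mem_filter]; exact ⟨mem_univ _, hij⟩)

theorem pt2 {m K : ℕ} {f : ℝ → ℝ}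
    (hs : ∀ δ : ℝ, 0 < δ → ∀ᶠ x in atTop, ∀ y : ℝ, x ≤ y → y ≤ 2 * x → |f y - f x| ≤ δ * f x)
    (h1 : Tendsto f atTop atTop) (h2 : ∀ᶠ x in atTop, f x ≤ √x)
    (hX : ∀ δ : ℝ, 0 < δ → ∃ᶠ P : ℕ in atTop, ∃ H E : ℕ, (E : ℝ) ≤ δ * f P ∧ f P + E ≤ H ∧
      (H : ℝ) ≤ 3 * f P ∧ ∀ u : Fin K → ℕ, Cfg H u E → Cncl m P H E u)
    (β : Fin K → ℝ) (hβ : StrictMono β) (hβ01 : ∀ i, 0 ≤ β i ∧ β i ≤ 1) :
    ∀ δ : ℝ, 0 < δ → ∀ X : ℕ, ∃ i : Fin (m + 1) → Fin K, StrictMono i ∧ ∃ N : ℕ, X ≤ N ∧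
      ∀ r : Fin m, |2 * √(pn (N + r)) * dn (N + r) / f (pn (N + r)) -
        (β (i r.succ) - β (i r.castSucc))| < δ := by
  intro δ hδ X
  obtain ⟨g, hg0, hg⟩ := min_gap β hβ
  obtain ⟨t, ht⟩ : ∃ t, t = min (min (δ / 20) (g / 4)) (1 / 20) := ⟨_, rfl⟩
  have ht0 : 0 < t := by
    rw [ht]
    exact lt_min (lt_min (by positivity) (by positivity)) (by norm_num)
  have ht1 : t ≤ 1 / 20 := by rw [ht]; exact min_le_right _ _
  have htδ : t ≤ δ / 20 := by rw [ht]; exact (min_le_left _ _).trans (min_le_left _ _)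
  have htg : t ≤ g / 4 := by rw [ht]; exact (min_le_left _ _).trans (min_le_right _ _)
  obtain ⟨x₀, hx₀⟩ := eventually_atTop.1 (hs t ht0)
  -- choose `P`
  have hcast : Tendsto (fun P : ℕ => (P : ℝ)) atTop atTop := tendsto_natCast_atTop_atTop
  have ev1 : ∀ᶠ P : ℕ in atTop, 4 / t ≤ f P := (h1.comp hcast).eventually_ge_atTop (4 / t)
  have ev2 : ∀ᶠ P : ℕ in atTop, f P ≤ √(P : ℝ) := hcast.eventually h2
  have ev3 : ∀ᶠ P : ℕ in atTop, 2 * x₀ ≤ (P : ℝ) := hcast.eventually_ge_atTop (2 * x₀)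
  have ev4 : ∀ᶠ P : ℕ in atTop, 2 * Nat.nth Nat.Prime X ≤ P :=
    eventually_ge_atTop (2 * Nat.nth Nat.Prime X)
  have ev5 : ∀ᶠ P : ℕ in atTop, 1 ≤ P := eventually_ge_atTop 1
  obtain ⟨P, ⟨⟨⟨⟨⟨⟨H, E, hE, hH1, hH2, hcn⟩, hP1⟩, hP2⟩, hP3⟩, hP4⟩, hP5⟩⟩ :=
    ((((((hX t ht0).and_eventually ev1).and_eventually ev2).and_eventually ev3).and_eventually ev4).and_eventually ev5).exists
  have hP0 : (0 : ℝ) < P := by exact_mod_cast hP5
  obtain ⟨F, hF⟩ : ∃ F, F = f (P : ℝ) := ⟨_, rfl⟩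
  rw [← hF] at hE hH1 hH2 hP1 hP2
  have hF0 : 0 < F := lt_of_lt_of_le (by positivity) hP1
  have htF : 4 ≤ t * F := by
    rw [div_le_iff₀ ht0] at hP1
    linarith
  have hgF : 4 * (t * F) ≤ g * F := by
    have : 4 * t * F ≤ g * F := mul_le_mul_of_nonneg_right (by linarith) hF0.le
    linarith
  have hsP80 : 80 ≤ √(P : ℝ) := by
    have h3 : t * F ≤ 1 / 20 * F := mul_le_mul_of_nonneg_right ht1 hF0.le
    linarith
  have hPP : √(P : ℝ) * √(P : ℝ) = P := Real.mul_self_sqrt hP0.le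
  have hHP : (H : ℝ) ≤ 3 * √(P : ℝ) := by linarith
  have hHP2 : 26 * (H : ℝ) ≤ P := by nlinarith
  -- the clusters
  obtain ⟨u, hu⟩ : ∃ u : Fin K → ℕ, u = fun i => ⌊β i * F⌋₊ := ⟨_, rfl⟩
  have hu1 : ∀ i, (u i : ℝ) ≤ β i * F := by
    intro i
    rw [hu]
    exact Nat.floor_le (mul_nonneg (hβ01 i).1 hF0.le)
  have hu2 : ∀ i, β i * F < u i + 1 := by
    intro i
    rw [hu]
    exact Nat.lt_floor_add_one _
  have hcfg : Cfg H u E := by
    refine ⟨fun i => ?_, fun i j hij => ?_⟩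
    · have h3 : β i * F ≤ 1 * F := mul_le_mul_of_nonneg_right (hβ01 i).2 hF0.le
      have h4 : ((u i + E : ℕ) : ℝ) ≤ (H : ℝ) := by
        push_cast
        linarith [hu1 i]
      exact_mod_cast h4
    · have h3 : g * F ≤ (β j - β i) * F := mul_le_mul_of_nonneg_right (hg i j hij) hF0.le
      have h4 : ((u i + E : ℕ) : ℝ) ≤ (u j : ℝ) := by
        push_cast
        have := hu1 i
        have := hu2 j
        linarith
      exact_mod_cast h4
  obtain ⟨n, hn1, hn2, hn3, hn4, hn5⟩ := hcn u hcfg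
  obtain ⟨N, i, hi, hNr⟩ := pt1 hcfg hn3 hn4 hn5
  -- position of `n`
  have hn1' : (P : ℝ) - H < n := by
    have h3 : P < n + H := by omega
    have h4 : (P : ℝ) < n + H := by exact_mod_cast h3
    linarith
  have hn2' : (n : ℝ) ≤ 4 * P := by exact_mod_cast hn2
  have hnP : (P : ℝ) / 2 < n := by linarith
  refine ⟨i, hi, N, ?_, fun r => ?_⟩
  · -- `X ≤ N`
    have h3 := (hNr 0).1
    have h4 : n ≤ Nat.nth Nat.Prime N := le_trans (Nat.le_add_right _ _) h3
    have h5 : Nat.nth Nat.Prime X < n := by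
      have h6 : (2 * Nat.nth Nat.Prime X : ℝ) ≤ P := by exact_mod_cast hP4
      have h7 : ((Nat.nth Nat.Prime X : ℕ) : ℝ) < n := by linarith
      exact_mod_cast h7
    by_contra hlt
    rw [not_le] at hlt
    have h6 : Nat.nth Nat.Prime N < Nat.nth Nat.Prime X :=
      Nat.nth_strictMono Nat.infinite_setOfPred_prime hlt
    omega
  · have ha := hNr r.castSucc
    have hb := hNr r.succ
    have e1 : N + ((r.castSucc : Fin (m + 1)) : ℕ) = N + (r : ℕ) := rfl
    have e2 : N + ((r.succ : Fin (m + 1)) : ℕ) = N + (r : ℕ) + 1 := rfl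
    rw [e1] at ha
    rw [e2] at hb
    have hlt : Nat.nth Nat.Prime (N + r) < Nat.nth Nat.Prime (N + r + 1) :=
      Nat.nth_strictMono Nat.infinite_setOfPred_prime (Nat.lt_succ_self _)
    unfold dn pn
    obtain ⟨q, hq⟩ : ∃ q, q = Nat.nth Nat.Prime (N + r) := ⟨_, rfl⟩
    obtain ⟨q', hq'⟩ : ∃ q', q' = Nat.nth Nat.Prime (N + r + 1) := ⟨_, rfl⟩
    rw [← hq] at ha hlt ⊢
    rw [← hq'] at hb hlt ⊢
    obtain ⟨k, hk⟩ : ∃ k, k = i r.castSucc := ⟨_, rfl⟩
    obtain ⟨k', hk'⟩ : ∃ k', k' = i r.succ := ⟨_, rfl⟩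
    rw [← hk] at ha ⊢
    rw [← hk'] at hb ⊢
    have hkk : k < k' := by
      rw [hk, hk']
      exact hi (Fin.castSucc_lt_succ)
    have c1 : (n : ℝ) + u k ≤ q := by exact_mod_cast ha.1
    have c2 : (q : ℝ) < n + u k + E := by exact_mod_cast ha.2
    have c3 : (n : ℝ) + u k' ≤ q' := by exact_mod_cast hb.1
    have c4 : (q' : ℝ) < n + u k' + E := by exact_mod_cast hb.2
    have c5 : (q : ℝ) ≤ q' := by exact_mod_cast hlt.le
    have c6 : (u k' : ℝ) + E ≤ H := by exact_mod_cast hcfg.hin k'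
    have c7 : (0 : ℝ) ≤ u k := Nat.cast_nonneg _
    have c8 : (0 : ℝ) ≤ E := Nat.cast_nonneg _
    have d1 := hu1 k
    have d2 := hu2 k
    have d3 := hu1 k'
    have d4 := hu2 k'
    have hΔ0 : 0 ≤ β k' - β k := by
      have := hβ hkk
      linarith
    have hΔ1 : β k' - β k ≤ 1 := by
      have := (hβ01 k').2
      have := (hβ01 k).1
      linarith
    have hqP : (P : ℝ) / 2 ≤ q := by linarith
    have hq8 : (q : ℝ) ≤ 8 * P := by linarith
    have hfq : |f q - F| ≤ 5 * t * F := by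
      rw [hF]
      refine slow ht0 ht1 hP0 (by rw [← hF]; exact hF0) (fun x hx y hxy hy2 => ?_) hqP hq8
      exact hx₀ x (by linarith) y hxy hy2
    have hfin := one_diff ht0 ht1 hP0 hP1 hP2 hqP c5 (by linarith)
      (Δ := β k' - β k) (by
        refine abs_le.2 ⟨?_, ?_⟩
        · have : (β k' - β k) * F = β k' * F - β k * F := by ring
          rw [this]
          linarith
        · have : (β k' - β k) * F = β k' * F - β k * F := by ring
          rw [this]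
          linarith) hfq hΔ0 hΔ1
    refine lt_of_le_of_lt hfin ?_
    linarith

end Pool.Agent.AT
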