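import Pool.Agent.AT.PtD

/-! AT/Pt3.  Pigeonhole and limits.
PLAN.  There are finitely many `i : Fin (m+1) → Fin K`.  If for every `i` there were `δ_i > 0`, `X_i` for which no
`N ≥ X_i` works, then `δ = min δ_i`, `X = max X_i` would contradict `h`.  So one strictly monotone `i` works
for all `δ`, `X`.  Build `n : ℕ → ℕ` strictly increasing recursively (or by `Filter.extraction_of_frequently_atTop`
style arguments) with accuracy `1/(t+1)` at `n t`; `Metric.tendsto_atTop`/squeeze. -/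

namespace Pool.Agent.AT

open Finset Filter Topology

theorem pt3 {m K : ℕ} (G : ℕ → ℝ) (β : Fin K → ℝ)
    (h : ∀ δ : ℝ, 0 < δ → ∀ X : ℕ, ∃ i : Fin (m + 1) → Fin K, StrictMono i ∧ ∃ N : ℕ, X ≤ N ∧
      ∀ r : Fin m, |G (N + r) - (β (i r.succ) - β (i r.castSucc))| < δ) :
    ∃ i : Fin (m + 1) → Fin K, StrictMono i ∧ ∃ n : ℕ → ℕ, StrictMono n ∧
      ∀ r : Fin m, Tendsto (fun t => G (n t + r)) atTop (𝓝 (β (i r.succ) - β (i r.castSucc))) := by
  have h1 : ∀ t : ℕ, ∃ i : Fin (m + 1) → Fin K, StrictMono i ∧ ∃ N : ℕ, t ≤ N ∧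
      ∀ r : Fin m, |G (N + r) - (β (i r.succ) - β (i r.castSucc))| < 1 / ((t : ℝ) + 1) :=
    fun t => h _ Nat.one_div_pos_of_nat t
  choose i hi N hN hG using h1
  obtain ⟨i0, hi0⟩ := Finite.exists_infinite_fiber i
  have hfreq : ∃ᶠ t in atTop, i t = i0 :=
    Nat.frequently_atTop_iff_infinite.2 (Set.infinite_coe_iff.1 hi0)
  obtain ⟨φ, hφ, hφi⟩ := Filter.extraction_of_frequently_atTop hfreq
  have hu : Tendsto (fun t => N (φ t)) atTop atTop :=
    tendsto_atTop_mono (fun t => (hφ.id_le t).trans (hN _)) tendsto_id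
  obtain ⟨ψ, hψ, hψN⟩ := Filter.strictMono_subseq_of_tendsto_atTop hu
  refine ⟨i0, ?_, fun t => N (φ (ψ t)), hψN, ?_⟩
  · rw [← hφi 0]
    exact hi _
  · intro r
    rw [tendsto_iff_dist_tendsto_zero]
    refine squeeze_zero (fun t => dist_nonneg) (fun t => ?_) tendsto_one_div_add_atTop_nhds_zero_nat
    have h2 := hG (φ (ψ t)) r
    rw [hφi] at h2
    rw [Real.dist_eq]
    refine h2.le.trans ?_
    have h3 : t ≤ φ (ψ t) := (hψ.id_le t).trans (hφ.id_le _)
    have h4 : (t : ℝ) ≤ (φ (ψ t) : ℝ) := by exact_mod_cast h3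
    have h5 : (0 : ℝ) ≤ t := Nat.cast_nonneg t
    exact one_div_le_one_div_of_le (by linarith) (by linarith)

end Pool.Agent.AT
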