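import Pool.Agent.AT.AsD

/-! AT/PtD.  Definitions for the final theorem. -/

namespace Pool.Agent.AT

open Finset

/-- the `n`-th prime (`pn 0 = 2`) -/
noncomputable def pn (n : ℕ) : ℝ := (Nat.nth Nat.Prime n : ℝ)

/-- the difference of the square roots of consecutive primes -/
noncomputable def dn (n : ℕ) : ℝ := √(pn (n + 1)) - √(pn n)

/-- the conclusion of THEOREM PX: some `n` in `(P - H, 4P]` for which all primes of `[n, n + H)` lie in the
clusters `n + [u i, u i + E)`, at most one in each, at least `m + 1` in total -/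
def Cncl (m P H E : ℕ) {K : ℕ} (u : Fin K → ℕ) : Prop :=
  ∃ n : ℕ, P - H < n ∧ n ≤ 4 * P ∧
    (∀ q ∈ Ico n (n + H), q.Prime → ∃ i, n + u i ≤ q ∧ q < n + u i + E) ∧
    (∀ i, ∀ q q' : ℕ, q.Prime → q'.Prime → n + u i ≤ q → q < n + u i + E →
      n + u i ≤ q' → q' < n + u i + E → q = q') ∧
    m + 1 ≤ ((Ico n (n + H)).filter Nat.Prime).card

end Pool.Agent.AT
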