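import Pool.Agent.AT.PX
import Pool.Agent.AT.PtD
import Pool.Agent.AT.E0
import Pool.Agent.AT.E1
import Pool.Agent.AT.E2
import Pool.Agent.AT.E3

/-! AT/PtB.  The hypothesis of `pt2` for scales `log x ≪ f ≤ c log x loglog x`.
PLAN.  `PX E0 E1 E2 E3 BT m` gives `c'`, `K`, `ε`.  Take `c = c'/8`.  For `P` large, `L = Nat.log 2 P`,
`E = ⌊ε L⌋₊` (`E ≤ δ f P` as `L ≤ 2 log P` and `f P/log P → ∞`), `H = ⌈f P⌉₊ + E ≤ 3 f P`;
`H ≤ 2 f P ≤ 2 c log P loglog P ≤ c' L (Nat.log 2 L)` since `log P ≤ L + 1 ≤ 2L` and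
`loglog P ≤ log (2 L) ≤ 2 Nat.log 2 L`. -/

namespace Pool.Agent.AT

open Finset Filter Topology

private theorem ptb_log {n : ℕ} (hn : 8 ≤ n) : Real.log n ≤ (Nat.log 2 n : ℝ) := by
  have h1 : n < 2 ^ (Nat.log 2 n + 1) := Nat.lt_pow_succ_log_self (by norm_num) n
  have h2 : 3 ≤ Nat.log 2 n := Nat.le_log_of_pow_le (by norm_num) (by norm_num; exact hn)
  set l := Nat.log 2 n with hl
  have h3 : (3 : ℝ) ≤ l := by exact_mod_cast h2
  have h4 : (n : ℝ) ≤ 2 ^ (l + 1) := by exact_mod_cast h1.le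
  have h5 : Real.log n ≤ (l + 1) * Real.log 2 := by
    have h6 : (0 : ℝ) < n := by
      have : 0 < n := by omega
      exact_mod_cast this
    have h7 := Real.log_le_log h6 h4
    rw [Real.log_pow] at h7
    push_cast at h7
    exact h7
  have h8 := Real.log_two_lt_d9
  nlinarith

private theorem ptb_log2 {n : ℕ} (hn : 1 ≤ n) : (Nat.log 2 n : ℝ) ≤ 2 * Real.log n := by
  have h1 : 2 ^ Nat.log 2 n ≤ n := Nat.pow_log_le_self 2 (by omega)
  set l := Nat.log 2 n with hl
  have h4 : (2 : ℝ) ^ l ≤ n := by exact_mod_cast h1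
  have h5 : l * Real.log 2 ≤ Real.log n := by
    have h7 := Real.log_le_log (by positivity) h4
    rwa [Real.log_pow] at h7
  have h8 := Real.log_two_gt_d9
  have h9 : (0 : ℝ) ≤ l := Nat.cast_nonneg l
  nlinarith

theorem ptB (m : ℕ) : ∃ c : ℝ, 0 < c ∧ ∃ K : ℕ, 0 < K ∧ ∀ f : ℝ → ℝ,
    Tendsto (fun x => f x / Real.log x) atTop atTop →
    (∀ᶠ x in atTop, f x ≤ c * Real.log x * Real.log (Real.log x)) →
    ∀ δ : ℝ, 0 < δ → ∀ᶠ P : ℕ in atTop, ∃ H E : ℕ, (E : ℝ) ≤ δ * f P ∧ f P + E ≤ H ∧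
      (H : ℝ) ≤ 3 * f P ∧ ∀ u : Fin K → ℕ, Cfg H u E → Cncl m P H E u := by
  obtain ⟨c', hc', K, hK, ε, hε, P0, hPX⟩ := PX E0 E1 E2 E3 BT m
  refine ⟨c' / 8, by positivity, K, hK, ?_⟩
  intro f hf1 hf2 δ hδ
  have hcast : Tendsto (fun n : ℕ => (n : ℝ)) atTop atTop := tendsto_natCast_atTop_atTop
  have e1 := hcast.eventually (hf1.eventually_ge_atTop (2 * ε / δ))
  have e2 := hcast.eventually (hf1.eventually_ge_atTop (2 * ε + 1))
  have e3 := hcast.eventually hf2
  filter_upwards [e1, e2, e3, eventually_ge_atTop P0, eventually_ge_atTop (2 ^ 8)] with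
    P h1 h2 h3 h4 h5
  have hP1 : 1 ≤ P := le_trans (by norm_num) h5
  have hlog1 : 1 ≤ Real.log P := by
    have h6 : Real.exp 1 ≤ P := by
      have h7 := Real.exp_one_lt_d9
      have h8 : (256 : ℝ) ≤ P := by exact_mod_cast (le_trans (by norm_num) h5)
      linarith
    rw [Real.le_log_iff_exp_le (by positivity)]
    exact h6
  have hlog0 : 0 < Real.log P := by linarith
  rw [le_div_iff₀ hlog0] at h1 h2
  have h1' : 2 * ε * Real.log P ≤ δ * f P := by
    have := mul_le_mul_of_nonneg_left h1 hδ.le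
    have e : δ * (2 * ε / δ * Real.log P) = 2 * ε * Real.log P := by field_simp
    rwa [e] at this
  set L : ℕ := Nat.log 2 P with hL
  have hL8 : 8 ≤ L := Nat.le_log_of_pow_le (by norm_num) h5
  have hLlog : (L : ℝ) ≤ 2 * Real.log P := ptb_log2 hP1
  have hlogL : Real.log P ≤ L := ptb_log (le_trans (by norm_num) h5)
  have hll : Real.log (Real.log P) ≤ (Nat.log 2 L : ℝ) :=
    (Real.log_le_log hlog0 hlogL).trans (ptb_log hL8)
  have hE : ((⌊ε * L⌋₊ : ℕ) : ℝ) ≤ 2 * ε * Real.log P := by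
    refine (Nat.floor_le (by positivity)).trans ?_
    have := mul_le_mul_of_nonneg_left hLlog hε.le
    linarith
  have hf0 : 0 ≤ f P := by
    have : 0 ≤ (2 * ε + 1) * Real.log P := by positivity
    linarith
  have hceil : ((⌈f P⌉₊ : ℕ) : ℝ) ≤ f P + 1 := (Nat.ceil_lt_add_one hf0).le
  have hfl : 2 * ε * Real.log P + 1 ≤ f P := by nlinarith
  refine ⟨⌈f P⌉₊ + ⌊ε * L⌋₊, ⌊ε * L⌋₊, hE.trans h1', ?_, ?_, ?_⟩
  · push_cast
    have := Nat.le_ceil (f P)
    linarith
  · push_cast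
    linarith
  · intro u hcfg
    refine hPX P h4 L rfl (⌈f P⌉₊ + ⌊ε * L⌋₊) u ?_ hcfg
    have h6 : (((⌈f P⌉₊ + ⌊ε * L⌋₊ : ℕ)) : ℝ) ≤ 2 * f P := by
      push_cast
      linarith
    refine h6.trans ?_
    have h7 : Real.log P * Real.log (Real.log P) ≤ L * (Nat.log 2 L : ℝ) := by
      have h8 : 0 ≤ Real.log (Real.log P) := Real.log_nonneg hlog1
      exact mul_le_mul hlogL hll h8 (Nat.cast_nonneg L)
    have h8 : (0 : ℝ) ≤ L * (Nat.log 2 L : ℝ) := by positivity
    calc 2 * f P ≤ 2 * (c' / 8 * Real.log P * Real.log (Real.log P)) := by linarith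
      _ = c' / 4 * (Real.log P * Real.log (Real.log P)) := by ring
      _ ≤ c' / 4 * (L * (Nat.log 2 L : ℝ)) := mul_le_mul_of_nonneg_left h7 (by positivity)
      _ ≤ c' * L * (Nat.log 2 L : ℝ) := by nlinarith

/-- PLAN: `f x / log x → ∞` gives `f → ∞`; `f x ≤ c log x loglog x ≤ √x` eventually. -/
theorem ptB_growth {c : ℝ} {f : ℝ → ℝ} (h1 : Tendsto (fun x => f x / Real.log x) atTop atTop)
    (h2 : ∀ᶠ x in atTop, f x ≤ c * Real.log x * Real.log (Real.log x)) :
    Tendsto f atTop atTop ∧ ∀ᶠ x in atTop, f x ≤ √x := by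
  constructor
  · refine tendsto_atTop_mono' atTop ?_ h1
    filter_upwards [h1.eventually_ge_atTop 0, eventually_ge_atTop (Real.exp 1)] with x hx1 hx2
    have hx0 : 0 < x := lt_of_lt_of_le (Real.exp_pos 1) hx2
    have hlog : 1 ≤ Real.log x := by
      rw [Real.le_log_iff_exp_le hx0]
      exact hx2
    have h3 : f x = f x / Real.log x * Real.log x := by
      field_simp
    calc f x / Real.log x = f x / Real.log x * 1 := (mul_one _).symm
      _ ≤ f x / Real.log x * Real.log x := mul_le_mul_of_nonneg_left hlog hx1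
      _ = f x := h3.symm
  · have hc0 : 0 < 1 / (1 + |c|) := by positivity
    have h3 := (isLittleO_log_rpow_atTop (show (0 : ℝ) < 1 / 4 by norm_num)).bound hc0
    filter_upwards [h2, h3, eventually_ge_atTop (Real.exp 1)] with x hx hx3 hx2
    have hx0 : 0 < x := lt_of_lt_of_le (Real.exp_pos 1) hx2
    have hlog : 1 ≤ Real.log x := by
      rw [Real.le_log_iff_exp_le hx0]
      exact hx2
    have hll0 : 0 ≤ Real.log (Real.log x) := Real.log_nonneg hlog
    have hll : Real.log (Real.log x) ≤ Real.log x := Real.log_le_self (by linarith)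
    rw [Real.norm_of_nonneg (by linarith), Real.norm_of_nonneg (by positivity)] at hx3
    refine hx.trans ?_
    have h4 : c * Real.log x * Real.log (Real.log x) ≤ |c| * (Real.log x * Real.log x) := by
      have h5 : c * (Real.log x * Real.log (Real.log x)) ≤
          |c| * (Real.log x * Real.log (Real.log x)) :=
        mul_le_mul_of_nonneg_right (le_abs_self c) (by positivity)
      have h6 : |c| * (Real.log x * Real.log (Real.log x)) ≤ |c| * (Real.log x * Real.log x) := by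
        gcongr
      linarith
    refine h4.trans ?_
    have h5 : Real.log x * Real.log x ≤
        (1 / (1 + |c|) * x ^ (1 / 4 : ℝ)) * (1 / (1 + |c|) * x ^ (1 / 4 : ℝ)) :=
      mul_le_mul hx3 hx3 (by linarith) (by positivity)
    have h6 : x ^ (1 / 4 : ℝ) * x ^ (1 / 4 : ℝ) = √x := by
      rw [← Real.rpow_add hx0, Real.sqrt_eq_rpow]
      norm_num
    have h7 : (1 / (1 + |c|) * x ^ (1 / 4 : ℝ)) * (1 / (1 + |c|) * x ^ (1 / 4 : ℝ)) =
        1 / (1 + |c|) ^ 2 * √x := by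
      rw [mul_mul_mul_comm, h6]
      congr 1
      field_simp
    rw [h7] at h5
    have h8 : |c| * (1 / (1 + |c|) ^ 2) ≤ 1 := by
      rw [mul_one_div, div_le_one (by positivity)]
      nlinarith [abs_nonneg c]
    calc |c| * (Real.log x * Real.log x) ≤ |c| * (1 / (1 + |c|) ^ 2 * √x) :=
          mul_le_mul_of_nonneg_left h5 (abs_nonneg c)
      _ = (|c| * (1 / (1 + |c|) ^ 2)) * √x := by ring
      _ ≤ 1 * √x := mul_le_mul_of_nonneg_right h8 (Real.sqrt_nonneg x)
      _ = √x := one_mul _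

end Pool.Agent.AT
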